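import Pool.Agent.BCX4.SysDefs

/-!
# Row D6a: the base point solves the system
-/

set_option linter.unusedSectionVars false

namespace Pool.Agent.BCX4

open Polynomial

namespace Base

/-- elements of `K` are fixed by the Frobenius map of `K` -/
lemma pow_card {K : Type} [Field K] [Finite K] {p s : ℕ} (hK : Nat.card K = p ^ s) (a : K) :
    a ^ p ^ s = a := by
  have : Fintype K := Fintype.ofFinite K
  rw [← hK, Nat.card_eq_fintype_card, FiniteField.pow_card]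

section

variable {p s m : ℕ} {K A ι : Type} [Field K] [Field A] [Algebra K A] [Fintype ι]
  {c : ι → K} {x : ι → A}

/-- powers of sums of lower level -/
lemma sum_pow [Fact p.Prime] [Finite K] [CharP K p] (hK : Nat.card K = p ^ s)
    (c : ι → K) (x : ι → A) (r : ℕ) (hr : r ≤ s) (l : ℕ) :
    (∑ i, algebraMap K A (c i) ^ p ^ r * x i ^ l) ^ p ^ (s - r) =
      ∑ i, algebraMap K A (c i) * x i ^ (l * p ^ (s - r)) := by
  have : CharP A p := charP_of_injective_algebraMap (algebraMap K A).injective p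
  rw [sum_pow_char_pow]
  refine Finset.sum_congr rfl fun i _ => ?_
  rw [mul_pow, ← pow_mul, ← pow_mul, ← pow_add, show r + (s - r) = s by omega, ← map_pow,
    pow_card hK]

/-- the sums of small degree vanish -/
lemma sum_zero [Fact p.Prime] [Finite K] [CharP K p] (hK : Nat.card K = p ^ s)
    (h : Word p s m c x) {r l : ℕ} (hr : r ≤ s) (hl : l * p ^ (s - r) < m) :
    ∑ i, algebraMap K A (c i) ^ p ^ r * x i ^ l = 0 := by
  have h1 := sum_pow hK c x r hr l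
  rw [h.sum _ hl] at h1
  exact pow_eq_zero_iff (pow_ne_zero _ (Fact.out : p.Prime).ne_zero) |>.1 h1

end

section

variable {p s n : ℕ} {K A ι₀ ι₁ ι₂ : Type} [Field K] [Field A] [Algebra K A]
  [Fintype ι₀] [Fintype ι₁] [Fintype ι₂] (d : Dat p s n K A ι₀ ι₁ ι₂)

lemma disp_zero {Λ ι R : Type} [Fintype Λ] [CommRing R] (J : Λ → ι) (i : ι) :
    disp J (fun _ => (0 : R)) i = 0 := by
  unfold disp
  exact Finset.sum_eq_zero fun t _ => by split_ifs <;> rfl

lemma X₀_v0 (i : ι₀) : d.X₀ (Dat.v0 p s n A) i = d.x₀ i := by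
  unfold Dat.X₀
  rw [Algebra.algebraMap_self, RingHom.id_apply]
  exact (congrArg (d.x₀ i + ·) (disp_zero d.J₀ i)).trans (add_zero _)

lemma X₁_v0 (i : ι₁) : d.X₁ (Dat.v0 p s n A) i = d.x₁ i := by
  unfold Dat.X₁
  rw [Algebra.algebraMap_self, RingHom.id_apply]
  exact (congrArg (d.x₁ i + ·) (disp_zero d.J₁ i)).trans (add_zero _)

lemma X₂_v0 (i : ι₂) : d.X₂ (Dat.v0 p s n A) i = d.x₂ i := by
  unfold Dat.X₂
  rw [Algebra.algebraMap_self, RingHom.id_apply]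
  exact (congrArg (d.x₂ i + ·) (disp_zero d.J₂ i)).trans (add_zero _)

lemma v0_0 : Dat.v0 p s n A (iE 0) = 1 := rfl
lemma v0_1 : Dat.v0 p s n A (iE 1) = 1 := rfl
lemma v0_2 : Dat.v0 p s n A (iE 2) = -1 := rfl
lemma v0_3 : Dat.v0 p s n A (iE 3) = 0 := rfl
lemma v0_4 : Dat.v0 p s n A (iE 4) = 1 := rfl

variable (hp : 3 ≤ p) (hs : 2 ≤ s) (hn : ¬ p ∣ n)

include hp hs in
lemma le_N : 3 ≤ p ^ (s - 1) :=
  calc 3 ≤ p ^ 1 := by rw [pow_one]; exact hp
    _ ≤ p ^ (s - 1) := Nat.pow_le_pow_right (by omega) (by omega)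

include hp hs in
lemma z₀_v0 (i : ι₀) : d.z₀ (Dat.v0 p s n A) i = 0 := by
  unfold Dat.z₀
  have h := le_N hp hs
  rw [v0_3, zero_pow, zero_mul]
  exact Nat.mul_ne_zero (by omega) (by omega)

include hp hs hn in
lemma z₁_v0 (i : ι₁) : d.z₁ (Dat.v0 p s n A) i = 1 := by
  unfold Dat.z₁
  have h := le_N hp hs
  have hn0 : n ≠ 0 := by rintro rfl; exact hn (dvd_zero p)
  rw [v0_3, zero_pow hn0, zero_mul, zero_pow (by omega), zero_mul, add_zero]

include hp hs hn in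
lemma z₂_v0 (i : ι₂) : d.z₂ (Dat.v0 p s n A) i = -1 := by
  unfold Dat.z₂
  have h := le_N hp hs
  have hn0 : n ≠ 0 := by rintro rfl; exact hn (dvd_zero p)
  rw [v0_3, v0_2, zero_pow hn0, zero_mul, zero_pow, zero_mul, add_zero]
  exact Nat.mul_ne_zero (by omega) (by omega)

include hp hs hn in
lemma Fg_v0 (r a b k e : ℕ) : d.Fg (Dat.v0 p s n A) r a b k e =
    0 ^ ((p - 1) * (p ^ (s - 1) - 2) * a - e) *
      ((∑ i, algebraMap K A (d.c₀ i) ^ p ^ r * d.x₀ i ^ a) * (-1) ^ b) +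
    0 ^ (n * (p ^ (s - 1) - 2) * b - e) * d.ν ^ ((p ^ (s - 1) - 2) * b) *
      ((∑ i, algebraMap K A (d.c₁ i) ^ p ^ r * d.x₁ i ^ b) * 2 ^ k) +
    0 ^ (n * ((p - 1) * p ^ (s - 1)) * k - e) * d.ν ^ ((p - 1) * p ^ (s - 1) * k) *
      ((∑ i, algebraMap K A (d.c₂ i) ^ p ^ r * d.x₂ i ^ k) * ((-1) ^ a * (-2) ^ b)) := by
  unfold Dat.Fg
  simp only [X₀_v0, X₁_v0, X₂_v0, z₀_v0 d hp hs, z₁_v0 d hp hs hn, z₂_v0 d hp hs hn, v0_3, v0_0,
    v0_1, v0_2, Algebra.algebraMap_self, RingHom.id_apply, one_mul]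
  have e0 : ∑ i, algebraMap K A (d.c₀ i) ^ p ^ r * (d.x₀ i ^ a * (0 - 1) ^ b * (0 - -1) ^ k) =
      (∑ i, algebraMap K A (d.c₀ i) ^ p ^ r * d.x₀ i ^ a) * (-1) ^ b := by
    rw [Finset.sum_mul]
    refine Finset.sum_congr rfl fun i _ => ?_
    rw [zero_sub, zero_sub, neg_neg, one_pow]
    ring
  have e1 : ∑ i, algebraMap K A (d.c₁ i) ^ p ^ r * (d.x₁ i ^ b * 1 ^ a * (1 - -1) ^ k) =
      (∑ i, algebraMap K A (d.c₁ i) ^ p ^ r * d.x₁ i ^ b) * 2 ^ k := by
    rw [Finset.sum_mul]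
    refine Finset.sum_congr rfl fun i _ => ?_
    rw [one_pow, sub_neg_eq_add, one_add_one_eq_two]
    ring
  have e2 : ∑ i, algebraMap K A (d.c₂ i) ^ p ^ r * (d.x₂ i ^ k * (-1) ^ a * (-1 - 1) ^ b) =
      (∑ i, algebraMap K A (d.c₂ i) ^ p ^ r * d.x₂ i ^ k) * ((-1) ^ a * (-2) ^ b) := by
    rw [Finset.sum_mul]
    refine Finset.sum_congr rfl fun i _ => ?_
    rw [show (-1 - 1 : A) = -2 by ring]
    ring
  rw [e0, e1, e2]

end

/-- arithmetic of the exponents -/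
lemma lt_of_lev {p s r l m : ℕ} (_ : 0 < p) (hr1 : 1 ≤ r) (hr : r ≤ s)
    (h : l * p ^ (s - r) < m * p ^ (s - 1)) : l < m * p ^ (r - 1) := by
  have h1 : p ^ (s - 1) = p ^ (r - 1) * p ^ (s - r) := by
    rw [← pow_add]; congr 1; omega
  rw [h1, ← mul_assoc] at h
  exact lt_of_mul_lt_mul_right h (Nat.zero_le _)

lemma lt_of_lev2 {p s r l : ℕ} (hp : 0 < p) (hr1 : 1 ≤ r) (hr : r ≤ s)
    (h : l * p ^ (s - r) < p ^ (s - 1) - 2) :
    l * p ^ (s - 1) < (p ^ (s - 1) - 2) * p ^ (r - 1) := by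
  have h1 : p ^ (s - 1) = p ^ (r - 1) * p ^ (s - r) := by
    rw [← pow_add]; congr 1; omega
  have hpos : 0 < p ^ (r - 1) := pow_pos hp _
  rw [h1] at h ⊢
  generalize hN : p ^ (r - 1) = N at *
  generalize hQ : p ^ (s - r) = Q at *
  calc l * (N * Q) = (l * Q) * N := by ring
    _ < (N * Q - 2) * N := Nat.mul_lt_mul_of_pos_right h hpos

end Base

/-- ROW D6a (Base.lean): the base point solves the system -/
theorem Dat.Ok.F_v0 {p s n : ℕ} {K A ι₀ ι₁ ι₂ : Type} [Field K] [Field A] [Algebra K A]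
    [Fintype ι₀] [Fintype ι₁] [Fintype ι₂] {d : Dat p s n K A ι₀ ι₁ ι₂}
    (h : d.Ok) [Fact p.Prime] [Finite K] [CharP K p] (hK : Nat.card K = p ^ s)
    (hp : 3 ≤ p) (hs : 2 ≤ s) (hn : ¬ p ∣ n) (j : Idx p s n) : d.F (Dat.v0 p s n A) j = 0 := by
  have hpp : p.Prime := Fact.out
  have hpo : Odd p := hpp.odd_of_ne_two (by omega)
  have hCA : CharP A p := charP_of_injective_algebraMap (algebraMap K A).injective p
  have hn0 : n ≠ 0 := by rintro rfl; exact hn (dvd_zero p)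
  have hN3 := Base.le_N hp hs
  have hNodd : Odd (p ^ (s - 1)) := hpo.pow
  have hp1 : Even (p - 1) := hpo.tsub_odd odd_one
  have zp : ∀ a b : ℕ, b < a → (0 : A) ^ (a - b) = 0 := fun a b hab =>
    zero_pow (Nat.sub_ne_zero_of_lt hab)
  rcases j with t | t | t | k
  · obtain ⟨⟨r, l⟩, ht⟩ := t
    obtain ⟨⟨hr1, hr⟩, hl, hpl⟩ := (mem_Lev (by omega)).1 ht
    change d.Fg (Dat.v0 p s n A) r l ((p - 1) * p ^ (r - 1)) (p ^ (r - 1))
      ((p - 1) * (p ^ (s - 1) - 2) * l) = 0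
    simp only at hr1 hr hl hpl
    have h1 := Base.lt_of_lev (by omega) hr1 hr hl
    have hpos : 0 < (p - 1) * (p ^ (s - 1) - 2) := Nat.mul_pos (by omega) (by omega)
    have h2 : (p - 1) * (p ^ (s - 1) - 2) * l <
        n * (p ^ (s - 1) - 2) * ((p - 1) * p ^ (r - 1)) := by
      calc (p - 1) * (p ^ (s - 1) - 2) * l < (p - 1) * (p ^ (s - 1) - 2) * (n * p ^ (r - 1)) :=
            Nat.mul_lt_mul_of_pos_left h1 hpos
        _ = _ := by ring
    have h3 : (p - 1) * (p ^ (s - 1) - 2) * l <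
        n * ((p - 1) * p ^ (s - 1)) * p ^ (r - 1) := by
      calc (p - 1) * (p ^ (s - 1) - 2) * l < (p - 1) * (p ^ (s - 1) - 2) * (n * p ^ (r - 1)) :=
            Nat.mul_lt_mul_of_pos_left h1 hpos
        _ ≤ (p - 1) * (p ^ (s - 1)) * (n * p ^ (r - 1)) :=
            Nat.mul_le_mul_right _ (Nat.mul_le_mul_left _ (Nat.sub_le _ _))
        _ = _ := by ring
    rw [Base.Fg_v0 d hp hs hn, Base.sum_zero hK h.w₀ hr hl, zp _ _ h2, zp _ _ h3]
    ring
  · obtain ⟨⟨r, l⟩, ht⟩ := t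
    obtain ⟨⟨hr1, hr⟩, hl, hpl⟩ := (mem_Lev (by omega)).1 ht
    change d.Fg (Dat.v0 p s n A) r (n * p ^ (r - 1)) l (p ^ (r - 1))
      (n * (p ^ (s - 1) - 2) * l) = 0
    simp only at hr1 hr hl hpl
    have h1 := Base.lt_of_lev (by omega) hr1 hr hl
    have hpos : 0 < n * (p ^ (s - 1) - 2) := Nat.mul_pos (by omega) (by omega)
    have h2 : n * (p ^ (s - 1) - 2) * l <
        (p - 1) * (p ^ (s - 1) - 2) * (n * p ^ (r - 1)) := by
      calc n * (p ^ (s - 1) - 2) * l < n * (p ^ (s - 1) - 2) * ((p - 1) * p ^ (r - 1)) :=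
            Nat.mul_lt_mul_of_pos_left h1 hpos
        _ = _ := by ring
    have h3 : n * (p ^ (s - 1) - 2) * l <
        n * ((p - 1) * p ^ (s - 1)) * p ^ (r - 1) := by
      calc n * (p ^ (s - 1) - 2) * l < n * (p ^ (s - 1) - 2) * ((p - 1) * p ^ (r - 1)) :=
            Nat.mul_lt_mul_of_pos_left h1 hpos
        _ ≤ n * (p ^ (s - 1)) * ((p - 1) * p ^ (r - 1)) :=
            Nat.mul_le_mul_right _ (Nat.mul_le_mul_left _ (Nat.sub_le _ _))
        _ = _ := by ring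
    rw [Base.Fg_v0 d hp hs hn, Base.sum_zero hK h.w₁ hr hl, zp _ _ h2, zp _ _ h3]
    ring
  · obtain ⟨⟨r, l⟩, ht⟩ := t
    obtain ⟨⟨hr1, hr⟩, hl, hpl⟩ := (mem_Lev (by omega)).1 ht
    change d.Fg (Dat.v0 p s n A) r (n * p ^ (r - 1)) ((p - 1) * p ^ (r - 1)) l
      (n * ((p - 1) * p ^ (s - 1)) * l) = 0
    simp only at hr1 hr hl hpl
    have h1 := Base.lt_of_lev2 (by omega) hr1 hr hl
    have hpos : 0 < n * (p - 1) := Nat.mul_pos (by omega) (by omega)
    have h2 : n * ((p - 1) * p ^ (s - 1)) * l <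
        (p - 1) * (p ^ (s - 1) - 2) * (n * p ^ (r - 1)) := by
      calc n * ((p - 1) * p ^ (s - 1)) * l = n * (p - 1) * (l * p ^ (s - 1)) := by ring
        _ < n * (p - 1) * ((p ^ (s - 1) - 2) * p ^ (r - 1)) :=
            Nat.mul_lt_mul_of_pos_left h1 hpos
        _ = _ := by ring
    have h3 : n * ((p - 1) * p ^ (s - 1)) * l <
        n * (p ^ (s - 1) - 2) * ((p - 1) * p ^ (r - 1)) := by
      calc n * ((p - 1) * p ^ (s - 1)) * l = n * (p - 1) * (l * p ^ (s - 1)) := by ring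
        _ < n * (p - 1) * ((p ^ (s - 1) - 2) * p ^ (r - 1)) :=
            Nat.mul_lt_mul_of_pos_left h1 hpos
        _ = _ := by ring
    rw [Base.Fg_v0 d hp hs hn, Base.sum_zero hK h.w₂ hr hl, zp _ _ h2, zp _ _ h3]
    ring
  · -- the special equations
    have hM : Even ((p - 1) * p ^ (s - 1)) := hp1.mul_right _
    have hc : ∀ a : K, algebraMap K A a ^ p ^ s = algebraMap K A a := fun a => by
      rw [← map_pow, Base.pow_card hK]
    have t0 : ∑ i, algebraMap K A (d.c₀ i) ^ p ^ s * d.x₀ i ^ (n * p ^ (s - 1)) =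
        - d.ν ^ ((p - 1) * (p ^ (s - 1) - 2) * p ^ (s - 1)) := by
      have h1 := Base.sum_pow hK d.c₀ d.x₀ 1 (by omega) n
      rw [pow_one, h.top₀, hNodd.neg_pow, ← pow_mul] at h1
      rw [h1]
      exact Finset.sum_congr rfl fun i _ => by rw [hc]
    have t1 : ∑ i, algebraMap K A (d.c₁ i) ^ p ^ s * d.x₁ i ^ ((p - 1) * p ^ (s - 1)) = 1 := by
      have h1 := Base.sum_pow hK d.c₁ d.x₁ 1 (by omega) (p - 1)
      rw [pow_one, h.top₁, one_pow] at h1
      rw [h1]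
      exact Finset.sum_congr rfl fun i _ => by rw [hc]
    have t2 : 2 * ∑ i, algebraMap K A (d.c₂ i) ^ p ^ s * d.x₂ i ^ (p ^ (s - 1) - 2) =
        (-1) ^ n := by
      rw [← h.top₂]
      exact congrArg (2 * ·) (Finset.sum_congr rfl fun i _ => by rw [hc])
    have two_ne : (2 : A) ≠ 0 := by
      intro e
      have e' : ((2 : ℕ) : A) = 0 := by exact_mod_cast e
      rw [CharP.cast_eq_zero_iff A p] at e'
      exact absurd (Nat.le_of_dvd (by norm_num) e') (by omega)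
    -- Fermat
    have twoN : ∀ k : ℕ, (2 : A) ^ p ^ k = 2 := by
      intro k
      induction k with
      | zero => rw [pow_zero, pow_one]
      | succ k ih =>
        rw [pow_succ, pow_mul, ih]
        have : ((2 : ℕ) : A) ^ p = ((2 : ℕ) : A) := by
          rw [← frobenius_def, map_natCast]
        exact_mod_cast this
    have twop : (2 : A) ^ ((p - 1) * p ^ (s - 1)) = 1 := by
      have h1 : (2 : A) ^ (p - 1) = 1 := by
        have h2 := twoN 1
        rw [pow_one] at h2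
        apply mul_right_cancel₀ two_ne
        rw [← pow_succ, show p - 1 + 1 = p by omega, h2, one_mul]
      rw [pow_mul, h1, one_pow]
    have twom : (2 : A) ^ (p ^ (s - 1) - 2) * 2 = 1 := by
      apply mul_right_cancel₀ two_ne
      have h2 := twoN (s - 1)
      rw [mul_assoc, ← pow_two, ← pow_add, show p ^ (s - 1) - 2 + 2 = p ^ (s - 1) by omega, h2,
        one_mul]
    have sgn : ((-1 : A)) ^ (n * p ^ (s - 1)) = (-1) ^ n := by
      rw [mul_comm, pow_mul, hNodd.neg_one_pow]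
    have hM1 : (-1 : A) ^ ((p - 1) * p ^ (s - 1)) = 1 := hM.neg_one_pow
    have hm2 : (-2 : A) ^ ((p - 1) * p ^ (s - 1)) = 1 := by
      rw [hM.neg_pow, twop]
    have sgn2 : ((-1 : A)) ^ n * (-1) ^ n = 1 := by
      rw [← mul_pow]; simp
    fin_cases k
    · change d.Fs (Dat.v0 p s n A) = 0
      unfold Dat.Fs
      simp only [Base.X₀_v0, Base.X₁_v0, Base.X₂_v0, Base.z₀_v0 d hp hs, Base.z₁_v0 d hp hs hn,
        Base.z₂_v0 d hp hs hn, Base.v0_3, Base.v0_0, Base.v0_1, Base.v0_2,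
        Algebra.algebraMap_self, RingHom.id_apply, one_mul, zero_sub, one_pow, mul_one,
        hp1.neg_one_pow]
      rw [h.top₀, h.top₁, zero_pow]
      · ring
      · exact Nat.mul_ne_zero (Nat.mul_ne_zero two_ne_zero hn0) (by omega)
    · change d.Fg (Dat.v0 p s n A) s (n * p ^ (s - 1)) ((p - 1) * p ^ (s - 1) + 1)
        (p ^ (s - 1) - 2) ((p - 1) * (p ^ (s - 1) - 2) * (n * p ^ (s - 1))) = 0
      have h2 : (p - 1) * (p ^ (s - 1) - 2) * (n * p ^ (s - 1)) <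
          n * (p ^ (s - 1) - 2) * ((p - 1) * p ^ (s - 1) + 1) := by
        calc (p - 1) * (p ^ (s - 1) - 2) * (n * p ^ (s - 1)) =
              n * (p ^ (s - 1) - 2) * ((p - 1) * p ^ (s - 1)) := by ring
          _ < n * (p ^ (s - 1) - 2) * ((p - 1) * p ^ (s - 1) + 1) :=
            Nat.mul_lt_mul_of_pos_left (Nat.lt_succ_self _) (Nat.mul_pos (by omega) (by omega))
      have h3 : n * ((p - 1) * p ^ (s - 1)) * (p ^ (s - 1) - 2) =
          (p - 1) * (p ^ (s - 1) - 2) * (n * p ^ (s - 1)) := by ring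
      have h4 : (p - 1) * p ^ (s - 1) * (p ^ (s - 1) - 2) =
          (p - 1) * (p ^ (s - 1) - 2) * p ^ (s - 1) := by ring
      rw [Base.Fg_v0 d hp hs hn, zp _ _ h2, h3, Nat.sub_self, pow_zero, t0, h4, sgn, pow_succ,
        pow_succ, hM1, hm2]
      linear_combination (-(d.ν ^ ((p - 1) * (p ^ (s - 1) - 2) * p ^ (s - 1)) * (-1) ^ n)) * t2 -
        d.ν ^ ((p - 1) * (p ^ (s - 1) - 2) * p ^ (s - 1)) * sgn2
    · change d.Fg (Dat.v0 p s n A) s (n * p ^ (s - 1) + 1) ((p - 1) * p ^ (s - 1))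
        (p ^ (s - 1) - 2) ((p - 1) * (p ^ (s - 1) - 2) * (n * p ^ (s - 1))) = 0
      have h2 : (p - 1) * (p ^ (s - 1) - 2) * (n * p ^ (s - 1)) <
          (p - 1) * (p ^ (s - 1) - 2) * (n * p ^ (s - 1) + 1) :=
        Nat.mul_lt_mul_of_pos_left (Nat.lt_succ_self _) (Nat.mul_pos (by omega) (by omega))
      have h3 : n * ((p - 1) * p ^ (s - 1)) * (p ^ (s - 1) - 2) =
          (p - 1) * (p ^ (s - 1) - 2) * (n * p ^ (s - 1)) := by ring
      have h3' : n * (p ^ (s - 1) - 2) * ((p - 1) * p ^ (s - 1)) =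
          (p - 1) * (p ^ (s - 1) - 2) * (n * p ^ (s - 1)) := by ring
      have h4 : (p - 1) * p ^ (s - 1) * (p ^ (s - 1) - 2) =
          (p ^ (s - 1) - 2) * ((p - 1) * p ^ (s - 1)) := by ring
      rw [Base.Fg_v0 d hp hs hn, zp _ _ h2, h3, h3', Nat.sub_self, pow_zero, t1, h4, pow_succ,
        sgn, hm2]
      apply mul_left_cancel₀ two_ne
      linear_combination (-(d.ν ^ ((p ^ (s - 1) - 2) * ((p - 1) * p ^ (s - 1))) *
        (-1) ^ n)) * t2 - d.ν ^ ((p ^ (s - 1) - 2) * ((p - 1) * p ^ (s - 1))) * sgn2 +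
        d.ν ^ ((p ^ (s - 1) - 2) * ((p - 1) * p ^ (s - 1))) * twom
    · rfl
    · change d.Fg (Dat.v0 p s n A) 1 n (p - 1) 1 ((p - 1) * (p ^ (s - 1) - 2) * n) -
          algebraMap A A d.ν ^ ((p - 1) * (p ^ (s - 1) - 2)) *
            Dat.v0 p s n A (iE 4) ^ ((p - 1) * (p ^ (s - 1) - 2)) = 0
      have h2 : (p - 1) * (p ^ (s - 1) - 2) * n < n * ((p - 1) * p ^ (s - 1)) * 1 := by
        calc (p - 1) * (p ^ (s - 1) - 2) * n = n * (p - 1) * (p ^ (s - 1) - 2) := by ring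
          _ < n * (p - 1) * p ^ (s - 1) :=
            Nat.mul_lt_mul_of_pos_left (by omega) (Nat.mul_pos (by omega) (by omega))
          _ = _ := by ring
      have h3 : n * (p ^ (s - 1) - 2) * (p - 1) = (p - 1) * (p ^ (s - 1) - 2) * n := by ring
      have h4 : (p ^ (s - 1) - 2) * (p - 1) = (p - 1) * (p ^ (s - 1) - 2) := by ring
      rw [Base.Fg_v0 d hp hs hn, zp _ _ h2, h3, h4, Nat.sub_self, pow_zero, pow_one, h.top₀,
        h.top₁, hp1.neg_one_pow, Base.v0_4, one_pow, Algebra.algebraMap_self, RingHom.id_apply]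
      ring

end Pool.Agent.BCX4
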