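import Pool.Agent.BCX4.StepD

/-!
# The chain of words
-/

namespace Pool.Agent.BCX4

open Polynomial

/-- the base of the induction -/
theorem GoodD.base {p s : ℕ} [Fact p.Prime] {K : Type} [Field K] [Finite K] [CharP K p]
    (hK : Nat.card K = p ^ s) (hs : 2 ≤ s) {A : Type} [Field A] [Algebra K A]
    {n : ℕ} (hn : 1 ≤ n) (hnp : n < p) : GoodD p s K A n := by
  obtain ⟨ι, _, c, x, hcard, hw, h1⟩ := exists_wordA (K := K) (p := p) (s := s) (by omega) hK hn hnp
  refine ⟨ι, _, c, fun i => algebraMap K A (x i), 1, hcard, hw.map, one_ne_zero, ?_⟩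
  have := congrArg (algebraMap K A) h1
  rw [map_sum, map_one] at this
  rw [one_pow, ← this]
  exact Finset.sum_congr rfl fun i _ => by rw [map_mul, map_pow, map_pow]

/-- ROW D11a (ChainD.lean): all `n` -/
theorem GoodD.all {p s : ℕ} [Fact p.Prime] {K : Type} [Field K] [Finite K] [CharP K p]
    (hK : Nat.card K = p ^ s) (hp : 3 ≤ p) (hs : 2 ≤ s) {A 𝕜 : Type} [Field A] [Algebra K A]
    [NontriviallyNormedField 𝕜] [CompleteSpace 𝕜] [IsUltrametricDist 𝕜] [Algebra K 𝕜]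
    [Algebra A 𝕜] [IsScalarTower K A 𝕜]
    (hA : ∀ x : 𝕜, IsSeparable A x → ∃ a : A, algebraMap A 𝕜 a = x)
    (hsmall : ∀ ε : ℝ, 0 < ε → ∃ β : A, β ≠ 0 ∧ ‖algebraMap A 𝕜 β‖ < ε)
    {n : ℕ} (hn : ¬ p ∣ n) : GoodD p s K A n := by
  induction n using Nat.strong_induction_on with
  | _ n ih =>
    have hn0 : n ≠ 0 := by
      rintro rfl
      exact hn (dvd_zero p)
    rcases lt_or_ge n p with h | h
    · exact GoodD.base hK hs (by omega) h
    · obtain ⟨e, rfl⟩ := Nat.exists_eq_add_of_le' h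
      have he : ¬ p ∣ e := fun h' => hn (Dvd.dvd.add h' dvd_rfl)
      exact GoodD.step (𝕜 := 𝕜) hK hp hs hA hsmall he (ih e (by omega) he)

end Pool.Agent.BCX4
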