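import Mathlib

/-!
# Primitive BCH codes over `K`, `|K| = p ^ s`, designed distance `p ^ (s - 1) * n`: definitions
-/

namespace Pool.Agent.BCX4

open Polynomial

/-- the pairs `(r, l)` with `1 ≤ r ≤ s`, `p ∤ l` and `l * p ^ (s - r) < m` -/
def Lev (p s m : ℕ) : Finset (ℕ × ℕ) :=
  (Finset.Icc 1 s ×ˢ Finset.range m).filter fun t => t.2 * p ^ (s - t.1) < m ∧ ¬ p ∣ t.2

lemma mem_Lev {p s m : ℕ} {t : ℕ × ℕ} (hp : 0 < p) :
    t ∈ Lev p s m ↔ (1 ≤ t.1 ∧ t.1 ≤ s) ∧ t.2 * p ^ (s - t.1) < m ∧ ¬ p ∣ t.2 := by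
  unfold Lev
  rw [Finset.mem_filter, Finset.mem_product, Finset.mem_Icc, Finset.mem_range]
  constructor
  · rintro ⟨⟨h1, -⟩, h2⟩
    exact ⟨h1, h2⟩
  · rintro ⟨h1, h2⟩
    refine ⟨⟨h1, lt_of_le_of_lt ?_ h2.1⟩, h2⟩
    exact Nat.le_mul_of_pos_right _ (pow_pos hp _)

/-- the rows of the linearised system at the word `(c, x)` -/
def rows (p s m : ℕ) {K A ι : Type} [Field K] [Field A] [Algebra K A] (c : ι → K) (x : ι → A)
    (t : Lev p s m) (i : ι) : A :=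
  algebraMap K A (c i) ^ p ^ t.1.1 * x i ^ (t.1.2 - 1)

/-- a smooth word of degree `m`: points `x i`, weights `c i ≠ 0`, the power sums of degree less than
`m` vanish, and the rows of the linearised system are independent -/
structure Word (p s m : ℕ) {K A ι : Type} [Field K] [Field A] [Algebra K A] [Fintype ι]
    (c : ι → K) (x : ι → A) : Prop where
  inj : Function.Injective x
  ne : ∀ i, c i ≠ 0
  sum : ∀ l < m, ∑ i, algebraMap K A (c i) * x i ^ l = 0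
  smooth : LinearIndependent A (rows p s m c x)

/-- there is a smooth word of degree `n * p ^ (s - 1)` whose first nonvanishing sum of level one is
a power with exponent `(p - 1) * (p ^ (s - 1) - 2)` -/
def GoodD (p s : ℕ) (K A : Type) [Field K] [Field A] [Algebra K A] (n : ℕ) : Prop :=
  ∃ (ι : Type) (_ : Fintype ι) (c : ι → K) (x : ι → A) (ν : A),
    Fintype.card ι = n * p ^ (s - 1) + 1 ∧ Word p s (n * p ^ (s - 1)) c x ∧ ν ≠ 0 ∧
    ∑ i, algebraMap K A (c i) ^ p * x i ^ n = ν ^ ((p - 1) * (p ^ (s - 1) - 2))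

/-- the sum of level `r` of the polynomial `f` -/
noncomputable def S (p r : ℕ) {K R ι : Type} [Field K] [CommRing R] [Algebra K R] [Fintype ι]
    (c : ι → K) (x : ι → R) (f : R[X]) : R :=
  ∑ i, algebraMap K R (c i) ^ p ^ r * f.eval (x i)

/-- the test polynomial `X ^ a * (X - 1) ^ b * (X - g) ^ k` -/
noncomputable def tst {R : Type} [CommRing R] (g : R) (a b k : ℕ) : R[X] :=
  X ^ a * (X - 1) ^ b * (X - C g) ^ k

/-- the test polynomials -/
structure Tests (p s n : ℕ) {R : Type} [CommRing R] (g : R) (Φ : ℕ → R[X] → Prop) : Prop where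
  α : ∀ r l, 1 ≤ r → r ≤ s → l < n * p ^ (r - 1) → ¬ p ∣ l →
    Φ r (tst g l ((p - 1) * p ^ (r - 1)) (p ^ (r - 1)))
  β : ∀ r l, 1 ≤ r → r ≤ s → l < (p - 1) * p ^ (r - 1) → ¬ p ∣ l →
    Φ r (tst g (n * p ^ (r - 1)) l (p ^ (r - 1)))
  γ : ∀ r l, 1 ≤ r → r ≤ s → l * p ^ (s - r) < p ^ (s - 1) - 2 → ¬ p ∣ l →
    Φ r (tst g (n * p ^ (r - 1)) ((p - 1) * p ^ (r - 1)) l)
  st : Φ 1 (tst g n (p - 1) 0)
  e₂ : Φ s (tst g (n * p ^ (s - 1)) ((p - 1) * p ^ (s - 1) + 1) (p ^ (s - 1) - 2))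
  e₁ : Φ s (tst g (n * p ^ (s - 1) + 1) ((p - 1) * p ^ (s - 1)) (p ^ (s - 1) - 2))

/-- the trace -/
def tr (p s : ℕ) {K : Type} [Field K] (x : K) : K := ∑ i ∈ Finset.range s, x ^ p ^ i

end Pool.Agent.BCX4
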