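import Mathlib

/-!
# Polynomials at dual numbers
-/

namespace Pool.Agent.BCX4

open TrivSqZeroExt

/-- ROW D5a (Dual.lean): the Taylor expansion to first order -/
theorem aeval_dual {A σ : Type} [Field A] [Fintype σ] [DecidableEq σ] (f : MvPolynomial σ A)
    (v w : σ → A) :
    MvPolynomial.aeval (fun j => (TrivSqZeroExt.inl (v j) + TrivSqZeroExt.inr (w j) :
      DualNumber A)) f =
      TrivSqZeroExt.inl (MvPolynomial.eval v f) +
        TrivSqZeroExt.inr (∑ j, MvPolynomial.eval v (MvPolynomial.pderiv j f) * w j) := by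
  induction f using MvPolynomial.induction_on with
  | C a =>
    ext
    · simp [TrivSqZeroExt.algebraMap_eq_inl]
    · simp [TrivSqZeroExt.algebraMap_eq_inl]
  | add f g hf hg =>
    rw [map_add, hf, hg]
    ext
    · simp
    · simp [add_mul, Finset.sum_add_distrib]
  | mul_X f i hf =>
    rw [map_mul, hf, MvPolynomial.aeval_X]
    have h : ∑ j, MvPolynomial.eval v (MvPolynomial.pderiv j (f * MvPolynomial.X i)) * w j =
        (∑ j, MvPolynomial.eval v (MvPolynomial.pderiv j f) * w j) * v i +
          MvPolynomial.eval v f * w i := by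
      simp only [Derivation.leibniz, MvPolynomial.pderiv_X, smul_eq_mul, map_add, map_mul,
        MvPolynomial.eval_X, add_mul, Finset.sum_add_distrib, Finset.sum_mul]
      rw [add_comm]
      congr 1
      · exact Finset.sum_congr rfl fun j _ => by ring
      · rw [Finset.sum_eq_single i]
        · simp
        · intro j _ hj
          simp [hj]
        · simp
    rw [h]
    ext
    · simp
    · simp
      ring

/-- ROW D5a (Dual.lean): the Jacobian criterion with dual numbers -/
theorem det_ne_zero_of_dual {A σ : Type} [Field A] [Fintype σ] [DecidableEq σ]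
    (f : σ → MvPolynomial σ A) (v : σ → A) (hf : ∀ i, MvPolynomial.eval v (f i) = 0)
    (h : ∀ w : σ → A, (∀ i, MvPolynomial.aeval (fun j => (TrivSqZeroExt.inl (v j) +
      TrivSqZeroExt.inr (w j) : DualNumber A)) (f i) = 0) → w = 0) :
    (Matrix.of fun i j => MvPolynomial.eval v (MvPolynomial.pderiv j (f i))).det ≠ 0 := by
  intro hdet
  obtain ⟨w, hw, hM⟩ := Matrix.exists_mulVec_eq_zero_iff.2 hdet
  apply hw
  refine h w fun i => ?_
  have h1 := congrFun hM i
  simp only [Matrix.mulVec, dotProduct, Matrix.of_apply, Pi.zero_apply] at h1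
  rw [aeval_dual, hf i, h1]
  simp

end Pool.Agent.BCX4
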