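import Pool.Agent.BCX4.ChainD
import Pool.Agent.BCX.Norm
import Pool.Agent.BCX.SpecialF
import Pool.Agent.Helper36.BCH.Balanced

/-!
# From words over `K((X))` to codes
-/

namespace Pool.Agent.BCX4

open Polynomial

namespace FinalD

/-- translation of a word -/
theorem sum_translate {K L ι : Type} [Field K] [Field L] [Algebra K L] [Fintype ι] {d : ℕ}
    (x : ι → L) (c : ι → K) (h : ∀ l < d, ∑ i, algebraMap K L (c i) * x i ^ l = 0) (y : L)
    (l : ℕ) (hl : l < d) : ∑ i, algebraMap K L (c i) * (x i - y) ^ l = 0 := by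
  have h1 : ∀ i, algebraMap K L (c i) * (x i - y) ^ l =
      ∑ m ∈ Finset.range (l + 1), ((-y) ^ (l - m) * (l.choose m : L)) *
        (algebraMap K L (c i) * x i ^ m) := by
    intro i
    rw [sub_eq_add_neg, add_pow, Finset.mul_sum]
    refine Finset.sum_congr rfl fun m _ => ?_
    ring
  simp only [h1]
  rw [Finset.sum_comm]
  refine Finset.sum_eq_zero fun m hm => ?_
  rw [← Finset.mul_sum, h m (by have := Finset.mem_range.1 hm; omega), mul_zero]

open Pool.Agent.Helper36.BCH in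
/-- a word of weight `δ` gives the minimum distance -/
theorem isMinDist {K L ι : Type} [Field K] [Field L] [Finite L] [Algebra K L] [Fintype ι]
    {δ : ℕ} (hδ : 2 ≤ δ) {α : L} (hα : IsPrimitiveElement α) (x : ι → L) (c : ι → K)
    (hcard : Fintype.card ι = δ + 1) (hinj : Function.Injective x) (hc : ∀ i, c i ≠ 0)
    (hsum : ∀ l < δ, ∑ i, algebraMap K L (c i) * x i ^ l = 0) : IsMinDist K α δ δ := by
  classical
  obtain ⟨i0⟩ : Nonempty ι := Fintype.card_pos_iff.1 (by omega)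
  have hcardL : δ + 1 ≤ Nat.card L := by
    have := Nat.card_le_card_of_injective x hinj
    rwa [Nat.card_eq_fintype_card, hcard] at this
  obtain ⟨d, hd⟩ := exists_minDist (K := K) hα (δ := δ) (by omega)
  have hyinj : Function.Injective (fun i => x i - x i0) := fun i j h => hinj (by simpa using h)
  obtain ⟨k, hk⟩ : ∃ k : L → K, ∀ i, k (x i - x i0) = c i := by
    refine ⟨fun y => if h : ∃ i, x i - x i0 = y then c h.choose else 0, fun i => ?_⟩
    have h : ∃ j, x j - x i0 = x i - x i0 := ⟨i, rfl⟩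
    have h2 : (if h : ∃ j, x j - x i0 = x i - x i0 then c h.choose else 0) = c h.choose := dif_pos h
    exact h2.trans (congrArg c (hyinj h.choose_spec))
  have hmain := minDist_le hα hd ((Finset.univ.erase i0).image (fun i => x i - x i0))
    (by
      rw [Finset.image_nonempty, ← Finset.card_pos, Finset.card_erase_of_mem (Finset.mem_univ _),
        Finset.card_univ, hcard]
      omega)
    (by
      rw [Finset.mem_image]
      rintro ⟨i, hi, hi2⟩
      exact (Finset.mem_erase.1 hi).1 (hinj (sub_eq_zero.1 hi2)))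
    k
    (by
      intro y hy
      obtain ⟨i, -, rfl⟩ := Finset.mem_image.1 hy
      rw [hk]
      exact hc i)
    (by
      intro j h1 h2
      rw [Finset.sum_image (fun a _ b _ h => hyinj h)]
      have h3 := sum_translate x c hsum (x i0) j h2
      rw [← Finset.add_sum_erase _ _ (Finset.mem_univ i0), sub_self,
        zero_pow (by omega : j ≠ 0), mul_zero, zero_add] at h3
      rw [← h3]
      refine Finset.sum_congr rfl fun i _ => ?_
      rw [hk])
  rw [Finset.card_image_of_injective _ hyinj, Finset.card_erase_of_mem (Finset.mem_univ _),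
    Finset.card_univ, hcard] at hmain
  have h2 := le_minDist hα hd
  have h3 : d = δ := by omega
  rwa [h3] at hd

open scoped LaurentSeries RatFunc in
/-- specialisation of a word over `K((X))` -/
theorem specialise {K ι : Type} [Field K] [Finite K] [Fintype ι] {d : ℕ} (x : ι → K⸨X⸩)
    (c : ι → K) (hsep : ∀ i, IsSeparable (RatFunc K) (x i)) (hinj : Function.Injective x)
    (hsum : ∀ l < d, ∑ i, algebraMap K K⸨X⸩ (c i) * x i ^ l = 0) :
    ∃ Q0 : ℕ, ∀ (L : Type) [Field L] [Finite L] [Algebra K L], Q0 ≤ Nat.card L →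
      ∃ x' : ι → L, Function.Injective x' ∧
        ∀ l < d, ∑ i, algebraMap K L (c i) * x' i ^ l = 0 := by
  classical
  set S : Finset K⸨X⸩ := Finset.univ.image x ∪
    Finset.univ.image (fun ij : ι × ι => (x ij.1 - x ij.2)⁻¹) with hSdef
  have hS : ∀ s ∈ S, IsSeparable (RatFunc K) s := by
    intro s hs
    rcases Finset.mem_union.1 hs with h | h
    · obtain ⟨i, -, rfl⟩ := Finset.mem_image.1 h
      exact hsep i
    · obtain ⟨ij, -, rfl⟩ := Finset.mem_image.1 h
      exact Field.isSeparable_inv (Field.isSeparable_sub (hsep _) (hsep _))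
  obtain ⟨Q0, hQ0⟩ := Pool.Agent.BCX.exists_homF S hS
  refine ⟨Q0, ?_⟩
  intro L _ _ _ hL
  obtain ⟨φ⟩ := hQ0 L hL
  have hmx : ∀ i, x i ∈ Algebra.adjoin K (S : Set K⸨X⸩) := fun i =>
    Algebra.subset_adjoin (Finset.mem_coe.2 (Finset.mem_union_left _
      (Finset.mem_image_of_mem _ (Finset.mem_univ i))))
  have hmi : ∀ i j, (x i - x j)⁻¹ ∈ Algebra.adjoin K (S : Set K⸨X⸩) := fun i j =>
    Algebra.subset_adjoin (Finset.mem_coe.2 (Finset.mem_union_right _
      (Finset.mem_image.2 ⟨(i, j), Finset.mem_univ _, rfl⟩)))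
  refine ⟨fun i => φ ⟨x i, hmx i⟩, ?_, ?_⟩
  · intro i j hij
    by_contra hne
    have hx : x i - x j ≠ 0 := sub_ne_zero.2 fun h => hne (hinj h)
    have h1 : (⟨x i, hmx i⟩ - ⟨x j, hmx j⟩ : Algebra.adjoin K (S : Set K⸨X⸩)) *
        ⟨(x i - x j)⁻¹, hmi i j⟩ = 1 := by
      apply Subtype.ext
      change (x i - x j) * (x i - x j)⁻¹ = 1
      exact mul_inv_cancel₀ hx
    have h2 := congrArg φ h1
    rw [map_mul, map_sub, map_one] at h2
    have h3 : φ ⟨x i, hmx i⟩ = φ ⟨x j, hmx j⟩ := hij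
    rw [h3, sub_self, zero_mul] at h2
    exact zero_ne_one h2
  · intro l hl
    have h1 : ∑ i, algebraMap K (Algebra.adjoin K (S : Set K⸨X⸩)) (c i) *
        (⟨x i, hmx i⟩ : Algebra.adjoin K (S : Set K⸨X⸩)) ^ l = 0 := by
      apply Subtype.ext
      refine Eq.trans ?_ (hsum l hl)
      rw [AddSubmonoidClass.coe_finsetSum]
      rfl
    have h2 := congrArg φ h1
    rw [map_sum, map_zero] at h2
    rw [← h2]
    refine Finset.sum_congr rfl fun i _ => ?_
    rw [map_mul, map_pow, AlgHom.commutes]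

open scoped LaurentSeries RatFunc

theorem algebraMap_ratFunc_laurent {K : Type} [Field K] (x : K) :
    algebraMap K K⸨X⸩ x = algebraMap (RatFunc K) K⸨X⸩ (algebraMap K (RatFunc K) x) := by
  rw [IsScalarTower.algebraMap_apply K K[X] (RatFunc K),
    ← IsScalarTower.algebraMap_apply K[X] (RatFunc K) K⸨X⸩]
  change algebraMap (PowerSeries K) K⸨X⸩ (algebraMap K (PowerSeries K) x) =
        algebraMap (PowerSeries K) K⸨X⸩ ((C x : K[X]) : PowerSeries K)
  rw [coe_C]
  rfl

/-- the norm of `K((X))` is ultrametric -/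
theorem ultra (K : Type) [Field K] :
    @IsUltrametricDist K⸨X⸩ (Pool.Agent.BCX.nnf K).toDist := by
  exact @Valued.instIsUltrametricDist K⸨X⸩ _ _ _ _ (Pool.Agent.BCX.rk K)

end FinalD

open scoped LaurentSeries RatFunc in
/-- the words over `K((X))` -/
theorem exists_word_laurent {K : Type} [Field K] [Finite K] {p s : ℕ} [Fact p.Prime] [CharP K p]
    (hK : Nat.card K = p ^ s) (hp : 3 ≤ p) (hs : 2 ≤ s) {n : ℕ} (hn : ¬ p ∣ n) :
    ∃ (ι : Type) (_ : Fintype ι) (c : ι → K) (x : ι → K⸨X⸩),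
      Fintype.card ι = n * p ^ (s - 1) + 1 ∧ (∀ i, IsSeparable (RatFunc K) (x i)) ∧
      Function.Injective x ∧ (∀ i, c i ≠ 0) ∧
      ∀ l < n * p ^ (s - 1), ∑ i, algebraMap K K⸨X⸩ (c i) * x i ^ l = 0 := by
  classical
  let _ := Pool.Agent.BCX.nnf K
  have _ := Pool.Agent.BCX.complete_nnf K
  have _ := FinalD.ultra K
  let A := separableClosure (RatFunc K) K⸨X⸩
  let alg : Algebra K A := ((algebraMap (RatFunc K) A).comp
    (algebraMap K (RatFunc K))).toAlgebra
  have ht := @IsScalarTower.of_algebraMap_eq' K A K⸨X⸩ _ _ _ alg _ _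
    (RingHom.ext fun x => FinalD.algebraMap_ratFunc_laurent x)
  have hA : ∀ x : K⸨X⸩, IsSeparable A x → ∃ a : A, algebraMap A K⸨X⸩ a = x := by
    intro x hx
    have h1 : x ∈ separableClosure A K⸨X⸩ := mem_separableClosure_iff.2 hx
    rw [separableClosure.separableClosure_eq_bot] at h1
    exact IntermediateField.mem_bot.1 h1
  have hX : (HahnSeries.single 1 1 : K⸨X⸩) ∈ A := by
    rw [← RatFunc.coe_X]
    exact A.algebraMap_mem _
  have hsmall : ∀ ε : ℝ, 0 < ε → ∃ β : A, β ≠ 0 ∧ ‖algebraMap A K⸨X⸩ β‖ < ε := by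
    intro ε hε
    obtain ⟨n, hn⟩ := exists_pow_lt_of_lt_one hε (Pool.Agent.BCX.norm_single K)
    refine ⟨⟨HahnSeries.single 1 1, hX⟩ ^ n, ?_, ?_⟩
    · refine pow_ne_zero n ?_
      intro h
      have := congrArg Subtype.val h
      exact one_ne_zero (HahnSeries.single_eq_zero_iff.1 this)
    · rw [map_pow, norm_pow]
      exact hn
  obtain ⟨ι, _, c, x, ν, hcard, hw, -, -⟩ :=
    @GoodD.all p s _ K _ _ _ hK hp hs A K⸨X⸩ _ alg _ _ _ _ _ ht hA hsmall n hn
  refine ⟨ι, _, c, fun i => (x i : K⸨X⸩), hcard, fun i => mem_separableClosure_iff.1 (x i).2,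
    fun i j hij => hw.inj (Subtype.ext hij), hw.ne, fun l hl => ?_⟩
  have h := congrArg (algebraMap A K⸨X⸩) (hw.sum l hl)
  rw [map_sum, map_zero] at h
  rw [← h]
  refine Finset.sum_congr rfl fun i _ => ?_
  rw [map_mul, map_pow, ← IsScalarTower.algebraMap_apply]
  rfl

/-- ROW D11b (FinalD.lean): from a word over `K((X))` to the code -/
theorem mainD_of {K : Type} [Field K] [Finite K] {δ : ℕ} (hδ : 2 ≤ δ)
    (hw : ∃ Q0 : ℕ, ∀ (L : Type) [Field L] [Finite L] [Algebra K L], Q0 ≤ Nat.card L →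
      ∃ (ι : Type) (_ : Fintype ι) (x : ι → L) (c : ι → K), Fintype.card ι = δ + 1 ∧
        Function.Injective x ∧ (∀ i, c i ≠ 0) ∧
        ∀ l < δ, ∑ i, algebraMap K L (c i) * x i ^ l = 0) :
    ∃ Q0 : ℕ, ∀ (L : Type) [Field L] [Finite L] [Algebra K L] (α : L),
      Pool.Agent.Helper36.BCH.IsPrimitiveElement α → Q0 ≤ Nat.card L →
      Pool.Agent.Helper36.BCH.IsMinDist K α δ δ := by
  obtain ⟨Q0, hQ0⟩ := hw
  refine ⟨Q0, fun L _ _ _ α hα hL => ?_⟩
  obtain ⟨ι, _, x, c, hcard, hinj, hc, hsum⟩ := hQ0 L hL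
  exact FinalD.isMinDist hδ hα x c hcard hinj hc hsum

/-- ROW D11c (FinalD.lean): the theorem for `p ^ (s - 1) * n` -/
theorem mainD {K : Type} [Field K] [Finite K] {p s : ℕ} [Fact p.Prime] [CharP K p]
    (hK : Nat.card K = p ^ s) (hp : 3 ≤ p) (hs : 2 ≤ s) {n : ℕ} (hn : ¬ p ∣ n) :
    ∃ Q0 : ℕ, ∀ (L : Type) [Field L] [Finite L] [Algebra K L] (α : L),
      Pool.Agent.Helper36.BCH.IsPrimitiveElement α → Q0 ≤ Nat.card L →
      Pool.Agent.Helper36.BCH.IsMinDist K α (p ^ (s - 1) * n) (p ^ (s - 1) * n) := by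
  have hn0 : 1 ≤ n := by
    rcases Nat.eq_zero_or_pos n with rfl | h
    · exact absurd (dvd_zero p) hn
    · exact h
  have hδ : 2 ≤ p ^ (s - 1) * n := by
    have h1 : p ^ 1 ≤ p ^ (s - 1) := Nat.pow_le_pow_right (by omega) (by omega)
    have h2 : p ^ (s - 1) * 1 ≤ p ^ (s - 1) * n := Nat.mul_le_mul_left _ hn0
    rw [pow_one] at h1
    omega
  refine mainD_of hδ ?_
  obtain ⟨ι, _, c, x, hcard, hsep, hinj, hc, hsum⟩ := exists_word_laurent hK hp hs hn
  obtain ⟨Q0, hQ0⟩ := FinalD.specialise x c hsep hinj hsum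
  refine ⟨Q0, fun L _ _ _ hL => ?_⟩
  obtain ⟨x', hinj', hsum'⟩ := hQ0 L hL
  exact ⟨ι, _, x', c, by rw [hcard, mul_comm], hinj', hc, fun l hl => hsum' l (by rwa [mul_comm])⟩

end Pool.Agent.BCX4
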