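import Pool.Agent.BCX4.SysDefs

/-!
# The equations of the system are sums of test polynomials
-/

namespace Pool.Agent.BCX4

open Polynomial

namespace Ident

theorem eval_tst {R : Type} [CommRing R] (g x : R) (a b k : ℕ) :
    (tst g a b k).eval x = x ^ a * (x - 1) ^ b * (x - g) ^ k := by
  simp [tst]

theorem S_sum {p r : ℕ} {K R ι₀ ι₁ ι₂ : Type} [Field K] [CommRing R] [Algebra K R] [Fintype ι₀]
    [Fintype ι₁] [Fintype ι₂] (c₀ : ι₀ → K) (c₁ : ι₁ → K) (c₂ : ι₂ → K) (z₀ : ι₀ → R)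
    (z₁ : ι₁ → R) (z₂ : ι₂ → R) (f : R[X]) :
    S p r (Sum.elim c₀ (Sum.elim c₁ c₂)) (Sum.elim z₀ (Sum.elim z₁ z₂)) f =
      S p r c₀ z₀ f + S p r c₁ z₁ f + S p r c₂ z₂ f := by
  unfold S
  rw [Fintype.sum_sum_type, Fintype.sum_sum_type, add_assoc]
  rfl

end Ident

open Ident

section

variable {p s n : ℕ} {K A ι₀ ι₁ ι₂ : Type} [Field K] [Field A] [Algebra K A]
  [Fintype ι₀] [Fintype ι₁] [Fintype ι₂] (d : Dat p s n K A ι₀ ι₁ ι₂)
  {R : Type} [CommRing R] [Algebra K R] [Algebra A R] [IsScalarTower K A R]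

omit [IsScalarTower K A R] [Algebra K A] in
/-- ROW D5c -/
theorem Dat.pow_mul_Fg (v : Idx p s n → R) (r a b k e : ℕ)
    (h0 : e ≤ (p - 1) * (p ^ (s - 1) - 2) * a)
    (h1 : e ≤ n * (p ^ (s - 1) - 2) * b) (h2 : e ≤ n * ((p - 1) * p ^ (s - 1)) * k) :
    v (iE 3) ^ e * d.Fg v r a b k e = S p r d.c (d.z v) (tst (v (iE 2)) a b k) := by
  unfold Dat.c Dat.z
  rw [S_sum]
  unfold Dat.Fg S
  simp only [eval_tst]
  rw [mul_add, mul_add]
  congr 1
  · congr 1
    · rw [← mul_assoc, ← pow_add, Nat.add_sub_cancel' h0, Finset.mul_sum]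
      refine Finset.sum_congr rfl fun i _ => ?_
      have h : d.z₀ v i ^ a = v (iE 3) ^ ((p - 1) * (p ^ (s - 1) - 2) * a) * d.X₀ v i ^ a := by
        unfold Dat.z₀
        rw [mul_pow, ← pow_mul]
      rw [h]
      ring
    · rw [← mul_assoc, ← mul_assoc, ← pow_add, Nat.add_sub_cancel' h1, Finset.mul_sum]
      refine Finset.sum_congr rfl fun i _ => ?_
      have h : (d.z₁ v i - 1) ^ b = v (iE 3) ^ (n * (p ^ (s - 1) - 2) * b) *
          algebraMap A R d.ν ^ ((p ^ (s - 1) - 2) * b) * (v (iE 0) * d.X₁ v i) ^ b := by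
        unfold Dat.z₁
        rw [add_sub_cancel_left, mul_pow, ← pow_mul, mul_pow, ← pow_mul, mul_assoc n]
      rw [h]
      ring
  · rw [← mul_assoc, ← mul_assoc, ← pow_add, Nat.add_sub_cancel' h2, Finset.mul_sum]
    refine Finset.sum_congr rfl fun i _ => ?_
    have h : (d.z₂ v i - v (iE 2)) ^ k = v (iE 3) ^ (n * ((p - 1) * p ^ (s - 1)) * k) *
        algebraMap A R d.ν ^ ((p - 1) * p ^ (s - 1) * k) * (v (iE 1) * d.X₂ v i) ^ k := by
      unfold Dat.z₂
      rw [add_sub_cancel_left, mul_pow, ← pow_mul, mul_pow, ← pow_mul, mul_assoc n]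
    rw [h]
    ring

omit [IsScalarTower K A R] [Algebra K A] in
/-- ROW D5c -/
theorem Dat.pow_mul_Fs (hp : 3 ≤ p) (hs : 2 ≤ s) (hc : ∑ i, d.c₂ i = 0) [Fact p.Prime] [CharP K p]
    (v : Idx p s n → R) :
    v (iE 3) ^ ((p - 1) * (p ^ (s - 1) - 2) * n) * d.Fs v =
      S p 1 d.c (d.z v) (tst (v (iE 2)) n (p - 1) 0) := by
  have hN : 3 ≤ p ^ (s - 1) := hp.trans (Nat.le_self_pow (by omega) p)
  unfold Dat.c Dat.z
  rw [S_sum]
  unfold Dat.Fs S
  simp only [eval_tst, pow_zero, mul_one, pow_one]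
  rw [mul_add, mul_add]
  congr 1
  · congr 1
    · rw [Finset.mul_sum]
      refine Finset.sum_congr rfl fun i _ => ?_
      have h : d.z₀ v i ^ n = v (iE 3) ^ ((p - 1) * (p ^ (s - 1) - 2) * n) * d.X₀ v i ^ n := by
        unfold Dat.z₀
        rw [mul_pow, ← pow_mul]
      rw [h]
      ring
    · rw [← mul_assoc, Finset.mul_sum]
      refine Finset.sum_congr rfl fun i _ => ?_
      have h : (d.z₁ v i - 1) ^ (p - 1) = v (iE 3) ^ ((p - 1) * (p ^ (s - 1) - 2) * n) *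
          algebraMap A R d.ν ^ ((p - 1) * (p ^ (s - 1) - 2)) * (v (iE 0) * d.X₁ v i) ^ (p - 1) := by
        unfold Dat.z₁
        rw [add_sub_cancel_left, mul_pow, ← pow_mul, mul_pow, ← pow_mul]
        congr 2
        · congr 1
          ring
        · congr 1
          ring
      rw [h]
      ring
  · set G : R[X] := (C (v (iE 2)) + X) ^ n * (C (v (iE 2) - 1) + X) ^ (p - 1) with hG
    have hGe : ∀ i, d.z₂ v i ^ n * (d.z₂ v i - 1) ^ (p - 1) =
        (d.z₂ v i - v (iE 2)) * (divX G).eval (d.z₂ v i - v (iE 2)) + G.coeff 0 := by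
      intro i
      have h1 := congrArg (eval (d.z₂ v i - v (iE 2))) (divX_mul_X_add G)
      rw [eval_add, eval_mul, eval_X, eval_C] at h1
      rw [mul_comm (d.z₂ v i - v (iE 2)), h1, hG]
      simp
    have hc' : ∑ i, algebraMap K R (d.c₂ i) ^ p = 0 := by
      have h1 : (∑ i, d.c₂ i) ^ p = ∑ i, d.c₂ i ^ p := sum_pow_char p _ _
      have h2 : ∑ i, algebraMap K R (d.c₂ i) ^ p = algebraMap K R (∑ i, d.c₂ i ^ p) := by
        rw [map_sum]
        exact Finset.sum_congr rfl fun i _ => (map_pow _ _ _).symm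
      rw [h2, ← h1, hc, zero_pow (Fact.out : p.Prime).ne_zero, map_zero]
    have hexp : (p - 1) * (p ^ (s - 1) - 2) * n + 2 * n * (p - 1) = n * ((p - 1) * p ^ (s - 1)) := by
      obtain ⟨N, hN'⟩ : ∃ N, p ^ (s - 1) = N + 2 := ⟨p ^ (s - 1) - 2, by omega⟩
      rw [hN', Nat.add_sub_cancel]
      ring
    rw [← mul_assoc, ← mul_assoc, ← pow_add, hexp, Finset.mul_sum]
    have h3 : ∑ i, algebraMap K R (d.c₂ i) ^ p * (d.z₂ v i ^ n * (d.z₂ v i - 1) ^ (p - 1)) =
        ∑ i, algebraMap K R (d.c₂ i) ^ p * ((d.z₂ v i - v (iE 2)) *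
          (divX G).eval (d.z₂ v i - v (iE 2))) := by
      simp only [hGe, mul_add, Finset.sum_add_distrib]
      rw [← Finset.sum_mul, hc', zero_mul, add_zero]
    rw [h3]
    refine Finset.sum_congr rfl fun i _ => ?_
    have h : d.z₂ v i - v (iE 2) = v (iE 3) ^ (n * ((p - 1) * p ^ (s - 1))) *
        algebraMap A R d.ν ^ ((p - 1) * p ^ (s - 1)) * (v (iE 1) * d.X₂ v i) := by
      unfold Dat.z₂
      rw [add_sub_cancel_left, mul_pow, ← pow_mul]
    have h4 : (d.z₂ v i - v (iE 2)) * (divX G).eval (d.z₂ v i - v (iE 2)) =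
        v (iE 3) ^ (n * ((p - 1) * p ^ (s - 1))) *
        algebraMap A R d.ν ^ ((p - 1) * p ^ (s - 1)) * (v (iE 1) * d.X₂ v i) *
          (divX G).eval (d.z₂ v i - v (iE 2)) := by
      rw [← h]
    rw [h4]
    ring

end

end Pool.Agent.BCX4
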