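import Pool.Agent.BCX4.SysDefs

/-!
# The Jacobian matrix of the system at the base point is invertible (dual numbers)
-/

set_option linter.unusedSectionVars false
set_option linter.unusedSimpArgs false

namespace Pool.Agent.BCX4

open Polynomial TrivSqZeroExt

namespace JacD

section Dual

variable {A : Type} [Field A]

lemma fst_dn (x y : A) : ((inl x + inr y : DualNumber A)).fst = x := by simp

lemma snd_dn (x y : A) : ((inl x + inr y : DualNumber A)).snd = y := by simp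

lemma fst_dn_pow (x y : A) (l : ℕ) : ((inl x + inr y : DualNumber A) ^ l).fst = x ^ l := by
  rw [fst_pow, fst_dn]

lemma snd_dn_pow (x y : A) (l : ℕ) :
    ((inl x + inr y : DualNumber A) ^ l).snd = l * x ^ (l - 1) * y := by
  rw [snd_pow, fst_dn, snd_dn, nsmul_eq_mul, smul_eq_mul, Nat.pred_eq_sub_one, mul_assoc]

lemma dn_pow (x y : A) (l : ℕ) :
    (inl x + inr y : DualNumber A) ^ l = inl (x ^ l) + inr (l * x ^ (l - 1) * y) := by
  refine TrivSqZeroExt.ext ?_ ?_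
  · rw [fst_dn_pow, fst_dn]
  · rw [snd_dn_pow, snd_dn]

lemma dn_mul (x y x' y' : A) :
    (inl x + inr y : DualNumber A) * (inl x' + inr y') = inl (x * x') + inr (x * y' + y * x') := by
  refine TrivSqZeroExt.ext ?_ ?_
  · rw [fst_mul, fst_dn, fst_dn, fst_dn]
  · rw [snd_mul, fst_dn, fst_dn, snd_dn, snd_dn, snd_dn]
    simp only [smul_eq_mul, MulOpposite.smul_eq_mul_unop, MulOpposite.unop_op]

lemma dn_add (x y x' y' : A) :
    (inl x + inr y : DualNumber A) + (inl x' + inr y') = inl (x + x') + inr (y + y') := by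
  rw [inl_add, inr_add]; ring

lemma isUnit_dn {x : A} (hx : x ≠ 0) (y : A) : IsUnit (inl x + inr y : DualNumber A) := by
  rw [isUnit_iff_isUnit_fst, fst_dn]
  exact hx.isUnit

lemma disp_dn {Λ ι : Type} [Fintype Λ] (J : Λ → ι) (ω : Λ → A) (i : ι) :
    disp J (fun t => (inl 0 + inr (ω t) : DualNumber A)) i = inr (disp J ω i) := by
  unfold disp
  rw [inr_sum]
  refine Finset.sum_congr rfl fun t _ => ?_
  split_ifs with h
  · rw [inl_zero]
    exact zero_add _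
  · rw [inr_zero]

lemma disp_zero {Λ ι R : Type} [Fintype Λ] [CommRing R] (J : Λ → ι) (i : ι) :
    disp J (fun _ => (0 : R)) i = 0 := by
  unfold disp
  refine Finset.sum_eq_zero fun t _ => ?_
  split_ifs <;> rfl

lemma sum_mul_disp {Λ ι : Type} [Fintype Λ] [Fintype ι] (J : Λ → ι) (ω : Λ → A) (f : ι → A) :
    ∑ i, f i * disp J ω i = ∑ t, f (J t) * ω t := by
  classical
  unfold disp
  simp_rw [Finset.mul_sum]
  rw [Finset.sum_comm]
  refine Finset.sum_congr rfl fun t _ => ?_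
  rw [Finset.sum_eq_single (J t)]
  · rw [if_pos rfl]
  · intro i _ hi
    rw [if_neg (Ne.symm hi), mul_zero]
  · intro h
    exact absurd (Finset.mem_univ _) h

/-- a block of equations determines a block of unknowns -/
lemma block {p s m : ℕ} {K ι : Type} [Field K] [Algebra K A] [Fintype ι] [CharP A p]
    (hp : 0 < p) (c : ι → K) (x : ι → A) (J : Lev p s m → ι)
    (hdet : (Matrix.of fun t t' => rows p s m c x t (J t')).det ≠ 0) (ω : Lev p s m → A)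
    (h : ∀ t : Lev p s m, ∑ i, algebraMap K (DualNumber A) (c i) ^ p ^ t.1.1 *
      (algebraMap A (DualNumber A) (x i) +
        disp J (fun t => (inl 0 + inr (ω t) : DualNumber A)) i) ^ t.1.2 = 0) : ω = 0 := by
  refine Matrix.eq_zero_of_mulVec_eq_zero hdet ?_
  funext t
  have ht := (mem_Lev hp).1 t.2
  have h1 := congrArg TrivSqZeroExt.snd (h t)
  rw [snd_sum, snd_zero] at h1
  have h2 : ∀ i, (algebraMap K (DualNumber A) (c i) ^ p ^ t.1.1 *
      (algebraMap A (DualNumber A) (x i) +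
        disp J (fun t => (inl 0 + inr (ω t) : DualNumber A)) i) ^ t.1.2).snd =
      (t.1.2 : A) * (rows p s m c x t i * disp J ω i) := by
    intro i
    rw [disp_dn, algebraMap_eq_inl', algebraMap_eq_inl, inl_pow, snd_mul, fst_inl, snd_inl,
      smul_zero, add_zero, snd_dn_pow, smul_eq_mul]
    unfold rows
    ring
  rw [Finset.sum_congr rfl fun i _ => h2 i, ← Finset.mul_sum] at h1
  have hl : (t.1.2 : A) ≠ 0 := by
    intro h0
    exact ht.2.2 ((CharP.cast_eq_zero_iff A p _).1 h0)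
  have h3 := (mul_eq_zero.1 h1).resolve_left hl
  rw [sum_mul_disp] at h3
  rw [Matrix.mulVec, dotProduct]
  exact h3

end Dual

section Sys

variable {p s n : ℕ} {K A ι₀ ι₁ ι₂ : Type} [Field K] [Field A] [Algebra K A]
  [Fintype ι₀] [Fintype ι₁] [Fintype ι₂] (d : Dat p s n K A ι₀ ι₁ ι₂)

variable {R : Type} [CommRing R] [Algebra K R] [Algebra A R] (v : Idx p s n → R)

lemma z₀_eq (hT : v (iE 3) = 0) (hL : (p - 1) * (p ^ (s - 1) - 2) ≠ 0) (i : ι₀) :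
    d.z₀ v i = 0 := by
  unfold Dat.z₀
  rw [hT, zero_pow hL, zero_mul]

lemma z₁_eq (hT : v (iE 3) = 0) (hn : n ≠ 0) (hN : p ^ (s - 1) - 2 ≠ 0) (i : ι₁) :
    d.z₁ v i = 1 := by
  unfold Dat.z₁
  rw [hT, zero_pow hn, zero_mul, zero_pow hN, zero_mul, add_zero]

lemma z₂_eq (hT : v (iE 3) = 0) (hn : n ≠ 0) (hN : (p - 1) * p ^ (s - 1) ≠ 0) (i : ι₂) :
    d.z₂ v i = v (iE 2) := by
  unfold Dat.z₂
  rw [hT, zero_pow hn, zero_mul, zero_pow hN, zero_mul, add_zero]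

lemma Fg_eq (hT : v (iE 3) = 0) (hn : n ≠ 0) (hp : p - 1 ≠ 0) (hN : p ^ (s - 1) - 2 ≠ 0)
    (r a b k e : ℕ) : d.Fg v r a b k e =
      (0 : R) ^ ((p - 1) * (p ^ (s - 1) - 2) * a - e) *
      (((-1) ^ b * (- v (iE 2)) ^ k) * ∑ i, algebraMap K R (d.c₀ i) ^ p ^ r * d.X₀ v i ^ a) +
    (0 : R) ^ (n * (p ^ (s - 1) - 2) * b - e) *
      ((algebraMap A R d.ν ^ ((p ^ (s - 1) - 2) * b) * v (iE 0) ^ b * (1 - v (iE 2)) ^ k) *
        ∑ i, algebraMap K R (d.c₁ i) ^ p ^ r * d.X₁ v i ^ b) +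
    (0 : R) ^ (n * ((p - 1) * p ^ (s - 1)) * k - e) *
      ((algebraMap A R d.ν ^ ((p - 1) * p ^ (s - 1) * k) * v (iE 1) ^ k * v (iE 2) ^ a *
        (v (iE 2) - 1) ^ b) *
        ∑ i, algebraMap K R (d.c₂ i) ^ p ^ r * d.X₂ v i ^ k) := by
  have hM : (p - 1) * p ^ (s - 1) ≠ 0 := by
    refine mul_ne_zero hp fun h0 => hN ?_
    rw [h0]
    rfl
  unfold Dat.Fg
  simp_rw [z₀_eq d v hT (mul_ne_zero hp hN), z₁_eq d v hT hn hN, z₂_eq d v hT hn hM, hT,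
    one_pow, mul_one, zero_sub, Finset.mul_sum]
  refine congrArg₂ (· + ·) (congrArg₂ (· + ·) ?_ ?_) ?_
  · refine Finset.sum_congr rfl fun i _ => ?_
    ring
  · refine Finset.sum_congr rfl fun i _ => ?_
    rw [mul_pow]
    ring
  · refine Finset.sum_congr rfl fun i _ => ?_
    rw [mul_pow]
    ring

lemma Fs_eq (hT : v (iE 3) = 0) (hn : n ≠ 0) (hp : p - 1 ≠ 0) (hN : p ^ (s - 1) - 2 ≠ 0) :
    d.Fs v = (-1) ^ (p - 1) * ∑ i, algebraMap K R (d.c₀ i) ^ p * d.X₀ v i ^ n +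
      algebraMap A R d.ν ^ ((p - 1) * (p ^ (s - 1) - 2)) * v (iE 0) ^ (p - 1) *
        ∑ i, algebraMap K R (d.c₁ i) ^ p * d.X₁ v i ^ (p - 1) := by
  have h2 : 2 * n * (p - 1) ≠ 0 := mul_ne_zero (mul_ne_zero two_ne_zero hn) hp
  unfold Dat.Fs
  rw [hT, zero_pow h2, zero_mul, zero_mul, add_zero]
  simp_rw [z₀_eq d v hT (mul_ne_zero hp hN), z₁_eq d v hT hn hN, one_pow, mul_one, zero_sub,
    Finset.mul_sum]
  refine congrArg₂ (· + ·) ?_ ?_
  · refine Finset.sum_congr rfl fun i _ => ?_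
    ring
  · refine Finset.sum_congr rfl fun i _ => ?_
    rw [mul_pow]
    ring

/-! ### the equations at `T = 0` -/

lemma pow_split (p : ℕ) {s r : ℕ} (hr : 1 ≤ r) (hrs : r ≤ s) :
    p ^ (r - 1) * p ^ (s - r) = p ^ (s - 1) := by
  rw [← pow_add]
  congr 1
  omega

lemma lt_of_lev {p s m r l : ℕ} (hr : 1 ≤ r) (hrs : r ≤ s)
    (h : l * p ^ (s - r) < m * p ^ (s - 1)) : l < m * p ^ (r - 1) := by
  rw [← pow_split p hr hrs, ← mul_assoc] at h
  exact lt_of_mul_lt_mul_right h (Nat.zero_le _)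

lemma lt_of_lev' {p s r l : ℕ} (hp : 0 < p) (hr : 1 ≤ r) (hrs : r ≤ s)
    (h : l * p ^ (s - r) < p ^ (s - 1) - 2) :
    p ^ (s - 1) * l < (p ^ (s - 1) - 2) * p ^ (r - 1) := by
  have h1 : 0 < p ^ (s - 1) := pow_pos hp _
  have h2 : p ^ (s - 1) * (l * p ^ (s - r)) < p ^ (s - 1) * (p ^ (s - 1) - 2) :=
    Nat.mul_lt_mul_of_pos_left h h1
  have h3 : p ^ (s - 1) * (p ^ (s - 1) - 2) = (p ^ (s - 1) - 2) * p ^ (r - 1) * p ^ (s - r) := by
    rw [mul_assoc, pow_split p hr hrs, mul_comm]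
  rw [h3, ← mul_assoc] at h2
  exact lt_of_mul_lt_mul_right h2 (Nat.zero_le _)

lemma sub_ne {a b : ℕ} (h : b < a) : a - b ≠ 0 := (Nat.sub_pos_of_lt h).ne'

variable {v} in
lemma alpha_eq (hT : v (iE 3) = 0) (hn : n ≠ 0) (hp : 1 < p) (hN : p ^ (s - 1) - 2 ≠ 0)
    (t : Lev p s (n * p ^ (s - 1))) :
    d.F v (Sum.inl t) =
      ((-1) ^ ((p - 1) * p ^ (t.1.1 - 1)) * (- v (iE 2)) ^ (p ^ (t.1.1 - 1))) *
        ∑ i, algebraMap K R (d.c₀ i) ^ p ^ t.1.1 * d.X₀ v i ^ t.1.2 := by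
  have ht := (mem_Lev (by omega)).1 t.2
  have hl := lt_of_lev ht.1.1 ht.1.2 ht.2.1
  have hp1 : 0 < p - 1 := by omega
  have hN0 : 0 < p ^ (s - 1) - 2 := Nat.pos_of_ne_zero hN
  have e2 : n * (p ^ (s - 1) - 2) * ((p - 1) * p ^ (t.1.1 - 1)) -
      (p - 1) * (p ^ (s - 1) - 2) * t.1.2 ≠ 0 := by
    refine sub_ne ?_
    calc (p - 1) * (p ^ (s - 1) - 2) * t.1.2
        < (p - 1) * (p ^ (s - 1) - 2) * (n * p ^ (t.1.1 - 1)) :=
          Nat.mul_lt_mul_of_pos_left hl (Nat.mul_pos hp1 hN0)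
      _ = _ := by ring
  have e3 : n * ((p - 1) * p ^ (s - 1)) * p ^ (t.1.1 - 1) -
      (p - 1) * (p ^ (s - 1) - 2) * t.1.2 ≠ 0 := by
    refine sub_ne ?_
    calc (p - 1) * (p ^ (s - 1) - 2) * t.1.2
        < (p - 1) * (p ^ (s - 1) - 2) * (n * p ^ (t.1.1 - 1)) :=
          Nat.mul_lt_mul_of_pos_left hl (Nat.mul_pos hp1 hN0)
      _ ≤ (p - 1) * p ^ (s - 1) * (n * p ^ (t.1.1 - 1)) :=
          Nat.mul_le_mul_right _ (Nat.mul_le_mul_left _ (Nat.sub_le _ _))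
      _ = _ := by ring
  change d.Fg v t.1.1 t.1.2 ((p - 1) * p ^ (t.1.1 - 1)) (p ^ (t.1.1 - 1))
      ((p - 1) * (p ^ (s - 1) - 2) * t.1.2) = _
  rw [Fg_eq d v hT hn hp1.ne' hN, zero_pow e2, zero_pow e3, Nat.sub_self, pow_zero, one_mul,
    zero_mul, zero_mul, add_zero, add_zero]

variable {v} in
lemma beta_eq (hT : v (iE 3) = 0) (hn : n ≠ 0) (hp : 1 < p) (hN : p ^ (s - 1) - 2 ≠ 0)
    (t : Lev p s ((p - 1) * p ^ (s - 1))) :
    d.F v (Sum.inr (Sum.inl t)) =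
      (algebraMap A R d.ν ^ ((p ^ (s - 1) - 2) * t.1.2) * v (iE 0) ^ t.1.2 *
        (1 - v (iE 2)) ^ (p ^ (t.1.1 - 1))) *
        ∑ i, algebraMap K R (d.c₁ i) ^ p ^ t.1.1 * d.X₁ v i ^ t.1.2 := by
  have ht := (mem_Lev (by omega)).1 t.2
  have hl := lt_of_lev ht.1.1 ht.1.2 ht.2.1
  have hp1 : 0 < p - 1 := by omega
  have hn0 : 0 < n := Nat.pos_of_ne_zero hn
  have hN0 : 0 < p ^ (s - 1) - 2 := Nat.pos_of_ne_zero hN
  have e1 : (p - 1) * (p ^ (s - 1) - 2) * (n * p ^ (t.1.1 - 1)) -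
      n * (p ^ (s - 1) - 2) * t.1.2 ≠ 0 := by
    refine sub_ne ?_
    calc n * (p ^ (s - 1) - 2) * t.1.2
        < n * (p ^ (s - 1) - 2) * ((p - 1) * p ^ (t.1.1 - 1)) :=
          Nat.mul_lt_mul_of_pos_left hl (Nat.mul_pos hn0 hN0)
      _ = _ := by ring
  have e3 : n * ((p - 1) * p ^ (s - 1)) * p ^ (t.1.1 - 1) -
      n * (p ^ (s - 1) - 2) * t.1.2 ≠ 0 := by
    refine sub_ne ?_
    calc n * (p ^ (s - 1) - 2) * t.1.2
        < n * (p ^ (s - 1) - 2) * ((p - 1) * p ^ (t.1.1 - 1)) :=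
          Nat.mul_lt_mul_of_pos_left hl (Nat.mul_pos hn0 hN0)
      _ ≤ n * p ^ (s - 1) * ((p - 1) * p ^ (t.1.1 - 1)) :=
          Nat.mul_le_mul_right _ (Nat.mul_le_mul_left _ (Nat.sub_le _ _))
      _ = _ := by ring
  change d.Fg v t.1.1 (n * p ^ (t.1.1 - 1)) t.1.2 (p ^ (t.1.1 - 1))
      (n * (p ^ (s - 1) - 2) * t.1.2) = _
  rw [Fg_eq d v hT hn hp1.ne' hN, zero_pow e1, zero_pow e3, Nat.sub_self, pow_zero, one_mul,
    zero_mul, zero_mul, add_zero, zero_add]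

variable {v} in
lemma gamma_eq (hT : v (iE 3) = 0) (hn : n ≠ 0) (hp : 1 < p) (hN : p ^ (s - 1) - 2 ≠ 0)
    (t : Lev p s (p ^ (s - 1) - 2)) :
    d.F v (Sum.inr (Sum.inr (Sum.inl t))) =
      (algebraMap A R d.ν ^ ((p - 1) * p ^ (s - 1) * t.1.2) * v (iE 1) ^ t.1.2 *
        v (iE 2) ^ (n * p ^ (t.1.1 - 1)) *
        (v (iE 2) - 1) ^ ((p - 1) * p ^ (t.1.1 - 1))) *
        ∑ i, algebraMap K R (d.c₂ i) ^ p ^ t.1.1 * d.X₂ v i ^ t.1.2 := by
  have ht := (mem_Lev (by omega)).1 t.2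
  have hl := lt_of_lev' (by omega) ht.1.1 ht.1.2 ht.2.1
  have hp1 : 0 < p - 1 := by omega
  have hn0 : 0 < n := Nat.pos_of_ne_zero hn
  have e1 : (p - 1) * (p ^ (s - 1) - 2) * (n * p ^ (t.1.1 - 1)) -
      n * ((p - 1) * p ^ (s - 1)) * t.1.2 ≠ 0 := by
    refine sub_ne ?_
    calc n * ((p - 1) * p ^ (s - 1)) * t.1.2
        = n * (p - 1) * (p ^ (s - 1) * t.1.2) := by ring
      _ < n * (p - 1) * ((p ^ (s - 1) - 2) * p ^ (t.1.1 - 1)) :=
          Nat.mul_lt_mul_of_pos_left hl (Nat.mul_pos hn0 hp1)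
      _ = _ := by ring
  have e2 : n * (p ^ (s - 1) - 2) * ((p - 1) * p ^ (t.1.1 - 1)) -
      n * ((p - 1) * p ^ (s - 1)) * t.1.2 ≠ 0 := by
    refine sub_ne ?_
    calc n * ((p - 1) * p ^ (s - 1)) * t.1.2
        = n * (p - 1) * (p ^ (s - 1) * t.1.2) := by ring
      _ < n * (p - 1) * ((p ^ (s - 1) - 2) * p ^ (t.1.1 - 1)) :=
          Nat.mul_lt_mul_of_pos_left hl (Nat.mul_pos hn0 hp1)
      _ = _ := by ring
  change d.Fg v t.1.1 (n * p ^ (t.1.1 - 1)) ((p - 1) * p ^ (t.1.1 - 1)) t.1.2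
      (n * ((p - 1) * p ^ (s - 1)) * t.1.2) = _
  rw [Fg_eq d v hT hn hp1.ne' hN, zero_pow e1, zero_pow e2, Nat.sub_self, pow_zero, one_mul,
    zero_mul, zero_mul, zero_add, zero_add]

variable {v} in
lemma e1_eq (hT : v (iE 3) = 0) (hn : n ≠ 0) (hp : 1 < p) (hN : p ^ (s - 1) - 2 ≠ 0) :
    d.F v (iE 1) =
      ((-1) ^ ((p - 1) * p ^ (s - 1) + 1) * (- v (iE 2)) ^ (p ^ (s - 1) - 2)) *
        ∑ i, algebraMap K R (d.c₀ i) ^ p ^ s * d.X₀ v i ^ (n * p ^ (s - 1)) +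
      (algebraMap A R d.ν ^ ((p - 1) * p ^ (s - 1) * (p ^ (s - 1) - 2)) *
        v (iE 1) ^ (p ^ (s - 1) - 2) * v (iE 2) ^ (n * p ^ (s - 1)) *
        (v (iE 2) - 1) ^ ((p - 1) * p ^ (s - 1) + 1)) *
        ∑ i, algebraMap K R (d.c₂ i) ^ p ^ s * d.X₂ v i ^ (p ^ (s - 1) - 2) := by
  have hp1 : 0 < p - 1 := by omega
  have hn0 : 0 < n := Nat.pos_of_ne_zero hn
  have hN0 : 0 < p ^ (s - 1) - 2 := Nat.pos_of_ne_zero hN
  have e2 : n * (p ^ (s - 1) - 2) * ((p - 1) * p ^ (s - 1) + 1) -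
      (p - 1) * (p ^ (s - 1) - 2) * (n * p ^ (s - 1)) ≠ 0 := by
    refine sub_ne ?_
    calc (p - 1) * (p ^ (s - 1) - 2) * (n * p ^ (s - 1))
        = n * (p ^ (s - 1) - 2) * ((p - 1) * p ^ (s - 1)) := by ring
      _ < _ := Nat.mul_lt_mul_of_pos_left (Nat.lt_succ_self _) (Nat.mul_pos hn0 hN0)
  have e3 : n * ((p - 1) * p ^ (s - 1)) * (p ^ (s - 1) - 2) -
      (p - 1) * (p ^ (s - 1) - 2) * (n * p ^ (s - 1)) = 0 := by
    refine Nat.sub_eq_zero_of_le (le_of_eq ?_)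
    ring
  change d.Fg v s (n * p ^ (s - 1)) ((p - 1) * p ^ (s - 1) + 1) (p ^ (s - 1) - 2)
          ((p - 1) * (p ^ (s - 1) - 2) * (n * p ^ (s - 1))) = _
  rw [Fg_eq d v hT hn hp1.ne' hN, zero_pow e2, e3, Nat.sub_self, pow_zero, one_mul,
    one_mul, zero_mul, add_zero]

variable {v} in
lemma e2_eq (hT : v (iE 3) = 0) (hn : n ≠ 0) (hp : 1 < p) (hN : p ^ (s - 1) - 2 ≠ 0) :
    d.F v (iE 2) =
      (algebraMap A R d.ν ^ ((p ^ (s - 1) - 2) * ((p - 1) * p ^ (s - 1))) *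
        v (iE 0) ^ ((p - 1) * p ^ (s - 1)) *
        (1 - v (iE 2)) ^ (p ^ (s - 1) - 2)) *
        ∑ i, algebraMap K R (d.c₁ i) ^ p ^ s * d.X₁ v i ^ ((p - 1) * p ^ (s - 1)) +
      (algebraMap A R d.ν ^ ((p - 1) * p ^ (s - 1) * (p ^ (s - 1) - 2)) *
        v (iE 1) ^ (p ^ (s - 1) - 2) * v (iE 2) ^ (n * p ^ (s - 1) + 1) *
        (v (iE 2) - 1) ^ ((p - 1) * p ^ (s - 1))) *
        ∑ i, algebraMap K R (d.c₂ i) ^ p ^ s * d.X₂ v i ^ (p ^ (s - 1) - 2) := by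
  have hp1 : 0 < p - 1 := by omega
  have hn0 : 0 < n := Nat.pos_of_ne_zero hn
  have hN0 : 0 < p ^ (s - 1) - 2 := Nat.pos_of_ne_zero hN
  have e1 : (p - 1) * (p ^ (s - 1) - 2) * (n * p ^ (s - 1) + 1) -
      (p - 1) * (p ^ (s - 1) - 2) * (n * p ^ (s - 1)) ≠ 0 :=
    sub_ne (Nat.mul_lt_mul_of_pos_left (Nat.lt_succ_self _) (Nat.mul_pos hp1 hN0))
  have e2 : n * (p ^ (s - 1) - 2) * ((p - 1) * p ^ (s - 1)) -
      (p - 1) * (p ^ (s - 1) - 2) * (n * p ^ (s - 1)) = 0 := by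
    refine Nat.sub_eq_zero_of_le (le_of_eq ?_)
    ring
  have e3 : n * ((p - 1) * p ^ (s - 1)) * (p ^ (s - 1) - 2) -
      (p - 1) * (p ^ (s - 1) - 2) * (n * p ^ (s - 1)) = 0 := by
    refine Nat.sub_eq_zero_of_le (le_of_eq ?_)
    ring
  change d.Fg v s (n * p ^ (s - 1) + 1) ((p - 1) * p ^ (s - 1)) (p ^ (s - 1) - 2)
          ((p - 1) * (p ^ (s - 1) - 2) * (n * p ^ (s - 1))) = _
  rw [Fg_eq d v hT hn hp1.ne' hN, zero_pow e1, e2, e3, pow_zero, one_mul,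
    one_mul, zero_mul, zero_add]

variable {v} in
lemma e4_eq (hT : v (iE 3) = 0) (hn : n ≠ 0) (hp : 1 < p) (hN : p ^ (s - 1) - 2 ≠ 0) :
    d.F v (iE 4) =
      ((-1) ^ (p - 1) * (- v (iE 2))) *
        ∑ i, algebraMap K R (d.c₀ i) ^ p * d.X₀ v i ^ n +
      (algebraMap A R d.ν ^ ((p ^ (s - 1) - 2) * (p - 1)) * v (iE 0) ^ (p - 1) *
        (1 - v (iE 2))) *
        ∑ i, algebraMap K R (d.c₁ i) ^ p * d.X₁ v i ^ (p - 1) -
      algebraMap A R d.ν ^ ((p - 1) * (p ^ (s - 1) - 2)) *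
            v (iE 4) ^ ((p - 1) * (p ^ (s - 1) - 2)) := by
  have hp1 : 0 < p - 1 := by omega
  have hn0 : 0 < n := Nat.pos_of_ne_zero hn
  have hN0 : 0 < p ^ (s - 1) - 2 := Nat.pos_of_ne_zero hN
  have e2 : n * (p ^ (s - 1) - 2) * (p - 1) - (p - 1) * (p ^ (s - 1) - 2) * n = 0 := by
    refine Nat.sub_eq_zero_of_le (le_of_eq ?_)
    ring
  have e3 : n * ((p - 1) * p ^ (s - 1)) * 1 - (p - 1) * (p ^ (s - 1) - 2) * n ≠ 0 := by
    refine sub_ne ?_
    calc (p - 1) * (p ^ (s - 1) - 2) * n = n * (p - 1) * (p ^ (s - 1) - 2) := by ring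
      _ < n * (p - 1) * p ^ (s - 1) :=
          Nat.mul_lt_mul_of_pos_left (by omega) (Nat.mul_pos hn0 hp1)
      _ = _ := by ring
  change d.Fg v 1 n (p - 1) 1 ((p - 1) * (p ^ (s - 1) - 2) * n) -
          algebraMap A R d.ν ^ ((p - 1) * (p ^ (s - 1) - 2)) *
            v (iE 4) ^ ((p - 1) * (p ^ (s - 1) - 2)) = _
  rw [Fg_eq d v hT hn hp1.ne' hN, zero_pow e3, e2, Nat.sub_self, pow_zero, one_mul,
    one_mul, zero_mul, add_zero, pow_one, pow_one, pow_one]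

end Sys

/-! ### numbers -/

section Num

variable {A : Type} [Field A] {p s n : ℕ} [Fact p.Prime] [CharP A p]

lemma two_ne (hp : 3 ≤ p) : (2 : A) ≠ 0 := by
  intro h0
  have h1 : ((2 : ℕ) : A) = 0 := by rw [Nat.cast_ofNat]; exact h0
  have h2 := Nat.le_of_dvd (by norm_num) ((CharP.cast_eq_zero_iff A p 2).1 h1)
  omega

lemma cast_N (hs : 2 ≤ s) : ((p ^ (s - 1) : ℕ) : A) = 0 := by
  rw [Nat.cast_pow, CharP.cast_eq_zero, zero_pow (by omega)]

lemma three_le_N (hp : 3 ≤ p) (hs : 2 ≤ s) : 3 ≤ p ^ (s - 1) :=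
  le_trans hp (Nat.le_self_pow (by omega) p)

lemma cast_M2 (hp : 3 ≤ p) (hs : 2 ≤ s) : ((p ^ (s - 1) - 2 : ℕ) : A) = -2 := by
  have h3 := three_le_N hp hs
  rw [Nat.cast_sub (by omega), cast_N hs, Nat.cast_ofNat, zero_sub]

lemma cast_M1 (hs : 2 ≤ s) : (((p - 1) * p ^ (s - 1) : ℕ) : A) = 0 := by
  rw [Nat.cast_mul, cast_N hs, mul_zero]

lemma cast_p1 (hp : 3 ≤ p) : ((p - 1 : ℕ) : A) = -1 := by
  rw [Nat.cast_sub (by omega), CharP.cast_eq_zero, Nat.cast_one, zero_sub]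

lemma cast_L (hp : 3 ≤ p) (hs : 2 ≤ s) : (((p - 1) * (p ^ (s - 1) - 2) : ℕ) : A) = 2 := by
  rw [Nat.cast_mul, cast_p1 hp, cast_M2 hp hs]
  ring

lemma odd_N (hp : 3 ≤ p) : Odd (p ^ (s - 1)) :=
  ((Fact.out : p.Prime).odd_of_ne_two (by omega)).pow

lemma even_p1 (hp : 3 ≤ p) : Even (p - 1) :=
  (Fact.out : p.Prime).even_sub_one (by omega)

omit [CharP A p] in
lemma neg_one_pow_p1 (hp : 3 ≤ p) {R : Type} [CommRing R] : (-1 : R) ^ (p - 1) = 1 :=
  (even_p1 hp).neg_one_pow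

omit [CharP A p] in
lemma neg_one_pow_M1 (hp : 3 ≤ p) {R : Type} [CommRing R] :
    (-1 : R) ^ ((p - 1) * p ^ (s - 1)) = 1 :=
  ((even_p1 hp).mul_right _).neg_one_pow

omit [CharP A p] in
lemma neg_one_pow_nN (hp : 3 ≤ p) {R : Type} [CommRing R] :
    (-1 : R) ^ (n * p ^ (s - 1)) = (-1) ^ n := by
  rw [mul_comm, pow_mul, (odd_N hp).neg_one_pow]

lemma two_pow_N (k : ℕ) : (2 : A) ^ p ^ k = 2 := by
  have h := add_pow_char_pow (p := p) (n := k) (x := (1 : A)) (y := 1)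
  rw [one_pow, one_add_one_eq_two] at h
  exact h

lemma two_pow_M2 (hp : 3 ≤ p) (hs : 2 ≤ s) : 2 * (2 : A) ^ (p ^ (s - 1) - 2) = 1 := by
  have h3 := three_le_N hp hs
  have h : (2 : A) ^ 2 * 2 ^ (p ^ (s - 1) - 2) = 2 := by
    rw [← pow_add, Nat.add_sub_cancel' (by omega), two_pow_N]
  refine mul_left_cancel₀ (two_ne (A := A) hp) ?_
  rw [← mul_assoc, ← sq, h, mul_one]

lemma two_pow_M2' (hp : 3 ≤ p) (hs : 2 ≤ s) : 4 * (2 : A) ^ (p ^ (s - 1) - 2 - 1) = 1 := by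
  have h3 := three_le_N hp hs
  rw [← two_pow_M2 (A := A) hp hs, show p ^ (s - 1) - 2 = (p ^ (s - 1) - 2 - 1) + 1 by omega,
    Nat.add_sub_cancel, pow_succ]
  ring

lemma neg_two_pow_M1 (hp : 3 ≤ p) (hs : 2 ≤ s) : (-2 : A) ^ ((p - 1) * p ^ (s - 1)) = 1 := by
  have h1 : (-2 : A) ^ ((p - 1) * p ^ (s - 1)) = 2 ^ ((p - 1) * p ^ (s - 1)) :=
    ((even_p1 hp).mul_right _).neg_pow _
  rw [h1]
  have h2 : (2 : A) ^ ((p - 1) * p ^ (s - 1)) * 2 ^ p ^ (s - 1) = 2 ^ p ^ s := by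
    rw [← pow_add]
    congr 1
    have h3 : p ^ s = p * p ^ (s - 1) := by
      rw [← pow_succ', Nat.sub_add_cancel (by omega)]
    rw [h3, ← Nat.succ_mul, Nat.succ_eq_add_one, Nat.sub_add_cancel (by omega)]
  rw [two_pow_N, two_pow_N] at h2
  exact mul_right_cancel₀ (two_ne (A := A) hp) (by rw [h2, one_mul])

lemma card_pow {K : Type} [Field K] [Finite K] [Algebra K A] (hK : Nat.card K = p ^ s) (c : K) :
    algebraMap K A c ^ p ^ s = algebraMap K A c := by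
  have := Fintype.ofFinite K
  rw [← map_pow, ← hK, Nat.card_eq_fintype_card, FiniteField.pow_card]

lemma top_pow {K ι : Type} [Field K] [Algebra K A] [Fintype ι] (hs : 2 ≤ s) (c : ι → K)
    (x : ι → A) (m : ℕ) : ∑ i, algebraMap K A (c i) ^ p ^ s * x i ^ (m * p ^ (s - 1)) =
      (∑ i, algebraMap K A (c i) ^ p * x i ^ m) ^ p ^ (s - 1) := by
  rw [sum_pow_char_pow]
  refine Finset.sum_congr rfl fun i _ => ?_
  rw [mul_pow, ← pow_mul, ← pow_mul, ← pow_succ', Nat.sub_add_cancel (by omega)]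

omit [Fact p.Prime] [CharP A p] in
lemma sum_inl {K ι : Type} [Field K] [Algebra K A] [Fintype ι] (c : ι → K)
    (x : ι → A) (e m : ℕ) : ∑ i, algebraMap K (DualNumber A) (c i) ^ e *
      algebraMap A (DualNumber A) (x i) ^ m =
      inl (∑ i, algebraMap K A (c i) ^ e * x i ^ m) := by
  rw [inl_sum]
  refine Finset.sum_congr rfl fun i _ => ?_
  rw [algebraMap_eq_inl', algebraMap_eq_inl, inl_pow, inl_pow, inl_mul]

end Num

section Sys

variable {p s n : ℕ} {K A ι₀ ι₁ ι₂ : Type} [Field K] [Field A] [Algebra K A]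
  [Fintype ι₀] [Fintype ι₁] [Fintype ι₂] {d : Dat p s n K A ι₀ ι₁ ι₂}

/-- **The Jacobian matrix at the base point is invertible.** -/
theorem _root_.Pool.Agent.BCX4.Dat.Ok.dual (h : d.Ok) [Fact p.Prime] [Finite K] [CharP K p]
    (hK : Nat.card K = p ^ s)
    (hp : 3 ≤ p) (hs : 2 ≤ s) (hn : ¬ p ∣ n) (w : Idx p s n → A)
    (hw : ∀ j, d.F (fun i => (TrivSqZeroExt.inl (Dat.v0 p s n A i) + TrivSqZeroExt.inr (w i) :
      DualNumber A)) j = 0) : w = 0 := by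
  have : CharP A p := charP_of_injective_algebraMap (algebraMap K A).injective p
  have hN3 := three_le_N hp hs
  have hN : p ^ (s - 1) - 2 ≠ 0 := by omega
  have hn0 : n ≠ 0 := by
    rintro rfl
    exact hn (dvd_zero p)
  have hp0 : 0 < p := by omega
  have hp1 : 1 < p := by omega
  have h2 := two_ne (A := A) hp
  obtain ⟨v, hv⟩ : ∃ v : Idx p s n → DualNumber A, v = fun i =>
    (TrivSqZeroExt.inl (Dat.v0 p s n A i) + TrivSqZeroExt.inr (w i) : DualNumber A) := ⟨_, rfl⟩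
  rw [← hv] at hw
  have v0' : v (iE 0) = inl 1 + inr (w (iE 0)) := by rw [hv]; rfl
  have v1' : v (iE 1) = inl 1 + inr (w (iE 1)) := by rw [hv]; rfl
  have v2' : v (iE 2) = inl (-1) + inr (w (iE 2)) := by rw [hv]; rfl
  have v3' : v (iE 3) = inl 0 + inr (w (iE 3)) := by rw [hv]; rfl
  have v4' : v (iE 4) = inl 1 + inr (w (iE 4)) := by rw [hv]; rfl
  have va : (fun t => v (Sum.inl t)) = fun t => (inl 0 + inr (w (Sum.inl t)) : DualNumber A) := by
    rw [hv]; rfl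
  have vb : (fun t => v (Sum.inr (Sum.inl t))) =
      fun t => (inl 0 + inr (w (Sum.inr (Sum.inl t))) : DualNumber A) := by
    rw [hv]; rfl
  have vc : (fun t => v (Sum.inr (Sum.inr (Sum.inl t)))) =
      fun t => (inl 0 + inr (w (Sum.inr (Sum.inr (Sum.inl t)))) : DualNumber A) := by
    rw [hv]; rfl
  have hT : v (iE 3) = 0 := hw (iE 3)
  have w3 : w (iE 3) = 0 := by
    have := congrArg TrivSqZeroExt.snd hT
    rwa [v3', snd_dn, snd_zero] at this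
  -- units
  have u0 : IsUnit (v (iE 0)) := by rw [v0']; exact isUnit_dn one_ne_zero _
  have u1 : IsUnit (v (iE 1)) := by rw [v1']; exact isUnit_dn one_ne_zero _
  have u2 : IsUnit (v (iE 2)) := by rw [v2']; exact isUnit_dn (neg_ne_zero.2 one_ne_zero) _
  have e1 : 1 - v (iE 2) = inl 2 + inr (- w (iE 2)) := by
    rw [v2']
    refine TrivSqZeroExt.ext ?_ ?_
    · rw [fst_sub, fst_one, fst_dn, fst_dn]; ring
    · rw [snd_sub, snd_one, snd_dn, snd_dn]; ring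
  have e2 : v (iE 2) - 1 = inl (-2) + inr (w (iE 2)) := by
    rw [v2']
    refine TrivSqZeroExt.ext ?_ ?_
    · rw [fst_sub, fst_one, fst_dn, fst_dn]; ring
    · rw [snd_sub, snd_one, snd_dn, snd_dn]; ring
  have e3 : - v (iE 2) = inl 1 + inr (- w (iE 2)) := by
    rw [v2']
    refine TrivSqZeroExt.ext ?_ ?_
    · rw [fst_neg, fst_dn, fst_dn]; ring
    · rw [snd_neg, snd_dn, snd_dn]
  have u3 : IsUnit (1 - v (iE 2)) := by rw [e1]; exact isUnit_dn h2 _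
  have u4 : IsUnit (v (iE 2) - 1) := by rw [e2]; exact isUnit_dn (neg_ne_zero.2 h2) _
  have uν : IsUnit (algebraMap A (DualNumber A) d.ν) := by
    rw [algebraMap_eq_inl, isUnit_inl_iff]
    exact h.ne.isUnit
  -- the three blocks
  have wa : (fun t => w (Sum.inl t)) = 0 := by
    refine block hp0 d.c₀ d.x₀ d.J₀ h.det₀ _ fun t => ?_
    have h1 := hw (Sum.inl t)
    rw [alpha_eq d hT hn0 hp1 hN t] at h1
    unfold Dat.X₀ at h1
    rw [va] at h1
    exact (IsUnit.mul_right_eq_zero (((isUnit_one.neg).pow _).mul ((u2.neg).pow _))).1 h1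
  have wb : (fun t => w (Sum.inr (Sum.inl t))) = 0 := by
    refine block hp0 d.c₁ d.x₁ d.J₁ h.det₁ _ fun t => ?_
    have h1 := hw (Sum.inr (Sum.inl t))
    rw [beta_eq d hT hn0 hp1 hN t] at h1
    unfold Dat.X₁ at h1
    rw [vb] at h1
    exact (IsUnit.mul_right_eq_zero (((uν.pow _).mul (u0.pow _)).mul (u3.pow _))).1 h1
  have wc : (fun t => w (Sum.inr (Sum.inr (Sum.inl t)))) = 0 := by
    refine block hp0 d.c₂ d.x₂ d.J₂ h.det₂ _ fun t => ?_
    have h1 := hw (Sum.inr (Sum.inr (Sum.inl t)))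
    rw [gamma_eq d hT hn0 hp1 hN t] at h1
    unfold Dat.X₂ at h1
    rw [vc] at h1
    exact (IsUnit.mul_right_eq_zero ((((uν.pow _).mul (u1.pow _)).mul (u2.pow _)).mul
      (u4.pow _))).1 h1
  have hX₀ : ∀ i, d.X₀ v i = algebraMap A (DualNumber A) (d.x₀ i) := by
    intro i
    unfold Dat.X₀
    rw [va, disp_dn, wa]
    change _ + inr (disp d.J₀ (fun _ => (0 : A)) i) = _
    rw [disp_zero, inr_zero, add_zero]
  have hX₁ : ∀ i, d.X₁ v i = algebraMap A (DualNumber A) (d.x₁ i) := by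
    intro i
    unfold Dat.X₁
    rw [vb, disp_dn, wb]
    change _ + inr (disp d.J₁ (fun _ => (0 : A)) i) = _
    rw [disp_zero, inr_zero, add_zero]
  have hX₂ : ∀ i, d.X₂ v i = algebraMap A (DualNumber A) (d.x₂ i) := by
    intro i
    unfold Dat.X₂
    rw [vc, disp_dn, wc]
    change _ + inr (disp d.J₂ (fun _ => (0 : A)) i) = _
    rw [disp_zero, inr_zero, add_zero]
  -- the scale of the second word
  have hν : ∀ k, d.ν ^ k ≠ 0 := fun k => pow_ne_zero k h.ne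
  have w0 : w (iE 0) = 0 := by
    have h1 : d.Fs v = 0 := hw (iE 0)
    rw [Fs_eq d v hT hn0 (by omega) hN] at h1
    simp_rw [hX₀, hX₁] at h1
    rw [sum_inl, sum_inl, h.top₀, h.top₁, neg_one_pow_p1 hp, one_mul, v0', dn_pow,
      algebraMap_eq_inl, inl_pow] at h1
    have h3 := congrArg TrivSqZeroExt.snd h1
    rw [snd_add, snd_inl, snd_mul, snd_inl, snd_mul, snd_dn, snd_inl, smul_zero, smul_zero,
      fst_inl, fst_inl, snd_zero, cast_p1 hp, one_pow] at h3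
    simp only [smul_eq_mul, MulOpposite.op_one, one_smul, add_zero, zero_add] at h3
    rcases mul_eq_zero.1 h3 with h4 | h4
    · exact absurd h4 (hν _)
    · linear_combination (-1 : A) * h4
  have v0one : v (iE 0) = 1 := by rw [v0', w0, inr_zero, add_zero, inl_one]
  -- the values of the top sums
  have t0 : ∑ i, algebraMap K A (d.c₀ i) ^ p ^ s * d.x₀ i ^ (n * p ^ (s - 1)) =
      - d.ν ^ ((p - 1) * p ^ (s - 1) * (p ^ (s - 1) - 2)) := by
    rw [top_pow hs, h.top₀, (odd_N hp).neg_pow, ← pow_mul]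
    congr 2
    ring
  have t1 : ∑ i, algebraMap K A (d.c₁ i) ^ p ^ s * d.x₁ i ^ ((p - 1) * p ^ (s - 1)) = 1 := by
    rw [top_pow hs, h.top₁, one_pow]
  obtain ⟨τ, hτ⟩ : ∃ τ : A, τ = ∑ i, algebraMap K A (d.c₂ i) * d.x₂ i ^ (p ^ (s - 1) - 2) :=
    ⟨_, rfl⟩
  have t2 : ∑ i, algebraMap K A (d.c₂ i) ^ p ^ s * d.x₂ i ^ (p ^ (s - 1) - 2) = τ := by
    rw [hτ]
    refine Finset.sum_congr rfl fun i _ => ?_
    rw [card_pow hK]
  have ht2 : 2 * τ = (-1) ^ n := by rw [hτ]; exact h.top₂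
  have hsq : ((-1 : A) ^ n) * (-1) ^ n = 1 := by
    rw [← mul_pow, neg_one_mul, neg_neg, one_pow]
  have hsq' : 2 * (τ * (-1) ^ n) = 1 := by
    rw [← mul_assoc, ht2, hsq]
  -- powers of the dual numbers
  have p1 : v (iE 1) ^ (p ^ (s - 1) - 2) = inl 1 + inr (-2 * w (iE 1)) := by
    rw [v1', dn_pow, one_pow, one_pow, cast_M2 hp hs, mul_one]
  have p2 : v (iE 2) ^ (n * p ^ (s - 1)) = inl ((-1) ^ n) + inr 0 := by
    rw [v2', dn_pow, neg_one_pow_nN hp, Nat.cast_mul, cast_N hs]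
    congr 2
    ring
  have p2' : v (iE 2) ^ (n * p ^ (s - 1) + 1) =
      inl (- (-1) ^ n) + inr ((-1) ^ n * w (iE 2)) := by
    rw [pow_succ, p2, v2', dn_mul]
    congr 2 <;> ring
  have p3 : (v (iE 2) - 1) ^ ((p - 1) * p ^ (s - 1)) = inl 1 + inr 0 := by
    rw [e2, dn_pow, neg_two_pow_M1 hp hs, cast_M1 hs]
    congr 2
    ring
  have p3' : (v (iE 2) - 1) ^ ((p - 1) * p ^ (s - 1) + 1) = inl (-2) + inr (w (iE 2)) := by
    rw [pow_succ, p3, e2, dn_mul]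
    congr 2 <;> ring
  have p4 : (- v (iE 2)) ^ (p ^ (s - 1) - 2) = inl 1 + inr (2 * w (iE 2)) := by
    rw [e3, dn_pow, one_pow, one_pow, cast_M2 hp hs, mul_one]
    congr 2
    ring
  have p5 : (1 - v (iE 2)) ^ (p ^ (s - 1) - 2) = inl (2 ^ (p ^ (s - 1) - 2)) +
      inr (2 * 2 ^ (p ^ (s - 1) - 2 - 1) * w (iE 2)) := by
    rw [e1, dn_pow, cast_M2 hp hs]
    congr 2
    ring
  -- the equation with index one
  have q1 : 5 * w (iE 2) + 4 * w (iE 1) = 0 := by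
    have h1 := hw (iE 1)
    rw [e1_eq d hT hn0 hp1 hN] at h1
    simp_rw [hX₀, hX₂] at h1
    rw [sum_inl, sum_inl, t0, t2, p1, p2, p3', p4, pow_succ, neg_one_pow_M1 hp, one_mul,
      neg_one_mul, algebraMap_eq_inl, inl_pow] at h1
    have h3 := congrArg TrivSqZeroExt.snd h1
    simp only [fst_add, snd_add, snd_sub, fst_sub, snd_mul, fst_mul, snd_neg, fst_neg, fst_inl,
      snd_inl, fst_inr, snd_inr, snd_one, fst_one, snd_zero, smul_eq_mul,
      MulOpposite.smul_eq_mul_unop, MulOpposite.unop_op, mul_zero, add_zero, zero_add, zero_mul,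
      one_pow, mul_one] at h3
    have h4 : d.ν ^ ((p - 1) * p ^ (s - 1) * (p ^ (s - 1) - 2)) *
        (5 * w (iE 2) + 4 * w (iE 1)) = 0 := by
      linear_combination 2 * h3 - d.ν ^ ((p - 1) * p ^ (s - 1) * (p ^ (s - 1) - 2)) *
        (w (iE 2) + 4 * w (iE 1)) * hsq'
    exact (mul_eq_zero.1 h4).resolve_left (hν _)
  have q2 : w (iE 2) + w (iE 1) = 0 := by
    have h1 := hw (iE 2)
    rw [e2_eq d hT hn0 hp1 hN] at h1
    simp_rw [hX₁, hX₂] at h1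
    rw [sum_inl, sum_inl, t1, t2, p1, p2', p3, p5, v0one, one_pow, mul_one, inl_one, mul_one,
      algebraMap_eq_inl, inl_pow, inl_pow,
      mul_comm (p ^ (s - 1) - 2) ((p - 1) * p ^ (s - 1))] at h1
    have h3 := congrArg TrivSqZeroExt.snd h1
    simp only [fst_add, snd_add, snd_sub, fst_sub, snd_mul, fst_mul, snd_neg, fst_neg, fst_inl,
      snd_inl, fst_inr, snd_inr, snd_one, fst_one, snd_zero, smul_eq_mul,
      MulOpposite.smul_eq_mul_unop, MulOpposite.unop_op, mul_zero, add_zero, zero_add, zero_mul,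
      one_pow, mul_one] at h3
    have h5 := two_pow_M2' (A := A) hp hs
    have h4 : d.ν ^ ((p - 1) * p ^ (s - 1) * (p ^ (s - 1) - 2)) *
        (2 * (w (iE 2) + w (iE 1))) = 0 := by
      linear_combination 2 * h3 - d.ν ^ ((p - 1) * p ^ (s - 1) * (p ^ (s - 1) - 2)) *
        (w (iE 2) + 2 * w (iE 1)) * hsq' -
        d.ν ^ ((p - 1) * p ^ (s - 1) * (p ^ (s - 1) - 2)) * w (iE 2) * h5
    exact (mul_eq_zero.1 ((mul_eq_zero.1 h4).resolve_left (hν _))).resolve_left h2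
  have w2 : w (iE 2) = 0 := by linear_combination q1 - 4 * q2
  have w1 : w (iE 1) = 0 := by linear_combination q2 - w2
  have w4 : w (iE 4) = 0 := by
    have h1 := hw (iE 4)
    rw [e4_eq d hT hn0 hp1 hN] at h1
    simp_rw [hX₀, hX₁] at h1
    rw [sum_inl, sum_inl, h.top₀, h.top₁, neg_one_pow_p1 hp, v0one, one_pow, mul_one, one_mul,
      e1, e3, v4', dn_pow, cast_L hp hs, algebraMap_eq_inl, inl_pow, inl_pow,
      mul_comm (p ^ (s - 1) - 2) (p - 1)] at h1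
    have h3 := congrArg TrivSqZeroExt.snd h1
    simp only [fst_add, snd_add, snd_sub, fst_sub, snd_mul, fst_mul, snd_neg, fst_neg, fst_inl,
      snd_inl, fst_inr, snd_inr, snd_one, fst_one, snd_zero, smul_eq_mul,
      MulOpposite.smul_eq_mul_unop, MulOpposite.unop_op, mul_zero, add_zero, zero_add, zero_mul,
      one_pow, mul_one] at h3
    have h4 : d.ν ^ ((p - 1) * (p ^ (s - 1) - 2)) * (2 * w (iE 4)) = 0 := by
      linear_combination - h3
    exact (mul_eq_zero.1 ((mul_eq_zero.1 h4).resolve_left (hν _))).resolve_left h2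
  funext j
  rcases j with t | t | t | k
  · exact congrFun wa t
  · exact congrFun wb t
  · exact congrFun wc t
  · fin_cases k
    · exact w0
    · exact w1
    · exact w2
    · exact w3
    · exact w4

end Sys

end JacD

end Pool.Agent.BCX4
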