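import Pool.Agent.BCX4.Defs

/-!
# Row rank and minors; a word over `K` is a word over a larger field
-/

namespace Pool.Agent.BCX4

open Polynomial Matrix

/-- independent rows and a nonvanishing maximal minor -/
theorem exists_minor_iff {A Λ ι : Type} [Field A] [Fintype Λ] [DecidableEq Λ] [Fintype ι]
    (M : Λ → ι → A) :
    LinearIndependent A M ↔ ∃ J : Λ → ι, (Matrix.of fun t t' => M t (J t')).det ≠ 0 := by
  classical
  constructor
  · intro hM
    have hr : (Matrix.of M).rank = Fintype.card Λ := hM.rank_matrix
    have h2 : ((Matrix.of M)ᵀ).rank = Fintype.card Λ := by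
      rw [Matrix.rank_transpose, hr]
    obtain ⟨f, hf1, hf2, hf3⟩ :=
      Submodule.exists_fun_fin_finrank_span_eq A (Set.range ((Matrix.of M)ᵀ).row)
    have hcard : Module.finrank A (Submodule.span A (Set.range ((Matrix.of M)ᵀ).row)) =
        Fintype.card Λ := by
      rw [← Matrix.rank_eq_finrank_span_row, h2]
    choose a ha using hf1
    let e : Λ ≃ Fin (Module.finrank A (Submodule.span A (Set.range ((Matrix.of M)ᵀ).row))) :=
      Fintype.equivOfCardEq (by rw [hcard]; simp)
    refine ⟨a ∘ e, ?_⟩
    have h1 : (((Matrix.of M)ᵀ).submatrix (a ∘ e) id).row = f ∘ e := by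
      funext k
      rw [Function.comp_apply, ← ha (e k)]
      rfl
    have hb : LinearIndependent A (((Matrix.of M)ᵀ).submatrix (a ∘ e) id).row := by
      rw [h1]
      exact hf3.comp _ e.injective
    have h3 : ((Matrix.of M)ᵀ).submatrix (a ∘ e) id =
        (Matrix.of fun t t' => M t ((a ∘ e) t'))ᵀ := rfl
    rw [h3] at hb
    have h4 := Matrix.linearIndependent_rows_iff_isUnit.mp hb
    have h5 := (Matrix.isUnit_iff_isUnit_det _).mp h4
    rw [Matrix.det_transpose] at h5
    exact h5.ne_zero
  · rintro ⟨J, hJ⟩
    have h4 : IsUnit (Matrix.of fun t t' => M t (J t')) :=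
      (Matrix.isUnit_iff_isUnit_det _).mpr (isUnit_iff_ne_zero.mpr hJ)
    have h5 := Matrix.linearIndependent_rows_iff_isUnit.mpr h4
    have h6 : LinearIndependent A ((LinearMap.funLeft A A J) ∘ M) := h5
    exact LinearIndependent.of_comp _ h6

/-- a word over `K` is a word over every extension -/
theorem Word.map {p s m : ℕ} {K A ι : Type} [Field K] [Field A] [Algebra K A] [Fintype ι]
    {c x : ι → K} (h : Word p s m c x) : Word p s m c fun i => algebraMap K A (x i) := by
  classical
  refine ⟨(algebraMap K A).injective.comp h.inj, h.ne, ?_, ?_⟩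
  · intro l hl
    have h1 := h.sum l hl
    have h2 := congrArg (algebraMap K A) h1
    rw [map_sum, map_zero] at h2
    rw [← h2]
    refine Finset.sum_congr rfl fun i _ => ?_
    rw [map_mul, map_pow, Algebra.algebraMap_self_apply]
  · have h1 := h.smooth
    rw [exists_minor_iff] at h1 ⊢
    obtain ⟨J, hJ⟩ := h1
    refine ⟨J, fun h0 => hJ ?_⟩
    have h2 : (Matrix.of fun t t' => rows p s m (A := A) c (fun i => algebraMap K A (x i)) t (J t')) =
        (algebraMap K A).mapMatrix (Matrix.of fun t t' => rows p s m (A := K) c x t (J t')) := by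
      ext t t'
      simp only [Matrix.of_apply, RingHom.mapMatrix_apply, Matrix.map_apply, rows, map_mul, map_pow,
        Algebra.algebraMap_self_apply]
    rw [h2, ← RingHom.map_det] at h0
    exact (algebraMap K A).injective (by rw [h0, map_zero])

/-- scaling the weights -/
theorem Word.smul {p s m : ℕ} {K A ι : Type} [Field K] [Field A] [Algebra K A] [Fintype ι]
    {c : ι → K} {x : ι → A} (h : Word p s m c x) {k : K} (hk : k ≠ 0) :
    Word p s m (fun i => k * c i) x := by
  classical
  refine ⟨h.inj, fun i => mul_ne_zero hk (h.ne i), ?_, ?_⟩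
  · intro l hl
    have h1 := h.sum l hl
    have h2 : ∀ i, algebraMap K A (k * c i) * x i ^ l =
        algebraMap K A k * (algebraMap K A (c i) * x i ^ l) := by
      intro i
      rw [map_mul, mul_assoc]
    simp only [h2]
    rw [← Finset.mul_sum, h1, mul_zero]
  · have hk' : algebraMap K A k ≠ 0 := by
      rw [Ne, map_eq_zero]
      exact hk
    let u : Lev p s m → Aˣ := fun t => Units.mk0 (algebraMap K A k ^ p ^ t.1.1) (pow_ne_zero _ hk')
    have h1 := h.smooth.units_smul u
    have h2 : rows p s m (fun i => k * c i) x = u • rows p s m c x := by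
      funext t i
      show algebraMap K A (k * c i) ^ p ^ t.1.1 * x i ^ (t.1.2 - 1) =
        algebraMap K A k ^ p ^ t.1.1 * (algebraMap K A (c i) ^ p ^ t.1.1 * x i ^ (t.1.2 - 1))
      rw [map_mul, mul_pow, mul_assoc]
    rw [h2]
    exact h1

end Pool.Agent.BCX4
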