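import Pool.Agent.BCX4.SysDefs

/-!
# Naturality of the system
-/

namespace Pool.Agent.BCX4

open Polynomial

namespace NatF

theorem map_disp {Λ ι R R' : Type} [Fintype Λ] [CommRing R] [CommRing R'] (φ : R →+* R')
    (J : Λ → ι) (w : Λ → R) (i : ι) : φ (disp J w i) = disp J (fun t => φ (w t)) i := by
  unfold disp
  rw [map_sum]
  refine Finset.sum_congr rfl fun t _ => ?_
  rw [apply_ite φ, map_zero]

theorem eval_divX_map {R R' : Type} [CommRing R] [CommRing R'] (φ : R →+* R') (f : R[X]) (x : R) :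
    φ ((divX f).eval x) = (divX (f.map φ)).eval (φ x) := by
  have h : divX (f.map φ) = (divX f).map φ := by
    ext k
    rw [coeff_divX, coeff_map, coeff_map, coeff_divX]
  rw [h, eval_map, ← eval₂_at_apply]

end NatF

open NatF

section

variable {p s n : ℕ} {K A ι₀ ι₁ ι₂ : Type} [Field K] [Field A] [Algebra K A]
  [Fintype ι₀] [Fintype ι₁] [Fintype ι₂] (d : Dat p s n K A ι₀ ι₁ ι₂)
  {R R' : Type} [CommRing R] [CommRing R'] [Algebra K R] [Algebra A R]
  [IsScalarTower K A R] [Algebra K R'] [Algebra A R'] [IsScalarTower K A R'] (φ : R →ₐ[A] R')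
  (v : Idx p s n → R)

include φ

omit [Field K] [Algebra K A] [Fintype ι₀] [Fintype ι₁] [Fintype ι₂] [Algebra K R] [IsScalarTower K A R]
  [Algebra K R'] [IsScalarTower K A R'] in
theorem Dat.map_X₀ (i : ι₀) : φ (d.X₀ v i) = d.X₀ (fun j => φ (v j)) i := by
  unfold Dat.X₀
  rw [map_add, AlgHom.commutes]
  exact congrArg _ (map_disp (φ : R →+* R') _ _ _)

omit [Field K] [Algebra K A] [Fintype ι₀] [Fintype ι₁] [Fintype ι₂] [Algebra K R] [IsScalarTower K A R]
  [Algebra K R'] [IsScalarTower K A R'] in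
theorem Dat.map_X₁ (i : ι₁) : φ (d.X₁ v i) = d.X₁ (fun j => φ (v j)) i := by
  unfold Dat.X₁
  rw [map_add, AlgHom.commutes]
  exact congrArg _ (map_disp (φ : R →+* R') _ _ _)

omit [Field K] [Algebra K A] [Fintype ι₀] [Fintype ι₁] [Fintype ι₂] [Algebra K R] [IsScalarTower K A R]
  [Algebra K R'] [IsScalarTower K A R'] in
theorem Dat.map_X₂ (i : ι₂) : φ (d.X₂ v i) = d.X₂ (fun j => φ (v j)) i := by
  unfold Dat.X₂
  rw [map_add, AlgHom.commutes]
  exact congrArg _ (map_disp (φ : R →+* R') _ _ _)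

omit [Field K] [Algebra K A] [Fintype ι₀] [Fintype ι₁] [Fintype ι₂] [Algebra K R] [IsScalarTower K A R]
  [Algebra K R'] [IsScalarTower K A R'] in
theorem Dat.map_z₀ (i : ι₀) : φ (d.z₀ v i) = d.z₀ (fun j => φ (v j)) i := by
  unfold Dat.z₀
  rw [map_mul, map_pow, d.map_X₀]

omit [Field K] [Algebra K A] [Fintype ι₀] [Fintype ι₁] [Fintype ι₂] [Algebra K R] [IsScalarTower K A R]
  [Algebra K R'] [IsScalarTower K A R'] in
theorem Dat.map_z₁ (i : ι₁) : φ (d.z₁ v i) = d.z₁ (fun j => φ (v j)) i := by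
  unfold Dat.z₁
  rw [map_add, map_mul, map_pow, map_mul, map_mul, map_pow, d.map_X₁, AlgHom.commutes, map_one]

omit [Field K] [Algebra K A] [Fintype ι₀] [Fintype ι₁] [Fintype ι₂] [Algebra K R] [IsScalarTower K A R]
  [Algebra K R'] [IsScalarTower K A R'] in
theorem Dat.map_z₂ (i : ι₂) : φ (d.z₂ v i) = d.z₂ (fun j => φ (v j)) i := by
  unfold Dat.z₂
  rw [map_add, map_mul, map_pow, map_mul, map_mul, map_pow, d.map_X₂, AlgHom.commutes]

omit [Fintype ι₀] [Fintype ι₁] [Fintype ι₂] in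
theorem NatF.map_K (k : K) : φ (algebraMap K R k) = algebraMap K R' k := by
  rw [IsScalarTower.algebraMap_apply K A R, AlgHom.commutes, ← IsScalarTower.algebraMap_apply]

theorem Dat.map_Fg (r a b k e : ℕ) :
    φ (d.Fg v r a b k e) = d.Fg (fun j => φ (v j)) r a b k e := by
  unfold Dat.Fg
  simp only [map_add, map_mul, map_pow, map_sum, map_sub, map_one, d.map_X₀, d.map_X₁, d.map_X₂,
    d.map_z₀, d.map_z₁, d.map_z₂, NatF.map_K φ]

theorem Dat.map_Fs : φ (d.Fs v) = d.Fs (fun j => φ (v j)) := by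
  have h : ∀ i, φ ((divX ((C (v (iE 2)) + X) ^ n * (C (v (iE 2) - 1) + X) ^ (p - 1))).eval
      (d.z₂ v i - v (iE 2))) =
      (divX ((C (φ (v (iE 2))) + X) ^ n * (C (φ (v (iE 2)) - 1) + X) ^ (p - 1))).eval
      (d.z₂ (fun j => φ (v j)) i - φ (v (iE 2))) := by
    intro i
    have h1 := eval_divX_map (φ : R →+* R')
      ((C (v (iE 2)) + X) ^ n * (C (v (iE 2) - 1) + X) ^ (p - 1)) (d.z₂ v i - v (iE 2))
    rw [Polynomial.map_mul, Polynomial.map_pow, Polynomial.map_pow, Polynomial.map_add,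
      Polynomial.map_add, map_C, map_C, map_X] at h1
    have h2 : (φ : R →+* R') (d.z₂ v i - v (iE 2)) = d.z₂ (fun j => φ (v j)) i - φ (v (iE 2)) := by
      change φ (d.z₂ v i - v (iE 2)) = _
      rw [map_sub, d.map_z₂]
    have h3 : (φ : R →+* R') (v (iE 2) - 1) = φ (v (iE 2)) - 1 := by
      change φ (v (iE 2) - 1) = _
      rw [map_sub, map_one]
    rw [h2, h3] at h1
    exact h1
  unfold Dat.Fs
  rw [map_add, map_add, map_mul, map_mul, map_mul, map_sum, map_sum, map_sum]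
  congr 1
  · simp only [map_mul, map_pow, map_sub, map_one, d.map_X₀, d.map_X₁,
      d.map_z₀, d.map_z₁, NatF.map_K φ]
  · rw [map_pow, map_pow, AlgHom.commutes]
    congr 1
    refine Finset.sum_congr rfl fun i _ => ?_
    rw [map_mul, map_mul, h, map_pow, NatF.map_K φ, map_mul, d.map_X₂]

/-- ROW D5b: naturality of the system -/
theorem Dat.map_F (j : Idx p s n) : φ (d.F v j) = d.F (fun i => φ (v i)) j := by
  rcases j with t | t | t | k
  · exact d.map_Fg φ v _ _ _ _ _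
  · exact d.map_Fg φ v _ _ _ _ _
  · exact d.map_Fg φ v _ _ _ _ _
  · fin_cases k
    · exact d.map_Fs φ v
    · exact d.map_Fg φ v _ _ _ _ _
    · exact d.map_Fg φ v _ _ _ _ _
    · rfl
    · change φ (d.Fg v 1 n (p - 1) 1 ((p - 1) * (p ^ (s - 1) - 2) * n) -
          algebraMap A R d.ν ^ ((p - 1) * (p ^ (s - 1) - 2)) *
            v (iE 4) ^ ((p - 1) * (p ^ (s - 1) - 2))) = _
      rw [map_sub, d.map_Fg, map_mul, map_pow, map_pow, AlgHom.commutes]
      rfl

end

end Pool.Agent.BCX4
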