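import Mathlib

/-!
# Row D0: from the associated graded algebra to functions

If the monomials with exponents in `D` span modulo the relations `y j ^ p = 0` and
`(∑ y j) ^ e = 0`, then they span for all relations with these leading terms.
-/

set_option autoImplicit false

namespace Pool.Agent.BCX4

open Polynomial

namespace Transfer

/-- the monomial with exponents `d j`, `j < s` -/
def mon {A : Type} [CommRing A] (s : ℕ) (y : ℕ → A) (d : ℕ → ℕ) : A :=
  ∏ j ∈ Finset.range s, y j ^ d j

theorem mon_congr {A : Type} [CommRing A] {s : ℕ} {y y' : ℕ → A} {d d' : ℕ → ℕ}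
    (hy : ∀ j < s, y j = y' j) (hd : ∀ j < s, d j = d' j) : mon s y d = mon s y' d' :=
  Finset.prod_congr rfl fun j hj => by
    rw [hy j (Finset.mem_range.1 hj), hd j (Finset.mem_range.1 hj)]

theorem mon_mul {A : Type} [CommRing A] (s : ℕ) (y : ℕ → A) (d d' : ℕ → ℕ) :
    mon s y d * mon s y d' = mon s y (fun j => d j + d' j) := by
  simp only [mon, ← Finset.prod_mul_distrib, pow_add]

theorem mon_zero {A : Type} [CommRing A] (s : ℕ) (y : ℕ → A) : mon s y (fun _ => 0) = 1 := by
  simp [mon]

theorem mon_single {A : Type} [CommRing A] {s j : ℕ} (hj : j < s) (y : ℕ → A) (m : ℕ) :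
    mon s y (fun i => if i = j then m else 0) = y j ^ m := by
  rw [mon, Finset.prod_eq_single j]
  · simp
  · intro b _ hb
    simp [hb]
  · intro h
    exact absurd (Finset.mem_range.2 hj) h

section Rees

variable {K B : Type} [Field K] [CommRing B] [Algebra K B] (s : ℕ) (x : ℕ → B)

/-- the filtration by the degree -/
def V (i : ℕ) : Submodule K B :=
  Submodule.span K {b | ∃ d : ℕ → ℕ, ∑ j ∈ Finset.range s, d j ≤ i ∧ b = mon s x d}

variable {s x}

theorem mon_mem (d : ℕ → ℕ) {i : ℕ} (h : ∑ j ∈ Finset.range s, d j ≤ i) :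
    mon s x d ∈ V (K := K) s x i := Submodule.subset_span ⟨d, h, rfl⟩

theorem V_mono {i j : ℕ} (h : i ≤ j) : V (K := K) s x i ≤ V s x j := by
  refine Submodule.span_mono ?_
  rintro b ⟨d, hd, rfl⟩
  exact ⟨d, hd.trans h, rfl⟩

theorem V_mul {i j : ℕ} {a b : B} (ha : a ∈ V (K := K) s x i) (hb : b ∈ V (K := K) s x j) :
    a * b ∈ V (K := K) s x (i + j) := by
  have h := Submodule.mul_mem_mul ha hb
  rw [V, V, Submodule.span_mul_span] at h
  refine Submodule.span_mono ?_ h
  rintro _ ⟨_, ⟨d, hd, rfl⟩, _, ⟨d', hd', rfl⟩, rfl⟩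
  refine ⟨fun j => d j + d' j, ?_, mon_mul s x d d'⟩
  rw [Finset.sum_add_distrib]
  omega

variable (K s x) in
/-- the Rees algebra of the filtration -/
def rees : Subalgebra K B[X] where
  carrier := {f | ∀ i, f.coeff i ∈ V (K := K) s x i}
  mul_mem' := by
    intro f g hf hg i
    rw [coeff_mul]
    refine Submodule.sum_mem _ fun ab hab => ?_
    rw [← Finset.HasAntidiagonal.mem_antidiagonal.1 hab]
    exact V_mul (hf _) (hg _)
  add_mem' := by
    intro f g hf hg i
    rw [coeff_add]
    exact Submodule.add_mem _ (hf i) (hg i)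
  algebraMap_mem' := by
    intro c i
    rw [Polynomial.algebraMap_apply, coeff_C]
    split_ifs with h
    · rw [Algebra.algebraMap_eq_smul_one]
      refine Submodule.smul_mem _ _ ?_
      rw [← mon_zero s x]
      exact mon_mem _ (by simp)
    · exact Submodule.zero_mem _

/-- the generators of degree one -/
theorem gen_mem {j : ℕ} (hj : j < s) : C (x j) * X ∈ rees K s x := by
  intro i
  rw [coeff_C_mul_X]
  split_ifs with h
  · subst h
    have h1 : x j = mon s x (fun i => if i = j then 1 else 0) := by rw [mon_single hj, pow_one]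
    rw [h1]
    refine mon_mem _ ?_
    rw [Finset.sum_ite_eq']
    split_ifs <;> simp
  · exact Submodule.zero_mem _

theorem X_mem : X ∈ rees K s x := by
  intro i
  rw [coeff_X]
  split_ifs with h
  · subst h
    rw [← mon_zero s x]
    exact mon_mem _ (by simp)
  · exact Submodule.zero_mem _

end Rees

/-- lifting from a quotient -/
theorem lift_span {K R A : Type} [Field K] [CommRing R] [CommRing A] [Algebra K R] [Algebra K A]
    (π : R →ₐ[K] A) (M : Set R) (a : R) (h : π a ∈ Submodule.span K (π '' M)) :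
    ∃ u ∈ Submodule.span K M, π (a - u) = 0 := by
  have h1 : π a ∈ (Submodule.span K M).map π.toLinearMap := by
    rw [Submodule.map_span]
    exact h
  obtain ⟨u, hu, hu'⟩ := h1
  refine ⟨u, hu, ?_⟩
  rw [map_sub, sub_eq_zero]
  exact hu'.symm

/-- the image of a span under a linear map -/
theorem map_span_le {K R B : Type} [Field K] [AddCommGroup R] [AddCommGroup B] [Module K R]
    [Module K B] (φ : R →ₗ[K] B) (M : Set R) (N : Submodule K B) (h : ∀ a ∈ M, φ a ∈ N) :
    ∀ u ∈ Submodule.span K M, φ u ∈ N := by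
  intro u hu
  have h1 : Submodule.span K M ≤ N.comap φ := Submodule.span_le.2 h
  exact h1 hu

/-- the main step, for an abstract copy `R` of the Rees algebra -/
theorem aux {K : Type} [Field K] {p s e : ℕ} (hp : 2 ≤ p) (D : Set (ℕ → ℕ))
    (halg : ∀ (A : Type) [CommRing A] [Algebra K A] (y : ℕ → A), (∀ j < s, y j ^ p = 0) →
      (∑ j ∈ Finset.range s, y j) ^ e = 0 →
      ∀ d : ℕ → ℕ, mon s y d ∈ Submodule.span K (mon s y '' D))
    {B : Type} [CommRing B] [Algebra K B] (x : ℕ → B) (hx : ∀ j < s, ∃ i < s, x j ^ p = x i)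
    (hT : ∃ c : ℕ → K, (∑ j ∈ Finset.range s, x j) ^ e =
      ∑ i ∈ Finset.range e, c i • (∑ j ∈ Finset.range s, x j) ^ i)
    {R : Type} [CommRing R] [Algebra K R] (ι : R →ₐ[K] B[X]) (hι : Function.Injective ι) (lam : R)
    (hlam : ι lam = X) (g : ℕ → R) (hg : ∀ j < s, ι (g j) = C (x j) * X)
    (hcoef : ∀ (a : R) (i : ℕ), (ι a).coeff i ∈ V (K := K) s x i) (n : ℕ) :
    V (K := K) s x n ≤ Submodule.span K (mon s x '' D) := by
  classical
  let π : R →ₐ[K] R ⧸ Ideal.span {lam} := Ideal.Quotient.mkₐ K (Ideal.span {lam})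
  have hπ : ∀ a, π a = 0 ↔ ∃ b, a = lam * b := by
    intro a
    rw [Ideal.Quotient.mkₐ_eq_mk, Ideal.Quotient.eq_zero_iff_mem, Ideal.mem_span_singleton]
    rfl
  have hmon : ∀ d : ℕ → ℕ, ι (mon s g d) =
      C (mon s x d) * X ^ (∑ j ∈ Finset.range s, d j) := by
    intro d
    rw [mon, mon, map_prod, ← Finset.prod_pow_eq_pow_sum, map_prod, ← Finset.prod_mul_distrib]
    refine Finset.prod_congr rfl fun j hj => ?_
    rw [map_pow, hg j (Finset.mem_range.1 hj), mul_pow, C_pow]
  have hmonπ : ∀ d : ℕ → ℕ, mon s (fun j => π (g j)) d = π (mon s g d) := by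
    intro d
    simp only [mon, map_prod, map_pow]
  have hsum : ι (∑ j ∈ Finset.range s, g j) = C (∑ j ∈ Finset.range s, x j) * X := by
    rw [map_sum, map_sum, Finset.sum_mul]
    exact Finset.sum_congr rfl fun j hj => hg j (Finset.mem_range.1 hj)
  have h1 : ∀ j < s, (fun j => π (g j)) j ^ p = 0 := by
    intro j hj
    obtain ⟨i, hi, hij⟩ := hx j hj
    change π (g j) ^ p = 0
    rw [← map_pow, hπ]
    refine ⟨g i * lam ^ (p - 2), ?_⟩
    apply hι
    rw [map_pow, map_mul, map_mul, map_pow, hg j hj, hg i hi, hlam, mul_pow, ← C_pow, hij]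
    have h2 : X ^ p = (X : B[X]) * (X * X ^ (p - 2)) := by
      rw [← pow_succ', ← pow_succ']
      congr 1
      omega
    rw [h2]
    ring
  have h2 : (∑ j ∈ Finset.range s, (fun j => π (g j)) j) ^ e = 0 := by
    obtain ⟨c, hc⟩ := hT
    change (∑ j ∈ Finset.range s, π (g j)) ^ e = 0
    rw [← map_sum, ← map_pow, hπ]
    refine ⟨∑ i ∈ Finset.range e, c i • ((∑ j ∈ Finset.range s, g j) ^ i * lam ^ (e - 1 - i)), ?_⟩
    apply hι
    rw [map_pow, map_mul, hsum, hlam, mul_pow, ← C_pow, hc, map_sum, map_sum, Finset.sum_mul,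
      Finset.mul_sum]
    refine Finset.sum_congr rfl fun i hi => ?_
    rw [← smul_C, map_smul ι, map_mul ι, map_pow ι, map_pow ι, hlam, hsum, mul_pow, ← C_pow]
    have h3 : (X : B[X]) ^ e = X * X ^ i * X ^ (e - 1 - i) := by
      rw [← pow_succ', ← pow_add]
      congr 1
      have := Finset.mem_range.1 hi
      omega
    rw [h3, smul_mul_assoc, mul_smul_comm]
    congr 1
    ring
  -- induction on the degree
  induction n using Nat.strong_induction_on with
  | _ n ih =>
  rw [V, Submodule.span_le]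
  rintro _ ⟨d, hd, rfl⟩
  obtain ⟨u, hu, hu'⟩ := lift_span π (mon s g '' D) (mon s g d) (by
    rw [← hmonπ]
    have h4 := halg (R ⧸ Ideal.span {lam}) (fun j => π (g j)) h1 h2 d
    have h5 : π '' (mon s g '' D) = mon s (fun j => π (g j)) '' D := by
      rw [Set.image_image]
      exact Set.image_congr fun d _ => (hmonπ d).symm
    rw [h5]
    exact h4)
  obtain ⟨b, hb⟩ := (hπ _).1 hu'
  set m := ∑ j ∈ Finset.range s, d j with hm
  -- the coefficients
  have h5 : mon s x d = (ι u).coeff m + (ι (lam * b)).coeff m := by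
    rw [← hb, map_sub, coeff_sub, hmon, coeff_C_mul_X_pow, if_pos hm]
    ring
  rw [SetLike.mem_coe, h5]
  refine Submodule.add_mem _ ?_ ?_
  · refine map_span_le (((lcoeff B m).restrictScalars K).comp ι.toLinearMap)
      (mon s g '' D) (Submodule.span K (mon s x '' D)) ?_ u hu
    rintro _ ⟨d', hd', rfl⟩
    change (ι (mon s g d')).coeff m ∈ _
    rw [hmon, coeff_C_mul_X_pow]
    split_ifs with h8
    · exact Submodule.subset_span ⟨d', hd', rfl⟩
    · exact Submodule.zero_mem _
  · rw [map_mul, hlam]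
    rcases Nat.eq_zero_or_pos m with h6 | h6
    · rw [h6, coeff_X_mul_zero]
      exact Submodule.zero_mem _
    · obtain ⟨m', hm'⟩ : ∃ m', m = m' + 1 := ⟨m - 1, by omega⟩
      rw [hm', coeff_X_mul]
      exact ih m' (by omega) (hcoef b m')

end Transfer

open Transfer

/-- ROW D0: if the monomials with exponents in `D` span modulo all relations `y j ^ p = 0` (`j < s`)
and `(∑ y j) ^ e = 0`, then they span the algebra generated by elements `x j` (`j < s`) such that
the `x j ^ p` are among the `x i` and `(∑ x j) ^ e` is a combination of lower powers of `∑ x j` -/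
theorem transfer {K : Type} [Field K] {p s e : ℕ} (hp : 2 ≤ p) (D : Set (ℕ → ℕ))
    (halg : ∀ (A : Type) [CommRing A] [Algebra K A] (y : ℕ → A), (∀ j < s, y j ^ p = 0) →
      (∑ j ∈ Finset.range s, y j) ^ e = 0 →
      ∀ d : ℕ → ℕ, mon s y d ∈ Submodule.span K (mon s y '' D))
    {B : Type} [CommRing B] [Algebra K B] (x : ℕ → B) (hx : ∀ j < s, ∃ i < s, x j ^ p = x i)
    (hT : ∃ c : ℕ → K, (∑ j ∈ Finset.range s, x j) ^ e =
      ∑ i ∈ Finset.range e, c i • (∑ j ∈ Finset.range s, x j) ^ i) (d : ℕ → ℕ) :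
    mon s x d ∈ Submodule.span K (mon s x '' D) := by
  classical
  refine aux (R := rees K s x) hp D halg x hx hT (rees K s x).val Subtype.val_injective
    ⟨X, X_mem⟩ rfl (fun j => if h : j < s then ⟨C (x j) * X, gen_mem h⟩ else 0) ?_
    (fun a i => a.2 i) _ (mon_mem d le_rfl)
  intro j hj
  rw [dif_pos hj]
  rfl

end Pool.Agent.BCX4
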