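import Pool.Agent.BCX4.Defs
import Pool.Agent.BCX4.Transfer

/-!
# Row D1: independence of the rows on the elements with trace in a given set
-/

set_option autoImplicit false

namespace Pool.Agent.BCX4

open Transfer

namespace Nd1

/-- the exponents of the rows, and the one of the extra function -/
def Row (p e : ℕ) : ℕ → Set (ℕ → ℕ)
  | 0 => ∅
  | 1 => {d | d 0 < e}
  | (s + 2) => {d | (d (s + 1) = p - 1 ∧ d ∈ Row p e (s + 1)) ∨
      (d (s + 1) < e ∧ d 0 ≤ p - 2 ∧ ∀ j ≤ s, d j ≤ p - 1)}

/-- `Row` depends only on the first entries -/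
theorem row_congr {p e : ℕ} : ∀ (s : ℕ) {d d' : ℕ → ℕ}, (∀ j < s, d j = d' j) →
    d ∈ Row p e s → d' ∈ Row p e s
  | 0, _, _, _, h => h
  | 1, d, d', hd, h => by
    change d' 0 < e
    rw [← hd 0 (by omega)]
    exact h
  | s + 2, d, d', hd, h => by
    rcases h with ⟨h1, h2⟩ | ⟨h1, h2, h3⟩
    · left
      exact ⟨by rw [← hd _ (by omega)]; exact h1, row_congr (s + 1) (fun j hj => hd j (by omega)) h2⟩
    · right
      refine ⟨by rw [← hd _ (by omega)]; exact h1, by rw [← hd _ (by omega)]; exact h2,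
        fun j hj => ?_⟩
      rw [← hd _ (by omega)]
      exact h3 j hj

theorem choose_pred {p : ℕ} [Fact p.Prime] (A : Type) [CommRing A] [CharP A p] :
    ∀ j < p, ((p - 1).choose j : A) = (-1) ^ j := by
  have hp : p.Prime := Fact.out
  intro j
  induction j with
  | zero => simp
  | succ j ih =>
    intro hj
    have h1 : (p.choose (j + 1) : A) = 0 := by
      rw [CharP.cast_eq_zero_iff A p]
      exact hp.dvd_choose_self (by omega) hj
    have h2 : p.choose (j + 1) = (p - 1).choose j + (p - 1).choose (j + 1) := by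
      obtain ⟨m, hm⟩ : ∃ m, p = m + 1 := ⟨p - 1, by omega⟩
      rw [hm, Nat.choose_succ_succ]
      rfl
    rw [h2, Nat.cast_add, ih (by omega)] at h1
    rw [pow_succ]
    linear_combination h1

/-- the geometric sum in characteristic `p` -/
theorem sub_pow_pred {p : ℕ} [Fact p.Prime] {A : Type} [CommRing A] [CharP A p] (a b : A) :
    (a - b) ^ (p - 1) = ∑ j ∈ Finset.range p, a ^ j * b ^ (p - 1 - j) := by
  have hp : p.Prime := Fact.out
  have h1 : p - 1 + 1 = p := by
    have := hp.pos
    omega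
  rw [sub_eq_add_neg, add_pow, h1]
  refine Finset.sum_congr rfl fun j hj => ?_
  have hj' := Finset.mem_range.1 hj
  rw [choose_pred A j hj', neg_pow b, mul_assoc]
  congr 1
  rw [mul_comm, ← mul_assoc, ← pow_add]
  have h2 : j + (p - 1 - j) = p - 1 := by omega
  rw [h2]
  have h3 : (-1 : A) ^ (p - 1) = 1 := by
    rw [← choose_pred A (p - 1) (by omega), Nat.choose_self, Nat.cast_one]
  rw [h3, one_mul]

/-- the formula for `Z ^ (p - 1)` -/
theorem pow_pred_eq {p : ℕ} [Fact p.Prime] {A : Type} [CommRing A] [CharP A p] {e : ℕ} (hep : e < p)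
    {Y Z : A} (hT : (Y + Z) ^ e = 0) :
    Z ^ (p - 1) = ∑ k ∈ Finset.range e, (e.choose (k + 1) : A) * (Z ^ k * Y ^ (p - 1 - k)) := by
  have h1 : Z ^ (p - 1) = ∑ j ∈ Finset.range e, (Y + Z) ^ j * Y ^ (p - 1 - j) := by
    have h2 := sub_pow_pred (p := p) (Y + Z) Y
    rw [add_sub_cancel_left] at h2
    rw [h2]
    symm
    refine Finset.sum_subset (Finset.range_mono hep.le) fun j _ hj => ?_
    rw [Finset.mem_range, not_lt] at hj
    obtain ⟨i, rfl⟩ := Nat.exists_eq_add_of_le hj
    rw [pow_add, hT, zero_mul, zero_mul]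
  rw [h1]
  -- induction on the number of terms
  have key : ∀ m ≤ e, ∑ j ∈ Finset.range m, (Y + Z) ^ j * Y ^ (p - 1 - j) =
      ∑ k ∈ Finset.range m, (m.choose (k + 1) : A) * (Z ^ k * Y ^ (p - 1 - k)) := by
    intro m hm
    induction m with
    | zero => simp
    | succ m ih =>
      rw [Finset.sum_range_succ, ih (by omega), add_comm Y Z, add_pow, Finset.sum_mul]
      have h3 : ∀ k ∈ Finset.range (m + 1), Z ^ k * Y ^ (m - k) * (m.choose k : A) *
          Y ^ (p - 1 - m) = (m.choose k : A) * (Z ^ k * Y ^ (p - 1 - k)) := by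
        intro k hk
        have hk' := Finset.mem_range.1 hk
        have h4 : p - 1 - k = (m - k) + (p - 1 - m) := by omega
        rw [h4, pow_add]
        ring
      rw [Finset.sum_congr rfl h3]
      have h5 : ∑ k ∈ Finset.range m, (m.choose (k + 1) : A) * (Z ^ k * Y ^ (p - 1 - k)) =
          ∑ k ∈ Finset.range (m + 1), (m.choose (k + 1) : A) * (Z ^ k * Y ^ (p - 1 - k)) := by
        rw [Finset.sum_range_succ, Nat.choose_succ_self, Nat.cast_zero, zero_mul, add_zero]
      rw [h5, ← Finset.sum_add_distrib]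
      refine Finset.sum_congr rfl fun k _ => ?_
      rw [Nat.choose_succ_succ, Nat.cast_add]
      ring
  exact key e le_rfl

/-- products of spans -/
theorem span_mul_mem {K A : Type} [Field K] [CommRing A] [Algebra K A] {S T : Set A}
    (W : Submodule K A) (h : ∀ a ∈ S, ∀ b ∈ T, a * b ∈ W) {a b : A} (ha : a ∈ Submodule.span K S)
    (hb : b ∈ Submodule.span K T) : a * b ∈ W := by
  have h1 := Submodule.mul_mem_mul ha hb
  rw [Submodule.span_mul_span] at h1
  refine (Submodule.span_le.2 ?_) h1
  rintro _ ⟨a, ha, b, hb, rfl⟩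
  exact h a ha b hb

section Frame

variable (K : Type) {A : Type} [Field K] [CommRing A] [Algebra K A]

/-- all polynomials in the first `s` elements -/
def All (s : ℕ) (y : ℕ → A) : Submodule K A := Submodule.span K {b | ∃ d, b = mon s y d}

/-- polynomials of degree at most `p - 2` in the first element -/
def Mm (p s : ℕ) (y : ℕ → A) : Submodule K A :=
  Submodule.span K {b | ∃ d : ℕ → ℕ, d 0 ≤ p - 2 ∧ b = mon s y d}

/-- polynomials in the other elements -/
def Cc (s : ℕ) (y : ℕ → A) : Submodule K A :=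
  Submodule.span K {b | ∃ d : ℕ → ℕ, d 0 = 0 ∧ b = mon s y d}

variable {K} {s : ℕ} {y : ℕ → A}

theorem all_mul {a b : A} (ha : a ∈ All K s y) (hb : b ∈ All K s y) : a * b ∈ All K s y := by
  refine span_mul_mem _ ?_ ha hb
  rintro _ ⟨d, rfl⟩ _ ⟨d', rfl⟩
  exact Submodule.subset_span ⟨_, mon_mul s y d d'⟩

theorem cc_mul {a b : A} (ha : a ∈ Cc K s y) (hb : b ∈ Cc K s y) : a * b ∈ Cc K s y := by
  refine span_mul_mem _ ?_ ha hb
  rintro _ ⟨d, hd, rfl⟩ _ ⟨d', hd', rfl⟩
  exact Submodule.subset_span ⟨fun j => d j + d' j, by simp [hd, hd'], mon_mul s y d d'⟩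

theorem one_mem_cc : (1 : A) ∈ Cc K s y :=
  Submodule.subset_span ⟨fun _ => 0, rfl, (mon_zero s y).symm⟩

theorem one_mem_all : (1 : A) ∈ All K s y :=
  Submodule.subset_span ⟨fun _ => 0, (mon_zero s y).symm⟩

theorem all_pow {a : A} (ha : a ∈ All K s y) (n : ℕ) : a ^ n ∈ All K s y := by
  induction n with
  | zero =>
    rw [pow_zero]
    exact one_mem_all
  | succ n ih =>
    rw [pow_succ]
    exact all_mul ih ha

theorem cc_pow {a : A} (ha : a ∈ Cc K s y) (n : ℕ) : a ^ n ∈ Cc K s y := by
  induction n with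
  | zero =>
    rw [pow_zero]
    exact one_mem_cc
  | succ n ih =>
    rw [pow_succ]
    exact cc_mul ih ha

theorem cc_le : Cc K s y ≤ All K s y := by
  refine Submodule.span_mono ?_
  rintro _ ⟨d, -, rfl⟩
  exact ⟨d, rfl⟩

theorem pow_mul_mem {p a : ℕ} (hs : 0 < s) (ha : a ≤ p - 2) {c : A} (hc : c ∈ Cc K s y) :
    y 0 ^ a * c ∈ Mm K p s y := by
  refine map_span_le (LinearMap.mulLeft K (y 0 ^ a)) _ _ ?_ c hc
  rintro _ ⟨d, hd, rfl⟩
  refine Submodule.subset_span ⟨fun j => (if j = 0 then a else 0) + d j, by simp [hd, ha], ?_⟩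
  rw [← mon_mul, mon_single hs]
  rfl

/-- the sum of the elements except the first one -/
theorem sum_mem (hs : 0 < s) : ∃ c ∈ Cc K s y, ∑ j ∈ Finset.range s, y j = y 0 + c := by
  obtain ⟨t, rfl⟩ : ∃ t, s = t + 1 := ⟨s - 1, by omega⟩
  refine ⟨∑ j ∈ Finset.range t, y (j + 1), Submodule.sum_mem _ fun j hj => ?_, ?_⟩
  · have hj' := Finset.mem_range.1 hj
    refine Submodule.subset_span ⟨fun i => if i = j + 1 then 1 else 0, by simp, ?_⟩
    rw [mon_single (by omega), pow_one]
  · rw [Finset.sum_range_succ', add_comm]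

theorem sum_all : ∑ j ∈ Finset.range s, y j ∈ All K s y := by
  refine Submodule.sum_mem _ fun j hj => ?_
  refine Submodule.subset_span ⟨fun i => if i = j then 1 else 0, ?_⟩
  rw [mon_single (Finset.mem_range.1 hj), pow_one]

theorem sum_pow_mem {p m : ℕ} (hs : 0 < s) (hm : m ≤ p - 2) {c : A} (hc : c ∈ Cc K s y) :
    (∑ j ∈ Finset.range s, y j) ^ m * c ∈ Mm K p s y := by
  obtain ⟨b, hb, h⟩ := sum_mem (K := K) (y := y) hs
  rw [h, add_pow, Finset.sum_mul]
  refine Submodule.sum_mem _ fun k hk => ?_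
  have hk' := Finset.mem_range.1 hk
  have h1 : y 0 ^ k * b ^ (m - k) * (m.choose k : A) * c =
      (m.choose k) • (y 0 ^ k * (b ^ (m - k) * c)) := by
    rw [nsmul_eq_mul]
    ring
  rw [h1]
  exact Submodule.smul_of_tower_mem _ _ (pow_mul_mem hs (by omega) (cc_mul (cc_pow hb _) hc))

theorem sum_pow_pred {p : ℕ} (hp : 2 ≤ p) (hs : 0 < s) {c : A} (hc : c ∈ Cc K s y) :
    ∃ b ∈ Mm K p s y, (∑ j ∈ Finset.range s, y j) ^ (p - 1) * c = y 0 ^ (p - 1) * c + b := by
  obtain ⟨b, hb, h⟩ := sum_mem (K := K) (y := y) hs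
  rw [h, add_pow, Finset.sum_mul, Finset.sum_range_succ]
  refine ⟨_, Submodule.sum_mem _ fun k hk => ?_, by
    rw [Nat.choose_self, Nat.sub_self, pow_zero, Nat.cast_one, mul_one, mul_one, add_comm]⟩
  have hk' := Finset.mem_range.1 hk
  have h1 : y 0 ^ k * b ^ (p - 1 - k) * ((p - 1).choose k : A) * c =
      ((p - 1).choose k) • (y 0 ^ k * (b ^ (p - 1 - k) * c)) := by
    rw [nsmul_eq_mul]
    ring
  rw [h1]
  exact Submodule.smul_of_tower_mem _ _ (pow_mul_mem hs (by omega) (cc_mul (cc_pow hb _) hc))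

theorem mon_eq_zero {p : ℕ} (hy : ∀ j < s, y j ^ p = 0) {d : ℕ → ℕ} {j : ℕ} (hj : j < s)
    (hd : p ≤ d j) : mon s y d = 0 := by
  rw [mon, Finset.prod_eq_zero (Finset.mem_range.2 hj)]
  obtain ⟨m, hm⟩ := Nat.exists_eq_add_of_le hd
  rw [hm, pow_add, hy j hj, zero_mul]

theorem mon_succ (d : ℕ → ℕ) : mon (s + 1) y d = mon s y d * y s ^ d s := by
  rw [mon, Finset.prod_range_succ]
  rfl

/-- rows of the last kind -/
theorem row_last {p e k : ℕ} (hk : k < e) (hy : ∀ j < s + 1, y j ^ p = 0) {m : A}
    (hm : m ∈ Mm K p (s + 1) y) :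
    y (s + 1) ^ k * m ∈ Submodule.span K (mon (s + 2) y '' Row p e (s + 2)) := by
  refine map_span_le (LinearMap.mulLeft K (y (s + 1) ^ k)) _ _ ?_ m hm
  rintro _ ⟨d, hd, rfl⟩
  change y (s + 1) ^ k * mon (s + 1) y d ∈ _
  by_cases h : ∀ j ≤ s, d j ≤ p - 1
  · refine Submodule.subset_span ⟨fun j => if j = s + 1 then k else d j, ?_, ?_⟩
    · right
      refine ⟨by simpa using hk, by simpa using hd, fun j hj => ?_⟩
      have : j ≠ s + 1 := by omega
      simpa [this] using h j hj
    · rw [mon_succ, mul_comm]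
      simp only [if_true]
      congr 1
      refine mon_congr (fun _ _ => rfl) fun j hj => ?_
      have : j ≠ s + 1 := by omega
      simp [this]
  · push Not at h
    obtain ⟨j, hj, hj'⟩ := h
    rw [mon_eq_zero hy (by omega : j < s + 1) (by omega), mul_zero]
    exact Submodule.zero_mem _

/-- the other rows -/
theorem row_pred {p e : ℕ} {u : A}
    (hu : u ∈ Submodule.span K (mon (s + 1) y '' Row p e (s + 1))) :
    y (s + 1) ^ (p - 1) * u ∈ Submodule.span K (mon (s + 2) y '' Row p e (s + 2)) := by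
  refine map_span_le (LinearMap.mulLeft K (y (s + 1) ^ (p - 1))) _ _ ?_ u hu
  rintro _ ⟨d, hd, rfl⟩
  change y (s + 1) ^ (p - 1) * mon (s + 1) y d ∈ _
  refine Submodule.subset_span ⟨fun j => if j = s + 1 then p - 1 else d j, ?_, ?_⟩
  · left
    refine ⟨by simp, row_congr (s + 1) (fun j hj => ?_) hd⟩
    have : j ≠ s + 1 := by omega
    simp [this]
  · rw [mon_succ, mul_comm]
    simp only [if_true]
    congr 1
    refine mon_congr (fun _ _ => rfl) fun j hj => ?_
    have : j ≠ s + 1 := by omega
    simp [this]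

end Frame

/-- the algebraic statement -/
theorem span_row {K : Type} [Field K] {p e : ℕ} [Fact p.Prime] [CharP K p] (hep : e < p) : ∀ (s : ℕ) (A : Type) [CommRing A] [Algebra K A] (y : ℕ → A),
    (∀ j < s + 1, y j ^ p = 0) → (∑ j ∈ Finset.range (s + 1), y j) ^ e = 0 →
    ∀ d, mon (s + 1) y d ∈ Submodule.span K (mon (s + 1) y '' Row p e (s + 1)) := by
  have hp : p.Prime := Fact.out
  have hp2 : 2 ≤ p := hp.two_le
  intro s
  induction s with
  | zero =>
    intro A _ _ y hy hT d
    rw [zero_add, Finset.sum_range_one] at hT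
    rcases lt_or_ge (d 0) e with h | h
    · exact Submodule.subset_span ⟨d, h, rfl⟩
    · have h1 : mon (0 + 1) y d = 0 := by
        obtain ⟨m, hm⟩ := Nat.exists_eq_add_of_le h
        rw [mon_succ, hm, pow_add, hT, zero_mul, mul_zero]
      rw [h1]
      exact Submodule.zero_mem _
  | succ s ih =>
    intro A _ _ y hy hT d
    rcases subsingleton_or_nontrivial A with hA | hA
    · rw [Subsingleton.elim (mon (s + 1 + 1) y d) 0]
      exact Submodule.zero_mem _
    have hchA : CharP A p := charP_of_injective_algebraMap (algebraMap K A).injective p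
    set U := Submodule.span K (mon (s + 2) y '' Row p e (s + 2)) with hU
    set Y := ∑ j ∈ Finset.range (s + 1), y j with hY
    set Z := y (s + 1) with hZ
    have hTYZ : (Y + Z) ^ e = 0 := by
      rw [← hT, Finset.sum_range_succ _ (s + 1)]
    have hy1 : ∀ j < s + 1, y j ^ p = 0 := fun j hj => hy j (by omega)
    have hYp : Y ^ p = 0 := by
      rw [hY, sum_pow_char p]
      exact Finset.sum_eq_zero fun j hj => hy1 j (Finset.mem_range.1 hj)
    have hYge : ∀ m, p ≤ m → Y ^ m = 0 := by
      intro m hm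
      obtain ⟨i, rfl⟩ := Nat.exists_eq_add_of_le hm
      rw [pow_add, hYp, zero_mul]
    have hZp : Z ^ (p - 1) = ∑ k ∈ Finset.range e, (e.choose (k + 1) : A) *
        (Z ^ k * Y ^ (p - 1 - k)) := pow_pred_eq hep hTYZ
    have hZY : Z ^ (p - 1) * Y ^ e = 0 := by
      rw [hZp, Finset.sum_mul]
      refine Finset.sum_eq_zero fun k hk => ?_
      have hk' := Finset.mem_range.1 hk
      rw [mul_assoc, mul_assoc, ← pow_add, hYge _ (by omega), mul_zero, mul_zero]
    -- F3
    have F3 : ∀ h ∈ All K (s + 1) y, Z ^ (p - 1) * h ∈ U := by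
      intro h hh
      refine map_span_le (LinearMap.mulLeft K (Z ^ (p - 1))) _ _ ?_ h hh
      rintro _ ⟨d, rfl⟩
      change Z ^ (p - 1) * mon (s + 1) y d ∈ U
      let π : A →ₐ[K] A ⧸ Ideal.span {Y ^ e} := Ideal.Quotient.mkₐ K (Ideal.span {Y ^ e})
      have hmonπ : ∀ d : ℕ → ℕ, mon (s + 1) (fun j => π (y j)) d = π (mon (s + 1) y d) := by
        intro d
        simp only [mon, map_prod, map_pow]
      obtain ⟨u, hu, hu'⟩ := lift_span π (mon (s + 1) y '' Row p e (s + 1)) (mon (s + 1) y d) (by
        rw [← hmonπ]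
        have h4 := ih (A ⧸ Ideal.span {Y ^ e}) (fun j => π (y j)) (fun j hj => by
          rw [← map_pow, hy1 j hj, map_zero]) (by
          rw [← map_sum, ← map_pow]
          exact Ideal.Quotient.eq_zero_iff_mem.2 (Ideal.mem_span_singleton_self _)) d
        have h5 : π '' (mon (s + 1) y '' Row p e (s + 1)) =
            mon (s + 1) (fun j => π (y j)) '' Row p e (s + 1) := by
          rw [Set.image_image]
          exact Set.image_congr fun d _ => (hmonπ d).symm
        rw [h5]
        exact h4)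
      obtain ⟨b, hb⟩ := Ideal.mem_span_singleton.1 (Ideal.Quotient.eq_zero_iff_mem.1 hu')
      have h6 : Z ^ (p - 1) * mon (s + 1) y d = Z ^ (p - 1) * u := by
        have h7 : mon (s + 1) y d = u + Y ^ e * b := by
          rw [← hb]
          ring
        rw [h7, mul_add, ← mul_assoc, hZY, zero_mul, add_zero]
      rw [h6]
      exact row_pred hu
    -- F4
    have F4 : ∀ i < e, ∀ c ∈ Cc K (s + 1) y, Z ^ i * (y 0 ^ (p - 1) * c) ∈ U := by
      intro i hi c hc
      have h1 : Z ^ (p - 1) * (Y ^ i * c) ∈ U :=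
        F3 _ (all_mul (all_pow sum_all i) (cc_le hc))
      obtain ⟨b, hb, h2⟩ := sum_pow_pred (K := K) (y := y) hp2 (Nat.succ_pos s) hc
      rw [← hY] at h2
      have h3 : Z ^ (p - 1) * (Y ^ i * c) = (e.choose (i + 1)) • (Z ^ i * (y 0 ^ (p - 1) * c)) +
          ((e.choose (i + 1)) • (Z ^ i * b) + ∑ k ∈ (Finset.range e).erase i,
            (e.choose (k + 1)) • (Z ^ k * (Y ^ (p - 1 - k + i) * c))) := by
        rw [hZp, Finset.sum_mul, ← Finset.add_sum_erase _ _ (Finset.mem_range.2 hi), ← add_assoc]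
        congr 1
        · have h4 : Y ^ (p - 1 - i) * Y ^ i = Y ^ (p - 1) := by
            rw [← pow_add]
            congr 1
            omega
          rw [← smul_add, ← mul_add, ← h2, nsmul_eq_mul, ← h4]
          ring
        · refine Finset.sum_congr rfl fun k _ => ?_
          rw [nsmul_eq_mul, pow_add]
          ring
      have h5 : (e.choose (i + 1)) • (Z ^ i * b) + ∑ k ∈ (Finset.range e).erase i,
            (e.choose (k + 1)) • (Z ^ k * (Y ^ (p - 1 - k + i) * c)) ∈ U := by
        refine Submodule.add_mem _ (Submodule.smul_of_tower_mem _ _ (row_last hi hy1 hb))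
          (Submodule.sum_mem _ fun k hk => Submodule.smul_of_tower_mem _ _ ?_)
        rw [Finset.mem_erase, Finset.mem_range] at hk
        rcases lt_or_ge i k with h6 | h6
        · exact row_last hk.2 hy1 (sum_pow_mem (Nat.succ_pos s) (by omega) hc)
        · rw [hYge _ (by omega), zero_mul, mul_zero]
          exact Submodule.zero_mem _
      rw [h3] at h1
      have h6 := (Submodule.add_mem_iff_left _ h5).1 h1
      have h7 : (e.choose (i + 1) : K) ≠ 0 := by
        rw [Ne, CharP.cast_eq_zero_iff K p]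
        intro h8
        have h9 : p ∣ e.factorial := by
          rw [← Nat.choose_mul_factorial_mul_factorial (by omega : i + 1 ≤ e)]
          exact Dvd.dvd.mul_right (Dvd.dvd.mul_right h8 _) _
        have := (hp.dvd_factorial).1 h9
        omega
      rw [← Nat.cast_smul_eq_nsmul K] at h6
      exact (Submodule.smul_mem_iff _ h7).1 h6
    -- F5
    have F5 : ∀ k < e, ∀ g ∈ All K (s + 1) y, Z ^ k * g ∈ U := by
      intro k hk g hg
      refine map_span_le (LinearMap.mulLeft K (Z ^ k)) _ _ ?_ g hg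
      rintro _ ⟨d, rfl⟩
      change Z ^ k * mon (s + 1) y d ∈ U
      rcases lt_trichotomy (d 0) (p - 1) with h | h | h
      · exact row_last hk hy1 (Submodule.subset_span ⟨d, by omega, rfl⟩)
      · have h1 : mon (s + 1) y d = y 0 ^ (p - 1) * mon (s + 1) y (fun j => if j = 0 then 0 else d j) := by
          rw [← mon_single (Nat.succ_pos s) y (p - 1), mon_mul]
          refine mon_congr (fun _ _ => rfl) fun j _ => ?_
          by_cases hj : j = 0
          · simp [hj, h]
          · simp [hj]
        rw [h1]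
        exact F4 k hk _ (Submodule.subset_span ⟨_, by simp, rfl⟩)
      · rw [mon_eq_zero hy1 (Nat.succ_pos s) (by omega), mul_zero]
        exact Submodule.zero_mem _
    -- F6
    have F6 : ∀ k, ∀ g ∈ All K (s + 1) y, Z ^ k * g ∈ U := by
      intro k
      induction k using Nat.strong_induction_on with
      | _ k ihk =>
      intro g hg
      rcases lt_or_ge k e with h | h
      · exact F5 k h g hg
      · have h1 : Z ^ e = - ∑ i ∈ Finset.range e, (e.choose i) • (Z ^ i * Y ^ (e - i)) := by
          have h2 := hTYZ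
          rw [add_comm, add_pow, Finset.sum_range_succ, Nat.choose_self, Nat.sub_self, pow_zero,
            mul_one, Nat.cast_one, mul_one] at h2
          rw [eq_neg_iff_add_eq_zero, add_comm, ← h2]
          congr 1
          refine Finset.sum_congr rfl fun i _ => ?_
          rw [nsmul_eq_mul]
          ring
        obtain ⟨m, rfl⟩ := Nat.exists_eq_add_of_le h
        have h2 : Z ^ (e + m) * g = - ∑ i ∈ Finset.range e,
            (e.choose i) • (Z ^ (i + m) * (Y ^ (e - i) * g)) := by
          rw [pow_add, h1, neg_mul, neg_mul, Finset.sum_mul, Finset.sum_mul]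
          congr 1
          refine Finset.sum_congr rfl fun i _ => ?_
          rw [nsmul_eq_mul, nsmul_eq_mul, pow_add]
          ring
        rw [h2]
        refine Submodule.neg_mem _ (Submodule.sum_mem _ fun i hi =>
          Submodule.smul_of_tower_mem _ _ ?_)
        have hi' := Finset.mem_range.1 hi
        exact ihk (i + m) (by omega) _ (all_mul (all_pow sum_all _) hg)
    have h1 : mon (s + 1 + 1) y d = Z ^ d (s + 1) * mon (s + 1) y d := by
      rw [mon_succ, mul_comm]
    rw [h1]
    exact F6 _ _ (Submodule.subset_span ⟨d, rfl⟩)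

theorem sum_digits_le {p : ℕ} (hp : 2 ≤ p) : ∀ (s : ℕ) (d : ℕ → ℕ), (∀ j ≤ s, d j ≤ p - 1) →
    ∑ k ∈ Finset.range s, d (k + 1) * p ^ (k + 1) + p ≤ p ^ (s + 1) := by
  intro s
  induction s with
  | zero => simp
  | succ s ih =>
    intro d h3
    rw [Finset.sum_range_succ]
    have h6 := ih d (fun j hj => h3 j (by omega))
    have h7 : d (s + 1) * p ^ (s + 1) ≤ (p - 1) * p ^ (s + 1) :=
      Nat.mul_le_mul_right _ (h3 (s + 1) le_rfl)
    have h8 : p ^ (s + 1 + 1) = (p - 1) * p ^ (s + 1) + p ^ (s + 1) := by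
      rw [pow_succ' p (s + 1), Nat.sub_mul, one_mul]
      have : p ^ (s + 1) ≤ p * p ^ (s + 1) := Nat.le_mul_of_pos_left _ (by omega)
      omega
    omega

/-- the exponents of the rows -/
theorem row_exp {p e : ℕ} (hp : 2 ≤ p) (hep : e < p) : ∀ (s : ℕ) (d : ℕ → ℕ),
    d ∈ Row p e (s + 1) →
    (∃ r l, 1 ≤ r ∧ r ≤ s + 1 ∧ l < e * p ^ (r - 1) ∧ ¬ p ∣ l ∧ 1 ≤ l ∧
      ∑ j ∈ Finset.range (s + 1), d j * p ^ j + p ^ r = p ^ (s + 1) + (l - 1)) ∨
    ∑ j ∈ Finset.range (s + 1), d j * p ^ j + p = p ^ (s + 1) + (e - 1) := by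
  intro s
  induction s with
  | zero =>
    intro d hd
    change d 0 < e at hd
    simp only [zero_add, Finset.sum_range_one, pow_zero, mul_one, pow_one]
    rcases lt_or_ge (d 0 + 1) e with h | h
    · left
      refine ⟨1, d 0 + 1, le_rfl, le_rfl, by simpa using h, ?_, by omega, by simp; omega⟩
      exact fun h1 => absurd (Nat.le_of_dvd (by omega) h1) (by omega)
    · right
      omega
  | succ s ih =>
    intro d hd
    rw [Finset.sum_range_succ]
    have h0 : p ^ (s + 1 + 1) = (p - 1) * p ^ (s + 1) + p ^ (s + 1) := by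
      rw [pow_succ' p (s + 1), Nat.sub_mul, one_mul]
      have : p ^ (s + 1) ≤ p * p ^ (s + 1) := Nat.le_mul_of_pos_left _ (by omega)
      omega
    rcases hd with ⟨h1, h2⟩ | ⟨h1, h2, h3⟩
    · rw [h1]
      rcases ih d h2 with ⟨r, l, hr1, hr2, hl1, hl2, hl3, h4⟩ | h4
      · left
        refine ⟨r, l, hr1, by omega, hl1, hl2, hl3, ?_⟩
        omega
      · right
        omega
    · left
      have h4 : ∑ j ∈ Finset.range (s + 1), d j * p ^ j + 2 ≤ p ^ (s + 1) := by
        rw [Finset.sum_range_succ']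
        have h5 := sum_digits_le hp s d h3
        rw [pow_zero, mul_one]
        omega
      refine ⟨s + 2, ∑ j ∈ Finset.range (s + 1), d j * p ^ j + d (s + 1) * p ^ (s + 1) + 1,
        by omega, by omega, ?_, ?_, by omega, by
          have h5 : s + 2 = s + 1 + 1 := rfl
          rw [h5, h0, Nat.add_sub_cancel]
          omega⟩
      · have h5 : (d (s + 1) + 1) * p ^ (s + 1) ≤ e * p ^ (s + 1) := Nat.mul_le_mul_right _ h1
        rw [add_mul, one_mul] at h5
        have h6 : s + 2 - 1 = s + 1 := by omega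
        rw [h6]
        omega
      · rw [Finset.sum_range_succ', pow_zero, mul_one]
        intro h5
        have h6 : p ∣ ∑ k ∈ Finset.range s, d (k + 1) * p ^ (k + 1) :=
          Finset.dvd_sum fun k _ => Dvd.dvd.mul_left (dvd_pow_self p (by omega)) _
        have h7 : p ∣ d (s + 1) * p ^ (s + 1) := Dvd.dvd.mul_left (dvd_pow_self p (by omega)) _
        have h8 : p ∣ (∑ k ∈ Finset.range s, d (k + 1) * p ^ (k + 1) + d (s + 1) * p ^ (s + 1)) +
            (d 0 + 1) := by
          convert h5 using 1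
          ring
        have h9 := (Nat.dvd_add_right (Dvd.dvd.trans (dvd_refl p) (dvd_add h6 h7))).1 h8
        exact absurd (Nat.le_of_dvd (by omega) h9) (by omega)

/-- the number of the rows -/
theorem card_lev {p s e : ℕ} (hp : p.Prime) (he : 1 ≤ e) :
    (Lev p s (e * p ^ (s - 1))).card + 1 ≤ e * p ^ (s - 1) := by
  have hN : 1 ≤ e * p ^ (s - 1) := Nat.mul_pos he (pow_pos hp.pos _)
  have h1 : (Lev p s (e * p ^ (s - 1))).card ≤ (Finset.Ico 1 (e * p ^ (s - 1))).card := by
    refine Finset.card_le_card_of_injOn (fun t => t.2 * p ^ (s - t.1)) ?_ ?_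
    · rintro ⟨r, l⟩ ht
      have ht' := (mem_Lev hp.pos).1 ht
      simp only [Finset.coe_Ico, Set.mem_Ico]
      refine ⟨?_, ht'.2.1⟩
      refine Nat.mul_pos ?_ (pow_pos hp.pos _)
      rcases Nat.eq_zero_or_pos l with h | h
      · exact absurd (h ▸ dvd_zero p) ht'.2.2
      · exact h
    · rintro ⟨r, l⟩ ht ⟨r', l'⟩ ht' h
      have h1 := (mem_Lev hp.pos).1 ht
      have h2 := (mem_Lev hp.pos).1 ht'
      simp only at h h1 h2
      have h3 : s - r = s - r' := by
        have h4 : ∀ (l a : ℕ), ¬ p ∣ l → padicValNat p (l * p ^ a) = a := by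
          intro l a hl
          have hl0 : l ≠ 0 := by
            rintro rfl
            exact hl (dvd_zero p)
          have : Fact p.Prime := ⟨hp⟩
          rw [padicValNat.mul hl0 (pow_ne_zero _ hp.ne_zero), padicValNat.prime_pow,
            padicValNat.eq_zero_of_not_dvd hl, zero_add]
        rw [← h4 l (s - r) h1.2.2, h, h4 l' (s - r') h2.2.2]
      have h5 : r = r' := by omega
      subst h5
      have h6 := Nat.eq_of_mul_eq_mul_right (pow_pos hp.pos _) h
      rw [h6]
  rw [Nat.card_Ico] at h1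
  omega

/-- the elements with given trace -/
theorem card_fibre {K : Type} [Field K] [Finite K] {p s : ℕ} [Fact p.Prime] [CharP K p]
    (hs : 1 ≤ s) (hK : Nat.card K = p ^ s) {γ : K} (hγ : γ ^ p = γ) :
    p ^ (s - 1) ≤ Nat.card {x : K // tr p s x = γ} := by
  classical
  have hp : p.Prime := Fact.out
  have hfin : Fintype K := Fintype.ofFinite K
  obtain ⟨t, rfl⟩ : ∃ t, s = t + 1 := ⟨s - 1, by omega⟩
  have hKc : Fintype.card K = p ^ (t + 1) := by rw [← Nat.card_eq_fintype_card, hK]
  rw [Nat.add_sub_cancel]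
  -- the fibres have at most `p ^ t` elements
  have hle : ∀ c : K, (Finset.univ.filter fun x : K => tr p (t + 1) x = c).card ≤ p ^ t := by
    intro c
    let P : Polynomial K := ∑ i ∈ Finset.range (t + 1), Polynomial.X ^ p ^ i - Polynomial.C c
    have hdeg : P.natDegree ≤ p ^ t := by
      refine (Polynomial.natDegree_sub_le _ _).trans (max_le ?_ (by simp))
      refine Polynomial.natDegree_sum_le_of_forall_le _ _ fun i hi => ?_
      rw [Polynomial.natDegree_X_pow]
      exact Nat.pow_le_pow_right hp.pos (by have := Finset.mem_range.1 hi; omega)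
    have hP0 : P ≠ 0 := by
      intro h
      have h1 : P.coeff (p ^ t) = 0 := by rw [h, Polynomial.coeff_zero]
      have h2 : P.coeff (p ^ t) = 1 := by
        simp only [P]
        rw [Polynomial.coeff_sub, Polynomial.coeff_C_of_ne_zero (pow_pos hp.pos t).ne', sub_zero,
          Polynomial.finsetSum_coeff, Finset.sum_eq_single t]
        · simp
        · intro i _ hi
          rw [Polynomial.coeff_X_pow, if_neg]
          intro h3
          exact hi (Nat.pow_right_injective hp.two_le h3.symm)
        · intro h3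
          exact absurd (Finset.mem_range.2 (Nat.lt_succ_self t)) h3
      rw [h2] at h1
      exact one_ne_zero h1
    have hsub : (Finset.univ.filter fun x : K => tr p (t + 1) x = c) ⊆ P.roots.toFinset := by
      intro x hx
      rw [Finset.mem_filter] at hx
      rw [Multiset.mem_toFinset, Polynomial.mem_roots hP0, Polynomial.IsRoot.def]
      simp only [P]
      rw [Polynomial.eval_sub, Polynomial.eval_C, Polynomial.eval_finsetSum, ← hx.2, tr]
      simp
    calc (Finset.univ.filter fun x : K => tr p (t + 1) x = c).card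
        ≤ P.roots.toFinset.card := Finset.card_le_card hsub
      _ ≤ Multiset.card P.roots := Multiset.toFinset_card_le _
      _ ≤ P.natDegree := P.card_roots'
      _ ≤ p ^ t := hdeg
  -- the values of the trace
  let F : Finset K := Finset.univ.filter fun c : K => c ^ p = c
  have hF : F.card ≤ p := by
    let P : Polynomial K := Polynomial.X ^ p - Polynomial.X
    have hP0 : P ≠ 0 := FiniteField.X_pow_card_sub_X_ne_zero K hp.one_lt
    have hsub : F ⊆ P.roots.toFinset := by
      intro x hx
      rw [Finset.mem_filter] at hx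
      rw [Multiset.mem_toFinset, Polynomial.mem_roots hP0, Polynomial.IsRoot.def]
      simp only [P]
      rw [Polynomial.eval_sub, Polynomial.eval_pow, Polynomial.eval_X, hx.2, sub_self]
    calc F.card ≤ P.roots.toFinset.card := Finset.card_le_card hsub
      _ ≤ Multiset.card P.roots := Multiset.toFinset_card_le _
      _ ≤ P.natDegree := P.card_roots'
      _ = p := FiniteField.X_pow_card_sub_X_natDegree_eq K hp.one_lt
  have htr : ∀ x : K, tr p (t + 1) x ∈ F := by
    intro x
    rw [Finset.mem_filter]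
    refine ⟨Finset.mem_univ _, ?_⟩
    rw [tr, sum_pow_char p]
    have h1 := Finset.sum_range_succ (fun i => x ^ p ^ i) (t + 1)
    have h2 := Finset.sum_range_succ' (fun i => x ^ p ^ i) (t + 1)
    have h3 : x ^ p ^ (t + 1) = x := by
      rw [← hKc]
      exact FiniteField.pow_card x
    rw [h1, h3] at h2
    simp only [pow_zero, pow_one] at h2
    have h4 := add_right_cancel h2
    rw [h4]
    refine Finset.sum_congr rfl fun i _ => ?_
    rw [← pow_mul, pow_succ]
  have hsum : p ^ (t + 1) = ∑ c ∈ F, (Finset.univ.filter fun x : K => tr p (t + 1) x = c).card := by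
    rw [← hKc, ← Finset.card_univ]
    exact Finset.card_eq_sum_card_fiberwise fun x _ => htr x
  have hγF : γ ∈ F := by
    rw [Finset.mem_filter]
    exact ⟨Finset.mem_univ _, hγ⟩
  rw [← Finset.add_sum_erase _ _ hγF] at hsum
  have h5 : ∑ c ∈ F.erase γ, (Finset.univ.filter fun x : K => tr p (t + 1) x = c).card ≤
      (p - 1) * p ^ t := by
    calc ∑ c ∈ F.erase γ, (Finset.univ.filter fun x : K => tr p (t + 1) x = c).card
        ≤ ∑ c ∈ F.erase γ, p ^ t := Finset.sum_le_sum fun c _ => hle c
      _ = (F.erase γ).card * p ^ t := by rw [Finset.sum_const, smul_eq_mul]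
      _ ≤ (p - 1) * p ^ t := by
        refine Nat.mul_le_mul_right _ ?_
        rw [Finset.card_erase_of_mem hγF]
        omega
  have h6 : p ^ (t + 1) = (p - 1) * p ^ t + p ^ t := by
    rw [pow_succ' p t, Nat.sub_mul, one_mul]
    have : p ^ t ≤ p * p ^ t := Nat.le_mul_of_pos_left _ hp.pos
    omega
  rw [Nat.card_eq_fintype_card, Fintype.card_subtype]
  omega

/-- the number of elements with trace in a given set -/
theorem card_trace {K : Type} [Field K] [Finite K] {p s : ℕ} [Fact p.Prime] [CharP K p]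
    (hs : 1 ≤ s) (hK : Nat.card K = p ^ s) {Γ : Finset K} (hΓ : ∀ γ ∈ Γ, γ ^ p = γ) :
    Γ.card * p ^ (s - 1) ≤ Nat.card {x : K // tr p s x ∈ Γ} := by
  classical
  have hfin : Fintype K := Fintype.ofFinite K
  rw [Nat.card_eq_fintype_card, Fintype.card_subtype]
  have h1 : (Finset.univ.filter fun x : K => tr p s x ∈ Γ).card =
      ∑ γ ∈ Γ, ((Finset.univ.filter fun x : K => tr p s x ∈ Γ).filter
        fun x => tr p s x = γ).card :=
    Finset.card_eq_sum_card_fiberwise fun x hx => (Finset.mem_filter.1 hx).2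
  rw [h1, ← smul_eq_mul, ← Finset.sum_const]
  refine Finset.sum_le_sum fun γ hγ => ?_
  refine (card_fibre hs hK (hΓ γ hγ)).trans ?_
  rw [Nat.card_eq_fintype_card, Fintype.card_subtype]
  refine Finset.card_le_card fun x hx => ?_
  rw [Finset.mem_filter] at hx
  rw [Finset.mem_filter, Finset.mem_filter]
  exact ⟨⟨Finset.mem_univ _, by rw [hx.2]; exact hγ⟩, hx.2⟩

/-- the functions are polynomials -/
theorem exists_poly {K : Type} [Field K] [Finite K] {Z : K → Prop} (f : {x : K // Z x} → K) :
    ∃ P : Polynomial K, ∀ x : {x : K // Z x}, P.eval (x : K) = f x := by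
  classical
  have hfin : Fintype K := Fintype.ofFinite K
  refine ⟨Lagrange.interpolate Finset.univ (fun x : {x : K // Z x} => (x : K)) f, fun x => ?_⟩
  exact Lagrange.eval_interpolate_at_node _ (fun a _ b _ h => Subtype.ext h) (Finset.mem_univ x)

end Nd1

open Nd1

/-- ROW D1 (Nd1.lean) -/
theorem nd1 {K : Type} [Field K] [Finite K] {p s : ℕ} [Fact p.Prime] [CharP K p] (hs : 1 ≤ s)
    (hK : Nat.card K = p ^ s) {Γ : Finset K} (hΓ : ∀ γ ∈ Γ, γ ^ p = γ) (hc : Γ.card < p) :
    LinearIndependent K fun (t : Lev p s (Γ.card * p ^ (s - 1))) (x : {x : K // tr p s x ∈ Γ}) =>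
      (x : K) ^ (p ^ s - p ^ t.1.1 + (t.1.2 - 1)) := by
  classical
  have hp : p.Prime := Fact.out
  have hfin : Fintype K := Fintype.ofFinite K
  rcases Nat.eq_zero_or_pos Γ.card with h0 | he
  · have : IsEmpty (Lev p s (Γ.card * p ^ (s - 1))) := by
      rw [h0, zero_mul]
      refine ⟨fun t => ?_⟩
      have := ((mem_Lev hp.pos).1 t.2).2.1
      omega
    exact linearIndependent_empty_type
  set e := Γ.card with hedef
  obtain ⟨t, rfl⟩ : ∃ t, s = t + 1 := ⟨s - 1, by omega⟩
  have hpow : ∀ x : K, x ^ p ^ (t + 1) = x := by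
    intro x
    rw [← hK, Nat.card_eq_fintype_card]
    exact FiniteField.pow_card x
  -- the functions
  let y : ℕ → ({x : K // tr p (t + 1) x ∈ Γ} → K) := fun j x => (x : K) ^ p ^ j
  have hmon : ∀ d : ℕ → ℕ, mon (t + 1) y d = fun x : {x : K // tr p (t + 1) x ∈ Γ} =>
      (x : K) ^ (∑ j ∈ Finset.range (t + 1), d j * p ^ j) := by
    intro d
    funext x
    rw [mon, Finset.prod_apply, ← Finset.prod_pow_eq_pow_sum]
    refine Finset.prod_congr rfl fun j _ => ?_
    rw [Pi.pow_apply, ← pow_mul, mul_comm]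
  have hT : ∃ c : ℕ → K, (∑ j ∈ Finset.range (t + 1), y j) ^ e =
      ∑ i ∈ Finset.range e, c i • (∑ j ∈ Finset.range (t + 1), y j) ^ i := by
    let Q : Polynomial K := ∏ γ ∈ Γ, (Polynomial.X - Polynomial.C γ)
    have hQm : Q.Monic := Polynomial.monic_prod_of_monic _ _ fun γ _ => Polynomial.monic_X_sub_C γ
    have hQd : Q.natDegree = e := by
      rw [Polynomial.natDegree_prod_of_monic _ _ fun γ _ => Polynomial.monic_X_sub_C γ]
      simp [hedef]
    refine ⟨fun i => - Q.coeff i, ?_⟩
    funext x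
    have h1 : Q.eval (tr p (t + 1) (x : K)) = 0 := by
      rw [Polynomial.eval_prod]
      refine Finset.prod_eq_zero x.2 ?_
      simp
    have hQe : Q.coeff e = 1 := by rw [← hQd, hQm.coeff_natDegree]
    rw [Polynomial.eval_eq_sum_range, Finset.sum_range_succ, hQd, hQe, one_mul] at h1
    have h2 : (∑ j ∈ Finset.range (t + 1), y j) x = tr p (t + 1) (x : K) := by
      rw [Finset.sum_apply]
      rfl
    rw [Pi.pow_apply, h2, Finset.sum_apply, eq_neg_of_add_eq_zero_right h1,
      ← Finset.sum_neg_distrib]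
    refine Finset.sum_congr rfl fun i _ => ?_
    rw [Pi.smul_apply, Pi.pow_apply, h2, smul_eq_mul, neg_mul]
  have hspan := transfer (K := K) (p := p) (s := t + 1) (e := e) hp.two_le (Row p e (t + 1))
    (fun A _ _ z hz hz' d => span_row hc t A z hz hz' d) y (by
      intro j hj
      rcases lt_or_ge (j + 1) (t + 1) with h | h
      · refine ⟨j + 1, h, ?_⟩
        funext x
        simp only [y, Pi.pow_apply]
        rw [← pow_mul, pow_succ]
      · refine ⟨0, by omega, ?_⟩
        have : j = t := by omega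
        subst this
        funext x
        simp only [y, Pi.pow_apply]
        rw [← pow_mul, ← pow_succ, hpow, pow_zero, pow_one]) hT
  -- the family with one more function
  let b : Option (Lev p (t + 1) (e * p ^ (t + 1 - 1))) → ({x : K // tr p (t + 1) x ∈ Γ} → K) :=
    fun o => o.elim (fun x => (x : K) ^ (p ^ (t + 1) - p + (e - 1)))
      (fun t' x => (x : K) ^ (p ^ (t + 1) - p ^ t'.1.1 + (t'.1.2 - 1)))
  have hrow : Submodule.span K (mon (t + 1) y '' Row p e (t + 1)) ≤
      Submodule.span K (Set.range b) := by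
    rw [Submodule.span_le]
    rintro _ ⟨d, hd, rfl⟩
    rw [hmon]
    refine Submodule.subset_span ?_
    rcases row_exp hp.two_le hc t d hd with ⟨r, l, hr1, hr2, hl1, hl2, hl3, h⟩ | h
    · have hr3 : p ^ r ≤ p ^ (t + 1) := Nat.pow_le_pow_right hp.pos hr2
      refine ⟨some ⟨(r, l), (mem_Lev hp.pos).2 ⟨⟨hr1, hr2⟩, ?_, hl2⟩⟩, ?_⟩
      · have h3 : e * p ^ (t + 1 - 1) = e * p ^ (r - 1) * p ^ (t + 1 - r) := by
          rw [mul_assoc, ← pow_add]
          congr 2
          omega
        rw [h3]
        exact Nat.mul_lt_mul_of_pos_right hl1 (pow_pos hp.pos _)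
      · funext x
        simp only [b, Option.elim]
        congr 1
        omega
    · have hr3 : p ≤ p ^ (t + 1) := Nat.le_self_pow (by omega) p
      refine ⟨none, ?_⟩
      funext x
      simp only [b, Option.elim]
      congr 1
      omega
  have htop : ⊤ ≤ Submodule.span K (Set.range b) := by
    intro f _
    obtain ⟨P, hP⟩ := exists_poly f
    have h1 : f = ∑ i ∈ Finset.range (P.natDegree + 1), P.coeff i •
        mon (t + 1) y (fun j => if j = 0 then i else 0) := by
      funext x
      rw [← hP x, Polynomial.eval_eq_sum_range, Finset.sum_apply]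
      refine Finset.sum_congr rfl fun i _ => ?_
      rw [Pi.smul_apply, mon_single (Nat.succ_pos t), smul_eq_mul]
      simp [y]
    rw [h1]
    exact Submodule.sum_mem _ fun i _ => Submodule.smul_mem _ _ (hrow (hspan _))
  have hcard : Fintype.card (Option (Lev p (t + 1) (e * p ^ (t + 1 - 1)))) ≤
      Module.finrank K ({x : K // tr p (t + 1) x ∈ Γ} → K) := by
    rw [Fintype.card_option, Fintype.card_coe, Module.finrank_fintype_fun_eq_card,
      ← Nat.card_eq_fintype_card]
    exact (card_lev hp he).trans (card_trace hs hK hΓ)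
  have hli := linearIndependent_of_top_le_span_of_card_le_finrank htop hcard
  exact hli.comp some (Option.some_injective _)

end Pool.Agent.BCX4
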