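import Pool.Agent.BCX4.NdBAlg

/-!
# Row D2: the functions `x ^ ((p ^ (s - 1) - 2) * p ^ r - (l - 1))` on the nonzero elements of trace
zero are independent
-/

namespace Pool.Agent.BCX4

namespace NdB

open Finset MvPolynomial

section Transfer

variable {K Ω : Type} [Field K] {p s : ℕ}

/-- the coordinate functions -/
def xi (p : ℕ) (e : Ω → K) (j : ℕ) (ω : Ω) : K := e ω ^ p ^ j

/-- the span of the functions of degree less than `D` -/
noncomputable def VD (p : ℕ) (e : Ω → K) (D : ℕ) : Submodule K (Ω → K) :=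
  Submodule.span K {g | ∃ a : ℕ →₀ ℕ, a.degree < D ∧ g = aeval (xi p e) (monomial a (1 : K))}

lemma VD_mono (e : Ω → K) {D E : ℕ} (h : D ≤ E) : VD p e D ≤ VD p e E := by
  refine Submodule.span_mono ?_
  rintro g ⟨a, ha, rfl⟩
  exact ⟨a, lt_of_lt_of_le ha h, rfl⟩

lemma monomial_mem_VD (e : Ω → K) {D : ℕ} (a : ℕ →₀ ℕ) (c : K) (h : a.degree < D) :
    aeval (xi p e) (monomial a c) ∈ VD p e D := by
  have h1 : monomial a c = c • monomial a (1 : K) := by
    rw [smul_monomial, smul_eq_mul, mul_one]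
  rw [h1, map_smul]
  exact Submodule.smul_mem _ _ (Submodule.subset_span ⟨a, h, rfl⟩)

/-- the polynomials whose homogeneous components are in `W` modulo lower degree -/
noncomputable def VV (p : ℕ) (e : Ω → K) (W : Submodule K (Ω → K)) : Submodule K (MvPolynomial ℕ K) :=
  ⨅ D, (W ⊔ VD p e D).comap ((aeval (xi p e)).toLinearMap ∘ₗ homogeneousComponent D)

lemma mem_VV (e : Ω → K) (W : Submodule K (Ω → K)) (f : MvPolynomial ℕ K) :
    f ∈ VV p e W ↔ ∀ D, aeval (xi p e) (homogeneousComponent D f) ∈ W ⊔ VD p e D := by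
  unfold VV
  rw [Submodule.mem_iInf]
  rfl

lemma mem_VV_of_hom (e : Ω → K) (W : Submodule K (Ω → K)) {f : MvPolynomial ℕ K} {D : ℕ}
    (hf : f.IsHomogeneous D) (h : aeval (xi p e) f ∈ W ⊔ VD p e D) : f ∈ VV p e W := by
  rw [mem_VV]
  intro E
  rw [homogeneousComponent_of_mem hf]
  split_ifs with h1
  · subst h1
    exact h
  · rw [map_zero]
    exact Submodule.zero_mem _

/-- the relations -/
noncomputable def JJ (K : Type) [Field K] (p s : ℕ) : Ideal (MvPolynomial ℕ K) :=
  Ideal.span ({f | ∃ j, f = X j ^ p} ∪ {f | ∃ j, f = X (j + s) - X j} ∪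
    {∑ j ∈ range s, X j})

lemma JJ_le (hp : 2 ≤ p) (e : Ω → K) (W : Submodule K (Ω → K)) (hK : ∀ x : K, x ^ p ^ s = x)
    (htr : ∀ ω, tr p s (e ω) = 0) : ∀ f ∈ JJ K p s, f ∈ VV p e W := by
  intro f hf
  have key : ∀ g ∈ ({f | ∃ j, f = X j ^ p} ∪ {f | ∃ j, f = X (j + s) - X j} ∪
      {∑ j ∈ range s, X j} : Set (MvPolynomial ℕ K)), ∀ h : MvPolynomial ℕ K,
      h * g ∈ VV p e W := by
    intro g hg h
    induction h using MvPolynomial.induction_on' with
    | add a b ha hb =>
      rw [add_mul]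
      exact Submodule.add_mem _ ha hb
    | monomial a c =>
      rcases hg with (hg | hg) | hg
      · obtain ⟨j, rfl⟩ := hg
        refine mem_VV_of_hom e W ((isHomogeneous_monomial c rfl).mul (isHomogeneous_X_pow j p)) ?_
        refine Submodule.mem_sup_right ?_
        have h1 : aeval (xi p e) (monomial a c * X j ^ p) =
            aeval (xi p e) (monomial (a + Finsupp.single (j + 1) 1) c) := by
          have h2 : monomial (a + Finsupp.single (j + 1) 1) c = monomial a c * X (j + 1) := by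
            rw [X, monomial_mul, mul_one]
          rw [h2, map_mul, map_mul, map_pow, aeval_X, aeval_X]
          congr 1
          funext ω
          show (e ω ^ p ^ j) ^ p = e ω ^ p ^ (j + 1)
          rw [← pow_mul, ← pow_succ]
        rw [h1]
        refine monomial_mem_VD e _ _ ?_
        rw [map_add, Finsupp.degree_single]
        show a.degree + 1 < a.degree + p
        omega
      · obtain ⟨j, rfl⟩ := hg
        refine mem_VV_of_hom e W ((isHomogeneous_monomial c rfl).mul
          ((isHomogeneous_X K (j + s)).sub (isHomogeneous_X K j))) ?_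
        have h1 : aeval (xi p e) (monomial a c * (X (j + s) - X j)) = 0 := by
          rw [map_mul, map_sub, aeval_X, aeval_X]
          have h2 : xi p e (j + s) - xi p e j = 0 := by
            funext ω
            show e ω ^ p ^ (j + s) - e ω ^ p ^ j = 0
            rw [add_comm, pow_add, pow_mul, hK, sub_self]
          rw [h2, mul_zero]
        rw [h1]
        exact Submodule.zero_mem _
      · rw [Set.mem_singleton_iff] at hg
        subst hg
        refine mem_VV_of_hom e W ((isHomogeneous_monomial c rfl).mul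
          (IsHomogeneous.sum _ _ 1 fun j _ => isHomogeneous_X K j)) ?_
        have h1 : aeval (xi p e) (monomial a c * ∑ j ∈ range s, X j) = 0 := by
          rw [map_mul, map_sum]
          have h2 : ∑ j ∈ range s, aeval (xi p e) (X j : MvPolynomial ℕ K) = 0 := by
            funext ω
            rw [Finset.sum_apply]
            simp only [aeval_X]
            exact htr ω
          rw [h2, mul_zero]
        rw [h1]
        exact Submodule.zero_mem _
  have h2 : ∀ h : MvPolynomial ℕ K, h * f ∈ VV p e W := by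
    unfold JJ Ideal.span at hf
    induction hf using Submodule.span_induction with
    | mem g hg => exact key g hg
    | zero => intro h; rw [mul_zero]; exact Submodule.zero_mem _
    | add a b _ _ ha hb => intro h; rw [mul_add]; exact Submodule.add_mem _ (ha h) (hb h)
    | smul a b _ hb => intro h; rw [smul_eq_mul, ← mul_assoc]; exact hb _
  have := h2 1
  rwa [one_mul] at this

/-- functions of all degrees are in `W` -/
lemma VD_le (e : Ω → K) (W : Submodule K (Ω → K)) (h : ∀ f, f ∈ VV p e W) (D : ℕ) :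
    VD p e D ≤ W := by
  induction D with
  | zero =>
    refine Submodule.span_le.mpr ?_
    rintro g ⟨a, ha, -⟩
    omega
  | succ D ih =>
    refine Submodule.span_le.mpr ?_
    rintro g ⟨a, ha, rfl⟩
    have h1 := (mem_VV e W _).mp (h (monomial a (1 : K))) a.degree
    rw [homogeneousComponent_of_mem (isHomogeneous_monomial (1 : K) rfl), if_pos rfl] at h1
    have h2 : W ⊔ VD p e a.degree ≤ W := sup_le le_rfl ((VD_mono e (by omega)).trans ih)
    exact h2 h1

lemma eq_top_of_VV [Finite Ω] (e : Ω → K) (he : Function.Injective e)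
    (W : Submodule K (Ω → K)) (h : ∀ f, f ∈ VV p e W) : W = ⊤ := by
  classical
  have := Fintype.ofFinite Ω
  rw [eq_top_iff]
  intro g _
  set q := Lagrange.interpolate (univ : Finset Ω) e g with hq
  have h1 : g = ∑ i ∈ q.support, aeval (xi p e) (monomial (Finsupp.single 0 i) (q.coeff i)) := by
    funext ω
    have h2 : q.eval (e ω) = g ω := by
      rw [hq, Lagrange.eval_interpolate_at_node g he.injOn (mem_univ ω)]
    rw [← h2, Polynomial.eval_eq_sum, Polynomial.sum, Finset.sum_apply]
    refine Finset.sum_congr rfl fun i _ => ?_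
    rw [aeval_monomial]
    show q.coeff i * e ω ^ i = (algebraMap K (Ω → K) (q.coeff i) *
      (Finsupp.single 0 i).prod fun j k => xi p e j ^ k) ω
    rw [Finsupp.prod_single_index (by rw [pow_zero])]
    show q.coeff i * e ω ^ i = q.coeff i * (e ω ^ p ^ 0) ^ i
    rw [pow_zero, pow_one]
  rw [h1]
  refine Submodule.sum_mem _ fun i _ => ?_
  exact VD_le e W h _ (monomial_mem_VD e _ _ (Nat.lt_succ_self _))

end Transfer

lemma sum_digits {p : ℕ} (_hp : 1 ≤ p) (a : ℕ → ℕ) (ha : ∀ j, a j < p) (n : ℕ) :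
    p ∣ ∑ j ∈ Icc 1 n, a j * p ^ j ∧ ∑ j ∈ Icc 1 n, a j * p ^ j + p ≤ p ^ (n + 1) := by
  induction n with
  | zero => simp
  | succ n ih =>
    rw [Finset.sum_Icc_succ_top (by omega)]
    refine ⟨dvd_add ih.1 (Dvd.dvd.mul_left (dvd_pow_self p (by omega)) _), ?_⟩
    have h1 : a (n + 1) + 1 ≤ p := ha (n + 1)
    have h2 : (a (n + 1) + 1) * p ^ (n + 1) ≤ p * p ^ (n + 1) := Nat.mul_le_mul_right _ h1
    have h3 : p ^ (n + 1 + 1) = p * p ^ (n + 1) := by ring
    rw [h3]
    nlinarith [ih.2]

lemma sum_top {p : ℕ} (hp : 1 ≤ p) {r m : ℕ} (h : r ≤ m) :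
    ∑ j ∈ Ioc r m, (p - 1) * p ^ j + p ^ (r + 1) = p ^ (m + 1) := by
  induction m, h using Nat.le_induction with
  | base => simp
  | succ m hm ih =>
    rw [Finset.sum_Ioc_succ_top (by omega)]
    obtain ⟨q, rfl⟩ : ∃ q, p = q + 1 := ⟨p - 1, by omega⟩
    rw [Nat.add_sub_cancel] at ih ⊢
    have h3 : (q + 1) ^ (m + 1 + 1) = q * (q + 1) ^ (m + 1) + (q + 1) ^ (m + 1) := by ring
    rw [h3]
    omega

section Mono

variable {K Ω : Type} [Field K] {p : ℕ}

/-- `f` is homogeneous and evaluates to the power `E` -/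
def Mo (p : ℕ) (e : Ω → K) (f : MvPolynomial ℕ K) (E : ℕ) : Prop :=
  (∃ D, f.IsHomogeneous D) ∧ aeval (xi p e) f = fun ω => e ω ^ E

lemma Mo.mul {e : Ω → K} {f g : MvPolynomial ℕ K} {E E' : ℕ} (hf : Mo p e f E)
    (hg : Mo p e g E') : Mo p e (f * g) (E + E') := by
  obtain ⟨⟨D, hD⟩, h1⟩ := hf
  obtain ⟨⟨D', hD'⟩, h2⟩ := hg
  refine ⟨⟨D + D', hD.mul hD'⟩, ?_⟩
  rw [map_mul, h1, h2]
  funext ω
  exact (pow_add _ _ _).symm

lemma Mo.X (e : Ω → K) (j k : ℕ) : Mo p e (X j ^ k) (k * p ^ j) := by
  refine ⟨⟨k, isHomogeneous_X_pow j k⟩, ?_⟩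
  rw [map_pow, aeval_X]
  funext ω
  show (e ω ^ p ^ j) ^ k = e ω ^ (k * p ^ j)
  rw [← pow_mul, mul_comm]

lemma Mo.one (e : Ω → K) : Mo p e (1 : MvPolynomial ℕ K) 0 := by
  refine ⟨⟨0, isHomogeneous_one ℕ K⟩, ?_⟩
  rw [map_one]
  funext ω
  exact (pow_zero _).symm

lemma Mo.prod (e : Ω → K) (S : Finset ℕ) (b : ℕ → ℕ) :
    Mo p e (∏ j ∈ S, MvPolynomial.X j ^ b j) (∑ j ∈ S, b j * p ^ j) := by
  classical
  induction S using Finset.induction_on with
  | empty => simpa using Mo.one e
  | insert a S ha ih =>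
    rw [Finset.prod_insert ha, Finset.sum_insert ha]
    exact (Mo.X e a (b a)).mul ih

lemma Mo.mem {e : Ω → K} {f : MvPolynomial ℕ K} {E : ℕ} (hf : Mo p e f E)
    (W : Submodule K (Ω → K)) (h : (fun ω => e ω ^ E) ∈ W) : f ∈ VV p e W := by
  obtain ⟨⟨D, hD⟩, h1⟩ := hf
  refine mem_VV_of_hom e W hD ?_
  rw [h1]
  exact Submodule.mem_sup_left h

end Mono

section Main

variable {K Ω : Type} [Field K] {p : ℕ} [hpf : Fact p.Prime] [CharP K p]

theorem all_mem (hp3 : 3 ≤ p) (n : ℕ) (e : Ω → K) (W : Submodule K (Ω → K))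
    (hK : ∀ x : K, x ^ p ^ (n + 2) = x) (htr : ∀ ω, tr p (n + 2) (e ω) = 0)
    (h1 : ∀ a < p ^ (n + 1), a % p ≠ p - 1 → (fun ω => e ω ^ a) ∈ W)
    (h2 : ∀ r m, 2 ≤ r → r ≤ n + 1 → m < p ^ (r - 1) → ¬ p ∣ m →
      (fun ω => e ω ^ (m + (p ^ (n + 2) - 2 * p ^ r))) ∈ W)
    (h3 : (fun ω => e ω ^ (p ^ (n + 1) - 1)) ∈ W) : ∀ f, f ∈ VV p e W := by
  have hp := hpf.out
  set J := JJ K p (n + 2) with hJ
  set π := Ideal.Quotient.mkₐ K J with hπ
  set V' := (VV p e W).map π.toLinearMap with hV'
  have hsurj : ∀ g, ∃ f, π f = g := Ideal.Quotient.mkₐ_surjective K J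
  have hmem : ∀ f, π f ∈ V' → f ∈ VV p e W := by
    intro f hf
    obtain ⟨g, hg, hgf⟩ := hf
    have h4 : f - g ∈ J := by
      rw [← Ideal.Quotient.eq]
      exact hgf.symm
    have h5 := JJ_le hp.two_le e W hK htr _ h4
    have h6 : f = (f - g) + g := by ring
    rw [h6]
    exact Submodule.add_mem _ h5 hg
  have hmem' : ∀ f, f ∈ VV p e W → π f ∈ V' := fun f hf => ⟨f, hf, rfl⟩
  set x : ℕ → (MvPolynomial ℕ K ⧸ J) := fun j => π (MvPolynomial.X j) with hx
  have hzero : ∀ f, f ∈ J → π f = 0 := fun f hf => Ideal.Quotient.eq_zero_iff_mem.mpr hf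
  have hxp : ∀ j, x j ^ p = 0 := by
    intro j
    show (π (MvPolynomial.X j)) ^ p = 0
    rw [← map_pow]
    exact hzero _ (Ideal.subset_span (Or.inl (Or.inl ⟨j, rfl⟩)))
  have hper : ∀ j, x (j + (n + 2)) = x j := by
    intro j
    rw [← sub_eq_zero]
    show π (MvPolynomial.X (j + (n + 2))) - π (MvPolynomial.X j) = 0
    rw [← map_sub]
    exact hzero _ (Ideal.subset_span (Or.inl (Or.inr ⟨j, rfl⟩)))
  have hsum : ∑ j ∈ range (n + 2), x j = 0 := by
    show ∑ j ∈ range (n + 2), π (MvPolynomial.X j) = 0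
    rw [← map_sum]
    exact hzero _ (Ideal.subset_span (Or.inr rfl))
  have hT : x (n + 1) = -(x 0 + ∑ j ∈ Icc 1 n, x j) := by
    rw [Finset.sum_range_succ, Finset.range_eq_Ico, Finset.sum_eq_sum_Ico_succ_bot (by omega)]
      at hsum
    have h4 : Ico (0 + 1) (n + 1) = Icc 1 n := by
      ext j
      rw [mem_Ico, mem_Icc]
      omega
    rw [h4] at hsum
    linear_combination hsum
  have hmono : ∀ (S : Finset ℕ) (b : ℕ → ℕ), ∏ j ∈ S, x j ^ b j =
      π (∏ j ∈ S, MvPolynomial.X j ^ b j) := by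
    intro S b
    rw [map_prod]
    exact Finset.prod_congr rfl fun j _ => (map_pow _ _ _).symm
  have hmono1 : ∀ (j k : ℕ), x j ^ k = π (MvPolynomial.X j ^ k) := fun j k => (map_pow _ _ _).symm
  have hmain : ∀ k, ∀ f ∈ PA K x n, x 0 ^ k * f ∈ V' := by
    refine span_top0 hp3 x hxp n V' hT ?_ ?_ ?_
    · intro k hk
      refine PA_induction' x hxp n V' _ ?_
      intro a ha
      rw [hmono, hmono1, ← map_mul]
      refine hmem' _ (((Mo.X e 0 k).mul (Mo.prod e _ a)).mem W (h1 _ ?_ ?_))
      · have := sum_digits (by omega) a ha n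
        rw [pow_zero, mul_one]
        omega
      · obtain ⟨⟨c, hc⟩, -⟩ := sum_digits (by omega) a ha n
        rw [hc, pow_zero, mul_one, Nat.add_mul_mod_self_left, Nat.mod_eq_of_lt (by omega)]
        omega
    · intro r hr hrn k hk hkp
      have key : ∀ f ∈ PA K x (r - 2), (x 0 ^ k * x r ^ (p - 2) *
          ∏ j ∈ Ioc r (n + 1), x j ^ (p - 1)) * f ∈ V' := by
        refine PA_induction' x hxp (r - 2) V' _ ?_
        intro a ha
        rw [hmono, hmono, hmono1, hmono1, ← map_mul, ← map_mul, ← map_mul]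
        refine hmem' _ ((((((Mo.X e 0 k).mul (Mo.X e r (p - 2))).mul
          (Mo.prod e _ (fun _ => p - 1))).mul (Mo.prod e _ a))).mem W ?_)
        obtain ⟨⟨c, hc⟩, hle⟩ := sum_digits (by omega) a ha (r - 2)
        have h4 := sum_top (p := p) (by omega) hrn
        rw [show r - 2 + 1 = r - 1 by omega] at hle
        have h5 := h2 r (k + ∑ j ∈ Icc 1 (r - 2), a j * p ^ j) hr hrn (by omega) (by
          rw [hc]
          intro hd
          have h6 : p ∣ k := (Nat.dvd_add_left (dvd_mul_right p c)).mp hd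
          have := Nat.le_of_dvd (by omega) h6
          omega)
        have h7 : k * p ^ 0 + (p - 2) * p ^ r + ∑ j ∈ Ioc r (n + 1), (p - 1) * p ^ j +
            ∑ j ∈ Icc 1 (r - 2), a j * p ^ j =
            k + ∑ j ∈ Icc 1 (r - 2), a j * p ^ j + (p ^ (n + 2) - 2 * p ^ r) := by
          have h8 : (p - 2) * p ^ r + 2 * p ^ r = p ^ (r + 1) := by
            rw [← add_mul, Nat.sub_add_cancel (by omega), pow_succ, mul_comm]
          rw [show n + 1 + 1 = n + 2 by omega] at h4
          rw [pow_zero, mul_one]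
          omega
        rw [h7]
        exact h5
      intro f hf
      have h4 := key f hf
      have h5 : x 0 ^ k * f * x r ^ (p - 2) * ∏ j ∈ Ioc r (n + 1), x j ^ (p - 1) =
          (x 0 ^ k * x r ^ (p - 2) * ∏ j ∈ Ioc r (n + 1), x j ^ (p - 1)) * f := by ring
      rw [h5]
      exact h4
    · rw [hmono, hmono1, ← map_mul]
      refine hmem' _ (((Mo.X e 0 (p - 1)).mul (Mo.prod e _ (fun _ => p - 1))).mem W ?_)
      have h4 := sum_top (p := p) (by omega) (Nat.zero_le n)
      have h5 : Ioc 0 n = Icc 1 n := by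
        ext j
        rw [mem_Ioc, mem_Icc]
        omega
      rw [h5, zero_add, pow_one] at h4
      have h6 : (p - 1) * p ^ 0 + ∑ j ∈ Icc 1 n, (p - 1) * p ^ j = p ^ (n + 1) - 1 := by
        rw [pow_zero, mul_one]
        omega
      rw [h6]
      exact h3
  -- all elements
  set B : Subalgebra K (MvPolynomial ℕ K ⧸ J) :=
    Algebra.adjoin K (insert (x 0) (x '' Set.Icc 1 n)) with hB
  have hBV : ∀ g ∈ B, g ∈ V' := by
    intro g hg
    have h4 : Subalgebra.toSubmodule B ≤ V' := by
      rw [hB, Algebra.adjoin_eq_span, Submodule.span_le]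
      intro g hg
      have h5 : ∃ k, ∃ f ∈ PA K x n, g = x 0 ^ k * f := by
        induction hg using Submonoid.closure_induction with
        | mem y hy =>
          rcases hy with hy | hy
          · exact ⟨1, 1, (PA K x n).one_mem, by rw [hy, pow_one, mul_one]⟩
          · exact ⟨0, y, Algebra.subset_adjoin hy, by rw [pow_zero, one_mul]⟩
        | one => exact ⟨0, 1, (PA K x n).one_mem, by rw [pow_zero, one_mul]⟩
        | mul y z _ _ hy hz =>
          obtain ⟨k, f, hf, rfl⟩ := hy
          obtain ⟨l, f', hf', rfl⟩ := hz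
          exact ⟨k + l, f * f', (PA K x n).mul_mem hf hf', by rw [pow_add]; ring⟩
      obtain ⟨k, f, hf, rfl⟩ := h5
      exact hmain k f hf
    exact h4 hg
  have hxB0 : ∀ j ≤ n, x j ∈ B := by
    intro j hj
    refine Algebra.subset_adjoin ?_
    rcases Nat.eq_zero_or_pos j with h | h
    · subst h
      exact Or.inl rfl
    · exact Or.inr ⟨j, ⟨h, hj⟩, rfl⟩
  have hxB : ∀ j, x j ∈ B := by
    intro j
    induction j using Nat.strong_induction_on with
    | _ j ih =>
      rcases lt_trichotomy j (n + 1) with h | h | h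
      · exact hxB0 j (by omega)
      · rw [h, hT]
        refine B.neg_mem (B.add_mem (hxB0 0 (by omega)) (Subalgebra.sum_mem _ fun i hi => ?_))
        exact hxB0 i (mem_Icc.mp hi).2
      · obtain ⟨i, rfl⟩ : ∃ i, j = i + (n + 2) := ⟨j - (n + 2), by omega⟩
        rw [hper]
        exact ih i (by omega)
  intro f
  refine hmem f (hBV _ ?_)
  induction f using MvPolynomial.induction_on with
  | C a =>
    have : π (MvPolynomial.C a) = algebraMap K _ a := π.commutes a
    rw [this]
    exact B.algebraMap_mem a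
  | add f g hf hg =>
    rw [map_add]
    exact B.add_mem hf hg
  | mul_X f j hf =>
    rw [map_mul]
    exact B.mul_mem hf (hxB j)

end Main

section Count

variable {K : Type} [Field K] [Finite K] {p s : ℕ} [hpf : Fact p.Prime] [CharP K p]

omit hpf [CharP K p] in
lemma pow_q (hK : Nat.card K = p ^ s) (x : K) : x ^ p ^ s = x := by
  have := Fintype.ofFinite K
  rw [← hK, Nat.card_eq_fintype_card]
  exact FiniteField.pow_card x

omit [Finite K] in
lemma tr_add (x y : K) : tr p s (x + y) = tr p s x + tr p s y := by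
  unfold tr
  rw [← Finset.sum_add_distrib]
  refine Finset.sum_congr rfl fun i _ => ?_
  exact add_pow_char_pow x y p i

lemma tr_pow (hK : Nat.card K = p ^ s) (x : K) : tr p s x ^ p = tr p s x := by
  unfold tr
  rw [sum_pow_char]
  have h1 : ∀ i, (x ^ p ^ i) ^ p = x ^ p ^ (i + 1) := by
    intro i
    rw [← pow_mul, ← pow_succ]
  simp only [h1]
  have h2 := Finset.sum_range_succ (fun i => x ^ p ^ i) s
  have h3 := Finset.sum_range_succ' (fun i => x ^ p ^ i) s
  rw [h2, pow_q hK, pow_zero, pow_one] at h3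
  exact add_right_cancel h3.symm

/-- there are many elements of trace zero -/
lemma card_ker (hs : 1 ≤ s) (hK : Nat.card K = p ^ s) :
    p ^ (s - 1) ≤ Nat.card {x : K // tr p s x = 0} := by
  classical
  have := Fintype.ofFinite K
  have hp := hpf.out
  set H := (univ : Finset K).filter fun x => tr p s x = 0 with hH
  have h1 : ∀ a ∈ (univ : Finset K).image (tr p s),
      ((univ : Finset K).filter fun x => tr p s x = a).card ≤ H.card := by
    intro a ha
    obtain ⟨x0, -, hx0⟩ := mem_image.mp ha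
    refine Finset.card_le_card_of_injOn (fun x => x - x0) ?_ ?_
    · intro x hx
      rw [mem_coe, mem_filter] at hx
      rw [mem_coe, hH, mem_filter]
      refine ⟨mem_univ _, ?_⟩
      have h2 := tr_add (p := p) (s := s) (x - x0) x0
      rw [sub_add_cancel, hx.2, hx0] at h2
      linear_combination (-1 : K) * h2
    · intro x _ y _ hxy
      exact sub_left_injective hxy
  have h2 := Finset.card_le_mul_card_image (f := tr p s) (univ : Finset K) H.card h1
  have h3 : ((univ : Finset K).image (tr p s)).card ≤ p := by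
    have h4 : (univ : Finset K).image (tr p s) ⊆
        (Polynomial.X ^ p - Polynomial.X : Polynomial K).roots.toFinset := by
      intro a ha
      obtain ⟨x0, -, hx0⟩ := mem_image.mp ha
      rw [Multiset.mem_toFinset, Polynomial.mem_roots
        (FiniteField.X_pow_card_sub_X_ne_zero K hp.one_lt)]
      simp only [Polynomial.IsRoot, Polynomial.eval_sub, Polynomial.eval_pow, Polynomial.eval_X]
      rw [← hx0, tr_pow hK, sub_self]
    refine (Finset.card_le_card h4).trans ((Multiset.toFinset_card_le _).trans ?_)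
    refine (Polynomial.card_roots' _).trans ?_
    rw [FiniteField.X_pow_card_sub_X_natDegree_eq K hp.one_lt]
  have h5 : H.card = Nat.card {x : K // tr p s x = 0} := by
    rw [Nat.card_eq_fintype_card, Fintype.card_subtype]
  rw [← h5]
  have h6 : p ^ s ≤ H.card * p := by
    rw [← hK, Nat.card_eq_fintype_card]
    exact h2.trans (Nat.mul_le_mul_left _ h3)
  have h7 : p ^ s = p ^ (s - 1) * p := by
    rw [← pow_succ, Nat.sub_add_cancel hs]
  rw [h7] at h6
  exact Nat.le_of_mul_le_mul_right h6 hp.pos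

end Count

end NdB

open NdB Finset

/-- the number of rows -/
lemma NdB.card_Lev {p s m : ℕ} (hp : p.Prime) : Fintype.card (Lev p s m) ≤ m - 1 := by
  classical
  rw [Fintype.card_coe]
  have h1 : (Lev p s m).card ≤ (Ico 1 m).card := by
    refine Finset.card_le_card_of_injOn (fun t => t.2 * p ^ (s - t.1)) ?_ ?_
    · intro t ht
      rw [mem_coe, mem_Lev hp.pos] at ht
      rw [mem_coe, mem_Ico]
      refine ⟨?_, ht.2.1⟩
      refine Nat.mul_pos ?_ (pow_pos hp.pos _)
      rcases Nat.eq_zero_or_pos t.2 with h | h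
      · exact absurd (h ▸ dvd_zero p) ht.2.2
      · exact h
    · intro t ht t' ht' h
      rw [mem_coe, mem_Lev hp.pos] at ht ht'
      have hl : t.2 * p ^ (s - t.1) = t'.2 * p ^ (s - t'.1) := h
      have hne : s - t.1 = s - t'.1 := by
        rcases lt_trichotomy (s - t.1) (s - t'.1) with h1 | h1 | h1
        · exfalso
          apply ht.2.2
          obtain ⟨c, hc⟩ := Nat.exists_eq_add_of_lt h1
          rw [hc, show s - t.1 + c + 1 = (c + 1) + (s - t.1) by omega, pow_add, ← mul_assoc] at hl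
          have h2 := Nat.eq_of_mul_eq_mul_right (pow_pos hp.pos _) hl
          rw [h2, pow_succ, ← mul_assoc]
          exact dvd_mul_left _ _
        · exact h1
        · exfalso
          apply ht'.2.2
          obtain ⟨c, hc⟩ := Nat.exists_eq_add_of_lt h1
          rw [hc, show s - t'.1 + c + 1 = (c + 1) + (s - t'.1) by omega, pow_add, ← mul_assoc] at hl
          have h2 := Nat.eq_of_mul_eq_mul_right (pow_pos hp.pos _) hl
          rw [← h2, pow_succ, ← mul_assoc]
          exact dvd_mul_left _ _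
      rw [hne] at hl
      have h2 := Nat.eq_of_mul_eq_mul_right (pow_pos hp.pos _) hl
      have h3 : t.1 = t'.1 := by omega
      exact Prod.ext h3 h2
  rwa [Nat.card_Ico] at h1

/-- the exponents -/
lemma NdB.exp_pos {p s r l : ℕ} (hp : 3 ≤ p) (hs : 2 ≤ s) (hr : r ≤ s)
    (hl : l * p ^ (s - r) < p ^ (s - 1) - 2) : 0 < (p ^ (s - 1) - 2) * p ^ r - (l - 1) := by
  have h1 : p ^ (s - 1) ≤ p ^ s := Nat.pow_le_pow_right (by omega) (by omega)
  have h2 : p ^ s = p ^ r * p ^ (s - r) := by rw [← pow_add, Nat.add_sub_cancel' hr]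
  have h3 : l * p ^ (s - r) < p ^ r * p ^ (s - r) := by omega
  have h4 : l < p ^ r := Nat.lt_of_mul_lt_mul_right h3
  have h5 : 1 ≤ p ^ (s - 1) - 2 := by omega
  have h6 : p ^ r ≤ (p ^ (s - 1) - 2) * p ^ r := Nat.le_mul_of_pos_left _ h5
  omega

/-- ROW D2 -/
theorem ndB {K : Type} [Field K] [Finite K] {p s : ℕ} [Fact p.Prime] [CharP K p] (hp : 3 ≤ p)
    (hs : 2 ≤ s) (hK : Nat.card K = p ^ s) :
    LinearIndependent K fun (t : Lev p s (p ^ (s - 1) - 2))
      (x : {x : K // tr p s x = 0 ∧ x ≠ 0}) =>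
      (x : K) ^ ((p ^ (s - 1) - 2) * p ^ t.1.1 - (t.1.2 - 1)) := by
  classical
  have := Fintype.ofFinite K
  have hpp : p.Prime := Fact.out
  obtain ⟨n, rfl⟩ : ∃ n, s = n + 2 := ⟨s - 2, by omega⟩
  rw [show n + 2 - 1 = n + 1 by omega]
  set N := p ^ (n + 1) with hN
  have hN3 : 3 ≤ N := hp.trans (Nat.le_self_pow (by omega) p)
  have hq : p ^ (n + 2) = p * N := by rw [hN]; ring
  let Ω := {x : K // tr p (n + 2) x = 0}
  let e : Ω → K := Subtype.val
  let b : Lev p (n + 2) (N - 2) ⊕ Fin 3 → (Ω → K) :=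
    Sum.elim (fun t ω => e ω ^ ((N - 2) * p ^ t.1.1 - (t.1.2 - 1)))
      (fun k ω => e ω ^ (if k = 0 then 0 else if k = 1 then 1 else N - 1))
  have hrow : ∀ r l, 1 ≤ r → r ≤ n + 2 → l * p ^ (n + 2 - r) < N - 2 → ¬ p ∣ l → ∀ E, 0 < E →
      (∀ x : K, x ≠ 0 → x ^ E = x ^ ((N - 2) * p ^ r - (l - 1))) →
      (fun ω => e ω ^ E) ∈ Submodule.span K (Set.range b) := by
    intro r l h1 h2 h3 h4 E hE h5
    refine Submodule.subset_span ⟨Sum.inl ⟨(r, l), (mem_Lev hpp.pos).mpr ⟨⟨h1, h2⟩, h3, h4⟩⟩, ?_⟩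
    funext ω
    show e ω ^ ((N - 2) * p ^ r - (l - 1)) = e ω ^ E
    by_cases h0 : e ω = 0
    · rw [h0, zero_pow (by omega : E ≠ 0), zero_pow]
      have := exp_pos (p := p) (s := n + 2) (r := r) (l := l) hp (by omega) h2 (by
        rw [show n + 2 - 1 = n + 1 by omega]; exact h3)
      rw [show n + 2 - 1 = n + 1 by omega, ← hN] at this
      omega
    · exact (h5 _ h0).symm
  have hW : Submodule.span K (Set.range b) = ⊤ := by
    refine eq_top_of_VV (p := p) e Subtype.val_injective _ ?_
    refine all_mem hp n e _ (pow_q hK) (fun ω => ω.2) ?_ ?_ ?_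
    · intro a ha hap
      rcases Nat.lt_or_ge a 2 with h | h
      · rcases (by omega : a = 0 ∨ a = 1) with rfl | rfl
        · exact Submodule.subset_span ⟨Sum.inr 0, rfl⟩
        · exact Submodule.subset_span ⟨Sum.inr 1, rfl⟩
      · have h1 : (N - 1) % p = p - 1 := by
          have h2 : N - 1 = (p - 1) + p * (p ^ n - 1) := by
            have h3 : 1 ≤ p ^ n := Nat.one_le_pow _ _ (by omega)
            have h4 : N = p * p ^ n := by rw [hN]; ring
            obtain ⟨c, hc⟩ : ∃ c, p ^ n = c + 1 := ⟨p ^ n - 1, by omega⟩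
            rw [h4, hc, Nat.add_sub_cancel, Nat.mul_succ]
            omega
          rw [h2, Nat.add_mul_mod_self_left, Nat.mod_eq_of_lt (by omega)]
        have h2 : a ≠ N - 1 := by
          rintro rfl
          exact hap h1
        have ha' : a < N := ha
        refine hrow (n + 2) (N - 1 - a) (by omega) le_rfl ?_ ?_ a (by omega) ?_
        · rw [Nat.sub_self, pow_zero, mul_one]
          omega
        · intro hd
          apply hap
          have h3 : N - 1 = a + (N - 1 - a) := by omega
          obtain ⟨c, hc⟩ := hd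
          rw [← h1, h3, hc, Nat.add_mul_mod_self_left]
        · intro x hx
          have h3 : x ^ (p ^ (n + 2) - 1) = 1 := by
            have h4 := pow_q hK x
            have h5 : x ^ p ^ (n + 2) = x ^ (p ^ (n + 2) - 1) * x := by
              rw [← pow_succ, Nat.sub_add_cancel (Nat.one_le_pow _ _ (by omega))]
            rw [h5] at h4
            exact mul_right_cancel₀ hx (by rw [h4, one_mul])
          have h4 : (N - 2) * p ^ (n + 2) - (N - 1 - a - 1) = (p ^ (n + 2) - 1) * (N - 2) + a := by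
            obtain ⟨c, hc⟩ : ∃ c, p ^ (n + 2) = c + 1 :=
              ⟨p ^ (n + 2) - 1, by have := Nat.one_le_pow (n + 2) p (by omega); omega⟩
            rw [hc, Nat.add_sub_cancel, Nat.mul_succ, mul_comm c]
            have : N - 1 - a - 1 + a = N - 2 := by omega
            omega
          rw [h4, pow_add, pow_mul, h3, one_pow, one_mul]
    · intro r m hr hrn hm hpm
      have h1 : p ^ (n + 2 - r) * p ^ (r - 1) = N := by
        rw [← pow_add, hN]
        congr 1
        omega
      have h2 : p * p ^ (n + 1 - r) = p ^ (n + 2 - r) := by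
        rw [← pow_succ']
        congr 1
        omega
      have h2' : p ≤ p ^ (n + 2 - r) := Nat.le_self_pow (by omega) p
      have hm0 : 0 < m := Nat.pos_of_ne_zero (fun h => hpm (h ▸ dvd_zero p))
      have h3 : p ^ r = p * p ^ (r - 1) := by
        rw [← pow_succ']
        congr 1
        omega
      have h3' : p ^ r ≤ N := Nat.pow_le_pow_right (by omega) hrn
      have hd : p ∣ p ^ (r - 1) := dvd_pow_self p (by omega)
      refine hrow r (p ^ (r - 1) - m) (by omega) (by omega) ?_ ?_ _ (by omega) ?_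
      · have h4 : (p ^ (r - 1) - m) * p ^ (n + 2 - r) + m * p ^ (n + 2 - r) = N := by
          rw [← add_mul, Nat.sub_add_cancel hm.le, mul_comm, h1]
        have h5 : p ^ (n + 2 - r) ≤ m * p ^ (n + 2 - r) := Nat.le_mul_of_pos_left _ hm0
        omega
      · intro h4
        apply hpm
        have h5 : p ∣ p ^ (r - 1) - (p ^ (r - 1) - m) := Nat.dvd_sub hd h4
        rwa [Nat.sub_sub_self hm.le] at h5
      · intro x hx
        have h4 : x ^ (m + (p ^ (n + 2) - 2 * p ^ r)) * x ^ (2 * p ^ r) = x ^ (m + 1) := by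
          have h5 : 2 * p ^ r ≤ p ^ (n + 2) := by
            rw [hq]
            nlinarith
          rw [← pow_add, show m + (p ^ (n + 2) - 2 * p ^ r) + 2 * p ^ r = m + p ^ (n + 2) by omega,
            pow_add, pow_q hK, pow_succ]
        have h5 : x ^ ((N - 2) * p ^ r - (p ^ (r - 1) - m - 1)) * x ^ (2 * p ^ r) *
            x ^ p ^ (r - 1) = x ^ (m + 1) * x ^ p ^ (r - 1) := by
          have h6 : (N - 2) * p ^ r + 2 * p ^ r = N * p ^ r := by
            rw [← add_mul, Nat.sub_add_cancel (by omega)]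
          have h7 : p ^ r ≤ (N - 2) * p ^ r := Nat.le_mul_of_pos_left _ (by omega)
          have h8 : p ^ (r - 1) ≤ p ^ r := Nat.pow_le_pow_right (by omega) (by omega)
          rw [← pow_add, ← pow_add, show (N - 2) * p ^ r - (p ^ (r - 1) - m - 1) + 2 * p ^ r +
            p ^ (r - 1) = N * p ^ r + (m + 1) by omega, pow_add]
          have h9 : x ^ (N * p ^ r) = x ^ p ^ (r - 1) := by
            have h10 : N * p ^ r = p ^ (n + 2) * p ^ (r - 1) := by
              rw [hN, ← pow_add, ← pow_add]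
              congr 1
              omega
            rw [h10, pow_mul, pow_q hK]
          rw [h9, mul_comm]
        have h6 : x ^ ((N - 2) * p ^ r - (p ^ (r - 1) - m - 1)) * x ^ (2 * p ^ r) = x ^ (m + 1) :=
          mul_right_cancel₀ (pow_ne_zero _ hx) h5
        rw [← h6] at h4
        exact mul_right_cancel₀ (pow_ne_zero _ hx) h4
    · exact Submodule.subset_span ⟨Sum.inr 2, rfl⟩
  have hcard : Fintype.card (Lev p (n + 2) (N - 2) ⊕ Fin 3) ≤ N := by
    rw [Fintype.card_sum, Fintype.card_fin]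
    have := card_Lev (s := n + 2) (m := N - 2) hpp
    omega
  have hcard2 : N ≤ Module.finrank K (Ω → K) := by
    rw [Module.finrank_fintype_fun_eq_card, ← Nat.card_eq_fintype_card]
    have := card_ker (K := K) (p := p) (s := n + 2) (by omega) hK
    rwa [show n + 2 - 1 = n + 1 by omega] at this
  have hb : LinearIndependent K b := by
    rw [linearIndependent_iff_card_le_finrank_span]
    unfold Set.finrank
    rw [hW, finrank_top]
    omega
  have hb2 := hb.comp Sum.inl Sum.inl_injective
  rw [Fintype.linearIndependent_iff] at hb2 ⊢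
  intro g hg
  refine hb2 g ?_
  funext ω
  rw [Finset.sum_apply]
  by_cases h0 : ω.1 = 0
  · refine Finset.sum_eq_zero fun t _ => ?_
    show g t * e ω ^ ((N - 2) * p ^ t.1.1 - (t.1.2 - 1)) = 0
    have h1 := (mem_Lev hpp.pos).mp t.2
    have h2 := exp_pos (p := p) (s := n + 2) (r := t.1.1) (l := t.1.2) hp (by omega) h1.1.2 (by
      rw [show n + 2 - 1 = n + 1 by omega]; exact h1.2.1)
    rw [show n + 2 - 1 = n + 1 by omega, ← hN] at h2
    have h3 : e ω = 0 := h0
    rw [h3, zero_pow (by omega), mul_zero]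
  · have h1 := congrFun hg ⟨ω.1, ω.2, h0⟩
    rw [Finset.sum_apply] at h1
    exact h1

end Pool.Agent.BCX4
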