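import Pool.Agent.BCX4.Defs

/-!
# Row D2, algebra: spanning in `K[x_0, …, x_n] / (x_j ^ p)`
-/

namespace Pool.Agent.BCX4

namespace NdB

open Finset

/-- the algebra generated by `x 1, …, x k` -/
def PA (K : Type) {A : Type} [Field K] [CommRing A] [Algebra K A] (x : ℕ → A) (k : ℕ) :
    Subalgebra K A :=
  Algebra.adjoin K (x '' Set.Icc 1 k)

section

variable {K A : Type} [Field K] [CommRing A] [Algebra K A]

lemma PA_mono (x : ℕ → A) {k l : ℕ} (h : k ≤ l) : PA K x k ≤ PA K x l :=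
  Algebra.adjoin_mono (Set.image_mono (Set.Icc_subset_Icc le_rfl h))

lemma mem_PA (x : ℕ → A) {j k : ℕ} (h1 : 1 ≤ j) (h : j ≤ k) : x j ∈ PA K x k :=
  Algebra.subset_adjoin ⟨j, ⟨h1, h⟩, rfl⟩

lemma sum_mem_PA (x : ℕ → A) (k : ℕ) : ∑ j ∈ Icc 1 k, x j ∈ PA K x k :=
  Subalgebra.sum_mem _ fun _ hj => mem_PA x (mem_Icc.mp hj).1 (mem_Icc.mp hj).2

lemma PA_induction (x : ℕ → A) (k : ℕ) (V : Submodule K A)
    (h : ∀ a : ℕ → ℕ, ∏ j ∈ Icc 1 k, x j ^ a j ∈ V) : ∀ f ∈ PA K x k, f ∈ V := by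
  intro f hf
  have h1 : Subalgebra.toSubmodule (PA K x k) ≤ V := by
    unfold PA
    rw [Algebra.adjoin_eq_span, Submodule.span_le]
    intro g hg
    have h2 : ∃ a : ℕ → ℕ, g = ∏ j ∈ Icc 1 k, x j ^ a j := by
      induction hg using Submonoid.closure_induction with
      | mem y hy =>
        obtain ⟨j, hj, rfl⟩ := hy
        refine ⟨Pi.single j 1, ?_⟩
        rw [Finset.prod_eq_single j]
        · simp
        · intro b _ hb
          simp [Pi.single_eq_of_ne hb]
        · intro hj'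
          exact absurd (mem_Icc.mpr hj) hj'
      | one => exact ⟨0, by simp⟩
      | mul y z _ _ hy hz =>
        obtain ⟨a, rfl⟩ := hy
        obtain ⟨b, rfl⟩ := hz
        refine ⟨a + b, ?_⟩
        rw [← Finset.prod_mul_distrib]
        exact Finset.prod_congr rfl fun j _ => (pow_add _ _ _).symm
    obtain ⟨a, rfl⟩ := h2
    exact h a
  exact h1 hf

/-- it is enough to look at exponents less than `p` -/
lemma PA_induction' {p : ℕ} (x : ℕ → A) (hx : ∀ j, x j ^ p = 0) (k : ℕ) (V : Submodule K A) (w : A)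
    (h : ∀ a : ℕ → ℕ, (∀ j, a j < p) → w * ∏ j ∈ Icc 1 k, x j ^ a j ∈ V) :
    ∀ f ∈ PA K x k, w * f ∈ V := by
  classical
  intro f hf
  refine PA_induction x k (V.comap (LinearMap.mulLeft K w)) ?_ f hf
  intro a
  rw [Submodule.mem_comap, LinearMap.mulLeft_apply]
  by_cases ha : ∀ j ∈ Icc 1 k, a j < p
  · by_cases hp : 0 < p
    · have h1 := h (fun j => if j ∈ Icc 1 k then a j else 0) (by
        intro j
        by_cases hj : j ∈ Icc 1 k
        · simp only [hj, if_true]; exact ha j hj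
        · simp only [hj, if_false]; exact hp)
      have h2 : ∏ j ∈ Icc 1 k, x j ^ (if j ∈ Icc 1 k then a j else 0) = ∏ j ∈ Icc 1 k, x j ^ a j :=
        Finset.prod_congr rfl fun j hj => by rw [if_pos hj]
      rwa [h2] at h1
    · have hp0 : p = 0 := by omega
      subst hp0
      have h01 : (1 : A) = 0 := by simpa using hx 0
      have : w * ∏ j ∈ Icc 1 k, x j ^ a j = 0 := by
        rw [← mul_one (w * _), h01, mul_zero]
      rw [this]
      exact V.zero_mem
  · push Not at ha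
    obtain ⟨j, hj, hj'⟩ := ha
    have hz : x j ^ a j = 0 := pow_eq_zero_of_le hj' (hx j)
    have hz' : ∏ j ∈ Icc 1 k, x j ^ a j = 0 := Finset.prod_eq_zero hj hz
    rw [hz', mul_zero]
    exact V.zero_mem

lemma add_pow_mul_top {p : ℕ} {u y : A} (hp : 1 ≤ p) (hu : u ^ p = 0) (k : ℕ) :
    (y + u) ^ k * u ^ (p - 1) = y ^ k * u ^ (p - 1) := by
  induction k with
  | zero => simp
  | succ k ih =>
    have h1 : u * u ^ (p - 1) = 0 := by rw [← pow_succ', Nat.sub_add_cancel hp, hu]
    calc (y + u) ^ (k + 1) * u ^ (p - 1) = (y + u) * ((y + u) ^ k * u ^ (p - 1)) := by ring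
      _ = y ^ k * (y * u ^ (p - 1) + u * u ^ (p - 1)) := by rw [ih]; ring
      _ = y ^ (k + 1) * u ^ (p - 1) := by rw [h1]; ring

lemma cast_ne {p : ℕ} [Fact p.Prime] [CharP K p] {n : ℕ} (h : ¬ p ∣ n) : (n : K) ≠ 0 := by
  rwa [Ne, CharP.cast_eq_zero_iff K p]

lemma smul_mem_cancel {p : ℕ} [Fact p.Prime] [CharP K p] {n : ℕ} (h : ¬ p ∣ n) (V : Submodule K A)
    {f : A} (hf : (n : A) * f ∈ V) : f ∈ V := by
  have h1 := cast_ne (K := K) h
  have h2 : f = (n : K)⁻¹ • ((n : A) * f) := by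
    rw [← map_natCast (algebraMap K A), ← Algebra.smul_def, smul_smul, inv_mul_cancel₀ h1, one_smul]
  rw [h2]
  exact V.smul_mem _ hf

lemma choose_not_dvd {p : ℕ} (hp : p.Prime) {m i : ℕ} (hm : m < p) (hi : i ≤ m) :
    ¬ p ∣ m.choose i := by
  intro h
  have h1 := Nat.choose_mul_factorial_mul_factorial hi
  have h2 : p ∣ m.factorial := by
    rw [← h1]
    exact Dvd.dvd.mul_right (Dvd.dvd.mul_right h _) _
  rw [hp.dvd_factorial] at h2
  omega

/-- the spanning statement in `K[x_1, …, x_n]` -/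
theorem span_top {p : ℕ} [hpf : Fact p.Prime] [CharP K p] (x : ℕ → A) (hx : ∀ j, x j ^ p = 0)
    (n : ℕ) : ∀ (V : Submodule K A)
    (_ : 1 ≤ n → ∀ k ≤ p - 2, ∀ f ∈ PA K x (n - 1), (∑ j ∈ Icc 1 n, x j) ^ k * f ∈ V)
    (_ : ∀ r, 2 ≤ r → r ≤ n → ∀ k, 1 ≤ k → k ≤ p - 1 → ∀ f ∈ PA K x (r - 2),
      (∑ j ∈ Icc 1 n, x j) ^ k * f * x r ^ (p - 2) * ∏ j ∈ Ioc r n, x j ^ (p - 1) ∈ V)
    (_ : ∏ j ∈ Icc 1 n, x j ^ (p - 1) ∈ V), ∀ f ∈ PA K x n, f ∈ V := by
  have hp := hpf.out
  have hp2 := hp.two_le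
  induction n with
  | zero =>
    intro V _ _ h3
    refine PA_induction x 0 V ?_
    intro a
    simpa using h3
  | succ n ih =>
    intro V h1 h2 h3
    set u := x (n + 1) with hu
    set y := ∑ j ∈ Icc 1 n, x j with hy
    have hsum : ∑ j ∈ Icc 1 (n + 1), x j = y + u := by
      rw [Finset.sum_Icc_succ_top (by omega)]
    have hy_mem : y ∈ PA K x n := sum_mem_PA x n
    have hu0 : u ^ p = 0 := hx (n + 1)
    -- step A
    have hA : ∀ k, k ≤ p - 2 → ∀ f ∈ PA K x n, u ^ k * f ∈ V := by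
      intro k
      induction k using Nat.strong_induction_on with
      | _ k ihk =>
        intro hk f hf
        have h4 := h1 (by omega) k hk f hf
        rw [hsum, add_comm y u, add_pow, Finset.sum_mul, Finset.sum_range_succ] at h4
        have h5 : ∑ i ∈ range k, u ^ i * y ^ (k - i) * (k.choose i : A) * f ∈ V := by
          refine V.sum_mem fun i hi => ?_
          have hi' := mem_range.mp hi
          have h6 : u ^ i * y ^ (k - i) * (k.choose i : A) * f =
              u ^ i * (y ^ (k - i) * (k.choose i : A) * f) := by ring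
          rw [h6]
          refine ihk i hi' (by omega) _ ?_
          refine (PA K x n).mul_mem ((PA K x n).mul_mem ((PA K x n).pow_mem hy_mem _) ?_) hf
          exact (PA K x n).natCast_mem _
        have h7 := (V.add_mem_iff_right h5).mp h4
        simpa using h7
    -- the induction hypothesis
    have hB : ∀ f ∈ PA K x n, u ^ (p - 1) * f ∈ V := by
      intro f hf
      refine ih (V.comap (LinearMap.mulLeft K (u ^ (p - 1)))) ?_ ?_ ?_ f hf
      · intro hn k hk f hf
        rw [Submodule.mem_comap, LinearMap.mulLeft_apply]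
        have h4 := h2 (n + 1) (by omega) le_rfl (k + 1) (by omega) (by omega) f
          (by simpa using hf)
        rw [hsum, Ioc_self, prod_empty, mul_one] at h4
        obtain ⟨c, hc⟩ := Polynomial.powAddExpansion y u (k + 1)
        rw [hc] at h4
        have h5 : (y ^ (k + 1) + ((k + 1 : ℕ) : A) * y ^ (k + 1 - 1) * u + c * u ^ 2) * f *
            u ^ (p - 2) = u ^ (p - 2) * (y ^ (k + 1) * f) +
            (((k + 1 : ℕ) : A) * (u ^ (p - 1) * (y ^ k * f))) := by
          have h6 : u ^ 2 * u ^ (p - 2) = 0 := by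
            rw [← pow_add, show 2 + (p - 2) = p by omega, hu0]
          have h7 : u ^ (p - 1) = u * u ^ (p - 2) := by
            rw [← pow_succ', show p - 2 + 1 = p - 1 by omega]
          rw [h7, Nat.add_sub_cancel]
          linear_combination (c * f) * h6
        rw [h5] at h4
        have hf' : f ∈ PA K x n := PA_mono x (by omega) hf
        have h8 : u ^ (p - 2) * (y ^ (k + 1) * f) ∈ V :=
          hA (p - 2) le_rfl _ ((PA K x n).mul_mem ((PA K x n).pow_mem hy_mem _) hf')
        have h9 := (V.add_mem_iff_right h8).mp h4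
        refine smul_mem_cancel (p := p) ?_ V h9
        intro hd
        have := Nat.le_of_dvd (by omega) hd
        omega
      · intro r hr hrn k hk hkp f hf
        rw [Submodule.mem_comap, LinearMap.mulLeft_apply]
        have h4 := h2 r hr (by omega) k hk hkp f hf
        rw [hsum, Finset.prod_Ioc_succ_top (by omega)] at h4
        have h5 := add_pow_mul_top (y := y) (by omega : 1 ≤ p) hu0 k
        have h6 : (y + u) ^ k * f * x r ^ (p - 2) * ((∏ j ∈ Ioc r n, x j ^ (p - 1)) *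
            x (n + 1) ^ (p - 1)) = u ^ (p - 1) * (y ^ k * f * x r ^ (p - 2) *
              ∏ j ∈ Ioc r n, x j ^ (p - 1)) := by
          rw [← hu]
          linear_combination (f * x r ^ (p - 2) * ∏ j ∈ Ioc r n, x j ^ (p - 1)) * h5
        rwa [h6] at h4
      · rw [Submodule.mem_comap, LinearMap.mulLeft_apply]
        rw [Finset.prod_Icc_succ_top (by omega)] at h3
        rwa [mul_comm]
    refine PA_induction x (n + 1) V ?_
    intro a
    rw [Finset.prod_Icc_succ_top (by omega), mul_comm]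
    have h4 : ∏ j ∈ Icc 1 n, x j ^ a j ∈ PA K x n :=
      Subalgebra.prod_mem _ fun j hj => (PA K x n).pow_mem
        (mem_PA x (mem_Icc.mp hj).1 (mem_Icc.mp hj).2) _
    rcases lt_trichotomy (a (n + 1)) (p - 1) with h | h | h
    · exact hA _ (by omega) _ h4
    · rw [h]
      exact hB _ h4
    · rw [pow_eq_zero_of_le (by omega : p ≤ a (n + 1)) (hx (n + 1)), zero_mul]
      exact V.zero_mem

/-- extraction of the coefficient of `u ^ (p - 1)` -/
lemma extract {p : ℕ} [hpf : Fact p.Prime] [CharP K p] (V : Submodule K A) {u y h : A}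
    (hu : u ^ p = 0) {k m : ℕ} (hkp : k ≤ p - 1) (hm : m < p) (hkm : p - 1 ≤ k + m)
    (hlow : ∀ i ≤ p - 2, ∀ j, u ^ i * (y ^ j * h) ∈ V) (hV : u ^ k * ((u + y) ^ m * h) ∈ V) :
    u ^ (p - 1) * (y ^ (k + m - (p - 1)) * h) ∈ V := by
  have hp := hpf.out
  have hp2 := hp.two_le
  have hi0 : p - 1 - k ∈ range (m + 1) := by rw [mem_range]; omega
  have h1 : u ^ k * ((u + y) ^ m * h) = ∑ i ∈ range (m + 1),
      (m.choose i : A) * (u ^ (k + i) * (y ^ (m - i) * h)) := by
    rw [add_pow, Finset.sum_mul, Finset.mul_sum]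
    refine Finset.sum_congr rfl fun i _ => ?_
    rw [pow_add]
    ring
  rw [h1, ← Finset.add_sum_erase _ _ hi0] at hV
  have h2 : ∑ i ∈ (range (m + 1)).erase (p - 1 - k),
      (m.choose i : A) * (u ^ (k + i) * (y ^ (m - i) * h)) ∈ V := by
    refine V.sum_mem fun i hi => ?_
    rw [mem_erase, mem_range] at hi
    rcases lt_or_ge (k + i) (p - 1) with h3 | h3
    · rw [← map_natCast (algebraMap K A), ← Algebra.smul_def]
      exact V.smul_mem _ (hlow _ (by omega) _)
    · rw [pow_eq_zero_of_le (by omega : p ≤ k + i) hu, zero_mul, mul_zero]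
      exact V.zero_mem
  have h3 := (V.add_mem_iff_left h2).mp hV
  have h4 := smul_mem_cancel (p := p) (choose_not_dvd hp hm (by omega)) V h3
  rwa [show k + (p - 1 - k) = p - 1 by omega, show m - (p - 1 - k) = k + m - (p - 1) by omega] at h4

/-- the spanning statement in `K[x_0, …, x_n]` -/
theorem span_top0 {p : ℕ} [hpf : Fact p.Prime] [CharP K p] (hp3 : 3 ≤ p) (x : ℕ → A)
    (hx : ∀ j, x j ^ p = 0) (n : ℕ) (V : Submodule K A)
    (hT : x (n + 1) = -(x 0 + ∑ j ∈ Icc 1 n, x j))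
    (ha : ∀ k ≤ p - 2, ∀ f ∈ PA K x n, x 0 ^ k * f ∈ V)
    (hb : ∀ r, 2 ≤ r → r ≤ n + 1 → ∀ k, 1 ≤ k → k ≤ p - 1 → ∀ f ∈ PA K x (r - 2),
      x 0 ^ k * f * x r ^ (p - 2) * ∏ j ∈ Ioc r (n + 1), x j ^ (p - 1) ∈ V)
    (hc : x 0 ^ (p - 1) * ∏ j ∈ Icc 1 n, x j ^ (p - 1) ∈ V) :
    ∀ k, ∀ f ∈ PA K x n, x 0 ^ k * f ∈ V := by
  have hp := hpf.out
  set y := ∑ j ∈ Icc 1 n, x j with hy
  have hy_mem : y ∈ PA K x n := sum_mem_PA x n
  have hu0 : x 0 ^ p = 0 := hx 0
  have hneg : ∀ (m : ℕ) (f : A), f * x (n + 1) ^ m ∈ V → f * (x 0 + y) ^ m ∈ V := by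
    intro m f hf
    rw [hT, neg_pow, ← mul_assoc, mul_comm f, mul_assoc] at hf
    have h1 : f * (x 0 + y) ^ m = ((-1 : K) ^ m) • ((-1) ^ m * (f * (x 0 + y) ^ m)) := by
      rw [Algebra.smul_def, map_pow, map_neg, map_one, ← mul_assoc, ← mul_pow]
      simp
    rw [h1]
    exact V.smul_mem _ hf
  have hB : ∀ f ∈ PA K x n, x 0 ^ (p - 1) * f ∈ V := by
    intro f hf
    refine span_top x hx n (V.comap (LinearMap.mulLeft K (x 0 ^ (p - 1)))) ?_ ?_ ?_ f hf
    · intro hn k hk f hf
      rw [Submodule.mem_comap, LinearMap.mulLeft_apply]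
      have h1 := hb (n + 1) (by omega) le_rfl (k + 1) (by omega) (by omega) f (by simpa using hf)
      rw [Ioc_self, prod_empty, mul_one] at h1
      have h2 := hneg _ _ h1
      have hf' : f ∈ PA K x n := PA_mono x (by omega) hf
      have h3 := extract (p := p) V (y := y) (h := f) hu0 (k := k + 1) (m := p - 2)
        (by omega) (by omega) (by omega) (fun i hi j => ha i hi _
          ((PA K x n).mul_mem ((PA K x n).pow_mem hy_mem _) hf')) (by
          have h4 : x 0 ^ (k + 1) * ((x 0 + y) ^ (p - 2) * f) =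
              x 0 ^ (k + 1) * f * (x 0 + y) ^ (p - 2) := by ring
          rw [h4]
          exact h2)
      rwa [show k + 1 + (p - 2) - (p - 1) = k by omega] at h3
    · intro r hr hrn k hk hkp f hf
      rw [Submodule.mem_comap, LinearMap.mulLeft_apply]
      have h1 := hb r hr (by omega) k hk hkp f hf
      rw [Finset.prod_Ioc_succ_top (by omega), ← mul_assoc] at h1
      have h2 := hneg _ _ h1
      have hf' : f * x r ^ (p - 2) * ∏ j ∈ Ioc r n, x j ^ (p - 1) ∈ PA K x n := by
        refine (PA K x n).mul_mem ((PA K x n).mul_mem (PA_mono x (by omega) hf)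
          ((PA K x n).pow_mem (mem_PA x (by omega) hrn) _)) ?_
        exact Subalgebra.prod_mem _ fun j hj => (PA K x n).pow_mem
          (mem_PA x (by have := mem_Ioc.mp hj; omega) (mem_Ioc.mp hj).2) _
      have h3 := extract (p := p) V (y := y) (h := f * x r ^ (p - 2) *
        ∏ j ∈ Ioc r n, x j ^ (p - 1)) hu0 (k := k) (m := p - 1)
        (by omega) (by omega) (by omega) (fun i hi j => ha i hi _
          ((PA K x n).mul_mem ((PA K x n).pow_mem hy_mem _) hf')) (by
          have h4 : x 0 ^ k * ((x 0 + y) ^ (p - 1) * (f * x r ^ (p - 2) *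
              ∏ j ∈ Ioc r n, x j ^ (p - 1))) = x 0 ^ k * f * x r ^ (p - 2) *
              (∏ j ∈ Ioc r n, x j ^ (p - 1)) * (x 0 + y) ^ (p - 1) := by ring
          rw [h4]
          exact h2)
      rw [show k + (p - 1) - (p - 1) = k by omega] at h3
      have h5 : x 0 ^ (p - 1) * (y ^ k * f * x r ^ (p - 2) * ∏ j ∈ Ioc r n, x j ^ (p - 1)) =
          x 0 ^ (p - 1) * (y ^ k * (f * x r ^ (p - 2) * ∏ j ∈ Ioc r n, x j ^ (p - 1))) := by ring
      rw [h5]
      exact h3
    · rw [Submodule.mem_comap, LinearMap.mulLeft_apply]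
      exact hc
  intro k f hf
  rcases lt_trichotomy k (p - 1) with h | h | h
  · exact ha _ (by omega) _ hf
  · rw [h]
    exact hB _ hf
  · rw [pow_eq_zero_of_le (by omega : p ≤ k) hu0, zero_mul]
    exact V.zero_mem

end

end NdB

end Pool.Agent.BCX4
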