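import Pool.Agent.BCX4.SysDefs

/-!
# Row D7: the test polynomials and the powers of `X ^ p` span
-/

namespace Pool.Agent.BCX4

open Polynomial

namespace Span

/-- a submodule that contains a monic polynomial of each degree `< M` contains the powers of `X` -/
lemma mem_of_monic {R : Type} [CommRing R] (W : Submodule R R[X]) {M : ℕ}
    (h : ∀ l < M, ∃ q ∈ W, q.Monic ∧ q.natDegree = l) : ∀ l < M, (X : R[X]) ^ l ∈ W := by
  intro l
  induction l using Nat.strong_induction_on with
  | _ l ih =>
    intro hl
    obtain ⟨q, hq, hm, hd⟩ := h l hl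
    have h1 : q = X ^ l + ∑ i ∈ Finset.range l, C (q.coeff i) * X ^ i := by
      have := hm.as_sum
      rw [hd] at this
      exact this
    have h2 : ∑ i ∈ Finset.range l, C (q.coeff i) * X ^ i ∈ W := by
      refine Submodule.sum_mem _ fun i hi => ?_
      rw [← smul_eq_C_mul]
      exact W.smul_mem _ (ih i (Finset.mem_range.1 hi) ((Finset.mem_range.1 hi).trans hl))
    have h3 : (X : R[X]) ^ l = q - ∑ i ∈ Finset.range l, C (q.coeff i) * X ^ i := by
      rw [eq_sub_iff_add_eq]
      exact h1.symm
    rw [h3]
    exact W.sub_mem hq h2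

/-- downward induction -/
lemma down {R : Type} [CommRing R] (V : Submodule R R[X]) {m D : ℕ} (Q : R[X])
    (hQ : IsUnit (Q.coeff 0)) (hD : Q.natDegree ≤ D)
    (htop : ∀ l, m ≤ l → l < m + D → (X : R[X]) ^ l ∈ V)
    (h : ∀ l < m, (X : R[X]) ^ l ∈ V ∨ (X : R[X]) ^ l * Q ∈ V) :
    ∀ l < m + D, (X : R[X]) ^ l ∈ V := by
  have key : ∀ k l, m ≤ l + k → l < m + D → (X : R[X]) ^ l ∈ V := by
    intro k
    induction k with
    | zero => exact fun l h1 h2 => htop l h1 h2
    | succ k ih =>
      intro l h1 h2
      rcases le_or_gt m (l + k) with h3 | h3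
      · exact ih l h3 h2
      · rcases h l (by omega) with h4 | h4
        · exact h4
        · have h5 : (X : R[X]) ^ l * Q = ∑ i ∈ Finset.range D, Q.coeff (i + 1) • X ^ (l + (i + 1)) +
              Q.coeff 0 • X ^ l := by
            conv_lhs => rw [Q.as_sum_range_C_mul_X_pow' (show Q.natDegree < D + 1 by omega),
              Finset.mul_sum, Finset.sum_range_succ']
            congr 1
            · refine Finset.sum_congr rfl fun i _ => ?_
              rw [smul_eq_C_mul, pow_add]
              ring
            · rw [smul_eq_C_mul]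
              ring
          have h6 : ∑ i ∈ Finset.range D, Q.coeff (i + 1) • (X : R[X]) ^ (l + (i + 1)) ∈ V := by
            refine Submodule.sum_mem _ fun i hi => V.smul_mem _ (ih _ (by omega) ?_)
            have := Finset.mem_range.1 hi
            omega
          have h7 : Q.coeff 0 • (X : R[X]) ^ l ∈ V := by
            have := V.sub_mem h4 h6
            rwa [h5, add_sub_cancel_left] at this
          obtain ⟨u, hu⟩ := hQ
          have := V.smul_mem (↑u⁻¹ : R) h7
          rwa [smul_smul, ← hu, Units.inv_mul, one_smul] at this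
  exact fun l hl => key m l (by omega) hl

/-- a triangle of products of powers of `X - 1` and `X - g` -/
lemma triangle {R : Type} [CommRing R] {g : R} (hg1 : IsUnit (1 - g)) (W : Submodule R R[X])
    {B k : ℕ} (h1 : ∀ i < B, (X - 1) ^ i * (X - C g) ^ k ∈ W)
    (h2 : ∀ j < k, (X - 1) ^ B * (X - C g) ^ j ∈ W) :
    ∀ m i j, i ≤ B → j ≤ k → i + j < B + k → B + k ≤ i + j + m →
      ((X : R[X]) - 1) ^ i * (X - C g) ^ j ∈ W := by
  intro m
  induction m with
  | zero => intro i j _ _ h5 h6; omega
  | succ m ih =>
    intro i j hi hj h5 h6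
    rcases Nat.eq_or_lt_of_le hi with rfl | hi'
    · exact h2 j (by omega)
    · rcases Nat.eq_or_lt_of_le hj with rfl | hj'
      · exact h1 i hi'
      · have h7 := ih (i + 1) j (by omega) hj (by omega) (by omega)
        have h8 := ih i (j + 1) hi (by omega) (by omega) (by omega)
        have h9 := W.sub_mem h8 h7
        have h10 : (X - 1) ^ i * (X - C g) ^ (j + 1) - (X - 1) ^ (i + 1) * (X - C g) ^ j =
            (1 - g) • ((X - 1) ^ i * (X - C g) ^ j) := by
          rw [smul_eq_C_mul, C_sub, C_1]
          ring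
        rw [h10] at h9
        obtain ⟨u, hu⟩ := hg1
        have := W.smul_mem (↑u⁻¹ : R) h9
        rwa [smul_smul, ← hu, Units.inv_mul, one_smul] at this

/-- polynomials in `X ^ p` -/
lemma mem_expand {R : Type} [CommRing R] {p M : ℕ} (V : Submodule R R[X])
    (hpow : ∀ j, p * j < M → (X : R[X]) ^ (p * j) ∈ V) (f : R[X]) (hf : p * f.natDegree < M) :
    expand R p f ∈ V := by
  rw [f.as_sum_range_C_mul_X_pow, map_sum]
  refine Submodule.sum_mem _ fun i hi => ?_
  rw [map_mul, expand_C, map_pow, expand_X, ← smul_eq_C_mul, ← pow_mul]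
  refine V.smul_mem _ (hpow i (lt_of_le_of_lt (Nat.mul_le_mul_left _ ?_) hf))
  have := Finset.mem_range.1 hi
  omega

/-- the test polynomials with exponents divisible by `p` -/
lemma tst_mem {R : Type} [CommRing R] {p M : ℕ} [Fact p.Prime] [CharP R p] {g : R}
    (V : Submodule R R[X]) (hpow : ∀ j, p * j < M → (X : R[X]) ^ (p * j) ∈ V) {a b k : ℕ}
    (ha : p ∣ a) (hb : p ∣ b) (hk : p ∣ k) (h : a + b + k < M) : tst g a b k ∈ V := by
  obtain ⟨a, rfl⟩ := ha
  obtain ⟨b, rfl⟩ := hb
  obtain ⟨k, rfl⟩ := hk
  have h1 : tst g (p * a) (p * b) (p * k) =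
      expand R p (X ^ a * (X - C 1) ^ b * (X - C (g ^ p)) ^ k) := by
    have e1 : (X - 1 : R[X]) ^ p = X ^ p - 1 := by
      rw [sub_pow_char (R := R[X]) (p := p) X 1, one_pow]
    have e2 : (X - C g : R[X]) ^ p = X ^ p - C (g ^ p) := by
      rw [sub_pow_char (R := R[X]) (p := p) X (C g), C_pow]
    unfold tst
    rw [pow_mul X p a, pow_mul (X - 1) p b, pow_mul (X - C g) p k, e1, e2]
    simp only [map_mul, map_pow, map_sub, expand_X, expand_C, map_one]
  rw [h1]
  refine mem_expand V hpow _ (lt_of_le_of_lt ?_ h)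
  have h2 : (X ^ a * (X - C 1) ^ b * (X - C (g ^ p)) ^ k : R[X]).natDegree ≤ a + b + k := by
    refine (natDegree_mul_le).trans (Nat.add_le_add ((natDegree_mul_le).trans
      (Nat.add_le_add (natDegree_X_pow_le _) ?_)) ?_)
    · exact (natDegree_pow_le).trans ((Nat.mul_le_mul_left _ (natDegree_X_sub_C_le _)).trans (by simp))
    · exact (natDegree_pow_le).trans ((Nat.mul_le_mul_left _ (natDegree_X_sub_C_le _)).trans (by simp))
  calc p * _ ≤ p * (a + b + k) := Nat.mul_le_mul_left _ h2
    _ = p * a + p * b + p * k := by ring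

/-- all polynomials of degree `< B + k` -/
lemma top_of_two {R : Type} [CommRing R] [Nontrivial R] {g : R} (hg1 : IsUnit (1 - g))
    (W : Submodule R R[X]) {B k : ℕ} (hk : 0 < k)
    (h1 : ∀ i < B, (X - 1) ^ i * (X - C g) ^ k ∈ W)
    (h2 : ∀ j < k, (X - 1) ^ B * (X - C g) ^ j ∈ W) : ∀ l < B + k, (X : R[X]) ^ l ∈ W := by
  have hm1 : (X - 1 : R[X]).Monic := monic_X_sub_C 1
  have hd1 : (X - 1 : R[X]).natDegree = 1 := natDegree_X_sub_C 1
  refine mem_of_monic W fun l hl => ?_
  rcases le_or_gt l B with h | h
  · refine ⟨(X - 1) ^ l, ?_, hm1.pow l, ?_⟩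
    · have := triangle hg1 W h1 h2 (B + k) l 0 h (by omega) (by omega) (by omega)
      simpa using this
    · rw [hm1.natDegree_pow, hd1, mul_one]
  · refine ⟨(X - 1) ^ B * (X - C g) ^ (l - B), h2 _ (by omega),
      (hm1.pow B).mul ((monic_X_sub_C g).pow _), ?_⟩
    rw [(hm1.pow B).natDegree_mul ((monic_X_sub_C g).pow _), hm1.natDegree_pow,
      (monic_X_sub_C g).natDegree_pow, hd1, natDegree_X_sub_C]
    omega

/-- all polynomials of degree `< p`, level one -/
lemma top_of_one {R : Type} [CommRing R] [Nontrivial R] {g : R} (hg1 : IsUnit (1 - g))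
    (W : Submodule R R[X]) {m j : ℕ} (hjm : j ≤ m)
    (h1 : ∀ i, 1 ≤ i → i < m → (X - 1) ^ i * (X - C g) ∈ W)
    (h2 : (X - 1) ^ m ∈ W) (h3 : (X : R[X]) ^ j ∈ W) : ∀ l < m + 1, (X : R[X]) ^ l ∈ W := by
  have hm1 : (X - 1 : R[X]).Monic := monic_X_sub_C 1
  have hd1 : (X - 1 : R[X]).natDegree = 1 := natDegree_X_sub_C 1
  have key : ∀ k i, 1 ≤ i → i ≤ m → m ≤ i + k → (X - 1 : R[X]) ^ i ∈ W := by
    intro k
    induction k with
    | zero =>
      intro i _ h5 h6
      obtain rfl : i = m := by omega
      exact h2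
    | succ k ih =>
      intro i h4 h5 h6
      rcases Nat.eq_or_lt_of_le h5 with rfl | h7
      · exact h2
      · have h8 := ih (i + 1) (by omega) (by omega) (by omega)
        have h9 := W.sub_mem (h1 i h4 h7) h8
        have h10 : (X - 1) ^ i * (X - C g) - (X - 1) ^ (i + 1) = (1 - g) • (X - 1) ^ i := by
          rw [smul_eq_C_mul, C_sub, C_1]
          ring
        rw [h10] at h9
        obtain ⟨u, hu⟩ := hg1
        have := W.smul_mem (↑u⁻¹ : R) h9
        rwa [smul_smul, ← hu, Units.inv_mul, one_smul] at this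
  have h4 : (1 : R[X]) ∈ W := by
    have h5 : (X : R[X]) ^ j =
        ∑ i ∈ Finset.range j, ((j.choose (i + 1) : ℕ) : R) • (X - 1) ^ (i + 1) + 1 := by
      have h6 : (X : R[X]) ^ j = ((X - 1) + 1) ^ j := by rw [sub_add_cancel]
      rw [h6, add_pow, Finset.sum_range_succ']
      congr 1
      · refine Finset.sum_congr rfl fun i _ => ?_
        rw [smul_eq_C_mul, one_pow, mul_one, mul_comm, map_natCast]
      · simp
    have h6 : ∑ i ∈ Finset.range j, ((j.choose (i + 1) : ℕ) : R) • (X - 1 : R[X]) ^ (i + 1) ∈ W := by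
      refine Submodule.sum_mem _ fun i hi => W.smul_mem _ (key m _ (by omega) ?_ (by omega))
      have := Finset.mem_range.1 hi
      omega
    have := W.sub_mem h3 h6
    rwa [h5, add_sub_cancel_left] at this
  refine mem_of_monic W fun l hl => ⟨(X - 1) ^ l, ?_, hm1.pow l, ?_⟩
  · rcases Nat.eq_zero_or_pos l with rfl | h5
    · simpa using h4
    · exact key m l h5 (by omega) (by omega)
  · rw [hm1.natDegree_pow, hd1, mul_one]

end Span

/-- ROW D7 (Span.lean): the test polynomials and the powers of `X ^ p` span -/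
theorem span_tests {p s n : ℕ} [Fact p.Prime] (hp : 3 ≤ p) (hs : 2 ≤ s) (hn : ¬ p ∣ n) {R : Type}
    [CommRing R] [CharP R p] {g : R} (hg : IsUnit g) (hg1 : IsUnit (1 - g))
    (V : ℕ → Submodule R R[X]) (h : Tests p s n g fun r f => f ∈ V r)
    (hpow : ∀ r, 1 ≤ r → r ≤ s → ∀ j, p * j < (n + p) * p ^ (r - 1) → (X : R[X]) ^ (p * j) ∈ V r) :
    ∀ r, 1 ≤ r → r ≤ s → ∀ l < (n + p) * p ^ (r - 1), (X : R[X]) ^ l ∈ V r := by
  have : Nontrivial R := CharP.nontrivial_of_char_ne_one (v := p) (by omega)
  intro r hr hrs
  obtain ⟨t, rfl⟩ : ∃ t, p = t + 3 := ⟨p - 3, by omega⟩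
  set q := t + 3 with hq
  rcases Nat.lt_or_ge r 2 with h2 | h2
  · obtain rfl : r = 1 := by omega
    have hP := hpow 1 le_rfl hrs
    simp only [Nat.sub_self, pow_zero, mul_one] at hP ⊢
    have hα := fun l => h.α 1 l le_rfl hrs
    have hβ := fun l => h.β 1 l le_rfl hrs
    have hst := h.st
    simp only [Nat.sub_self, pow_zero, mul_one] at hα hβ
    have hW : ∀ f : R[X], f ∈ (V 1).comap (LinearMap.mulLeft R ((X : R[X]) ^ n)) ↔
        X ^ n * f ∈ V 1 := fun f => by rw [Submodule.mem_comap, LinearMap.mulLeft_apply]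
    have htop : ∀ l < (q - 1) + 1, (X : R[X]) ^ l ∈
        (V 1).comap (LinearMap.mulLeft R ((X : R[X]) ^ n)) := by
      have hmod : n % q + q * (n / q) = n := Nat.mod_add_div n q
      have hlt : n % q < q := Nat.mod_lt _ (by omega)
      have hpos : 0 < n % q := Nat.pos_of_ne_zero fun h0 => hn (Nat.dvd_of_mod_eq_zero h0)
      refine Span.top_of_one hg1 _ (m := q - 1) (j := q - n % q) (by omega) ?_ ?_ ?_
      · intro i hi1 hi2
        rw [hW]
        have := hβ i hi2 fun hd => by
          have := Nat.le_of_dvd hi1 hd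
          omega
        unfold tst at this
        rwa [pow_one, mul_assoc] at this
      · rw [hW]
        unfold tst at hst
        rwa [pow_zero, mul_one] at hst
      · rw [hW, ← pow_add]
        have h3 : n + (q - n % q) = q * (n / q + 1) := by
          rw [mul_add, mul_one]
          omega
        rw [h3]
        apply hP
        rw [mul_add, mul_one]
        omega
    have hQd : (((X : R[X]) - 1) ^ (q - 1) * (X - C g)).natDegree ≤ q := by
      have h3 : ((X : R[X]) - 1).natDegree = 1 := natDegree_X_sub_C 1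
      refine natDegree_mul_le.trans ?_
      have h4 := (natDegree_pow_le (p := (X : R[X]) - 1) (n := q - 1))
      rw [h3] at h4
      have h5 := natDegree_X_sub_C_le g
      omega
    have := Span.down (V 1) (m := n) (D := q) (((X : R[X]) - 1) ^ (q - 1) * (X - C g)) ?_ hQd ?_ ?_
    · exact this
    · rw [mul_coeff_zero, coeff_zero_eq_eval_zero, coeff_zero_eq_eval_zero]
      simp only [eval_pow, eval_sub, eval_X, eval_one, eval_C, zero_sub]
      exact (isUnit_one.neg.pow _).mul hg.neg
    · intro l hl1 hl2
      have h3 := htop (l - n) (by omega)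
      rw [hW, ← pow_add] at h3
      rwa [show n + (l - n) = l by omega] at h3
    · intro l hl
      by_cases hd : q ∣ l
      · obtain ⟨j, rfl⟩ := hd
        exact Or.inl (hP j (by omega))
      · right
        have := hα l hl hd
        unfold tst at this
        rwa [pow_one, mul_assoc] at this
  · have hN0 : 0 < q ^ (r - 1) := pow_pos (by omega) _
    have hdN : q ∣ q ^ (r - 1) := dvd_pow_self _ (by omega)
    have hP := hpow r hr hrs
    have hα := fun l => h.α r l hr hrs
    have hβ := fun l => h.β r l hr hrs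
    have hγ := fun l => h.γ r l hr hrs
    obtain ⟨N, hN⟩ : ∃ N, N = q ^ (r - 1) := ⟨_, rfl⟩
    rw [← hN] at hN0 hdN hP hα hβ hγ
    rw [← hN]
    have hBN : (q - 1) * N + N = q * N := by
      rw [← Nat.succ_mul, Nat.succ_eq_add_one, show q - 1 + 1 = q by omega]
    have hnN : (n + q) * N = n * N + ((q - 1) * N + N) := by rw [hBN, add_mul]
    have hdB : q ∣ (q - 1) * N := hdN.mul_left _
    have hdn : q ∣ n * N := hdN.mul_left _
    rw [hnN] at hP ⊢
    have hW : ∀ f : R[X], f ∈ (V r).comap (LinearMap.mulLeft R ((X : R[X]) ^ (n * N))) ↔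
        X ^ (n * N) * f ∈ V r := fun f => by rw [Submodule.mem_comap, LinearMap.mulLeft_apply]
    have htop : ∀ l < (q - 1) * N + N, (X : R[X]) ^ l ∈
        (V r).comap (LinearMap.mulLeft R ((X : R[X]) ^ (n * N))) := by
      refine Span.top_of_two hg1 _ hN0 ?_ ?_
      · intro i hi
        rw [hW, ← mul_assoc]
        change tst g (n * N) i N ∈ V r
        by_cases hd : q ∣ i
        · exact Span.tst_mem (V r) hP hdn hd hdN (by omega)
        · exact hβ i hi hd
      · intro j hj
        rw [hW, ← mul_assoc]
        change tst g (n * N) ((q - 1) * N) j ∈ V r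
        by_cases hd : q ∣ j
        · exact Span.tst_mem (V r) hP hdn hdB hd (by omega)
        · by_cases hj2 : j * q ^ (s - r) < q ^ (s - 1) - 2
          · exact hγ j hj2 hd
          · have hsr : r = s := by
              by_contra hne
              apply hj2
              have h3 : q ^ (s - 1) = N * q ^ (s - r) := by
                rw [hN, ← pow_add]
                congr 1
                omega
              have h4 : 3 ≤ q ^ (s - r) := by
                calc 3 ≤ q := by omega
                  _ = q ^ 1 := (pow_one _).symm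
                  _ ≤ q ^ (s - r) := Nat.pow_le_pow_right (by omega) (by omega)
              have h5 : (j + 1) * q ^ (s - r) ≤ N * q ^ (s - r) := Nat.mul_le_mul_right _ hj
              rw [h3]
              rw [add_mul, one_mul] at h5
              omega
            subst hsr
            rw [Nat.sub_self, pow_zero, mul_one, ← hN] at hj2
            have he1 := h.e₁
            have he2 := h.e₂
            rw [← hN] at he1 he2
            have h6 : tst g (n * N) ((q - 1) * N) (N - 2) ∈ V r := by
              have h7 := (V r).sub_mem he1 he2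
              have h8 : tst g (n * N + 1) ((q - 1) * N) (N - 2) -
                  tst g (n * N) ((q - 1) * N + 1) (N - 2) =
                  tst g (n * N) ((q - 1) * N) (N - 2) := by
                unfold tst
                ring
              rwa [h8] at h7
            have h7 : tst g (n * N) ((q - 1) * N) (N - 2 + 1) ∈ V r := by
              have h7 := (V r).sub_mem he1 ((V r).smul_mem g h6)
              have h8 : tst g (n * N + 1) ((q - 1) * N) (N - 2) -
                  g • tst g (n * N) ((q - 1) * N) (N - 2) =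
                  tst g (n * N) ((q - 1) * N) (N - 2 + 1) := by
                unfold tst
                rw [smul_eq_C_mul]
                ring
              rwa [h8] at h7
            have hN3 : 3 ≤ N := le_trans (by omega) (Nat.le_of_dvd hN0 hdN)
            rcases (show j = N - 2 ∨ j = N - 2 + 1 by omega) with rfl | rfl
            · exact h6
            · exact h7
    have hQd : (((X : R[X]) - 1) ^ ((q - 1) * N) * (X - C g) ^ N).natDegree ≤ (q - 1) * N + N := by
      have h3 : ((X : R[X]) - 1).natDegree = 1 := natDegree_X_sub_C 1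
      refine natDegree_mul_le.trans (Nat.add_le_add ?_ ?_)
      · have h4 := (natDegree_pow_le (p := (X : R[X]) - 1) (n := (q - 1) * N))
        rwa [h3, mul_one] at h4
      · have h4 := (natDegree_pow_le (p := (X : R[X]) - C g) (n := N))
        rwa [natDegree_X_sub_C, mul_one] at h4
    refine Span.down (V r) (m := n * N) (D := (q - 1) * N + N)
      (((X : R[X]) - 1) ^ ((q - 1) * N) * (X - C g) ^ N) ?_ hQd ?_ ?_
    · rw [mul_coeff_zero, coeff_zero_eq_eval_zero, coeff_zero_eq_eval_zero]
      simp only [eval_pow, eval_sub, eval_X, eval_one, eval_C, zero_sub]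
      exact (isUnit_one.neg.pow _).mul (hg.neg.pow _)
    · intro l hl1 hl2
      have h3 := htop (l - n * N) (by omega)
      rw [hW, ← pow_add] at h3
      rwa [show n * N + (l - n * N) = l by omega] at h3
    · intro l hl
      by_cases hd : q ∣ l
      · obtain ⟨j, rfl⟩ := hd
        exact Or.inl (hP j (by omega))
      · right
        have := hα l hl hd
        unfold tst at this
        rwa [mul_assoc] at this

end Pool.Agent.BCX4
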