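import Pool.Agent.BCX4.Ident
import Pool.Agent.BCX4.Nat
import Pool.Agent.BCX4.Dual
import Pool.Agent.BCX4.Span

/-!
# The new word is smooth
-/

namespace Pool.Agent.BCX4

open Polynomial

namespace SmoothD

variable {p s n : ℕ}

/-- the level of an equation -/
def lev : Idx p s n → ℕ
  | Sum.inl t => t.1.1
  | Sum.inr (Sum.inl t) => t.1.1
  | Sum.inr (Sum.inr (Sum.inl t)) => t.1.1
  | Sum.inr (Sum.inr (Sum.inr k)) =>
      match k with
      | 0 => 1
      | 1 => s
      | 2 => s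
      | 3 => 0
      | 4 => 0

/-- the exponents of the test polynomial of an equation -/
def abk : Idx p s n → ℕ × ℕ × ℕ
  | Sum.inl t => (t.1.2, (p - 1) * p ^ (t.1.1 - 1), p ^ (t.1.1 - 1))
  | Sum.inr (Sum.inl t) => (n * p ^ (t.1.1 - 1), t.1.2, p ^ (t.1.1 - 1))
  | Sum.inr (Sum.inr (Sum.inl t)) =>
      (n * p ^ (t.1.1 - 1), (p - 1) * p ^ (t.1.1 - 1), t.1.2)
  | Sum.inr (Sum.inr (Sum.inr k)) =>
      match k with
      | 0 => (n, p - 1, 0)
      | 1 => (n * p ^ (s - 1), (p - 1) * p ^ (s - 1) + 1, p ^ (s - 1) - 2)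
      | 2 => (n * p ^ (s - 1) + 1, (p - 1) * p ^ (s - 1), p ^ (s - 1) - 2)
      | 3 => (0, 0, 0)
      | 4 => (0, 0, 0)

/-- the test polynomial of an equation -/
noncomputable def tau {R : Type} [CommRing R] (g : R) (j : Idx p s n) : R[X] :=
  tst g (abk j).1 (abk j).2.1 (abk j).2.2

/-- the exponent of the parameter -/
def ex : Idx p s n → ℕ
  | Sum.inl t => (p - 1) * (p ^ (s - 1) - 2) * t.1.2
  | Sum.inr (Sum.inl t) => n * (p ^ (s - 1) - 2) * t.1.2
  | Sum.inr (Sum.inr (Sum.inl t)) => n * ((p - 1) * p ^ (s - 1)) * t.1.2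
  | Sum.inr (Sum.inr (Sum.inr k)) =>
      match k with
      | 0 => (p - 1) * (p ^ (s - 1) - 2) * n
      | 1 => (p - 1) * (p ^ (s - 1) - 2) * (n * p ^ (s - 1))
      | 2 => (p - 1) * (p ^ (s - 1) - 2) * (n * p ^ (s - 1))
      | 3 => 0
      | 4 => 0

section

variable {K A ι₀ ι₁ ι₂ : Type} [Field K] [Field A] [Algebra K A]
  [Fintype ι₀] [Fintype ι₁] [Fintype ι₂] (d : Dat p s n K A ι₀ ι₁ ι₂)

theorem lev_lt {p s r l m : ℕ} (_hp : 0 < p) (hr1 : 1 ≤ r) (hrs : r ≤ s)
    (h : l * p ^ (s - r) < m * p ^ (s - 1)) : l < m * p ^ (r - 1) := by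
  have h1 : p ^ (s - 1) = p ^ (r - 1) * p ^ (s - r) := by
    rw [← pow_add]
    congr 1
    omega
  rw [h1, ← mul_assoc] at h
  exact lt_of_mul_lt_mul_right h (Nat.zero_le _)

theorem lev_le {p s r l m : ℕ} (hr1 : 1 ≤ r) (hrs : r ≤ s)
    (h : l * p ^ (s - r) < m) : p ^ (s - 1) * l ≤ m * p ^ (r - 1) := by
  have h1 : p ^ (s - 1) = p ^ (r - 1) * p ^ (s - r) := by
    rw [← pow_add]
    congr 1
    omega
  calc p ^ (s - 1) * l = (l * p ^ (s - r)) * p ^ (r - 1) := by rw [h1]; ring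
    _ ≤ m * p ^ (r - 1) := Nat.mul_le_mul_right _ h.le

/-- the equations in terms of the test polynomials -/
theorem key {R : Type} [CommRing R] [Algebra K R] [Algebra A R] [IsScalarTower K A R]
    (hp : 3 ≤ p) (hs : 2 ≤ s) (hc : ∑ i, d.c₂ i = 0) [Fact p.Prime] [CharP K p]
    (v : Idx p s n → R) {j : Idx p s n} (h3 : j ≠ iE 3) (h4 : j ≠ iE 4) :
    v (iE 3) ^ ex j * d.F v j = S p (lev j) d.c (d.z v) (tau (v (iE 2)) j) := by
  have hp0 : 0 < p := by omega
  rcases j with t | t | t | k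
  · obtain ⟨⟨hr1, hrs⟩, hl, -⟩ := (mem_Lev hp0).1 t.2
    have hl' := (lev_lt hp0 hr1 hrs hl).le
    refine d.pow_mul_Fg v _ _ _ _ _ le_rfl ?_ ?_
    · calc (p - 1) * (p ^ (s - 1) - 2) * t.1.2 ≤
          (p - 1) * (p ^ (s - 1) - 2) * (n * p ^ (t.1.1 - 1)) := Nat.mul_le_mul_left _ hl'
        _ = _ := by ring
    · calc (p - 1) * (p ^ (s - 1) - 2) * t.1.2 ≤
          (p - 1) * p ^ (s - 1) * (n * p ^ (t.1.1 - 1)) := by
            gcongr
            exact Nat.sub_le _ _
        _ = _ := by ring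
  · obtain ⟨⟨hr1, hrs⟩, hl, -⟩ := (mem_Lev hp0).1 t.2
    have hl' := (lev_lt hp0 hr1 hrs hl).le
    refine d.pow_mul_Fg v _ _ _ _ _ ?_ le_rfl ?_
    · calc n * (p ^ (s - 1) - 2) * t.1.2 ≤
          n * (p ^ (s - 1) - 2) * ((p - 1) * p ^ (t.1.1 - 1)) := Nat.mul_le_mul_left _ hl'
        _ = _ := by ring
    · calc n * (p ^ (s - 1) - 2) * t.1.2 ≤
          n * p ^ (s - 1) * ((p - 1) * p ^ (t.1.1 - 1)) := by
            gcongr
            exact Nat.sub_le _ _
        _ = _ := by ring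
  · obtain ⟨⟨hr1, hrs⟩, hl, -⟩ := (mem_Lev hp0).1 t.2
    have hl' := lev_le hr1 hrs hl
    refine d.pow_mul_Fg v _ _ _ _ _ ?_ ?_ le_rfl
    · calc n * ((p - 1) * p ^ (s - 1)) * t.1.2 = n * (p - 1) * (p ^ (s - 1) * t.1.2) := by ring
        _ ≤ n * (p - 1) * ((p ^ (s - 1) - 2) * p ^ (t.1.1 - 1)) := Nat.mul_le_mul_left _ hl'
        _ = _ := by ring
    · calc n * ((p - 1) * p ^ (s - 1)) * t.1.2 = n * (p - 1) * (p ^ (s - 1) * t.1.2) := by ring
        _ ≤ n * (p - 1) * ((p ^ (s - 1) - 2) * p ^ (t.1.1 - 1)) := Nat.mul_le_mul_left _ hl'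
        _ = _ := by ring
  · fin_cases k
    · exact d.pow_mul_Fs hp hs hc v
    · refine d.pow_mul_Fg v _ _ _ _ _ le_rfl ?_ ?_
      · calc (p - 1) * (p ^ (s - 1) - 2) * (n * p ^ (s - 1)) =
            n * (p ^ (s - 1) - 2) * ((p - 1) * p ^ (s - 1)) := by ring
          _ ≤ _ := Nat.mul_le_mul_left _ (Nat.le_succ _)
      · calc (p - 1) * (p ^ (s - 1) - 2) * (n * p ^ (s - 1)) =
            n * ((p - 1) * p ^ (s - 1)) * (p ^ (s - 1) - 2) := by ring
          _ ≤ _ := le_rfl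
    · refine d.pow_mul_Fg v _ _ _ _ _ (Nat.mul_le_mul_left _ (Nat.le_succ _)) ?_ ?_
      · calc (p - 1) * (p ^ (s - 1) - 2) * (n * p ^ (s - 1)) =
            n * (p ^ (s - 1) - 2) * ((p - 1) * p ^ (s - 1)) := by ring
          _ ≤ _ := le_rfl
      · calc (p - 1) * (p ^ (s - 1) - 2) * (n * p ^ (s - 1)) =
            n * ((p - 1) * p ^ (s - 1)) * (p ^ (s - 1) - 2) := by ring
          _ ≤ _ := le_rfl
    · exact absurd rfl h3
    · exact absurd rfl h4

/-- the dual-number part of a test polynomial at a point -/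
theorem snd_tst (g h z ζ : A) (a b k : ℕ) :
    ((tst (TrivSqZeroExt.inl g + TrivSqZeroExt.inr h : DualNumber A) a b k).eval
      (TrivSqZeroExt.inl z + TrivSqZeroExt.inr ζ : DualNumber A)).snd =
      (derivative (tst g a b k)).eval z * ζ - k * (tst g a b (k - 1)).eval z * h := by
  have hpow : ∀ (x y : A) (m : ℕ), ((TrivSqZeroExt.inl x + TrivSqZeroExt.inr y : DualNumber A) ^ m)
      = TrivSqZeroExt.inl (x ^ m) + TrivSqZeroExt.inr (m * x ^ (m - 1) * y) := by
    intro x y m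
    ext
    · simp
    · rw [TrivSqZeroExt.snd_pow]
      simp
      ring
  have e1 : (TrivSqZeroExt.inl z + TrivSqZeroExt.inr ζ : DualNumber A) - 1 =
      TrivSqZeroExt.inl (z - 1) + TrivSqZeroExt.inr ζ := by
    ext <;> simp
  have e2 : (TrivSqZeroExt.inl z + TrivSqZeroExt.inr ζ : DualNumber A) -
      (TrivSqZeroExt.inl g + TrivSqZeroExt.inr h) =
      TrivSqZeroExt.inl (z - g) + TrivSqZeroExt.inr (ζ - h) := by
    ext <;> simp
  simp only [tst, eval_mul, eval_pow, eval_sub, eval_X, eval_one, eval_C, derivative_mul,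
    derivative_pow, derivative_sub, derivative_X, derivative_one, derivative_C,
    eval_add, sub_zero, mul_one]
  rw [e1, e2, hpow, hpow, hpow]
  simp
  ring

omit [Field K] [Algebra K A] [Fintype ι₀] [Fintype ι₁] [Fintype ι₂] in
/-- naturality of the points -/
theorem map_z {R R' : Type} [CommRing R] [CommRing R'] [Algebra A R] [Algebra A R']
    (φ : R →ₐ[A] R') (v : Idx p s n → R) (i : ι₀ ⊕ ι₁ ⊕ ι₂) :
    φ (d.z v i) = d.z (fun j => φ (v j)) i := by
  have hdisp : ∀ {Λ ι : Type} [Fintype Λ] (J : Λ → ι) (w : Λ → R) (i : ι),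
      φ (disp J w i) = disp J (fun t => φ (w t)) i := by
    intro Λ ι _ J w i
    classical
    unfold disp
    rw [map_sum]
    refine Finset.sum_congr rfl fun t _ => ?_
    split_ifs with h
    · rfl
    · rw [map_zero]
  rcases i with i | i | i
  · change φ (d.z₀ v i) = d.z₀ (fun j => φ (v j)) i
    simp only [Dat.z₀, Dat.X₀, map_mul, map_pow, map_add, hdisp, AlgHom.commutes]
  · change φ (d.z₁ v i) = d.z₁ (fun j => φ (v j)) i
    simp only [Dat.z₁, Dat.X₁, map_mul, map_pow, map_add, hdisp, AlgHom.commutes, map_one]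
  · change φ (d.z₂ v i) = d.z₂ (fun j => φ (v j)) i
    simp only [Dat.z₂, Dat.X₂, map_mul, map_pow, map_add, hdisp, AlgHom.commutes]

/-- the point `v + ε w` -/
def pt (v w : Idx p s n → A) (j : Idx p s n) : DualNumber A :=
  TrivSqZeroExt.inl (v j) + TrivSqZeroExt.inr (w j)

omit [Field K] [Algebra K A] [Fintype ι₀] [Fintype ι₁] [Fintype ι₂] in
theorem fst_z (v w : Idx p s n → A) (i : ι₀ ⊕ ι₁ ⊕ ι₂) : (d.z (pt v w) i).fst = d.z v i := by
  have h := map_z d (TrivSqZeroExt.fstHom A A A) (pt v w) i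
  have h2 : (fun j => (TrivSqZeroExt.fstHom A A A) (pt v w j)) = v := by
    funext j
    simp [pt]
  rw [h2] at h
  exact h

variable [DecidableEq (Idx p s n)]

/-- the Jacobian matrix -/
noncomputable abbrev jac (v : Idx p s n → A) : Matrix (Idx p s n) (Idx p s n) A :=
  Matrix.of fun i j => MvPolynomial.eval v
      (MvPolynomial.pderiv j (d.F (fun i => (MvPolynomial.X i : MvPolynomial (Idx p s n) A)) i))

theorem F_pt (v w : Idx p s n → A) (j : Idx p s n) : d.F (pt v w) j =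
    TrivSqZeroExt.inl (d.F v j) + TrivSqZeroExt.inr ((jac d v).mulVec w j) := by
  have h1 := aeval_dual (d.F (fun i => (MvPolynomial.X i : MvPolynomial (Idx p s n) A)) j) v w
  have h2 := d.map_F (MvPolynomial.aeval (pt v w) : MvPolynomial (Idx p s n) A →ₐ[A] DualNumber A)
    (fun i => (MvPolynomial.X i : MvPolynomial (Idx p s n) A)) j
  have h3 := d.map_F (MvPolynomial.aeval v : MvPolynomial (Idx p s n) A →ₐ[A] A)
    (fun i => (MvPolynomial.X i : MvPolynomial (Idx p s n) A)) j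
  simp only [MvPolynomial.aeval_X] at h2 h3
  rw [← h2, ← h3]
  exact h1

omit [DecidableEq (Idx p s n)] in
theorem degree_tst_le (g : A) (a b k : ℕ) : (tst g a b k).degree ≤ ((a + b + k : ℕ) : WithBot ℕ) := by
  rw [tst]
  refine (degree_mul_le _ _).trans ?_
  rw [Nat.cast_add, Nat.cast_add]
  refine add_le_add ((degree_mul_le _ _).trans (add_le_add ?_ ?_)) ?_
  · exact degree_X_pow_le a
  · refine (degree_pow_le _ _).trans ?_
    rw [nsmul_eq_mul]
    have : (X - 1 : A[X]).degree = 1 := by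
      rw [← C_1]
      exact degree_X_sub_C 1
    rw [this, mul_one]
  · refine (degree_pow_le _ _).trans ?_
    rw [nsmul_eq_mul, degree_X_sub_C, mul_one]

omit [DecidableEq (Idx p s n)] in
theorem deg_bound (hp : 2 ≤ p) (hs : 2 ≤ s) {j : Idx p s n} (h3 : j ≠ iE 3) (h4 : j ≠ iE 4) :
    (abk j).1 + (abk j).2.1 + (abk j).2.2 ≤ (n + p) * p ^ (lev j - 1) := by
  have hp0 : 0 < p := by omega
  have hpp : ∀ x : ℕ, (p - 1) * x + x = p * x := fun x => by
    rw [← Nat.succ_mul]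
    congr 1
    omega
  rcases j with t | t | t | k
  · obtain ⟨⟨hr1, hrs⟩, hl, -⟩ := (mem_Lev hp0).1 t.2
    have hl' := (lev_lt hp0 hr1 hrs hl).le
    change t.1.2 + (p - 1) * p ^ (t.1.1 - 1) + p ^ (t.1.1 - 1) ≤ (n + p) * p ^ (t.1.1 - 1)
    rw [add_assoc, hpp, add_mul]
    omega
  · obtain ⟨⟨hr1, hrs⟩, hl, -⟩ := (mem_Lev hp0).1 t.2
    have hl' := (lev_lt hp0 hr1 hrs hl).le
    change n * p ^ (t.1.1 - 1) + t.1.2 + p ^ (t.1.1 - 1) ≤ (n + p) * p ^ (t.1.1 - 1)
    rw [add_mul, ← hpp]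
    omega
  · obtain ⟨⟨hr1, hrs⟩, hl, -⟩ := (mem_Lev hp0).1 t.2
    have hl' : t.1.2 ≤ p ^ (t.1.1 - 1) := by
      have h1 := lev_lt (m := 1) hp0 hr1 hrs (hl.trans_le (by rw [one_mul]; exact Nat.sub_le _ _))
      rw [one_mul] at h1
      exact h1.le
    change n * p ^ (t.1.1 - 1) + (p - 1) * p ^ (t.1.1 - 1) + t.1.2 ≤ (n + p) * p ^ (t.1.1 - 1)
    rw [add_mul, ← hpp]
    omega
  · have hN : 2 ≤ p ^ (s - 1) := by
      calc 2 ≤ p := hp
        _ = p ^ 1 := (pow_one p).symm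
        _ ≤ p ^ (s - 1) := Nat.pow_le_pow_right hp0 (by omega)
    fin_cases k
    · change n + (p - 1) + 0 ≤ (n + p) * p ^ (1 - 1)
      rw [Nat.sub_self, pow_zero]
      omega
    · change n * p ^ (s - 1) + ((p - 1) * p ^ (s - 1) + 1) + (p ^ (s - 1) - 2) ≤
        (n + p) * p ^ (s - 1)
      rw [add_mul, ← hpp]
      omega
    · change n * p ^ (s - 1) + 1 + ((p - 1) * p ^ (s - 1)) + (p ^ (s - 1) - 2) ≤
        (n + p) * p ^ (s - 1)
      rw [add_mul, ← hpp]
      omega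
    · exact absurd rfl h3
    · exact absurd rfl h4

omit [DecidableEq (Idx p s n)] in
/-- the sums of level `r` of all polynomials of small degree vanish -/
theorem S_eq_zero {r m : ℕ} {ι : Type} [Fintype ι] (c : ι → K) (x : ι → A)
    (h0 : ∀ l < m, S p r c x (X ^ l) = 0) (f : A[X]) (hf : f.degree < m) : S p r c x f = 0 := by
  have h1 : ∀ t : ℕ, ∑ i, algebraMap K A (c i) ^ p ^ r * ((f.coeff t) * x i ^ t) =
      f.coeff t * S p r c x (X ^ t) := by
    intro t
    rw [S, Finset.mul_sum]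
    refine Finset.sum_congr rfl fun i _ => ?_
    rw [eval_pow, eval_X]
    ring
  have h2 : S p r c x f = ∑ t ∈ Finset.range m, f.coeff t * S p r c x (X ^ t) := by
    rw [← Finset.sum_congr rfl fun t _ => h1 t, Finset.sum_comm, S]
    refine Finset.sum_congr rfl fun i _ => ?_
    rw [← Finset.mul_sum]
    congr 1
    by_cases hm : f = 0
    · simp [hm]
    · exact eval_eq_sum_range' ((natDegree_lt_iff_degree_lt hm).2 hf) (x i)
  rw [h2]
  refine Finset.sum_eq_zero fun t ht => ?_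
  rw [h0 t (Finset.mem_range.1 ht), mul_zero]

/-- the derivative of the system in terms of the test polynomials -/
theorem main (hp : 3 ≤ p) (hs : 2 ≤ s) (hc : ∑ i, d.c₂ i = 0) [Fact p.Prime] [CharP K p]
    (v w : Idx p s n → A) {j : Idx p s n} (h3 : j ≠ iE 3) (h4 : j ≠ iE 4) (hv : d.F v j = 0)
    (h0 : ∀ l < (n + p) * p ^ (lev j - 1), S p (lev j) d.c (d.z v) (X ^ l) = 0) :
    v (iE 3) ^ ex j * (jac d v).mulVec w j = ∑ i, algebraMap K A (d.c i) ^ p ^ lev j *
      ((derivative (tau (v (iE 2)) j)).eval (d.z v i) * (d.z (pt v w) i).snd) := by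
  have hk := congrArg TrivSqZeroExt.snd (key (R := DualNumber A) d hp hs hc (pt v w) h3 h4)
  have hL : (pt v w (iE 3) ^ ex j * d.F (pt v w) j).snd =
      v (iE 3) ^ ex j * (jac d v).mulVec w j := by
    rw [F_pt, hv]
    simp only [pt, TrivSqZeroExt.inl_zero, zero_add, TrivSqZeroExt.snd_mul, TrivSqZeroExt.snd_inr,
      TrivSqZeroExt.fst_inr, TrivSqZeroExt.fst_pow, TrivSqZeroExt.fst_add, TrivSqZeroExt.fst_inl,
      add_zero, smul_eq_mul, MulOpposite.op_zero, zero_smul]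
  have hR : ∀ i, (algebraMap K (DualNumber A) (d.c i) ^ p ^ lev j *
      (tau (pt v w (iE 2)) j).eval (d.z (pt v w) i)).snd =
      algebraMap K A (d.c i) ^ p ^ lev j *
      ((derivative (tau (v (iE 2)) j)).eval (d.z v i) * (d.z (pt v w) i).snd -
        ((abk j).2.2 : A) * (tst (v (iE 2)) (abk j).1 (abk j).2.1 ((abk j).2.2 - 1)).eval (d.z v i) *
        w (iE 2)) := by
    intro i
    have e1 : d.z (pt v w) i = TrivSqZeroExt.inl (d.z v i) +
        TrivSqZeroExt.inr ((d.z (pt v w) i).snd) := by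
      rw [← fst_z d v w i]
      exact (TrivSqZeroExt.inl_fst_add_inr_snd_eq _).symm
    have e2 : algebraMap K (DualNumber A) (d.c i) = TrivSqZeroExt.inl (algebraMap K A (d.c i)) := rfl
    have e3 : (TrivSqZeroExt.inl (algebraMap K A (d.c i)) : DualNumber A) ^ p ^ lev j =
        TrivSqZeroExt.inl (algebraMap K A (d.c i) ^ p ^ lev j) := by
      ext <;> simp
    rw [e2, e3, TrivSqZeroExt.snd_mul, TrivSqZeroExt.fst_inl,
      TrivSqZeroExt.snd_inl, smul_zero, add_zero, smul_eq_mul]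
    congr 1
    conv_lhs => rw [e1]
    exact snd_tst _ _ _ _ _ _ _
  have hz : ∑ i, algebraMap K A (d.c i) ^ p ^ lev j * (((abk j).2.2 : A) *
      (tst (v (iE 2)) (abk j).1 (abk j).2.1 ((abk j).2.2 - 1)).eval (d.z v i) * w (iE 2)) = 0 := by
    have h5 : ∑ i, algebraMap K A (d.c i) ^ p ^ lev j * (((abk j).2.2 : A) *
        (tst (v (iE 2)) (abk j).1 (abk j).2.1 ((abk j).2.2 - 1)).eval (d.z v i) * w (iE 2)) =
        ((abk j).2.2 : A) * w (iE 2) * S p (lev j) d.c (d.z v)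
          (tst (v (iE 2)) (abk j).1 (abk j).2.1 ((abk j).2.2 - 1)) := by
      rw [S, Finset.mul_sum]
      refine Finset.sum_congr rfl fun i _ => ?_
      ring
    rw [h5]
    rcases Nat.eq_zero_or_pos (abk j).2.2 with h6 | h6
    · rw [h6]
      simp
    · rw [S_eq_zero d.c (d.z v) h0, mul_zero]
      refine (degree_tst_le _ _ _ _).trans_lt ?_
      have h7 := deg_bound (p := p) (by omega) hs h3 h4
      exact_mod_cast (by omega : (abk j).1 + (abk j).2.1 + ((abk j).2.2 - 1) <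
        (n + p) * p ^ (lev j - 1))
  rw [← hL, hk, S, TrivSqZeroExt.snd_sum, Finset.sum_congr rfl fun i _ => hR i]
  rw [← sub_eq_zero, ← Finset.sum_sub_distrib, ← neg_eq_zero, ← Finset.sum_neg_distrib, ← hz]
  refine Finset.sum_congr rfl fun i _ => ?_
  ring

/-- the polynomials whose derivative is a combination of the derivatives of the test polynomials of
level `r` -/
def Vr (g : A) (r : ℕ) : Submodule A A[X] where
  carrier := {f | ∃ b : Idx p s n → A, (∀ j, lev j ≠ r → b j = 0) ∧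
    derivative f = ∑ j, b j • derivative (tau g j)}
  add_mem' := by
    rintro f f' ⟨b, hb, h1⟩ ⟨b', hb', h2⟩
    refine ⟨b + b', fun j hj => by rw [Pi.add_apply, hb j hj, hb' j hj, add_zero], ?_⟩
    rw [derivative_add, h1, h2, ← Finset.sum_add_distrib]
    refine Finset.sum_congr rfl fun j _ => ?_
    rw [Pi.add_apply, add_smul]
  zero_mem' := ⟨0, fun j _ => rfl, by simp⟩
  smul_mem' := by
    rintro a f ⟨b, hb, h1⟩
    refine ⟨a • b, fun j hj => by rw [Pi.smul_apply, hb j hj, smul_zero], ?_⟩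
    rw [derivative_smul, h1, Finset.smul_sum]
    refine Finset.sum_congr rfl fun j _ => ?_
    rw [Pi.smul_apply, smul_eq_mul, mul_smul]

theorem tau_mem (g : A) (j : Idx p s n) : tau g j ∈ Vr (p := p) (s := s) (n := n) g (lev j) := by
  refine ⟨Pi.single j 1, fun i hi => ?_, ?_⟩
  · rw [Pi.single_apply, if_neg]
    rintro rfl
    exact hi rfl
  · rw [Finset.sum_eq_single j]
    · rw [Pi.single_eq_same, one_smul]
    · intro i _ hij
      rw [Pi.single_apply, if_neg hij, zero_smul]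
    · intro h
      exact absurd (Finset.mem_univ j) h

theorem tests_mem [Fact p.Prime] (hp : 3 ≤ p) (hs : 2 ≤ s) (g : A) :
    Tests p s n g fun r f => f ∈ Vr (p := p) (s := s) (n := n) g r := by
  have hp0 : 0 < p := by omega
  have hmem : ∀ {r l m : ℕ}, 1 ≤ r → r ≤ s → l < m * p ^ (r - 1) → ¬ p ∣ l →
      (r, l) ∈ Lev p s (m * p ^ (s - 1)) := by
    intro r l m hr1 hrs hl hpl
    refine (mem_Lev hp0).2 ⟨⟨hr1, hrs⟩, ?_, hpl⟩
    have h1 : p ^ (s - 1) = p ^ (r - 1) * p ^ (s - r) := by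
      rw [← pow_add]
      congr 1
      omega
    rw [h1, ← mul_assoc]
    exact Nat.mul_lt_mul_of_pos_right hl (pow_pos hp0 _)
  refine ⟨?_, ?_, ?_, ?_, ?_, ?_⟩
  · intro r l hr1 hrs hl hpl
    exact tau_mem g (Sum.inl ⟨(r, l), hmem hr1 hrs hl hpl⟩ : Idx p s n)
  · intro r l hr1 hrs hl hpl
    exact tau_mem g (Sum.inr (Sum.inl ⟨(r, l), hmem hr1 hrs hl hpl⟩) : Idx p s n)
  · intro r l hr1 hrs hl hpl
    exact tau_mem g (Sum.inr (Sum.inr (Sum.inl ⟨(r, l), (mem_Lev hp0).2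
      ⟨⟨hr1, hrs⟩, hl, hpl⟩⟩)) : Idx p s n)
  · exact tau_mem g (iE 0 : Idx p s n)
  · exact tau_mem g (iE 1 : Idx p s n)
  · exact tau_mem g (iE 2 : Idx p s n)

end

end SmoothD

/-- ROW D9 (SmoothD.lean): the new word is smooth -/
theorem Dat.smooth {p s n : ℕ} {K A ι₀ ι₁ ι₂ : Type} [Field K] [Field A] [Algebra K A]
    [Fintype ι₀] [Fintype ι₁] [Fintype ι₂] (d : Dat p s n K A ι₀ ι₁ ι₂) [Fact p.Prime]
    [Finite K] [CharP K p] (hK : Nat.card K = p ^ s) (hp : 3 ≤ p) (hs : 2 ≤ s) (hn : ¬ p ∣ n)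
    (hc : ∑ i, d.c₂ i = 0) [DecidableEq (Idx p s n)]
    (v : Idx p s n → A) (hv : ∀ j, j ≠ iE 3 → d.F v j = 0) (hT : v (iE 3) ≠ 0)
    (hg : v (iE 2) ≠ 0) (hg1 : v (iE 2) ≠ 1)
    (hJ : (Matrix.of fun i j => MvPolynomial.eval v
      (MvPolynomial.pderiv j (d.F (fun i => (MvPolynomial.X i : MvPolynomial (Idx p s n) A))
        i))).det ≠ 0)
    (h0 : ∀ r, 1 ≤ r → r ≤ s → ∀ l < (n + p) * p ^ (r - 1), S p r d.c (d.z v) (X ^ l) = 0) :
    LinearIndependent A (rows p s ((n + p) * p ^ (s - 1)) d.c (d.z v)) := by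
  have hp0 : 0 < p := by omega
  have hchA : CharP A p := charP_of_injective_algebraMap (algebraMap K A).injective p
  have hspan := span_tests (R := A) hp hs hn (IsUnit.mk0 _ hg) (IsUnit.mk0 _ (sub_ne_zero.2 hg1.symm))
    (fun r => SmoothD.Vr (p := p) (s := s) (n := n) (v (iE 2)) r) (SmoothD.tests_mem hp hs _)
    (fun r _ _ j _ => ⟨0, fun _ _ => rfl, by
      rw [derivative_X_pow]
      simp⟩)
  rw [Fintype.linearIndependent_iff]
  intro a ha t0
  -- the polynomials
  let f : ℕ → A[X] := fun r => ∑ t : Lev p s ((n + p) * p ^ (s - 1)),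
    if t.1.1 = r then C (a t / (t.1.2 : A)) * X ^ t.1.2 else 0
  have hl0 : ∀ t : Lev p s ((n + p) * p ^ (s - 1)), (t.1.2 : A) ≠ 0 := fun t h =>
    ((mem_Lev hp0).1 t.2).2.2 ((CharP.cast_eq_zero_iff A p _).1 h)
  have hf : ∀ r, 1 ≤ r → r ≤ s → f r ∈ SmoothD.Vr (p := p) (s := s) (n := n) (v (iE 2)) r := by
    intro r hr1 hrs
    refine Submodule.sum_mem _ fun t _ => ?_
    split_ifs with h
    · subst h
      rw [← smul_eq_C_mul]
      exact Submodule.smul_mem _ _ (hspan _ hr1 hrs _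
        (SmoothD.lev_lt hp0 hr1 hrs ((mem_Lev hp0).1 t.2).2.1))
    · exact Submodule.zero_mem _
  have hb : ∀ r, ∃ b : Idx p s n → A, 1 ≤ r → r ≤ s → (∀ j, SmoothD.lev j ≠ r → b j = 0) ∧
      derivative (f r) = ∑ j, b j • derivative (SmoothD.tau (v (iE 2)) j) := by
    intro r
    by_cases h : 1 ≤ r ∧ r ≤ s
    · obtain ⟨b, hb⟩ := hf r h.1 h.2
      exact ⟨b, fun _ _ => hb⟩
    · exact ⟨0, fun h1 h2 => absurd ⟨h1, h2⟩ h⟩
  choose b hb using hb
  have hder : ∀ r, derivative (f r) = ∑ t : Lev p s ((n + p) * p ^ (s - 1)),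
      if t.1.1 = r then C (a t) * X ^ (t.1.2 - 1) else 0 := by
    intro r
    rw [derivative_sum]
    refine Finset.sum_congr rfl fun t _ => ?_
    split_ifs with h
    · rw [derivative_C_mul_X_pow, div_mul_cancel₀ _ (hl0 t)]
    · exact derivative_zero
  have hrel : ∀ i, ∑ r ∈ Finset.Icc 1 s, algebraMap K A (d.c i) ^ p ^ r *
      (derivative (f r)).eval (d.z v i) = 0 := by
    intro i
    have h1 := congrFun ha i
    rw [Finset.sum_apply, Pi.zero_apply] at h1
    rw [← h1]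
    have h2 : ∀ r, algebraMap K A (d.c i) ^ p ^ r * (derivative (f r)).eval (d.z v i) =
        ∑ t : Lev p s ((n + p) * p ^ (s - 1)), if t.1.1 = r then
          algebraMap K A (d.c i) ^ p ^ r * (a t * d.z v i ^ (t.1.2 - 1)) else 0 := by
      intro r
      rw [hder, eval_finsetSum, Finset.mul_sum]
      refine Finset.sum_congr rfl fun t _ => ?_
      split_ifs with h
      · rw [eval_mul, eval_C, eval_pow, eval_X]
      · rw [eval_zero, mul_zero]
    rw [Finset.sum_congr rfl fun r _ => h2 r, Finset.sum_comm]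
    refine Finset.sum_congr rfl fun t _ => ?_
    have h3 := ((mem_Lev hp0).1 t.2).1
    rw [Finset.sum_ite_eq, if_pos (Finset.mem_Icc.2 h3), Pi.smul_apply, smul_eq_mul, rows]
    ring
  let B : Idx p s n → A := fun j => if 1 ≤ SmoothD.lev j ∧ SmoothD.lev j ≤ s then
    b (SmoothD.lev j) j else 0
  have hrel2 : ∀ i, ∑ j, B j * (algebraMap K A (d.c i) ^ p ^ SmoothD.lev j *
      (derivative (SmoothD.tau (v (iE 2)) j)).eval (d.z v i)) = 0 := by
    intro i
    rw [← hrel i]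
    have h2 : ∀ r ∈ Finset.Icc 1 s, algebraMap K A (d.c i) ^ p ^ r *
        (derivative (f r)).eval (d.z v i) = ∑ j, if SmoothD.lev j = r then
          algebraMap K A (d.c i) ^ p ^ r * (b r j *
            (derivative (SmoothD.tau (v (iE 2)) j)).eval (d.z v i)) else 0 := by
      intro r hr
      obtain ⟨hr1, hrs⟩ := Finset.mem_Icc.1 hr
      rw [(hb r hr1 hrs).2, eval_finsetSum, Finset.mul_sum]
      refine Finset.sum_congr rfl fun j _ => ?_
      split_ifs with h
      · rw [eval_smul, smul_eq_mul]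
      · rw [(hb r hr1 hrs).1 j h, zero_smul, eval_zero, mul_zero]
    rw [Finset.sum_congr rfl h2, Finset.sum_comm]
    refine Finset.sum_congr rfl fun j _ => ?_
    rw [Finset.sum_ite_eq]
    by_cases h : 1 ≤ SmoothD.lev j ∧ SmoothD.lev j ≤ s
    · rw [if_pos (Finset.mem_Icc.2 h)]
      change (if _ then _ else _) * _ = _
      rw [if_pos h]
      ring
    · rw [if_neg (fun h' => h (Finset.mem_Icc.1 h'))]
      change (if _ then _ else _) * _ = _
      rw [if_neg h, zero_mul]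
  -- the coefficients vanish
  have hβ : (fun j => B j * v (iE 3) ^ SmoothD.ex j) = 0 := by
    apply Matrix.eq_zero_of_vecMul_eq_zero hJ
    funext k
    have h1 : ∑ j, (B j * v (iE 3) ^ SmoothD.ex j) *
        (SmoothD.jac d v).mulVec (Pi.single k 1) j = 0 := by
      have h2 : ∀ j, (B j * v (iE 3) ^ SmoothD.ex j) *
          (SmoothD.jac d v).mulVec (Pi.single k 1) j = ∑ i, (d.z (SmoothD.pt v (Pi.single k 1)) i).snd *
            (B j * (algebraMap K A (d.c i) ^ p ^ SmoothD.lev j *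
              (derivative (SmoothD.tau (v (iE 2)) j)).eval (d.z v i))) := by
        intro j
        by_cases h : 1 ≤ SmoothD.lev j ∧ SmoothD.lev j ≤ s
        · have hj3 : j ≠ iE 3 := by
            rintro rfl
            have h5 : 1 ≤ 0 := h.1
            exact absurd h5 (by decide)
          have hj4 : j ≠ iE 4 := by
            rintro rfl
            have h5 : 1 ≤ 0 := h.1
            exact absurd h5 (by decide)
          rw [mul_assoc, SmoothD.main d hp hs hc v _ hj3 hj4 (hv j hj3) (h0 _ h.1 h.2),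
            Finset.mul_sum]
          refine Finset.sum_congr rfl fun i _ => ?_
          ring
        · have hB : B j = 0 := if_neg h
          rw [hB]
          simp
      rw [Finset.sum_congr rfl fun j _ => h2 j, Finset.sum_comm]
      refine Finset.sum_eq_zero fun i _ => ?_
      rw [← Finset.mul_sum, hrel2 i, mul_zero]
    rw [Pi.zero_apply, ← h1, Matrix.vecMul, dotProduct]
    refine Finset.sum_congr rfl fun j _ => ?_
    rw [Matrix.mulVec_single_one]
    rfl
  have hB : ∀ j, B j = 0 := by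
    intro j
    have h1 := congrFun hβ j
    exact (mul_eq_zero.1 h1).resolve_right (pow_ne_zero _ hT)
  obtain ⟨⟨hr1, hrs⟩, hl, hpl⟩ := (mem_Lev hp0).1 t0.2
  have hzero : derivative (f t0.1.1) = 0 := by
    rw [(hb _ hr1 hrs).2]
    refine Finset.sum_eq_zero fun j _ => ?_
    by_cases h : SmoothD.lev j = t0.1.1
    · have h1 := hB j
      have h2 : B j = b (SmoothD.lev j) j := if_pos (by rw [h]; exact ⟨hr1, hrs⟩)
      rw [h2, h] at h1
      rw [h1, zero_smul]
    · rw [(hb _ hr1 hrs).1 j h, zero_smul]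
  have h1 := congrArg (fun g : A[X] => g.coeff (t0.1.2 - 1)) hzero
  simp only [hder, finsetSum_coeff, coeff_zero] at h1
  rw [Finset.sum_eq_single t0] at h1
  · simpa using h1
  · intro t _ ht
    split_ifs with h
    · rw [coeff_C_mul, coeff_X_pow, if_neg, mul_zero]
      intro h2
      apply ht
      have h3 : t.1.2 ≠ 0 := fun h => ((mem_Lev hp0).1 t.2).2.2 (h ▸ dvd_zero p)
      have h4 : t0.1.2 ≠ 0 := fun h => hpl (h ▸ dvd_zero p)
      exact Subtype.ext (Prod.ext h (by omega))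
    · exact coeff_zero _
  · intro h
    exact absurd (Finset.mem_univ t0) h

end Pool.Agent.BCX4
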