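import Pool.Agent.BCX4.SysDefs

/-!
# Ultrametric estimates and continuity for the step
-/

namespace Pool.Agent.BCX4

open Polynomial
open scoped Topology

namespace StepA

/-- elements of a finite field have norm one -/
theorem norm_K {K 𝕜 : Type} [Field K] [Finite K] [NormedField 𝕜] [Algebra K 𝕜] {k : K}
    (hk : k ≠ 0) : ‖algebraMap K 𝕜 k‖ = 1 := by
  have : Fintype K := Fintype.ofFinite K
  have h1 := FiniteField.pow_card_sub_one_eq_one k hk
  have h2 : ‖algebraMap K 𝕜 k‖ ^ (Fintype.card K - 1) = 1 := by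
    rw [← norm_pow, ← map_pow, h1, map_one, norm_one]
  refine (pow_eq_one_iff_of_nonneg (norm_nonneg _) ?_).1 h2
  have := Fintype.one_lt_card (α := K)
  omega

theorem norm_K_le {K 𝕜 : Type} [Field K] [Finite K] [NormedField 𝕜] [Algebra K 𝕜] (k : K) :
    ‖algebraMap K 𝕜 k‖ ≤ 1 := by
  by_cases hk : k = 0
  · rw [hk, map_zero, norm_zero]
    exact zero_le_one
  · exact (norm_K hk).le

section

variable {𝕜 : Type} [NormedField 𝕜] [IsUltrametricDist 𝕜]

theorem norm_add_lt {x y : 𝕜} {t : ℝ} (hx : ‖x‖ < t) (hy : ‖y‖ < t) : ‖x + y‖ < t :=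
  lt_of_le_of_lt (IsUltrametricDist.norm_add_le_max x y) (max_lt hx hy)

theorem norm_add_le' {x y : 𝕜} {t : ℝ} (hx : ‖x‖ ≤ t) (hy : ‖y‖ ≤ t) : ‖x + y‖ ≤ t :=
  (IsUltrametricDist.norm_add_le_max x y).trans (max_le hx hy)

theorem norm_sum_lt {ι : Type} (s : Finset ι) (f : ι → 𝕜) {t : ℝ} (ht : 0 < t)
    (h : ∀ i ∈ s, ‖f i‖ < t) : ‖∑ i ∈ s, f i‖ < t := by
  classical
  induction s using Finset.induction_on with
  | empty => rwa [Finset.sum_empty, norm_zero]
  | insert a s ha ih =>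
    rw [Finset.sum_insert ha]
    exact norm_add_lt (h a (Finset.mem_insert_self _ _))
      (ih fun i hi => h i (Finset.mem_insert_of_mem hi))

/-- an element near an element of norm one -/
theorem norm_eq_one {x t : 𝕜} (ht : ‖t‖ = 1) (h : ‖x - t‖ < 1) : ‖x‖ = 1 := by
  have h1 : x = t + (x - t) := by ring
  have h2 : ‖x‖ ≤ 1 := by
    rw [h1]
    exact norm_add_le' ht.le h.le
  rcases h2.lt_or_eq with h3 | h3
  · have h4 : ‖t‖ < 1 := by
      have h5 : t = x + -(x - t) := by ring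
      rw [h5]
      exact norm_add_lt h3 (by rwa [norm_neg])
    rw [ht] at h4
    exact absurd h4 (lt_irrefl _)
  · exact h3

theorem norm_le_one {x t : 𝕜} (ht : ‖t‖ ≤ 1) (h : ‖x - t‖ < 1) : ‖x‖ ≤ 1 := by
  have h1 : x = t + (x - t) := by ring
  rw [h1]
  exact norm_add_le' ht h.le

theorem norm_pow_sub {x t : 𝕜} (ht : ‖t‖ ≤ 1) (h : ‖x - t‖ < 1) (l : ℕ) :
    ‖x ^ l - t ^ l‖ < 1 := by
  induction l with
  | zero => simp
  | succ l ih =>
    have h1 : x ^ (l + 1) - t ^ (l + 1) = x * (x ^ l - t ^ l) + (x - t) * t ^ l := by ring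
    rw [h1]
    refine norm_add_lt ?_ ?_
    · rw [norm_mul]
      exact mul_lt_one_of_nonneg_of_lt_one_right (norm_le_one ht h) (norm_nonneg _) ih
    · rw [norm_mul, norm_pow]
      exact mul_lt_one_of_nonneg_of_lt_one_left (norm_nonneg _) h
        (pow_le_one₀ (norm_nonneg _) ht)

/-- the sums of a group of points near `t` -/
theorem norm_S_lt {p r : ℕ} [Fact p.Prime] {K ι : Type} [Field K] [Finite K] [CharP K p]
    [Algebra K 𝕜] [Fintype ι] (c : ι → K) (hc : ∑ i, c i = 0) (z : ι → 𝕜) {t : 𝕜}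
    (ht : ‖t‖ ≤ 1) (hz : ∀ i, ‖z i - t‖ < 1) (l : ℕ) :
    ‖S p r c z (X ^ l)‖ < 1 := by
  have h1 : ∑ i, algebraMap K 𝕜 (c i) ^ p ^ r = 0 := by
    have h2 : (∑ i, c i) ^ p ^ r = ∑ i, c i ^ p ^ r := sum_pow_char_pow p r _ _
    have h3 : ∑ i, algebraMap K 𝕜 (c i) ^ p ^ r = algebraMap K 𝕜 (∑ i, c i ^ p ^ r) := by
      rw [map_sum]
      exact Finset.sum_congr rfl fun i _ => (map_pow _ _ _).symm
    rw [h3, ← h2, hc, zero_pow (pow_ne_zero _ (Fact.out : p.Prime).ne_zero), map_zero]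
  have h2 : S p r c z (X ^ l) = ∑ i, algebraMap K 𝕜 (c i) ^ p ^ r * (z i ^ l - t ^ l) := by
    unfold S
    simp only [eval_pow, eval_X, mul_sub, Finset.sum_sub_distrib]
    rw [← Finset.sum_mul, h1, zero_mul, sub_zero]
  rw [h2]
  refine norm_sum_lt _ _ one_pos fun i _ => ?_
  rw [norm_mul, norm_pow]
  exact mul_lt_one_of_nonneg_of_lt_one_right (pow_le_one₀ (norm_nonneg _) (norm_K_le _))
    (norm_nonneg _) (norm_pow_sub ht (hz i) l)

end

section

variable {𝕜 : Type} [NontriviallyNormedField 𝕜]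

theorem continuous_disp {σ Λ ι : Type} [Fintype Λ] (J : Λ → ι) (e : Λ → σ) (i : ι) :
    Continuous fun v : σ → 𝕜 => disp J (fun t => v (e t)) i := by
  unfold disp
  refine continuous_finsetSum _ fun t _ => ?_
  split_ifs
  · exact continuous_apply _
  · exact continuous_const

theorem disp_zero {Λ ι R : Type} [Fintype Λ] [CommRing R] (J : Λ → ι) (w : Λ → R)
    (hw : ∀ t, w t = 0) (i : ι) : disp J w i = 0 := by
  unfold disp
  refine Finset.sum_eq_zero fun t _ => ?_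
  rw [hw, ite_self]

variable {p s n : ℕ} {K A ι₀ ι₁ ι₂ : Type} [Field A] (d : Dat p s n K A ι₀ ι₁ ι₂) [Algebra A 𝕜]

theorem continuous_X₀ (i : ι₀) : Continuous fun v : Idx p s n → 𝕜 => d.X₀ v i :=
  continuous_const.add (continuous_disp _ _ _)

theorem continuous_X₁ (i : ι₁) : Continuous fun v : Idx p s n → 𝕜 => d.X₁ v i :=
  continuous_const.add (continuous_disp _ _ _)

theorem continuous_X₂ (i : ι₂) : Continuous fun v : Idx p s n → 𝕜 => d.X₂ v i :=
  continuous_const.add (continuous_disp _ _ _)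

theorem continuous_z₀ (i : ι₀) : Continuous fun v : Idx p s n → 𝕜 => d.z₀ v i := by
  unfold Dat.z₀
  have := continuous_X₀ (𝕜 := 𝕜) d i
  fun_prop

theorem continuous_z₁ (i : ι₁) : Continuous fun v : Idx p s n → 𝕜 => d.z₁ v i := by
  unfold Dat.z₁
  have := continuous_X₁ (𝕜 := 𝕜) d i
  fun_prop

theorem continuous_z₂ (i : ι₂) : Continuous fun v : Idx p s n → 𝕜 => d.z₂ v i := by
  unfold Dat.z₂
  have := continuous_X₂ (𝕜 := 𝕜) d i
  fun_prop

end

end StepA

end Pool.Agent.BCX4
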