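import Pool.Agent.BCX4.Ident

/-!
# The equations of the system and the test polynomials
-/

namespace Pool.Agent.BCX4

open Polynomial

namespace TestsF

theorem pow_sub_mul {p s r : ℕ} (h1 : 1 ≤ r) (h2 : r ≤ s) :
    p ^ (s - r) * p ^ (r - 1) = p ^ (s - 1) := by
  rw [← pow_add]
  congr 1
  omega

/-- the bound in the second variable of the pairs of `Lev` -/
theorem lt_of_mem {p s m r l : ℕ} (hp : 0 < p) (h : (r, l) ∈ Lev p s (m * p ^ (s - 1))) :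
    l < m * p ^ (r - 1) := by
  rw [mem_Lev hp] at h
  obtain ⟨⟨h1, h2⟩, h3, -⟩ := h
  simp only at h1 h2 h3
  have h4 : 0 < p ^ (s - r) := pow_pos hp _
  rw [← pow_sub_mul h1 h2] at h3
  have h5 : l * p ^ (s - r) < m * p ^ (r - 1) * p ^ (s - r) := by
    calc l * p ^ (s - r) < m * (p ^ (s - r) * p ^ (r - 1)) := h3
      _ = m * p ^ (r - 1) * p ^ (s - r) := by ring
  exact lt_of_mul_lt_mul_right h5 h4.le

theorem mem_of_lt {p s m r l : ℕ} (hp : 0 < p) (h1 : 1 ≤ r) (h2 : r ≤ s)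
    (h3 : l < m * p ^ (r - 1)) (h4 : ¬ p ∣ l) : (r, l) ∈ Lev p s (m * p ^ (s - 1)) := by
  rw [mem_Lev hp]
  refine ⟨⟨h1, h2⟩, ?_, h4⟩
  simp only
  rw [← pow_sub_mul h1 h2]
  calc l * p ^ (s - r) < m * p ^ (r - 1) * p ^ (s - r) :=
        Nat.mul_lt_mul_of_pos_right h3 (pow_pos hp _)
    _ = m * (p ^ (s - r) * p ^ (r - 1)) := by ring

/-- the bound for the third word -/
theorem mul_le_of_mem {p s r l : ℕ} (hp : 0 < p) (h : (r, l) ∈ Lev p s (p ^ (s - 1) - 2)) :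
    p ^ (s - 1) * l ≤ (p ^ (s - 1) - 2) * p ^ (r - 1) := by
  rw [mem_Lev hp] at h
  obtain ⟨⟨h1, h2⟩, h3, -⟩ := h
  simp only at h1 h2 h3
  calc p ^ (s - 1) * l = (l * p ^ (s - r)) * p ^ (r - 1) := by
        rw [← pow_sub_mul h1 h2]; ring
    _ ≤ (p ^ (s - 1) - 2) * p ^ (r - 1) := Nat.mul_le_mul_right _ h3.le

end TestsF

open TestsF

section

variable {p s n : ℕ} {K A ι₀ ι₁ ι₂ : Type} [Field K] [Field A]
  [Fintype ι₀] [Fintype ι₁] [Fintype ι₂] (d : Dat p s n K A ι₀ ι₁ ι₂)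
  {R : Type} [CommRing R] [Algebra K R] [Algebra A R] (v : Idx p s n → R)

/-- the equations of the first block -/
theorem Dat.pow_mul_α (hp : 0 < p) (t : Lev p s (n * p ^ (s - 1))) :
    v (iE 3) ^ ((p - 1) * (p ^ (s - 1) - 2) * t.1.2) * d.F v (Sum.inl t) =
      S p t.1.1 d.c (d.z v) (tst (v (iE 2)) t.1.2 ((p - 1) * p ^ (t.1.1 - 1))
        (p ^ (t.1.1 - 1))) := by
  have h := lt_of_mem hp t.2
  refine d.pow_mul_Fg v _ _ _ _ _ le_rfl ?_ ?_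
  · calc (p - 1) * (p ^ (s - 1) - 2) * t.1.2 ≤
          (p - 1) * (p ^ (s - 1) - 2) * (n * p ^ (t.1.1 - 1)) := Nat.mul_le_mul_left _ h.le
      _ = n * (p ^ (s - 1) - 2) * ((p - 1) * p ^ (t.1.1 - 1)) := by ring
  · calc (p - 1) * (p ^ (s - 1) - 2) * t.1.2 ≤
          (p - 1) * p ^ (s - 1) * (n * p ^ (t.1.1 - 1)) :=
            Nat.mul_le_mul (Nat.mul_le_mul_left _ (Nat.sub_le _ _)) h.le
      _ = n * ((p - 1) * p ^ (s - 1)) * p ^ (t.1.1 - 1) := by ring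

/-- the equations of the second block -/
theorem Dat.pow_mul_β (hp : 0 < p) (t : Lev p s ((p - 1) * p ^ (s - 1))) :
    v (iE 3) ^ (n * (p ^ (s - 1) - 2) * t.1.2) * d.F v (Sum.inr (Sum.inl t)) =
      S p t.1.1 d.c (d.z v) (tst (v (iE 2)) (n * p ^ (t.1.1 - 1)) t.1.2
        (p ^ (t.1.1 - 1))) := by
  have h := lt_of_mem hp t.2
  refine d.pow_mul_Fg v _ _ _ _ _ ?_ le_rfl ?_
  · calc n * (p ^ (s - 1) - 2) * t.1.2 ≤
          n * (p ^ (s - 1) - 2) * ((p - 1) * p ^ (t.1.1 - 1)) := Nat.mul_le_mul_left _ h.le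
      _ = (p - 1) * (p ^ (s - 1) - 2) * (n * p ^ (t.1.1 - 1)) := by ring
  · calc n * (p ^ (s - 1) - 2) * t.1.2 ≤
          n * p ^ (s - 1) * ((p - 1) * p ^ (t.1.1 - 1)) :=
            Nat.mul_le_mul (Nat.mul_le_mul_left _ (Nat.sub_le _ _)) h.le
      _ = n * ((p - 1) * p ^ (s - 1)) * p ^ (t.1.1 - 1) := by ring

/-- the equations of the third block -/
theorem Dat.pow_mul_γ (hp : 0 < p) (t : Lev p s (p ^ (s - 1) - 2)) :
    v (iE 3) ^ (n * ((p - 1) * p ^ (s - 1)) * t.1.2) * d.F v (Sum.inr (Sum.inr (Sum.inl t))) =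
      S p t.1.1 d.c (d.z v) (tst (v (iE 2)) (n * p ^ (t.1.1 - 1)) ((p - 1) * p ^ (t.1.1 - 1))
        t.1.2) := by
  have h := mul_le_of_mem hp t.2
  refine d.pow_mul_Fg v _ _ _ _ _ ?_ ?_ le_rfl
  · calc n * ((p - 1) * p ^ (s - 1)) * t.1.2 = n * (p - 1) * (p ^ (s - 1) * t.1.2) := by ring
      _ ≤ n * (p - 1) * ((p ^ (s - 1) - 2) * p ^ (t.1.1 - 1)) := Nat.mul_le_mul_left _ h
      _ = (p - 1) * (p ^ (s - 1) - 2) * (n * p ^ (t.1.1 - 1)) := by ring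
  · calc n * ((p - 1) * p ^ (s - 1)) * t.1.2 = n * (p - 1) * (p ^ (s - 1) * t.1.2) := by ring
      _ ≤ n * (p - 1) * ((p ^ (s - 1) - 2) * p ^ (t.1.1 - 1)) := Nat.mul_le_mul_left _ h
      _ = n * (p ^ (s - 1) - 2) * ((p - 1) * p ^ (t.1.1 - 1)) := by ring

/-- the equation for the scale of the second word -/
theorem Dat.pow_mul_zero (hp : 3 ≤ p) (hs : 2 ≤ s) (hc : ∑ i, d.c₂ i = 0) [Fact p.Prime]
    [CharP K p] :
    v (iE 3) ^ ((p - 1) * (p ^ (s - 1) - 2) * n) * d.F v (iE 0) =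
      S p 1 d.c (d.z v) (tst (v (iE 2)) n (p - 1) 0) :=
  d.pow_mul_Fs hp hs hc v

/-- the equation with index one -/
theorem Dat.pow_mul_one :
    v (iE 3) ^ ((p - 1) * (p ^ (s - 1) - 2) * (n * p ^ (s - 1))) * d.F v (iE 1) =
      S p s d.c (d.z v) (tst (v (iE 2)) (n * p ^ (s - 1)) ((p - 1) * p ^ (s - 1) + 1)
        (p ^ (s - 1) - 2)) := by
  refine d.pow_mul_Fg v _ _ _ _ _ le_rfl ?_ ?_
  · calc (p - 1) * (p ^ (s - 1) - 2) * (n * p ^ (s - 1)) =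
          n * (p ^ (s - 1) - 2) * ((p - 1) * p ^ (s - 1)) := by ring
      _ ≤ n * (p ^ (s - 1) - 2) * ((p - 1) * p ^ (s - 1) + 1) :=
          Nat.mul_le_mul_left _ (Nat.le_succ _)
  · exact le_of_eq (by ring)

/-- the equation with index two -/
theorem Dat.pow_mul_two :
    v (iE 3) ^ ((p - 1) * (p ^ (s - 1) - 2) * (n * p ^ (s - 1))) * d.F v (iE 2) =
      S p s d.c (d.z v) (tst (v (iE 2)) (n * p ^ (s - 1) + 1) ((p - 1) * p ^ (s - 1))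
        (p ^ (s - 1) - 2)) := by
  refine d.pow_mul_Fg v _ _ _ _ _ ?_ ?_ ?_
  · exact Nat.mul_le_mul_left _ (Nat.le_succ _)
  · exact le_of_eq (by ring)
  · exact le_of_eq (by ring)

/-- the equation with index four -/
theorem Dat.pow_mul_four :
    v (iE 3) ^ ((p - 1) * (p ^ (s - 1) - 2) * n) * (d.F v (iE 4) +
      algebraMap A R d.ν ^ ((p - 1) * (p ^ (s - 1) - 2)) *
            v (iE 4) ^ ((p - 1) * (p ^ (s - 1) - 2))) =
      S p 1 d.c (d.z v) (tst (v (iE 2)) n (p - 1) 1) := by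
  have h : d.F v (iE 4) + algebraMap A R d.ν ^ ((p - 1) * (p ^ (s - 1) - 2)) *
            v (iE 4) ^ ((p - 1) * (p ^ (s - 1) - 2)) =
      d.Fg v 1 n (p - 1) 1 ((p - 1) * (p ^ (s - 1) - 2) * n) := by
    change d.Fg v 1 n (p - 1) 1 ((p - 1) * (p ^ (s - 1) - 2) * n) -
          algebraMap A R d.ν ^ ((p - 1) * (p ^ (s - 1) - 2)) *
            v (iE 4) ^ ((p - 1) * (p ^ (s - 1) - 2)) + _ = _
    rw [sub_add_cancel]
  rw [h]
  refine d.pow_mul_Fg v _ _ _ _ _ le_rfl ?_ ?_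
  · exact le_of_eq (by ring)
  · calc (p - 1) * (p ^ (s - 1) - 2) * n ≤ (p - 1) * p ^ (s - 1) * n :=
          Nat.mul_le_mul_right _ (Nat.mul_le_mul_left _ (Nat.sub_le _ _))
      _ = n * ((p - 1) * p ^ (s - 1)) * 1 := by ring

/-- the tests vanish at a solution -/
theorem Dat.tests (hp : 3 ≤ p) (hs : 2 ≤ s) (hc : ∑ i, d.c₂ i = 0) [Fact p.Prime]
    [CharP K p] (hv : ∀ j, j ≠ iE 3 → d.F v j = 0) :
    Tests p s n (v (iE 2)) fun r f => S p r d.c (d.z v) f = 0 := by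
  have hp0 : 0 < p := by omega
  refine ⟨?_, ?_, ?_, ?_, ?_, ?_⟩
  · intro r l h1 h2 h3 h4
    have h := d.pow_mul_α v hp0 ⟨(r, l), mem_of_lt hp0 h1 h2 h3 h4⟩
    rw [← h, hv _ (by simp), mul_zero]
  · intro r l h1 h2 h3 h4
    have h := d.pow_mul_β v hp0 ⟨(r, l), mem_of_lt hp0 h1 h2 h3 h4⟩
    rw [← h, hv _ (by simp), mul_zero]
  · intro r l h1 h2 h3 h4
    have h := d.pow_mul_γ v hp0 ⟨(r, l), (mem_Lev hp0).2 ⟨⟨h1, h2⟩, h3, h4⟩⟩
    rw [← h, hv _ (by simp), mul_zero]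
  · rw [← d.pow_mul_zero v hp hs hc, hv _ (by simp), mul_zero]
  · rw [← d.pow_mul_one v, hv _ (by simp), mul_zero]
  · rw [← d.pow_mul_two v, hv _ (by simp), mul_zero]

end

end Pool.Agent.BCX4
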