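import Pool.Agent.BCX4.Span

/-!
# Row D8: small sums vanish
-/

namespace Pool.Agent.BCX4

open Polynomial

set_option linter.unusedVariables false

namespace Zero

/-- the unit ball as a subring -/
def ball (𝕜 : Type) [NontriviallyNormedField 𝕜] [IsUltrametricDist 𝕜] : Subring 𝕜 where
  carrier := {x | ‖x‖ ≤ 1}
  mul_mem' := fun {a b} ha hb => by
    change ‖a * b‖ ≤ 1
    rw [norm_mul]
    exact mul_le_one₀ ha (norm_nonneg _) hb
  one_mem' := by simp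
  add_mem' := fun {a b} ha hb =>
    (IsUltrametricDist.norm_add_le_max a b).trans (max_le ha hb)
  zero_mem' := by simp
  neg_mem' := fun {a} ha => by
    change ‖-a‖ ≤ 1
    rw [norm_neg]
    exact ha

section

variable {p : ℕ} {K 𝕜 ι : Type} [Field K] [NontriviallyNormedField 𝕜] [IsUltrametricDist 𝕜]
  [Algebra K 𝕜] [Fintype ι]

omit [IsUltrametricDist 𝕜] in
lemma S_add (r : ℕ) (c : ι → K) (z : ι → 𝕜) (f g : 𝕜[X]) :
    S p r c z (f + g) = S p r c z f + S p r c z g := by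
  unfold S
  rw [← Finset.sum_add_distrib]
  refine Finset.sum_congr rfl fun i _ => ?_
  rw [eval_add, mul_add]

omit [IsUltrametricDist 𝕜] in
lemma S_C_mul (r : ℕ) (c : ι → K) (z : ι → 𝕜) (a : 𝕜) (f : 𝕜[X]) :
    S p r c z (C a * f) = a * S p r c z f := by
  unfold S
  rw [Finset.mul_sum]
  refine Finset.sum_congr rfl fun i _ => ?_
  rw [eval_mul, eval_C]
  ring

/-- the submodule of the polynomials with small sum -/
def sub (p r : ℕ) (c : ι → K) (z : ι → 𝕜) (ε : ℝ) (hε : 0 ≤ ε) : Submodule (ball 𝕜) (ball 𝕜)[X] where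
  carrier := {f | ‖S p r c z (f.map (ball 𝕜).subtype)‖ ≤ ε}
  add_mem' := fun {a b} ha hb => by
    change ‖S p r c z ((a + b).map (ball 𝕜).subtype)‖ ≤ ε
    rw [Polynomial.map_add, S_add]
    exact (IsUltrametricDist.norm_add_le_max _ _).trans (max_le ha hb)
  zero_mem' := by
    change ‖S p r c z ((0 : (ball 𝕜)[X]).map (ball 𝕜).subtype)‖ ≤ ε
    simpa [S] using hε
  smul_mem' := fun a f hf => by
    change ‖S p r c z ((a • f).map (ball 𝕜).subtype)‖ ≤ ε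
    rw [smul_eq_C_mul, Polynomial.map_mul, map_C, S_C_mul, norm_mul]
    have h1 : ‖(ball 𝕜).subtype a‖ ≤ 1 := a.2
    have h2 : ‖S p r c z (f.map (ball 𝕜).subtype)‖ ≤ ε := hf
    calc _ ≤ 1 * ‖S p r c z (f.map (ball 𝕜).subtype)‖ :=
          mul_le_mul_of_nonneg_right h1 (norm_nonneg _)
      _ ≤ ε := by rw [one_mul]; exact h2

lemma map_tst (g : ball 𝕜) (a b k : ℕ) :
    (tst g a b k).map (ball 𝕜).subtype = tst (g : 𝕜) a b k := by
  unfold tst
  simp only [Polynomial.map_mul, Polynomial.map_pow, Polynomial.map_sub, map_X, map_C,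
    Polynomial.map_one]
  rfl

lemma unit_of_norm (x : ball 𝕜) (hx : ‖(x : 𝕜)‖ = 1) : IsUnit x := by
  have hx0 : (x : 𝕜) ≠ 0 := fun h0 => by rw [h0, norm_zero] at hx; exact zero_ne_one hx
  have hi : ‖(x : 𝕜)⁻¹‖ ≤ 1 := by rw [norm_inv, hx, inv_one]
  refine IsUnit.of_mul_eq_one (⟨(x : 𝕜)⁻¹, hi⟩ : ball 𝕜) ?_
  apply Subtype.ext
  change (x : 𝕜) * (x : 𝕜)⁻¹ = 1
  exact mul_inv_cancel₀ hx0

end

end Zero

/-- ROW D8 (Zero.lean): small sums vanish -/
theorem zero_of_tests {p s n : ℕ} [Fact p.Prime] (hp : 3 ≤ p) (hs : 2 ≤ s) (hn : ¬ p ∣ n)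
    {K 𝕜 ι : Type} [Field K] [Finite K] [CharP K p] (hK : Nat.card K = p ^ s)
    [NontriviallyNormedField 𝕜] [IsUltrametricDist 𝕜] [Algebra K 𝕜] [Fintype ι] (c : ι → K)
    (z : ι → 𝕜) {g : 𝕜} (hz : ∀ i, ‖z i‖ ≤ 1) (hg : ‖g‖ = 1) (hg1 : ‖1 - g‖ = 1)
    (hsm : ∀ r, 1 ≤ r → r ≤ s → ∀ l < (n + p) * p ^ (r - 1), ‖S p r c z (X ^ l)‖ < 1)
    (h : Tests p s n g fun r f => S p r c z f = 0) :
    ∀ r, 1 ≤ r → r ≤ s → ∀ l < (n + p) * p ^ (r - 1), S p r c z (X ^ l) = 0 := by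
  classical
  have hchar : CharP 𝕜 p := charP_of_injective_algebraMap (algebraMap K 𝕜).injective p
  have hcharB : CharP (Zero.ball 𝕜) p := by
    constructor
    intro x
    rw [← CharP.cast_eq_zero_iff 𝕜 p x]
    constructor
    · intro hx
      have := congrArg (fun y : Zero.ball 𝕜 => (y : 𝕜)) hx
      simpa using this
    · intro hx
      apply Subtype.ext
      simpa using hx
  -- the maximum
  set F : Finset (ℕ × ℕ) := (Finset.Icc 1 s ×ˢ Finset.range ((n + p) * p ^ s)).filter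
    fun t => t.2 < (n + p) * p ^ (t.1 - 1) with hF
  have hmem : ∀ r l, (r, l) ∈ F ↔ (1 ≤ r ∧ r ≤ s) ∧ l < (n + p) * p ^ (r - 1) := by
    intro r l
    rw [hF, Finset.mem_filter, Finset.mem_product, Finset.mem_Icc, Finset.mem_range]
    constructor
    · rintro ⟨⟨h1, -⟩, h2⟩
      exact ⟨h1, h2⟩
    · rintro ⟨h1, h2⟩
      refine ⟨⟨h1, lt_of_lt_of_le h2 (Nat.mul_le_mul_left _ (Nat.pow_le_pow_right (by omega) ?_))⟩, h2⟩
      have := h1.2
      change r - 1 ≤ s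
      omega
  have hne : F.Nonempty := ⟨(1, 0), by
    rw [hmem]
    exact ⟨⟨le_rfl, by omega⟩, Nat.mul_pos (by omega) (pow_pos (by omega) _)⟩⟩
  obtain ⟨t0, ht0, hmax⟩ := Finset.exists_max_image F (fun t => ‖S p t.1 c z (X ^ t.2)‖) hne
  set m := ‖S p t0.1 c z (X ^ t0.2)‖ with hm
  have hm0 : 0 ≤ m := norm_nonneg _
  have hm1 : m < 1 := by
    have := (hmem t0.1 t0.2).1 ht0
    exact hsm _ this.1.1 this.1.2 _ this.2
  have hle : ∀ r, 1 ≤ r → r ≤ s → ∀ l < (n + p) * p ^ (r - 1), ‖S p r c z (X ^ l)‖ ≤ m :=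
    fun r h1 h2 l h3 => hmax (r, l) ((hmem r l).2 ⟨⟨h1, h2⟩, h3⟩)
  have hmp : 0 ≤ m ^ p := pow_nonneg hm0 _
  -- the level shift
  have hq : ∀ k : K, k ^ p ^ s = k := by
    intro k
    have := Fintype.ofFinite K
    rw [← hK, Nat.card_eq_fintype_card]
    exact FiniteField.pow_card k
  have hshift : ∀ r l, S p (r + 1) c z (X ^ (p * l)) = S p r c z (X ^ l) ^ p := by
    intro r l
    unfold S
    rw [sum_pow_char]
    refine Finset.sum_congr rfl fun i _ => ?_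
    rw [mul_pow, eval_pow, eval_pow, eval_X, ← pow_mul, ← pow_succ, mul_comm p l, pow_mul]
  have hlev : ∀ l, S p 0 c z (X ^ l) = S p s c z (X ^ l) := by
    intro l
    unfold S
    refine Finset.sum_congr rfl fun i _ => ?_
    rw [← map_pow, ← map_pow, hq, pow_zero, pow_one]
  have hV : ∀ (r : ℕ) (l : ℕ), (X : (Zero.ball 𝕜)[X]) ^ l ∈ Zero.sub p r c z (m ^ p) hmp ↔
      ‖S p r c z (X ^ l)‖ ≤ m ^ p := by
    intro r l
    change ‖S p r c z (((X : (Zero.ball 𝕜)[X]) ^ l).map (Zero.ball 𝕜).subtype)‖ ≤ m ^ p ↔ _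
    rw [Polynomial.map_pow, map_X]
  have hT : ∀ (r a b k : ℕ), S p r c z (tst g a b k) = 0 →
      tst (⟨g, hg.le⟩ : Zero.ball 𝕜) a b k ∈ Zero.sub p r c z (m ^ p) hmp := by
    intro r a b k h0
    change ‖S p r c z ((tst (⟨g, hg.le⟩ : Zero.ball 𝕜) a b k).map (Zero.ball 𝕜).subtype)‖ ≤ m ^ p
    rw [Zero.map_tst]
    change ‖S p r c z (tst g a b k)‖ ≤ m ^ p
    rw [h0, norm_zero]
    exact hmp
  have key := span_tests hp hs hn (g := (⟨g, hg.le⟩ : Zero.ball 𝕜))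
    (Zero.unit_of_norm _ hg) (Zero.unit_of_norm _ hg1)
    (fun r => Zero.sub p r c z (m ^ p) hmp)
    ⟨fun r l h1 h2 h3 h4 => hT _ _ _ _ (h.α r l h1 h2 h3 h4),
      fun r l h1 h2 h3 h4 => hT _ _ _ _ (h.β r l h1 h2 h3 h4),
      fun r l h1 h2 h3 h4 => hT _ _ _ _ (h.γ r l h1 h2 h3 h4),
      hT _ _ _ _ h.st, hT _ _ _ _ h.e₂, hT _ _ _ _ h.e₁⟩
    (by
      intro r h1 h2 j h3
      rw [hV]
      obtain ⟨r, rfl⟩ : ∃ r', r = r' + 1 := ⟨r - 1, by omega⟩
      rw [hshift, norm_pow]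
      refine pow_le_pow_left₀ (norm_nonneg _) ?_ p
      rcases Nat.eq_zero_or_pos r with rfl | h4
      · rw [hlev]
        refine hle s (by omega) le_rfl j ?_
        rw [zero_add, Nat.sub_self, pow_zero, mul_one] at h3
        have h5 : 1 ≤ p ^ (s - 1) := Nat.one_le_pow _ _ (by omega)
        calc j ≤ p * j := Nat.le_mul_of_pos_left _ (by omega)
          _ < n + p := h3
          _ ≤ (n + p) * p ^ (s - 1) := Nat.le_mul_of_pos_right _ (by omega)
      · refine hle r h4 (by omega) j ?_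
        rw [show r + 1 - 1 = r - 1 + 1 by omega, pow_succ, ← mul_assoc, mul_comm _ p] at h3
        exact lt_of_mul_lt_mul_left h3 (Nat.zero_le _))
  have hfin : ∀ r, 1 ≤ r → r ≤ s → ∀ l < (n + p) * p ^ (r - 1), ‖S p r c z (X ^ l)‖ ≤ m ^ p :=
    fun r h1 h2 l h3 => (hV r l).1 (key r h1 h2 l h3)
  have hmm : m ≤ m ^ p := by
    have := (hmem t0.1 t0.2).1 ht0
    exact hfin _ this.1.1 this.1.2 _ this.2
  have hmz : m = 0 := by
    by_contra hne0
    have h1 : 0 < m := lt_of_le_of_ne hm0 (Ne.symm hne0)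
    have h2 : m ^ p < m := pow_lt_self_of_lt_one₀ h1 hm1 (by omega)
    exact absurd hmm (not_le.2 h2)
  intro r h1 h2 l h3
  have := hle r h1 h2 l h3
  rw [hmz] at this
  exact norm_le_zero_iff.1 this

end Pool.Agent.BCX4
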