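import Pool.Agent.BCX4.StepA
import Pool.Agent.BCX4.TestsF
import Pool.Agent.BCX4.Nat
import Pool.Agent.BCX.Inverse
import Pool.Agent.BCX.Jac
import Pool.Agent.BCX4.Minor
import Pool.Agent.BCX4.Dual
import Pool.Agent.BCX4.Base
import Pool.Agent.BCX4.JacD
import Pool.Agent.BCX4.Zero
import Pool.Agent.BCX4.SmoothD

/-!
# The step `n → n + p`
-/

namespace Pool.Agent.BCX4

open Polynomial StepA
open scoped Topology

namespace StepD

section

variable {p s n : ℕ} {K A 𝕜 ι₀ ι₁ ι₂ : Type} [Field A] (d : Dat p s n K A ι₀ ι₁ ι₂)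
  [NontriviallyNormedField 𝕜] [Algebra A 𝕜]

/-- the open conditions -/
structure Near (v : Idx p s n → 𝕜) : Prop where
  i₀ : ∀ i j, i ≠ j → d.X₀ v i ≠ d.X₀ v j
  i₁ : ∀ i j, i ≠ j → d.X₁ v i ≠ d.X₁ v j
  i₂ : ∀ i j, i ≠ j → d.X₂ v i ≠ d.X₂ v j
  n₀ : ∀ i, ‖d.z₀ v i - 0‖ < 1
  n₁ : ∀ i, ‖d.z₁ v i - 1‖ < 1
  n₂ : ∀ i, ‖d.z₂ v i - v (iE 2)‖ < 1
  g : ‖v (iE 2) - (-1)‖ < 1
  a : v (iE 0) ≠ 0
  b : v (iE 1) ≠ 0
  u : v (iE 4) ≠ 0

/-- the base point -/
noncomputable def w0 (p s n : ℕ) (A 𝕜 : Type) [Field A] [NontriviallyNormedField 𝕜] [Algebra A 𝕜] :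
    Idx p s n → 𝕜 := fun i => algebraMap A 𝕜 (Dat.v0 p s n A i)

theorem X₀_w0 (i : ι₀) : d.X₀ (w0 p s n A 𝕜) i = algebraMap A 𝕜 (d.x₀ i) := by
  unfold Dat.X₀
  rw [disp_zero, add_zero]
  intro t
  simp [w0, Dat.v0]

theorem X₁_w0 (i : ι₁) : d.X₁ (w0 p s n A 𝕜) i = algebraMap A 𝕜 (d.x₁ i) := by
  unfold Dat.X₁
  rw [disp_zero, add_zero]
  intro t
  simp [w0, Dat.v0]

theorem X₂_w0 (i : ι₂) : d.X₂ (w0 p s n A 𝕜) i = algebraMap A 𝕜 (d.x₂ i) := by
  unfold Dat.X₂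
  rw [disp_zero, add_zero]
  intro t
  simp [w0, Dat.v0]

theorem eventually_near [Fintype ι₀] [Fintype ι₁] [Fintype ι₂] (hp : 3 ≤ p) (hs : 2 ≤ s)
    (hn : 1 ≤ n) (h₀ : Function.Injective d.x₀) (h₁ : Function.Injective d.x₁)
    (h₂ : Function.Injective d.x₂) :
    ∀ᶠ v in 𝓝 (w0 p s n A 𝕜), Near d v := by
  have hN : 3 ≤ p ^ (s - 1) := hp.trans (Nat.le_self_pow (by omega) p)
  have hT : (w0 p s n A 𝕜) (iE 3) = 0 := by simp [w0, Dat.v0]
  have hL : (p - 1) * (p ^ (s - 1) - 2) ≠ 0 := Nat.mul_ne_zero (by omega) (by omega)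
  have hz₀ : ∀ i, d.z₀ (w0 p s n A 𝕜) i = 0 := by
    intro i
    unfold Dat.z₀
    rw [hT, zero_pow hL, zero_mul]
  have hz₁ : ∀ i, d.z₁ (w0 p s n A 𝕜) i = 1 := by
    intro i
    unfold Dat.z₁
    rw [hT, zero_pow (by omega), zero_mul, zero_pow (by omega), zero_mul, add_zero]
  have hz₂ : ∀ i, d.z₂ (w0 p s n A 𝕜) i = (w0 p s n A 𝕜) (iE 2) := by
    intro i
    unfold Dat.z₂
    rw [hT, zero_pow (by omega), zero_mul, zero_pow (Nat.mul_ne_zero (by omega) (by omega)),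
      zero_mul, add_zero]
  have hg : (w0 p s n A 𝕜) (iE 2) = -1 := by simp [w0, Dat.v0]
  have hinj : Function.Injective (algebraMap A 𝕜) := (algebraMap A 𝕜).injective
  have key : ∀ {f g : (Idx p s n → 𝕜) → 𝕜}, Continuous f → Continuous g →
      f (w0 p s n A 𝕜) ≠ g (w0 p s n A 𝕜) → ∀ᶠ v in 𝓝 (w0 p s n A 𝕜), f v ≠ g v := by
    intro f g hf hg h
    exact ((hf.sub hg).continuousAt.eventually_ne (sub_ne_zero.2 h)).mono
      fun v hv => sub_ne_zero.1 hv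
  have key2 : ∀ {f g : (Idx p s n → 𝕜) → 𝕜}, Continuous f → Continuous g →
      f (w0 p s n A 𝕜) = g (w0 p s n A 𝕜) → ∀ᶠ v in 𝓝 (w0 p s n A 𝕜), ‖f v - g v‖ < 1 := by
    intro f g hf hg h
    refine ((hf.sub hg).norm.tendsto _).eventually_lt_const ?_
    rw [Pi.sub_apply, h, sub_self, norm_zero]
    exact one_pos
  have e₀ : ∀ᶠ v in 𝓝 (w0 p s n A 𝕜), ∀ i j, i ≠ j → d.X₀ v i ≠ d.X₀ v j := by
    rw [Filter.eventually_all]; intro i
    rw [Filter.eventually_all]; intro j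
    by_cases hij : i = j
    · exact Filter.Eventually.of_forall fun v h => absurd hij h
    · refine (key (continuous_X₀ d i) (continuous_X₀ d j) ?_).mono fun v hv _ => hv
      rw [X₀_w0, X₀_w0]
      exact fun h => hij (h₀ (hinj h))
  have e₁ : ∀ᶠ v in 𝓝 (w0 p s n A 𝕜), ∀ i j, i ≠ j → d.X₁ v i ≠ d.X₁ v j := by
    rw [Filter.eventually_all]; intro i
    rw [Filter.eventually_all]; intro j
    by_cases hij : i = j
    · exact Filter.Eventually.of_forall fun v h => absurd hij h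
    · refine (key (continuous_X₁ d i) (continuous_X₁ d j) ?_).mono fun v hv _ => hv
      rw [X₁_w0, X₁_w0]
      exact fun h => hij (h₁ (hinj h))
  have e₂ : ∀ᶠ v in 𝓝 (w0 p s n A 𝕜), ∀ i j, i ≠ j → d.X₂ v i ≠ d.X₂ v j := by
    rw [Filter.eventually_all]; intro i
    rw [Filter.eventually_all]; intro j
    by_cases hij : i = j
    · exact Filter.Eventually.of_forall fun v h => absurd hij h
    · refine (key (continuous_X₂ d i) (continuous_X₂ d j) ?_).mono fun v hv _ => hv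
      rw [X₂_w0, X₂_w0]
      exact fun h => hij (h₂ (hinj h))
  have f₀ : ∀ᶠ v in 𝓝 (w0 p s n A 𝕜), ∀ i, ‖d.z₀ v i - 0‖ < 1 := by
    rw [Filter.eventually_all]; intro i
    exact key2 (continuous_z₀ d i) continuous_const (hz₀ i)
  have f₁ : ∀ᶠ v in 𝓝 (w0 p s n A 𝕜), ∀ i, ‖d.z₁ v i - 1‖ < 1 := by
    rw [Filter.eventually_all]; intro i
    exact key2 (continuous_z₁ d i) continuous_const (hz₁ i)
  have f₂ : ∀ᶠ v in 𝓝 (w0 p s n A 𝕜), ∀ i, ‖d.z₂ v i - v (iE 2)‖ < 1 := by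
    rw [Filter.eventually_all]; intro i
    exact key2 (continuous_z₂ d i) (continuous_apply _) (hz₂ i)
  have f₃ : ∀ᶠ v in 𝓝 (w0 p s n A 𝕜), ‖v (iE 2) - (-1)‖ < 1 :=
    key2 (continuous_apply _) continuous_const hg
  have g₀ : ∀ᶠ v in 𝓝 (w0 p s n A 𝕜), v (iE 0) ≠ 0 :=
    key (continuous_apply _) continuous_const (by simp [w0, Dat.v0])
  have g₁ : ∀ᶠ v in 𝓝 (w0 p s n A 𝕜), v (iE 1) ≠ 0 :=
    key (continuous_apply _) continuous_const (by simp [w0, Dat.v0])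
  have g₂ : ∀ᶠ v in 𝓝 (w0 p s n A 𝕜), v (iE 4) ≠ 0 :=
    key (continuous_apply _) continuous_const (by simp [w0, Dat.v0])
  filter_upwards [e₀, e₁, e₂, f₀, f₁, f₂, f₃, g₀, g₁, g₂] with v a1 a2 a3 a4 a5 a6 a7 a8 a9 a10
  exact ⟨a1, a2, a3, a4, a5, a6, a7, a8, a9, a10⟩

end

section

variable {p s n : ℕ} {K A 𝕜 ι₀ ι₁ ι₂ : Type} [Field A] (d : Dat p s n K A ι₀ ι₁ ι₂)
  [NontriviallyNormedField 𝕜] [Algebra A 𝕜] [IsUltrametricDist 𝕜]

omit [IsUltrametricDist 𝕜] in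
theorem norm_two {K : Type} [Field K] [Finite K] [Algebra K 𝕜] [Fact p.Prime] [CharP K p]
    (hp : 3 ≤ p) : ‖(2 : 𝕜)‖ = 1 := by
  have h2 : (2 : K) ≠ 0 := by
    intro h
    have h3 := (CharP.cast_eq_zero_iff K p 2).1 (by exact_mod_cast h)
    have := Nat.le_of_dvd (by norm_num) h3
    omega
  have h := norm_K (𝕜 := 𝕜) h2
  rwa [map_ofNat] at h

theorem z_inj (h2 : ‖(2 : 𝕜)‖ = 1) {v : Idx p s n → 𝕜} (h : Near d v)
    (hT : v (iE 3) ≠ 0) (hν : d.ν ≠ 0) : Function.Injective (d.z v) := by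
  have hν' : algebraMap A 𝕜 d.ν ≠ 0 := (_root_.map_ne_zero _).2 hν
  have hz₂ : ∀ i, ‖d.z₂ v i - (-1)‖ < 1 := by
    intro i
    have h3 : d.z₂ v i - (-1) = (d.z₂ v i - v (iE 2)) + (v (iE 2) - (-1)) := by ring
    rw [h3]
    exact norm_add_lt (h.n₂ i) h.g
  have d01 : ∀ i j, d.z₀ v i ≠ d.z₁ v j := by
    intro i j hij
    have h3 : (1 : 𝕜) = (d.z₀ v i - 0) + -(d.z₁ v j - 1) := by rw [hij]; ring
    have h4 : ‖(1 : 𝕜)‖ < 1 := by
      rw [h3]
      exact norm_add_lt (h.n₀ i) (by rw [norm_neg]; exact h.n₁ j)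
    rw [norm_one] at h4
    exact lt_irrefl _ h4
  have d02 : ∀ i j, d.z₀ v i ≠ d.z₂ v j := by
    intro i j hij
    have h3 : (1 : 𝕜) = -(d.z₀ v i - 0) + (d.z₂ v j - (-1)) := by rw [hij]; ring
    have h4 : ‖(1 : 𝕜)‖ < 1 := by
      rw [h3]
      exact norm_add_lt (by rw [norm_neg]; exact h.n₀ i) (hz₂ j)
    rw [norm_one] at h4
    exact lt_irrefl _ h4
  have d12 : ∀ i j, d.z₁ v i ≠ d.z₂ v j := by
    intro i j hij
    have h3 : (2 : 𝕜) = -(d.z₁ v i - 1) + (d.z₂ v j - (-1)) := by rw [hij]; ring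
    have h4 : ‖(2 : 𝕜)‖ < 1 := by
      rw [h3]
      exact norm_add_lt (by rw [norm_neg]; exact h.n₁ i) (hz₂ j)
    rw [h2] at h4
    exact lt_irrefl _ h4
  have hρ₁ : (v (iE 3) ^ n * algebraMap A 𝕜 d.ν) ^ (p ^ (s - 1) - 2) ≠ 0 :=
    pow_ne_zero _ (mul_ne_zero (pow_ne_zero _ hT) hν')
  have hρ₂ : (v (iE 3) ^ n * algebraMap A 𝕜 d.ν) ^ ((p - 1) * p ^ (s - 1)) ≠ 0 :=
    pow_ne_zero _ (mul_ne_zero (pow_ne_zero _ hT) hν')
  rintro (i | i | i) (j | j | j) hij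
  · by_contra hne
    exact h.i₀ i j (fun h' => hne (by rw [h'])) (mul_left_cancel₀ (pow_ne_zero _ hT) hij)
  · exact absurd hij (d01 i j)
  · exact absurd hij (d02 i j)
  · exact absurd hij.symm (d01 j i)
  · by_contra hne
    exact h.i₁ i j (fun h' => hne (by rw [h']))
      (mul_left_cancel₀ h.a (mul_left_cancel₀ hρ₁ (add_left_cancel hij)))
  · exact absurd hij (d12 i j)
  · exact absurd hij.symm (d02 j i)
  · exact absurd hij.symm (d12 j i)
  · by_contra hne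
    exact h.i₂ i j (fun h' => hne (by rw [h']))
      (mul_left_cancel₀ h.b (mul_left_cancel₀ hρ₂ (add_left_cancel hij)))

theorem norm_g {v : Idx p s n → 𝕜} (h : Near d v) : ‖v (iE 2)‖ = 1 :=
  norm_eq_one (by rw [norm_neg, norm_one]) h.g

theorem norm_one_sub_g (h2 : ‖(2 : 𝕜)‖ = 1) {v : Idx p s n → 𝕜} (h : Near d v) :
    ‖1 - v (iE 2)‖ = 1 := by
  refine norm_eq_one h2 ?_
  have h3 : 1 - v (iE 2) - 2 = -(v (iE 2) - (-1)) := by ring
  rw [h3, norm_neg]
  exact h.g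

theorem norm_z {v : Idx p s n → 𝕜} (h : Near d v) (i : ι₀ ⊕ ι₁ ⊕ ι₂) : ‖d.z v i‖ ≤ 1 := by
  rcases i with i | i | i
  · exact norm_le_one (t := 0) (by rw [norm_zero]; exact zero_le_one) (h.n₀ i)
  · exact norm_le_one (t := 1) norm_one.le (h.n₁ i)
  · exact norm_le_one (norm_g d h).le (h.n₂ i)

theorem norm_S [Fintype ι₀] [Fintype ι₁] [Fintype ι₂] {K : Type} [Field K] [Finite K]
    [Algebra K 𝕜] [Fact p.Prime] [CharP K p] (d : Dat p s n K A ι₀ ι₁ ι₂)
    {v : Idx p s n → 𝕜} (h : Near d v) (hc₀ : ∑ i, d.c₀ i = 0) (hc₁ : ∑ i, d.c₁ i = 0)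
    (hc₂ : ∑ i, d.c₂ i = 0) (r l : ℕ) : ‖S p r d.c (d.z v) (X ^ l)‖ < 1 := by
  unfold Dat.c Dat.z
  rw [Ident.S_sum]
  refine norm_add_lt (norm_add_lt ?_ ?_) ?_
  · exact norm_S_lt _ hc₀ _ (t := 0) (by rw [norm_zero]; exact zero_le_one) h.n₀ l
  · exact norm_S_lt _ hc₁ _ (t := 1) norm_one.le h.n₁ l
  · exact norm_S_lt _ hc₂ _ (norm_g d h).le h.n₂ l

end

section

variable {p r : ℕ} {K R ι : Type} [Field K] [CommRing R] [Algebra K R] [Fintype ι]
  (c : ι → K) (x : ι → R)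

theorem S_eq_sum (f : R[X]) :
    S p r c x f = ∑ k ∈ Finset.range (f.natDegree + 1), f.coeff k * S p r c x (X ^ k) := by
  unfold S
  simp only [eval_eq_sum_range (p := f), eval_pow, eval_X, Finset.mul_sum]
  rw [Finset.sum_comm]
  refine Finset.sum_congr rfl fun k _ => Finset.sum_congr rfl fun i _ => ?_
  ring

theorem S_monic {f : R[X]} {D : ℕ} (hf : f.natDegree = D) (h1 : f.coeff D = 1)
    (h : ∀ k < D, S p r c x (X ^ k) = 0) : S p r c x f = S p r c x (X ^ D) := by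
  rw [S_eq_sum, hf, Finset.sum_range_succ, h1, one_mul, Finset.sum_eq_zero, zero_add]
  intro k hk
  rw [h k (Finset.mem_range.1 hk), mul_zero]

end

end StepD

open StepD

/-- ROW D10: the step, from the two words over `K` -/
theorem GoodD.step_of {p s n : ℕ} [Fact p.Prime] {K : Type} [Field K] [Finite K] [CharP K p]
    (hK : Nat.card K = p ^ s) (hp : 3 ≤ p) (hs : 2 ≤ s)
    (hwA : ∃ (ι : Type) (_ : Fintype ι) (c x : ι → K), Fintype.card ι = (p - 1) * p ^ (s - 1) + 1 ∧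
      Word p s ((p - 1) * p ^ (s - 1)) c x ∧ ∑ i, c i ^ p * x i ^ (p - 1) = 1)
    (hwB : ∃ (ι : Type) (_ : Fintype ι) (c x : ι → K), Fintype.card ι = p ^ (s - 1) - 1 ∧
      Word p s (p ^ (s - 1) - 2) c x ∧ ∑ i, c i * x i ^ (p ^ (s - 1) - 2) = 1)
    {A 𝕜 : Type} [Field A] [Algebra K A]
    [NontriviallyNormedField 𝕜] [CompleteSpace 𝕜] [IsUltrametricDist 𝕜] [Algebra K 𝕜]
    [Algebra A 𝕜] [IsScalarTower K A 𝕜]
    (hA : ∀ x : 𝕜, IsSeparable A x → ∃ a : A, algebraMap A 𝕜 a = x)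
    (hsmall : ∀ ε : ℝ, 0 < ε → ∃ β : A, β ≠ 0 ∧ ‖algebraMap A 𝕜 β‖ < ε)
    (hn : ¬ p ∣ n) (h : GoodD p s K A n) : GoodD p s K A (n + p) := by
  classical
  have hN : 3 ≤ p ^ (s - 1) := hp.trans (Nat.le_self_pow (by omega) p)
  have hn1 : 1 ≤ n := by
    rcases Nat.eq_zero_or_pos n with h0 | h0
    · rw [h0] at hn
      exact absurd (dvd_zero p) hn
    · exact h0
  have hprime := (Fact.out : p.Prime)
  obtain ⟨ι₀, _, c, x, ν, hcard₀, hw₀, hν, htop⟩ := h
  obtain ⟨ι₁, _, c₁, y, hcard₁, hw₁, htop₁⟩ := hwA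
  obtain ⟨ι₂, _, c₂, w, hcard₂, hw₂, htop₂⟩ := hwB
  have h2K : (2 : K) ≠ 0 := by
    intro h
    have h3 := (CharP.cast_eq_zero_iff K p 2).1 (by exact_mod_cast h)
    have := Nat.le_of_dvd (by norm_num) h3
    omega
  have hκ : (-1 : K) ^ n * 2⁻¹ ≠ 0 :=
    mul_ne_zero (pow_ne_zero _ (neg_ne_zero.2 one_ne_zero)) (inv_ne_zero h2K)
  have hw₀' : Word p s (n * p ^ (s - 1)) (fun i => (-1 : K) * c i) x :=
    hw₀.smul (neg_ne_zero.2 one_ne_zero)
  have hw₁' : Word p s ((p - 1) * p ^ (s - 1)) c₁ (fun i => algebraMap K A (y i)) := hw₁.map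
  have hw₂' : Word p s (p ^ (s - 1) - 2) (fun i => (-1 : K) ^ n * 2⁻¹ * c₂ i)
      (fun i => algebraMap K A (w i)) := hw₂.map.smul hκ
  obtain ⟨J₀, hJ₀⟩ := (exists_minor_iff _).1 hw₀'.smooth
  obtain ⟨J₁, hJ₁⟩ := (exists_minor_iff _).1 hw₁'.smooth
  obtain ⟨J₂, hJ₂⟩ := (exists_minor_iff _).1 hw₂'.smooth
  let d : Dat p s n K A ι₀ ι₁ ι₂ :=
    ⟨fun i => (-1 : K) * c i, c₁, fun i => (-1 : K) ^ n * 2⁻¹ * c₂ i, x,
      fun i => algebraMap K A (y i), fun i => algebraMap K A (w i), ν, J₀, J₁, J₂⟩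
  have hodd : Odd p := hprime.eq_two_or_odd'.resolve_left (by omega)
  have hok : d.Ok := by
    refine ⟨hw₀', hw₁', hw₂', hν, ?_, ?_, ?_, hJ₀, hJ₁, hJ₂⟩
    · change ∑ i, algebraMap K A ((-1 : K) * c i) ^ p * x i ^ n = -ν ^ _
      rw [← htop, ← Finset.sum_neg_distrib]
      refine Finset.sum_congr rfl fun i _ => ?_
      rw [map_mul, mul_pow, map_neg, map_one, hodd.neg_one_pow]
      ring
    · change ∑ i, algebraMap K A (c₁ i) ^ p * algebraMap K A (y i) ^ (p - 1) = 1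
      have h1 := congrArg (algebraMap K A) htop₁
      rw [map_sum, map_one] at h1
      rw [← h1]
      exact Finset.sum_congr rfl fun i _ => by rw [map_mul, map_pow, map_pow]
    · change 2 * ∑ i, algebraMap K A ((-1 : K) ^ n * 2⁻¹ * c₂ i) *
        algebraMap K A (w i) ^ (p ^ (s - 1) - 2) = (-1) ^ n
      have h3 : (2 : K) * ∑ i, ((-1 : K) ^ n * 2⁻¹ * c₂ i) * w i ^ (p ^ (s - 1) - 2) =
          (-1) ^ n := by
        have h4 : ∑ i, ((-1 : K) ^ n * 2⁻¹ * c₂ i) * w i ^ (p ^ (s - 1) - 2) =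
            (-1 : K) ^ n * 2⁻¹ := by
          have h5 : ∑ i, ((-1 : K) ^ n * 2⁻¹ * c₂ i) * w i ^ (p ^ (s - 1) - 2) =
              (-1 : K) ^ n * 2⁻¹ * ∑ i, c₂ i * w i ^ (p ^ (s - 1) - 2) := by
            rw [Finset.mul_sum]
            exact Finset.sum_congr rfl fun i _ => mul_assoc _ _ _
          rw [h5, htop₂, mul_one]
        rw [h4]
        field_simp
      have h1 := congrArg (algebraMap K A) h3
      rw [map_mul, map_sum, map_pow, map_neg, map_one, map_ofNat] at h1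
      rw [← h1]
      congr 1
      refine Finset.sum_congr rfl fun i _ => ?_
      simp only [map_mul, map_pow]
  have hc₀ : ∑ i, d.c₀ i = 0 := by
    have h1 := hok.w₀.sum 0 (Nat.mul_pos hn1 (by omega))
    simp only [pow_zero, mul_one] at h1
    rw [← map_sum, map_eq_zero] at h1
    exact h1
  have hc₁ : ∑ i, d.c₁ i = 0 := by
    have h1 := hok.w₁.sum 0 (Nat.mul_pos (by omega) (by omega))
    simp only [pow_zero, mul_one] at h1
    rw [← map_sum, map_eq_zero] at h1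
    exact h1
  have hc₂ : ∑ i, d.c₂ i = 0 := by
    have h1 := hok.w₂.sum 0 (by omega)
    simp only [pow_zero, mul_one] at h1
    rw [← map_sum, map_eq_zero] at h1
    exact h1
  -- the polynomial system
  let f : Idx p s n → MvPolynomial (Idx p s n) A :=
    fun j => d.F (fun i => (MvPolynomial.X i : MvPolynomial (Idx p s n) A)) j
  have hfA : ∀ (u : Idx p s n → A) j, MvPolynomial.eval u (f j) = d.F u j := by
    intro u j
    have h1 := d.map_F (MvPolynomial.aeval u) (fun i => (MvPolynomial.X i :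
      MvPolynomial (Idx p s n) A)) j
    simp only [MvPolynomial.aeval_X] at h1
    rw [← h1]
    rfl
  have hf𝕜 : ∀ (v : Idx p s n → 𝕜) j, MvPolynomial.aeval v (f j) = d.F v j := by
    intro v j
    have h1 := d.map_F (MvPolynomial.aeval v) (fun i => (MvPolynomial.X i :
      MvPolynomial (Idx p s n) A)) j
    simp only [MvPolynomial.aeval_X] at h1
    exact h1
  have hfD : ∀ (v : Idx p s n → DualNumber A) j, MvPolynomial.aeval v (f j) = d.F v j := by
    intro v j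
    have h1 := d.map_F (MvPolynomial.aeval v) (fun i => (MvPolynomial.X i :
      MvPolynomial (Idx p s n) A)) j
    simp only [MvPolynomial.aeval_X] at h1
    exact h1
  have hf0 : ∀ j, MvPolynomial.eval (Dat.v0 p s n A) (f j) = 0 := fun j => by
    rw [hfA, hok.F_v0 hK hp hs hn]
  have hJ0 : (Matrix.of fun i j =>
      MvPolynomial.eval (Dat.v0 p s n A) (MvPolynomial.pderiv j (f i))).det ≠ 0 := by
    refine det_ne_zero_of_dual f _ hf0 fun w' hw' => hok.dual hK hp hs hn w' fun j => ?_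
    rw [← hfD]
    exact hw' j
  have hinj : Function.Injective (algebraMap A 𝕜) := (algebraMap A 𝕜).injective
  have haev : ∀ (u : Idx p s n → A) (g : MvPolynomial (Idx p s n) A),
      MvPolynomial.aeval (fun i => algebraMap A 𝕜 (u i)) g = algebraMap A 𝕜 (MvPolynomial.eval u g) :=
    fun u g => MvPolynomial.aeval_algebraMap_apply 𝕜 u g
  have hdet : ∀ u : Idx p s n → A, (Matrix.of fun i j =>
      MvPolynomial.aeval (fun i => algebraMap A 𝕜 (u i)) (MvPolynomial.pderiv j (f i))).det =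
      algebraMap A 𝕜 (Matrix.of fun i j =>
        MvPolynomial.eval u (MvPolynomial.pderiv j (f i))).det := by
    intro u
    have h1 : (Matrix.of fun i j => MvPolynomial.aeval (fun i => algebraMap A 𝕜 (u i))
        (MvPolynomial.pderiv j (f i))) =
        (algebraMap A 𝕜).mapMatrix
          (Matrix.of fun i j => MvPolynomial.eval u (MvPolynomial.pderiv j (f i))) := by
      ext i j
      rw [Matrix.of_apply, haev]
      rfl
    rw [h1, ← RingHom.map_det]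
  have hJ : (Matrix.of fun i j =>
      MvPolynomial.aeval (w0 p s n A 𝕜) (MvPolynomial.pderiv j (f i))).det ≠ 0 := by
    have h1 := hdet (Dat.v0 p s n A)
    change (Matrix.of fun i j => MvPolynomial.aeval (fun i => algebraMap A 𝕜 (Dat.v0 p s n A i))
        (MvPolynomial.pderiv j (f i))).det ≠ 0
    rw [h1]
    exact fun h => hJ0 (hinj (by rw [h, map_zero]))
  have hopen := eventually_near (𝕜 := 𝕜) d hp hs hn1 hok.w₀.inj hok.w₁.inj hok.w₂.inj
  have hU := (BCX.eventually_jac f (w0 p s n A 𝕜) hJ).and hopen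
  have hinv := BCX.poly_inverse f (w0 p s n A 𝕜) hJ hU
  have hbase : (fun i => MvPolynomial.aeval (w0 p s n A 𝕜) (f i)) = 0 := by
    funext i
    change MvPolynomial.aeval (fun i => algebraMap A 𝕜 (Dat.v0 p s n A i)) (f i) = 0
    rw [haev, hf0, map_zero]
  rw [hbase] at hinv
  have hcont : Filter.Tendsto (fun β : 𝕜 => (Pi.single (iE 3) β : Idx p s n → 𝕜)) (𝓝 0) (𝓝 0) := by
    have h1 : Continuous (fun β : 𝕜 => (Pi.single (iE 3) β : Idx p s n → 𝕜)) :=
      continuous_single (A := fun _ : Idx p s n => 𝕜) (iE 3)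
    have h2 := h1.tendsto 0
    rwa [Pi.single_zero] at h2
  have hev := hcont.eventually hinv
  rw [Metric.eventually_nhds_iff] at hev
  obtain ⟨ε, hε, hev⟩ := hev
  obtain ⟨β, hβ0, hβ⟩ := hsmall ε hε
  obtain ⟨v, hvU, hv⟩ := hev (y := algebraMap A 𝕜 β) (by rw [dist_zero_right]; exact hβ)
  obtain ⟨hvJ, hnear⟩ := hvU
  have hv0 : ∀ i, i ≠ iE 3 → MvPolynomial.aeval v (f i) = 0 := by
    intro i hi
    rw [hv i, Pi.single_eq_of_ne hi]
  have hsep := BCX.jac_separable f v (by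
    intro i
    by_cases hi : i = iE 3
    · subst hi
      exact ⟨β, by rw [hv, Pi.single_eq_same]⟩
    · exact ⟨0, by rw [hv0 i hi, map_zero]⟩) hvJ
  choose u hu using fun i => hA (v i) (hsep i)
  have hvu : v = fun i => algebraMap A 𝕜 (u i) := funext fun i => (hu i).symm
  have hmapF : ∀ j, algebraMap A 𝕜 (d.F u j) = d.F v j := by
    intro j
    have h1 := d.map_F (Algebra.ofId A 𝕜) u j
    rw [hvu]
    exact h1
  have huF : ∀ j, j ≠ iE 3 → d.F u j = 0 := by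
    intro j hj
    refine hinj ?_
    rw [hmapF, ← hf𝕜, hv0 j hj, map_zero]
  have hvF : ∀ j, j ≠ iE 3 → d.F v j = 0 := by
    intro j hj
    rw [← hf𝕜, hv0 j hj]
  have hvT : v (iE 3) = algebraMap A 𝕜 β := by
    have h1 := hv (iE 3)
    rw [hf𝕜, Pi.single_eq_same] at h1
    exact h1
  have huT : u (iE 3) = β := hinj (by rw [hu, hvT])
  have hT𝕜 : v (iE 3) ≠ 0 := by
    rw [hvT]
    exact (_root_.map_ne_zero _).2 hβ0
  have h2𝕜 : ‖(2 : 𝕜)‖ = 1 := norm_two (p := p) (K := K) hp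
  have hg1 := norm_g d hnear
  have hg2 := norm_one_sub_g d h2𝕜 hnear
  have hz𝕜 := zero_of_tests hp hs hn hK d.c (d.z v) (norm_z d hnear) hg1 hg2
    (fun r _ _ l _ => norm_S d hnear hc₀ hc₁ hc₂ r l) (d.tests v hp hs hc₂ hvF)
  have hmapz : ∀ i, algebraMap A 𝕜 (d.z u i) = d.z v i := by
    intro i
    rw [hvu]
    rcases i with i | i | i
    · exact d.map_z₀ (Algebra.ofId A 𝕜) u i
    · exact d.map_z₁ (Algebra.ofId A 𝕜) u i
    · exact d.map_z₂ (Algebra.ofId A 𝕜) u i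
  have hz : ∀ r, 1 ≤ r → r ≤ s → ∀ l < (n + p) * p ^ (r - 1),
      S p r d.c (d.z u) (X ^ l) = 0 := by
    intro r h1 h2 l hl
    refine hinj ?_
    rw [map_zero, ← hz𝕜 r h1 h2 l hl]
    unfold S
    rw [map_sum]
    refine Finset.sum_congr rfl fun i _ => ?_
    rw [map_mul, map_pow, eval_pow, eval_X, eval_pow, eval_X, map_pow, hmapz,
      ← IsScalarTower.algebraMap_apply]
  have hu2 : u (iE 2) ≠ 0 := by
    intro h0
    have h1 := hu (iE 2)
    rw [h0, map_zero] at h1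
    rw [← h1, norm_zero] at hg1
    exact zero_ne_one hg1
  have hu2' : u (iE 2) ≠ 1 := by
    intro h0
    have h1 := hu (iE 2)
    rw [h0, map_one] at h1
    rw [← h1, sub_self, norm_zero] at hg2
    exact zero_ne_one hg2
  have hJu : (Matrix.of fun i j =>
      MvPolynomial.eval u (MvPolynomial.pderiv j (f i))).det ≠ 0 := by
    intro h0
    apply hvJ
    rw [hvu, hdet, h0, map_zero]
  have hsmooth := d.smooth hK hp hs hn hc₂ u huF (by rw [huT]; exact hβ0) hu2 hu2' hJu hz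
  have hzinj : Function.Injective (d.z u) := by
    intro i j hij
    refine z_inj d h2𝕜 hnear hT𝕜 hν ?_
    rw [← hmapz, ← hmapz, hij]
  have hFr : ∀ (k : K), algebraMap K A k ^ p ^ s = algebraMap K A k := by
    intro k
    have : Fintype K := Fintype.ofFinite K
    rw [← map_pow, ← hK, Nat.card_eq_fintype_card, FiniteField.pow_card]
  refine ⟨ι₀ ⊕ ι₁ ⊕ ι₂, inferInstance, d.c, d.z u, u (iE 3) ^ n * ν * u (iE 4), ?_, ?_, ?_, ?_⟩
  · rw [Fintype.card_sum, Fintype.card_sum, hcard₀, hcard₁, hcard₂]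
    obtain ⟨q, hq⟩ : ∃ q, p = q + 1 := ⟨p - 1, by omega⟩
    obtain ⟨M, hM⟩ : ∃ M, p ^ (s - 1) = M + 1 := ⟨p ^ (s - 1) - 1, by omega⟩
    rw [hM, hq, Nat.add_sub_cancel, Nat.add_sub_cancel]
    ring
  · refine ⟨hzinj, ?_, ?_, hsmooth⟩
    · rintro (i | i | i)
      · exact hok.w₀.ne i
      · exact hok.w₁.ne i
      · exact hok.w₂.ne i
    · intro l hl
      have h1 := hz s (by omega) le_rfl l hl
      rw [← h1]
      unfold S
      refine Finset.sum_congr rfl fun i _ => ?_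
      rw [hFr, eval_pow, eval_X]
  · refine mul_ne_zero (mul_ne_zero (pow_ne_zero _ (by rw [huT]; exact hβ0)) hν) ?_
    intro h0
    apply hnear.u
    rw [← hu, h0, map_zero]
  · have h1 := d.pow_mul_four u
    rw [huF _ (by simp), zero_add] at h1
    have hmon : (tst (u (iE 2)) n (p - 1) 1).Monic := by
      unfold tst
      exact ((monic_X_pow n).mul ((monic_X_sub_C (1 : A)).pow (p - 1))).mul
        ((monic_X_sub_C _).pow 1)
    have hdeg : (tst (u (iE 2)) n (p - 1) 1).natDegree = n + p := by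
      unfold tst
      have e1 : (X - 1 : A[X]) = X - C 1 := by rw [C_1]
      rw [e1, Monic.natDegree_mul ((monic_X_pow n).mul ((monic_X_sub_C (1 : A)).pow (p - 1)))
        ((monic_X_sub_C _).pow 1), Monic.natDegree_mul (monic_X_pow n)
        ((monic_X_sub_C (1 : A)).pow (p - 1)), natDegree_X_pow,
        (monic_X_sub_C (1 : A)).natDegree_pow, (monic_X_sub_C _).natDegree_pow,
        natDegree_X_sub_C, natDegree_X_sub_C]
      omega
    have h2 := S_monic (p := p) (r := 1) d.c (d.z u) hdeg (by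
      rw [← hdeg]
      exact hmon) (fun k hk => hz 1 le_rfl (by omega) k (by simpa using hk))
    rw [← h1] at h2
    have h3 : S p 1 d.c (d.z u) (X ^ (n + p)) =
        ∑ i, algebraMap K A (d.c i) ^ p * d.z u i ^ (n + p) := by
      unfold S
      simp only [pow_one, eval_pow, eval_X]
    rw [← h3, ← h2]
    change _ * (ν ^ _ * _) = _
    rw [mul_pow, mul_pow, ← pow_mul]
    ring

end Pool.Agent.BCX4
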