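import Pool.Agent.BCX4.Defs
import Pool.Agent.BCX4.Nd1

/-!
# The word on `0` and the elements with trace in a set of elements of the prime field
-/

namespace Pool.Agent.BCX4.WordA

open Polynomial

section basics

variable {K : Type} [Field K]

/-- the trace polynomial -/
noncomputable def trP (p s : ℕ) (K : Type) [Field K] : K[X] := ∑ i ∈ Finset.range s, X ^ p ^ i

lemma eval_trP {p s : ℕ} (x : K) : (trP p s K).eval x = tr p s x := by
  unfold trP tr
  rw [eval_finsetSum]
  simp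

lemma trP_pow {p s : ℕ} [Fact p.Prime] [CharP K p] :
    trP p s K ^ p = trP p s K + X ^ p ^ s - X := by
  have h : trP p s K ^ p = ∑ i ∈ Finset.range s, (X : K[X]) ^ p ^ (i + 1) := by
    unfold trP
    rw [sum_pow_char]
    refine Finset.sum_congr rfl fun i _ => ?_
    rw [← pow_mul, ← pow_succ]
  have h1 : trP p s K + X ^ p ^ s = ∑ i ∈ Finset.range (s + 1), (X : K[X]) ^ p ^ i := by
    rw [Finset.sum_range_succ]
    rfl
  rw [h, h1, Finset.sum_range_succ' (fun i => (X : K[X]) ^ p ^ i), pow_zero, pow_one]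
  ring

lemma derivative_trP {p s : ℕ} [Fact p.Prime] [CharP K p] (hs : 1 ≤ s) :
    derivative (trP p s K) = 1 := by
  obtain ⟨k, rfl⟩ : ∃ k, s = k + 1 := ⟨s - 1, by omega⟩
  unfold trP
  rw [Finset.sum_range_succ', derivative_add, derivative_sum]
  rw [Finset.sum_eq_zero]
  · simp
  · intro i _
    rw [derivative_X_pow, pow_succ, Nat.cast_mul, CharP.cast_eq_zero K p, mul_zero, map_zero,
      zero_mul]

lemma degree_sum_lt {p : ℕ} [hp : Fact p.Prime] (k : ℕ) :
    (∑ i ∈ Finset.range k, (X : K[X]) ^ p ^ i).degree < (p ^ k : ℕ) := by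
  refine lt_of_le_of_lt (degree_sum_le _ _) ?_
  rw [Finset.sup_lt_iff (by exact_mod_cast WithBot.bot_lt_coe _)]
  intro i hi
  rw [degree_X_pow]
  exact_mod_cast Nat.pow_lt_pow_right hp.out.one_lt (Finset.mem_range.1 hi)

lemma degree_trP_sub {p s : ℕ} [hp : Fact p.Prime] (hs : 1 ≤ s) (γ : K) :
    (trP p s K - C γ).Monic ∧ (trP p s K - C γ).natDegree = p ^ (s - 1) := by
  obtain ⟨k, rfl⟩ : ∃ k, s = k + 1 := ⟨s - 1, by omega⟩
  have h : trP p (k + 1) K - C γ = X ^ p ^ k +
      (∑ i ∈ Finset.range k, (X : K[X]) ^ p ^ i - C γ) := by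
    unfold trP
    rw [Finset.sum_range_succ]
    ring
  have hd : (∑ i ∈ Finset.range k, (X : K[X]) ^ p ^ i - C γ).degree < (p ^ k : ℕ) := by
    refine lt_of_le_of_lt (degree_sub_le _ _) (max_lt (degree_sum_lt k) ?_)
    refine lt_of_le_of_lt degree_C_le ?_
    exact_mod_cast pow_pos hp.out.pos k
  rw [h, Nat.add_sub_cancel]
  refine ⟨monic_X_pow_add hd, ?_⟩
  rw [natDegree_add_eq_left_of_degree_lt, natDegree_X_pow]
  rwa [degree_X_pow]

/-- `Tr X - γ` divides `X ^ q - X` for `γ` in the prime field -/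
lemma trP_sub_dvd {p s : ℕ} [hp : Fact p.Prime] [CharP K p] {γ : K} (hγ : γ ^ p = γ) :
    trP p s K - C γ ∣ X ^ p ^ s - X := by
  have h : (X : K[X]) ^ p ^ s - X = (trP p s K - C γ) ^ p - (trP p s K - C γ) := by
    rw [sub_pow_char, trP_pow, ← C_pow, hγ]
    ring
  rw [h]
  exact dvd_sub (dvd_pow_self _ hp.out.ne_zero) (dvd_refl _)

/-- a monic divisor of `X ^ q - X` is the product of the `X - x` over its zeros -/
lemma eq_prod_of_dvd [Finite K] {q : ℕ} (hK : Nat.card K = q) {P : K[X]} (hm : P.Monic)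
    (hd : P ∣ X ^ q - X) {Z : K → Prop} (hZ : ∀ x, Z x ↔ P.eval x = 0) [Fintype {x // Z x}] :
    P = ∏ x : {x // Z x}, (X - C (x : K)) ∧ Fintype.card {x // Z x} = P.natDegree := by
  classical
  have : Fintype K := Fintype.ofFinite K
  have hq : 1 < q := hK ▸ Finite.one_lt_card
  have h0 : (X ^ q - X : K[X]) ≠ 0 := FiniteField.X_pow_card_sub_X_ne_zero K hq
  have hs : (X ^ q - X : K[X]).Splits := hK ▸ Polynomial.splits_X_pow_nat_card_sub_X
  have hPs : P.Splits := hs.of_dvd h0 hd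
  have hle : P.roots ≤ (X ^ q - X : K[X]).roots := Polynomial.roots.le_of_dvd h0 hd
  have hn : P.roots.Nodup := by
    refine Multiset.nodup_of_le hle ?_
    rw [← hK, Nat.card_eq_fintype_card, FiniteField.roots_X_pow_card_sub_X]
    exact Finset.univ.nodup
  have hr : P.roots = (Finset.univ.filter Z).val :=
    (Multiset.Nodup.ext hn (Finset.nodup _)).2 fun a => by
      simp [mem_roots hm.ne_zero, hZ]
  constructor
  · conv_lhs => rw [hPs.eq_prod_roots_of_monic hm, hr]
    exact Finset.prod_subtype (Finset.univ.filter Z) (fun x => by simp) fun x => (X - C x : K[X])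
  · rw [Fintype.card_of_subtype (Finset.univ.filter Z) (fun x => by simp), Finset.card_def, ← hr]
    exact splits_iff_card_roots.1 hPs

/-- Lagrange: the sums with weights `1 / P'(x)` -/
lemma lagrange {ι : Type} [Fintype ι] {x : ι → K} (hx : Function.Injective x) {P : K[X]}
    (hP : P = ∏ i, (X - C (x i))) {f : K[X]} (hf : f.degree < (Fintype.card ι : ℕ)) :
    ∑ i, ((derivative P).eval (x i))⁻¹ * f.eval (x i) = f.coeff (Fintype.card ι - 1) := by
  classical
  have h := Lagrange.coeff_eq_sum (s := Finset.univ) (v := x) hx.injOn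
    (P := f) (by rwa [Finset.card_univ])
  rw [Finset.card_univ] at h
  rw [h]
  refine Finset.sum_congr rfl fun i _ => ?_
  have h1 := Lagrange.eval_nodal_derivative_eval_node_eq (s := Finset.univ) (v := x)
    (Finset.mem_univ i)
  rw [Lagrange.nodal, ← hP, Lagrange.eval_nodal] at h1
  rw [h1, div_eq_inv_mul]

/-- Lagrange for powers -/
lemma lagrange_pow {ι : Type} [Fintype ι] {x : ι → K} (hx : Function.Injective x) {P : K[X]}
    (hP : P = ∏ i, (X - C (x i))) {l : ℕ} (hl : l < Fintype.card ι) :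
    ∑ i, ((derivative P).eval (x i))⁻¹ * x i ^ l = if l + 1 = Fintype.card ι then 1 else 0 := by
  have h := lagrange hx hP (f := X ^ l) (by rw [degree_X_pow]; exact_mod_cast hl)
  simp only [eval_pow, eval_X] at h
  rw [h, coeff_X_pow]
  congr 1
  simp only [eq_iff_iff]
  omega

end basics

section main

variable {K : Type} [Field K] {p s : ℕ} [hp : Fact p.Prime] [CharP K p]

/-- the polynomial `X * ∏ (Tr X - γ)` -/
noncomputable def PA (p s : ℕ) (Γ : Finset K) : K[X] := X * ∏ γ ∈ Γ, (trP p s K - C γ)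

/-- the polynomial `∏ (X - γ)` -/
noncomputable def QA (Γ : Finset K) : K[X] := ∏ γ ∈ Γ, (X - C γ)

omit hp [CharP K p] in
lemma PA_eq (Γ : Finset K) : PA p s Γ = X * (QA Γ).comp (trP p s K) := by
  unfold PA QA
  rw [Polynomial.prod_comp]
  simp

omit [CharP K p] in
lemma monic_PA (hs : 1 ≤ s) (Γ : Finset K) :
    (PA p s Γ).Monic ∧ (PA p s Γ).natDegree = Γ.card * p ^ (s - 1) + 1 := by
  have h1 : (∏ γ ∈ Γ, (trP p s K - C γ)).Monic :=
    monic_prod_of_monic _ _ fun γ _ => (degree_trP_sub hs γ).1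
  refine ⟨monic_X.mul h1, ?_⟩
  unfold PA
  rw [monic_X.natDegree_mul h1, natDegree_X, natDegree_prod_of_monic _ _
    fun γ _ => (degree_trP_sub hs γ).1, Finset.sum_congr rfl fun γ _ => (degree_trP_sub hs γ).2,
    Finset.sum_const, smul_eq_mul, add_comm]

lemma PA_dvd {Γ : Finset K} (hΓ : ∀ γ ∈ Γ, γ ^ p = γ) (h0 : (0 : K) ∉ Γ) :
    PA p s Γ ∣ X ^ p ^ s - X := by
  classical
  have h1 : ∏ γ ∈ insert 0 Γ, (trP p s K - C γ) ∣ X ^ p ^ s - X := by
    refine Finset.prod_dvd_of_coprime ?_ ?_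
    · intro γ _ γ' _ hne
      refine ⟨C (γ' - γ)⁻¹, - C (γ' - γ)⁻¹, ?_⟩
      have h2 : (γ' - γ)⁻¹ * (γ' - γ) = 1 := inv_mul_cancel₀ (sub_ne_zero.2 hne.symm)
      calc C (γ' - γ)⁻¹ * (trP p s K - C γ) + - C (γ' - γ)⁻¹ * (trP p s K - C γ')
          = C ((γ' - γ)⁻¹ * (γ' - γ)) := by
            rw [C_mul, C_sub]
            ring
        _ = 1 := by rw [h2, C_1]
    · intro γ hγ
      refine trP_sub_dvd ?_
      rcases Finset.mem_insert.1 hγ with rfl | h
      · exact zero_pow hp.out.ne_zero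
      · exact hΓ γ h
  refine dvd_trans ?_ h1
  rw [Finset.prod_insert h0, C_0, sub_zero]
  refine mul_dvd_mul_right ?_ _
  unfold trP
  refine Finset.dvd_sum fun i _ => dvd_pow_self _ (pow_pos hp.out.pos i).ne'

omit hp [CharP K p] in
lemma eval_PA (Γ : Finset K) (x : K) : (PA p s Γ).eval x = x * (QA Γ).eval (tr p s x) := by
  rw [PA_eq, eval_mul, eval_X, eval_comp, eval_trP]

omit hp [CharP K p] in
lemma eval_QA (Γ : Finset K) (y : K) : (QA Γ).eval y = 0 ↔ y ∈ Γ := by
  unfold QA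
  rw [eval_prod, Finset.prod_eq_zero_iff]
  constructor
  · rintro ⟨γ, hγ, h⟩
    rw [eval_sub, eval_X, eval_C, sub_eq_zero] at h
    exact h ▸ hγ
  · intro h
    exact ⟨y, h, by simp⟩

lemma eval_derivative_PA (hs : 1 ≤ s) (Γ : Finset K) (x : K) :
    (derivative (PA p s Γ)).eval x =
      (QA Γ).eval (tr p s x) + x * (derivative (QA Γ)).eval (tr p s x) := by
  rw [PA_eq, derivative_mul, derivative_X, one_mul, derivative_comp, derivative_trP hs, one_mul,
    eval_add, eval_mul, eval_X, eval_comp, eval_comp, eval_trP]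

/-- the derivative of `∏ (X - γ)` at a zero -/
lemma eval_derivative_QA {Γ : Finset K} (hΓ : ∀ γ ∈ Γ, γ ^ p = γ) {γ : K} (hγ : γ ∈ Γ) :
    (derivative (QA Γ)).eval γ ≠ 0 ∧
      (derivative (QA Γ)).eval γ ^ p = (derivative (QA Γ)).eval γ := by
  classical
  have h := Lagrange.eval_nodal_derivative_eval_node_eq (s := Γ) (v := fun y : K => y) hγ
  have h1 : (derivative (QA Γ)).eval γ = ∏ γ' ∈ Γ.erase γ, (γ - γ') := by
    have h2 : QA Γ = Lagrange.nodal Γ (fun y : K => y) := rfl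
    rw [h2, h, Lagrange.eval_nodal]
  rw [h1]
  constructor
  · refine Finset.prod_ne_zero_iff.2 fun γ' h' => ?_
    exact sub_ne_zero.2 (Finset.ne_of_mem_erase h').symm
  · rw [← Finset.prod_pow]
    refine Finset.prod_congr rfl fun γ' h' => ?_
    rw [sub_pow_char, hΓ γ hγ, hΓ γ' (Finset.mem_of_mem_erase h')]

/-- the power is injective -/
lemma eq_one_of_pow {y : K} {k : ℕ} (h : y ^ p ^ k = 1) : y = 1 := by
  have h1 : (y - 1) ^ p ^ k = 0 := by
    rw [sub_pow_char_pow, h, one_pow, sub_self]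
  exact sub_eq_zero.1 (pow_eq_zero_iff (pow_pos hp.out.pos k).ne' |>.1 h1)

omit hp [CharP K p] in
/-- `y ^ p ^ r = y` for `y` in the prime field -/
lemma pow_eq_self {y : K} (h : y ^ p = y) (r : ℕ) : y ^ p ^ r = y := by
  induction r with
  | zero => simp
  | succ r ih => rw [pow_succ, pow_mul, ih, h]

variable [Finite K]

/-- the word of a set of nonzero elements of the prime field, given the independence -/
theorem exists_word_of (hs : 1 ≤ s) (hK : Nat.card K = p ^ s) {Γ : Finset K}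
    (hΓ : ∀ γ ∈ Γ, γ ^ p = γ) (h0 : (0 : K) ∉ Γ)
    (hnd : LinearIndependent K fun (t : Lev p s (Γ.card * p ^ (s - 1)))
      (x : {x : K // tr p s x ∈ Γ}) => (x : K) ^ (p ^ s - p ^ t.1.1 + (t.1.2 - 1))) :
    ∃ (ι : Type) (_ : Fintype ι) (c x : ι → K), Fintype.card ι = Γ.card * p ^ (s - 1) + 1 ∧
      Word p s (Γ.card * p ^ (s - 1)) c x ∧ ∑ i, c i ^ p * x i ^ Γ.card = 1 := by
  classical
  have : Fintype K := Fintype.ofFinite K
  have hpow : ∀ x : K, x ^ p ^ s = x := fun x => by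
    rw [← hK, Nat.card_eq_fintype_card, FiniteField.pow_card]
  have hps : p * p ^ (s - 1) = p ^ s := by
    rw [← pow_succ', Nat.sub_add_cancel hs]
  let Z : K → Prop := fun x => x = 0 ∨ tr p s x ∈ Γ
  have hZ : ∀ x, Z x ↔ (PA p s Γ).eval x = 0 := fun x => by
    rw [eval_PA, mul_eq_zero, eval_QA]
  obtain ⟨hP, hcard⟩ := eq_prod_of_dvd hK (monic_PA hs Γ).1 (PA_dvd (s := s) hΓ h0) hZ
  rw [(monic_PA hs Γ).2] at hcard
  let x : {x // Z x} → K := fun i => i.1
  have hx : Function.Injective x := Subtype.val_injective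
  let c : {x // Z x} → K := fun i => ((derivative (PA p s Γ)).eval (x i))⁻¹
  have htr0 : tr p s (0 : K) = 0 := by
    unfold tr
    exact Finset.sum_eq_zero fun i _ => zero_pow (pow_pos hp.out.pos i).ne'
  have hmem0 : ∀ i : {x // Z x}, tr p s (x i) ∈ Γ → x i ≠ 0 := by
    intro i hi h
    rw [h, htr0] at hi
    exact h0 hi
  have hder : ∀ y : K, tr p s y ∈ Γ →
      (derivative (PA p s Γ)).eval y = y * (derivative (QA Γ)).eval (tr p s y) := by
    intro y hy
    rw [eval_derivative_PA hs, (eval_QA Γ _).2 hy, zero_add]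
  have hc : ∀ i, (derivative (PA p s Γ)).eval (x i) ≠ 0 := by
    intro i
    by_cases h : tr p s (x i) ∈ Γ
    · rw [hder _ h]
      exact mul_ne_zero (hmem0 i h) (eval_derivative_QA hΓ h).1
    · have h1 : x i = 0 := i.2.resolve_right h
      rw [eval_derivative_PA hs, h1, htr0, zero_mul, add_zero]
      exact fun h2 => h0 ((eval_QA Γ 0).1 h2)
  refine ⟨{x // Z x}, inferInstance, c, x, hcard, ⟨hx, fun i => inv_ne_zero (hc i), ?_, ?_⟩, ?_⟩
  · intro l hl
    have h := lagrange_pow hx hP (l := l) (by omega)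
    rw [if_neg (by omega)] at h
    exact h
  · -- independence
    let L : ({x // Z x} → K) →ₗ[K] ({x : K // tr p s x ∈ Γ} → K) :=
      LinearMap.pi fun y => ((derivative (PA p s Γ)).eval y.1) •
        LinearMap.proj (R := K) (φ := fun _ : {x // Z x} => K) ⟨y.1, Or.inr y.2⟩
    refine LinearIndependent.of_comp L ?_
    have hL : (L ∘ rows p s (Γ.card * p ^ (s - 1)) c x) =
        fun (t : Lev p s (Γ.card * p ^ (s - 1)))
      (x : {x : K // tr p s x ∈ Γ}) => (x : K) ^ (p ^ s - p ^ t.1.1 + (t.1.2 - 1)) := by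
      funext t y
      have ht := (mem_Lev hp.out.pos).1 t.2
      have hy0 : (y : K) ≠ 0 := fun h => by
        have h1 := y.2
        rw [h, htr0] at h1
        exact h0 h1
      have hy1 : (y : K) ^ (p ^ s - p ^ t.1.1) * (y : K) ^ p ^ t.1.1 = y := by
        rw [← pow_add, Nat.sub_add_cancel (Nat.pow_le_pow_right hp.out.pos ht.1.2), hpow]
      obtain ⟨hQ0, hQ⟩ := eval_derivative_QA hΓ y.2
      have hQ1 := pow_eq_self hQ t.1.1
      show (derivative (PA p s Γ)).eval y.1 *
        (algebraMap K K (((derivative (PA p s Γ)).eval y.1)⁻¹) ^ p ^ t.1.1 *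
          y.1 ^ (t.1.2 - 1)) = _
      rw [hder _ y.2, Algebra.algebraMap_self, RingHom.id_apply, inv_pow, mul_pow, hQ1, pow_add]
      set u := (y : K) ^ (p ^ s - p ^ t.1.1)
      set w := (y : K) ^ p ^ t.1.1 with hw
      have hw0 : w ≠ 0 := pow_ne_zero _ hy0
      have hy2 : (y : K) = u * w := hy1.symm
      set Q := (derivative (QA Γ)).eval (tr p s (y : K))
      have h3 : (y : K) * Q * ((w * Q)⁻¹ * (y : K) ^ (t.1.2 - 1)) =
          ((y : K) * w⁻¹) * (Q * Q⁻¹) * (y : K) ^ (t.1.2 - 1) := by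
        rw [mul_inv]
        ring
      have h4 : (y : K) * w⁻¹ = u := by
        rw [← hy1, mul_assoc, mul_inv_cancel₀ hw0, mul_one]
      rw [h3, mul_inv_cancel₀ hQ0, mul_one, h4]
    rw [hL]
    exact hnd
  · refine eq_one_of_pow (p := p) (k := s - 1) ?_
    rw [sum_pow_char_pow]
    have h := lagrange_pow hx hP (l := Γ.card * p ^ (s - 1)) (by omega)
    rw [if_pos (by omega)] at h
    rw [← h]
    refine Finset.sum_congr rfl fun i _ => ?_
    rw [mul_pow, ← pow_mul, ← pow_mul, hps, hpow]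

end main

end Pool.Agent.BCX4.WordA

namespace Pool.Agent.BCX4

open WordA in
/-- the word on `0` and the elements with trace in `Γ` -/
theorem exists_wordA_of {K : Type} [Field K] [Finite K] {p s : ℕ} [Fact p.Prime] [CharP K p]
    (hs : 1 ≤ s) (hK : Nat.card K = p ^ s) {e : ℕ} (hep : e < p)
    (nd1 : ∀ Γ : Finset K, (∀ γ ∈ Γ, γ ^ p = γ) → Γ.card < p →
      LinearIndependent K fun (t : Lev p s (Γ.card * p ^ (s - 1)))
        (x : {x : K // tr p s x ∈ Γ}) => (x : K) ^ (p ^ s - p ^ t.1.1 + (t.1.2 - 1))) :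
    ∃ (ι : Type) (_ : Fintype ι) (c x : ι → K), Fintype.card ι = e * p ^ (s - 1) + 1 ∧
      Word p s (e * p ^ (s - 1)) c x ∧ ∑ i, c i ^ p * x i ^ e = 1 := by
  classical
  have hinj : Set.InjOn (fun n : ℕ => (n : K)) (Finset.Icc 1 e : Finset ℕ) := by
    intro a ha b hb h
    have ha' := Finset.mem_Icc.1 ha
    have hb' := Finset.mem_Icc.1 hb
    have h1 : a ≡ b [MOD p] := (CharP.natCast_eq_natCast K p).1 h
    exact Nat.ModEq.eq_of_lt_of_lt h1 (by omega) (by omega)
  let Γ : Finset K := (Finset.Icc 1 e).image fun n : ℕ => (n : K)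
  have hcard : Γ.card = e := by
    rw [Finset.card_image_of_injOn hinj, Nat.card_Icc, Nat.add_sub_cancel]
  have hΓ : ∀ γ ∈ Γ, γ ^ p = γ := by
    intro γ hγ
    obtain ⟨n, -, rfl⟩ := Finset.mem_image.1 hγ
    exact map_natCast (frobenius K p) n
  have h0 : (0 : K) ∉ Γ := by
    intro h
    obtain ⟨n, hn, h⟩ := Finset.mem_image.1 h
    have h1 := (CharP.cast_eq_zero_iff K p n).1 h
    have h2 := Finset.mem_Icc.1 hn
    exact absurd (Nat.le_of_dvd (by omega) h1) (by omega)
  have h := exists_word_of hs hK hΓ h0 (nd1 Γ hΓ (by omega))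
  rwa [hcard] at h

/-- the word on `0` and the elements with trace in `Γ` -/
theorem exists_wordA {K : Type} [Field K] [Finite K] {p s : ℕ} [Fact p.Prime] [CharP K p]
    (hs : 1 ≤ s) (hK : Nat.card K = p ^ s) {e : ℕ} (he : 1 ≤ e) (hep : e < p) :
    ∃ (ι : Type) (_ : Fintype ι) (c x : ι → K), Fintype.card ι = e * p ^ (s - 1) + 1 ∧
      Word p s (e * p ^ (s - 1)) c x ∧ ∑ i, c i ^ p * x i ^ e = 1 :=
  have _ := he
  exists_wordA_of hs hK hep fun _ hΓ hc => nd1 hs hK hΓ hc

end Pool.Agent.BCX4
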