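import Pool.Agent.BCX4.WordA
import Pool.Agent.BCX4.NdB

/-!
# The word on the inverses of the nonzero elements of trace zero
-/

namespace Pool.Agent.BCX4

open Polynomial

open WordA in
/-- the word on the inverses of the elements of trace zero -/
theorem exists_wordB_of {K : Type} [Field K] [Finite K] {p s : ℕ} [hp : Fact p.Prime] [CharP K p]
    (hp3 : 3 ≤ p) (hs : 2 ≤ s) (hK : Nat.card K = p ^ s)
    (hnd : LinearIndependent K fun (t : Lev p s (p ^ (s - 1) - 2))
      (x : {x : K // tr p s x = 0 ∧ x ≠ 0}) =>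
      (x : K) ^ ((p ^ (s - 1) - 2) * p ^ t.1.1 - (t.1.2 - 1))) :
    ∃ (ι : Type) (_ : Fintype ι) (c x : ι → K), Fintype.card ι = p ^ (s - 1) - 1 ∧
      Word p s (p ^ (s - 1) - 2) c x ∧ ∑ i, c i * x i ^ (p ^ (s - 1) - 2) = 1 := by
  classical
  have : Fintype K := Fintype.ofFinite K
  have hs1 : 1 ≤ s := by omega
  have hN3 : 3 ≤ p ^ (s - 1) :=
    le_trans hp3 (Nat.le_self_pow (by omega) p)
  set N := p ^ (s - 1) with hN
  have hNK : ((N : ℕ) : K) = 0 := by
    rw [hN, Nat.cast_pow, CharP.cast_eq_zero, zero_pow (by omega)]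
  have htr0 : tr p s (0 : K) = 0 := by
    unfold tr
    exact Finset.sum_eq_zero fun i _ => zero_pow (pow_pos hp.out.pos i).ne'
  -- the polynomial of the elements of trace zero
  obtain ⟨hm, hdeg⟩ := degree_trP_sub (p := p) hs1 (0 : K)
  have hdvd : trP p s K - C 0 ∣ X ^ p ^ s - X := trP_sub_dvd (zero_pow hp.out.ne_zero)
  obtain ⟨hP, hcard⟩ := eq_prod_of_dvd hK hm hdvd (Z := fun x => tr p s x = 0) (fun x => by
    rw [C_0, sub_zero, eval_trP])
  rw [hdeg] at hcard
  let H : Finset K := Finset.univ.filter fun x => tr p s x = 0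
  have hH : H.card = N := by
    rw [hN, ← hcard, Fintype.card_of_subtype H fun x => by simp [H]]
  have h0H : (0 : K) ∈ H := by simp [H, htr0]
  have hcard1 : Fintype.card {x : K // tr p s x = 0 ∧ x ≠ 0} = N - 1 := by
    rw [Fintype.card_of_subtype (H.erase 0) fun x => by simp [H, and_comm],
      Finset.card_erase_of_mem h0H, hH]
  have hsum : ∀ l, 1 ≤ l → l + 1 < N → ∑ x : {x : K // tr p s x = 0 ∧ x ≠ 0}, (x : K) ^ l = 0 := by
    intro l h1 h2
    have h := lagrange_pow (Subtype.val_injective (p := fun x : K => tr p s x = 0)) hP (l := l)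
      (by omega)
    rw [if_neg (by omega)] at h
    rw [C_0, sub_zero, derivative_trP hs1] at h
    simp only [eval_one, inv_one, one_mul] at h
    rw [← Finset.sum_subtype H (fun x => by simp [H]) fun x : K => x ^ l] at h
    rw [← Finset.sum_subtype (H.erase 0) (fun x => by simp [H, and_comm]) fun x : K => x ^ l]
    rw [← Finset.add_sum_erase H _ h0H, zero_pow (by omega), zero_add] at h
    exact h
  let x : {x : K // tr p s x = 0 ∧ x ≠ 0} → K := fun i => (i : K)⁻¹
  let c : {x : K // tr p s x = 0 ∧ x ≠ 0} → K := fun i => - (i : K) ^ (N - 2)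
  have hinv : ∀ (i : {x : K // tr p s x = 0 ∧ x ≠ 0}) (a b : ℕ), b ≤ a →
      (i : K) ^ a * ((i : K)⁻¹) ^ b = (i : K) ^ (a - b) := by
    intro i a b hab
    rw [inv_pow, pow_sub₀ _ i.2.2 hab]
  refine ⟨{x : K // tr p s x = 0 ∧ x ≠ 0}, inferInstance, c, x, hcard1,
    ⟨fun i j h => Subtype.ext (inv_injective h),
      fun i => neg_ne_zero.2 (pow_ne_zero _ i.2.2), ?_, ?_⟩, ?_⟩
  · intro l hl
    have h := hsum (N - 2 - l) (by omega) (by omega)
    have h1 : ∀ i : {x : K // tr p s x = 0 ∧ x ≠ 0},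
        algebraMap K K (c i) * x i ^ l = - (i : K) ^ (N - 2 - l) := by
      intro i
      show algebraMap K K (- (i : K) ^ (N - 2)) * ((i : K)⁻¹) ^ l = _
      rw [Algebra.algebraMap_self, RingHom.id_apply, neg_mul, hinv i _ _ hl.le]
    rw [Finset.sum_congr rfl fun i _ => h1 i, Finset.sum_neg_distrib, h, neg_zero]
  · refine LinearIndependent.of_comp (-LinearMap.id) ?_
    have hL : ((-LinearMap.id : ({x : K // tr p s x = 0 ∧ x ≠ 0} → K) →ₗ[K]
        ({x : K // tr p s x = 0 ∧ x ≠ 0} → K)) ∘ rows p s (N - 2) c x) =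
        fun (t : Lev p s (N - 2)) (x : {x : K // tr p s x = 0 ∧ x ≠ 0}) =>
          (x : K) ^ ((N - 2) * p ^ t.1.1 - (t.1.2 - 1)) := by
      funext t y
      have ht := (mem_Lev hp.out.pos).1 t.2
      have h1 : t.1.2 - 1 ≤ (N - 2) * p ^ t.1.1 := by
        have h2 : t.1.2 * 1 ≤ t.1.2 * p ^ (s - t.1.1) :=
          Nat.mul_le_mul_left _ (Nat.one_le_pow _ _ hp.out.pos)
        have h3 : (N - 2) * 1 ≤ (N - 2) * p ^ t.1.1 :=
          Nat.mul_le_mul_left _ (Nat.one_le_pow _ _ hp.out.pos)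
        omega
      have hodd : Odd (p ^ t.1.1) := (hp.out.odd_of_ne_two (by omega)).pow
      show - (algebraMap K K (- (y : K) ^ (N - 2)) ^ p ^ t.1.1 * ((y : K)⁻¹) ^ (t.1.2 - 1)) = _
      rw [Algebra.algebraMap_self, RingHom.id_apply, hodd.neg_pow, neg_mul, neg_neg, ← pow_mul,
        hinv y _ _ h1]
    rw [hL]
    exact hnd
  · have h1 : ∀ i : {x : K // tr p s x = 0 ∧ x ≠ 0}, c i * x i ^ (N - 2) = -1 := by
      intro i
      show (- (i : K) ^ (N - 2)) * ((i : K)⁻¹) ^ (N - 2) = -1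
      rw [neg_mul, hinv i _ _ le_rfl, Nat.sub_self, pow_zero]
    rw [Finset.sum_congr rfl fun i _ => h1 i, Finset.sum_const, Finset.card_univ, hcard1,
      nsmul_eq_mul, Nat.cast_sub (by omega), hNK, Nat.cast_one]
    ring

/-- the word on the inverses of the elements of trace zero -/
theorem exists_wordB {K : Type} [Field K] [Finite K] {p s : ℕ} [Fact p.Prime] [CharP K p]
    (hp : 3 ≤ p) (hs : 2 ≤ s) (hK : Nat.card K = p ^ s) :
    ∃ (ι : Type) (_ : Fintype ι) (c x : ι → K), Fintype.card ι = p ^ (s - 1) - 1 ∧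
      Word p s (p ^ (s - 1) - 2) c x ∧ ∑ i, c i * x i ^ (p ^ (s - 1) - 2) = 1 :=
  exists_wordB_of hp hs hK (ndB hp hs hK)

end Pool.Agent.BCX4
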