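import Pool.Agent.BCX4.StepCore
import Pool.Agent.BCX4.WordA
import Pool.Agent.BCX4.WordB
import Pool.Agent.BCX4.Nd1
import Pool.Agent.BCX4.NdB

/-!
# The step `n → n + p`
-/

namespace Pool.Agent.BCX4

/-- ROW D10: the step -/
theorem GoodD.step {p s n : ℕ} [Fact p.Prime] {K : Type} [Field K] [Finite K] [CharP K p]
    (hK : Nat.card K = p ^ s) (hp : 3 ≤ p) (hs : 2 ≤ s) {A 𝕜 : Type} [Field A] [Algebra K A]
    [NontriviallyNormedField 𝕜] [CompleteSpace 𝕜] [IsUltrametricDist 𝕜] [Algebra K 𝕜]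
    [Algebra A 𝕜] [IsScalarTower K A 𝕜]
    (hA : ∀ x : 𝕜, IsSeparable A x → ∃ a : A, algebraMap A 𝕜 a = x)
    (hsmall : ∀ ε : ℝ, 0 < ε → ∃ β : A, β ≠ 0 ∧ ‖algebraMap A 𝕜 β‖ < ε)
    (hn : ¬ p ∣ n) (h : GoodD p s K A n) : GoodD p s K A (n + p) :=
  GoodD.step_of hK hp hs
    (exists_wordA_of (by omega) hK (by omega) fun _ hΓ hc => nd1 (by omega) hK hΓ hc)
    (exists_wordB_of hp hs hK (ndB hp hs hK)) hA hsmall hn h

end Pool.Agent.BCX4
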