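import Pool.Agent.BCX4.Defs

/-!
# The system of the step `n → n + p`: definitions
-/

namespace Pool.Agent.BCX4

open Polynomial

/-- the data of the step: three words with weights `c₀ c₁ c₂` and points `x₀ x₁ x₂`, the element `ν`,
and the columns of nonvanishing minors -/
structure Dat (p s n : ℕ) (K A ι₀ ι₁ ι₂ : Type) where
  c₀ : ι₀ → K
  c₁ : ι₁ → K
  c₂ : ι₂ → K
  x₀ : ι₀ → A
  x₁ : ι₁ → A
  x₂ : ι₂ → A
  ν : A
  J₀ : Lev p s (n * p ^ (s - 1)) → ι₀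
  J₁ : Lev p s ((p - 1) * p ^ (s - 1)) → ι₁
  J₂ : Lev p s (p ^ (s - 1) - 2) → ι₂

/-- the index type of the unknowns and of the equations; the five last ones are the scale of the
second word, the scale of the third word, the centre of the third word, the parameter and the new
element `u` -/
abbrev Idx (p s n : ℕ) : Type :=
  Lev p s (n * p ^ (s - 1)) ⊕ Lev p s ((p - 1) * p ^ (s - 1)) ⊕ Lev p s (p ^ (s - 1) - 2) ⊕ Fin 5

/-- the index of one of the five last unknowns -/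
abbrev iE {p s n : ℕ} (k : Fin 5) : Idx p s n := Sum.inr (Sum.inr (Sum.inr k))

open Classical in
/-- displacement of the points in the columns `J` -/
noncomputable def disp {Λ ι R : Type} [Fintype Λ] [CommRing R] (J : Λ → ι) (w : Λ → R) (i : ι) : R :=
  ∑ t, if J t = i then w t else 0

namespace Dat

variable {p s n : ℕ} {K A ι₀ ι₁ ι₂ : Type} [Field K] [Field A] [Algebra K A]
  [Fintype ι₀] [Fintype ι₁] [Fintype ι₂] (d : Dat p s n K A ι₀ ι₁ ι₂)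

/-- the hypotheses on the data -/
structure Ok : Prop where
  w₀ : Word p s (n * p ^ (s - 1)) d.c₀ d.x₀
  w₁ : Word p s ((p - 1) * p ^ (s - 1)) d.c₁ d.x₁
  w₂ : Word p s (p ^ (s - 1) - 2) d.c₂ d.x₂
  ne : d.ν ≠ 0
  top₀ : ∑ i, algebraMap K A (d.c₀ i) ^ p * d.x₀ i ^ n = - d.ν ^ ((p - 1) * (p ^ (s - 1) - 2))
  top₁ : ∑ i, algebraMap K A (d.c₁ i) ^ p * d.x₁ i ^ (p - 1) = 1
  top₂ : 2 * ∑ i, algebraMap K A (d.c₂ i) * d.x₂ i ^ (p ^ (s - 1) - 2) = (-1) ^ n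
  det₀ : (Matrix.of fun t t' => rows p s (n * p ^ (s - 1)) d.c₀ d.x₀ t (d.J₀ t')).det ≠ 0
  det₁ : (Matrix.of fun t t' => rows p s ((p - 1) * p ^ (s - 1)) d.c₁ d.x₁ t (d.J₁ t')).det ≠ 0
  det₂ : (Matrix.of fun t t' => rows p s (p ^ (s - 1) - 2) d.c₂ d.x₂ t (d.J₂ t')).det ≠ 0

section

variable {R : Type} [CommRing R] [Algebra K R] [Algebra A R] (v : Idx p s n → R)

/-- the coordinates of the points of the first word -/
noncomputable def X₀ (i : ι₀) : R :=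
  algebraMap A R (d.x₀ i) + disp d.J₀ (fun t => v (Sum.inl t)) i

/-- the coordinates of the points of the second word -/
noncomputable def X₁ (i : ι₁) : R :=
  algebraMap A R (d.x₁ i) + disp d.J₁ (fun t => v (Sum.inr (Sum.inl t))) i

/-- the coordinates of the points of the third word -/
noncomputable def X₂ (i : ι₂) : R :=
  algebraMap A R (d.x₂ i) + disp d.J₂ (fun t => v (Sum.inr (Sum.inr (Sum.inl t)))) i

/-- the points near `0` -/
noncomputable def z₀ (i : ι₀) : R := v (iE 3) ^ ((p - 1) * (p ^ (s - 1) - 2)) * d.X₀ v i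

/-- the points near `1` -/
noncomputable def z₁ (i : ι₁) : R :=
  1 + (v (iE 3) ^ n * algebraMap A R d.ν) ^ (p ^ (s - 1) - 2) * (v (iE 0) * d.X₁ v i)

/-- the points near the unknown centre -/
noncomputable def z₂ (i : ι₂) : R :=
  v (iE 2) + (v (iE 3) ^ n * algebraMap A R d.ν) ^ ((p - 1) * p ^ (s - 1)) * (v (iE 1) * d.X₂ v i)

/-- all points -/
noncomputable def z : ι₀ ⊕ ι₁ ⊕ ι₂ → R := Sum.elim (d.z₀ v) (Sum.elim (d.z₁ v) (d.z₂ v))

omit [Field K] [Field A] [Algebra K A] [Fintype ι₀] [Fintype ι₁] [Fintype ι₂] in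
/-- all weights -/
def c : ι₀ ⊕ ι₁ ⊕ ι₂ → K := Sum.elim d.c₀ (Sum.elim d.c₁ d.c₂)

/-- the sum of level `r` of the test polynomial `(a, b, k)` divided by the `e`-th power of the
parameter -/
noncomputable def Fg (r a b k e : ℕ) : R :=
  v (iE 3) ^ ((p - 1) * (p ^ (s - 1) - 2) * a - e) *
      ∑ i, algebraMap K R (d.c₀ i) ^ p ^ r *
        (d.X₀ v i ^ a * (d.z₀ v i - 1) ^ b * (d.z₀ v i - v (iE 2)) ^ k) +
    v (iE 3) ^ (n * (p ^ (s - 1) - 2) * b - e) * algebraMap A R d.ν ^ ((p ^ (s - 1) - 2) * b) *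
      ∑ i, algebraMap K R (d.c₁ i) ^ p ^ r *
        ((v (iE 0) * d.X₁ v i) ^ b * d.z₁ v i ^ a * (d.z₁ v i - v (iE 2)) ^ k) +
    v (iE 3) ^ (n * ((p - 1) * p ^ (s - 1)) * k - e) *
      algebraMap A R d.ν ^ ((p - 1) * p ^ (s - 1) * k) *
      ∑ i, algebraMap K R (d.c₂ i) ^ p ^ r *
        ((v (iE 1) * d.X₂ v i) ^ k * d.z₂ v i ^ a * (d.z₂ v i - 1) ^ b)

/-- the sum of level one of `X ^ n * (X - 1) ^ (p - 1)` divided by a power of the parameter -/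
noncomputable def Fs : R :=
  ∑ i, algebraMap K R (d.c₀ i) ^ p * (d.X₀ v i ^ n * (d.z₀ v i - 1) ^ (p - 1)) +
    algebraMap A R d.ν ^ ((p - 1) * (p ^ (s - 1) - 2)) *
      ∑ i, algebraMap K R (d.c₁ i) ^ p * ((v (iE 0) * d.X₁ v i) ^ (p - 1) * d.z₁ v i ^ n) +
    v (iE 3) ^ (2 * n * (p - 1)) * algebraMap A R d.ν ^ ((p - 1) * p ^ (s - 1)) *
      ∑ i, algebraMap K R (d.c₂ i) ^ p * ((v (iE 1) * d.X₂ v i) *
        (divX ((C (v (iE 2)) + X) ^ n * (C (v (iE 2) - 1) + X) ^ (p - 1))).eval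
          (d.z₂ v i - v (iE 2)))

/-- the system -/
noncomputable def F : Idx p s n → R
  | Sum.inl t => d.Fg v t.1.1 t.1.2 ((p - 1) * p ^ (t.1.1 - 1)) (p ^ (t.1.1 - 1))
      ((p - 1) * (p ^ (s - 1) - 2) * t.1.2)
  | Sum.inr (Sum.inl t) => d.Fg v t.1.1 (n * p ^ (t.1.1 - 1)) t.1.2 (p ^ (t.1.1 - 1))
      (n * (p ^ (s - 1) - 2) * t.1.2)
  | Sum.inr (Sum.inr (Sum.inl t)) =>
      d.Fg v t.1.1 (n * p ^ (t.1.1 - 1)) ((p - 1) * p ^ (t.1.1 - 1)) t.1.2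
      (n * ((p - 1) * p ^ (s - 1)) * t.1.2)
  | Sum.inr (Sum.inr (Sum.inr k)) =>
      match k with
      | 0 => d.Fs v
      | 1 => d.Fg v s (n * p ^ (s - 1)) ((p - 1) * p ^ (s - 1) + 1) (p ^ (s - 1) - 2)
          ((p - 1) * (p ^ (s - 1) - 2) * (n * p ^ (s - 1)))
      | 2 => d.Fg v s (n * p ^ (s - 1) + 1) ((p - 1) * p ^ (s - 1)) (p ^ (s - 1) - 2)
          ((p - 1) * (p ^ (s - 1) - 2) * (n * p ^ (s - 1)))
      | 3 => v (iE 3)
      | 4 => d.Fg v 1 n (p - 1) 1 ((p - 1) * (p ^ (s - 1) - 2) * n) -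
          algebraMap A R d.ν ^ ((p - 1) * (p ^ (s - 1) - 2)) *
            v (iE 4) ^ ((p - 1) * (p ^ (s - 1) - 2))

end

/-- the base point -/
def v0 (p s n : ℕ) (R : Type) [CommRing R] : Idx p s n → R
  | Sum.inl _ => 0
  | Sum.inr (Sum.inl _) => 0
  | Sum.inr (Sum.inr (Sum.inl _)) => 0
  | Sum.inr (Sum.inr (Sum.inr k)) =>
      match k with
      | 0 => 1
      | 1 => 1
      | 2 => -1
      | 3 => 0
      | 4 => 1

end Dat

end Pool.Agent.BCX4
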